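import Pool.Agent.W_5dd92e_pf.Fin1

/-! # The limit theorem up to the order of rows and columns -/

set_option autoImplicit false

open Finset Filter Topology TPB
open scoped Classical

namespace PF

universe u

variable {q : ℕ}

theorem limit_potts2 (d : ℕ) (hd : 1 ≤ d) (A : Matrix (Fin q) (Fin q) ℝ) (hA : A.IsSymm)
    (x y : Fin q → ℝ) (hx : ∀ k, 0 < x k) (hy : ∀ k, 0 ≤ y k) (o : Fin q)
    (hdom : ∀ k, y k = 0 ∨ (x k ≤ x o ∧ y k * x o ^ 2 ≤ y o * x k ^ 2))
    (ρ κ : Equiv.Perm (Fin q))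
    (hAxy : ∀ k l, A (ρ k) (κ l) = x k * x l + if k = l then y k else 0) (V : ℕ → Type u)
    [∀ n, Fintype (V n)] [∀ n, Nonempty (V n)] (G : ∀ n, SimpleGraph (V n))
    (hreg : ∀ n, (G n).IsRegularOfDegree d) (hbip : ∀ n, (G n).IsBipartite)
    (hgirth : Tendsto (fun n => (G n).egirth) atTop (𝓝 ⊤)) :
    Tendsto (fun n => Zpart (G n) A hA ^ (1 / (Fintype.card (V n) : ℝ))) atTop
      (𝓝 (NN d A ^ ((d : ℝ) / 2))) := by
  choose c hc using fun n => exists_col (G n) (hbip n)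
  have hP : (fun k l => A (ρ k) (κ l)) = Pm x y := by
    funext k l
    rw [hAxy k l]
    rfl
  have hNN : NN d A = NN d (Pm x y) := by
    rw [NN_perm d A ρ κ, hP]
  have hZ : ∀ n, Zpart (G n) A hA = Zpart (G n) (Pm x y) (pm_symm x y) := by
    intro n
    rw [Zpart_eq (G n) (c n) (hc n), Zpart_eq (G n) (c n) (hc n), ZB_perm (G n) (c n) (hc n) A ρ κ,
      hP]
  rw [hNN]
  simp_rw [hZ]
  exact limit_potts d hd x y hx hy o hdom V G hreg hbip hgirth

end PF
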