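import Pool.Agent.W_5dd92e_pf.Defs

/-! # The type of the edges -/

set_option autoImplicit false

open Finset TPB
open scoped Classical

namespace PF

variable {V : Type*} [Fintype V] {G : SimpleGraph V} {c : V → Bool}

theorem eg_mem (e : Eg G c) : (se G c e, te G c e) ∈ ed G c := Subtype.property e

theorem eg_adj (e : Eg G c) : G.Adj (se G c e) (te G c e) := by
  have h := eg_mem e
  unfold ed at h
  rw [mem_filter] at h
  exact h.2.1

theorem eg_col (e : Eg G c) : c (se G c e) = true := by
  have h := eg_mem e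
  unfold ed at h
  rw [mem_filter] at h
  exact h.2.2

theorem eg_ext {e e' : Eg G c} (h1 : se G c e = se G c e') (h2 : te G c e = te G c e') :
    e = e' := Subtype.ext (Prod.ext h1 h2)

/-- the edge given by a pair -/
def mkE (p : V × V) (hp : p ∈ ed G c) : Eg G c := ⟨p, hp⟩

theorem se_mkE (p : V × V) (hp : p ∈ ed G c) : se G c (mkE p hp) = p.1 := rfl

theorem te_mkE (p : V × V) (hp : p ∈ ed G c) : te G c (mkE p hp) = p.2 := rfl

theorem sum_eg {M : Type*} [AddCommMonoid M] (f : V × V → M) :
    ∑ e : Eg G c, f (se G c e, te G c e) = ∑ p ∈ ed G c, f p :=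
  Finset.sum_coe_sort (ed G c) f

theorem prod_eg {M : Type*} [CommMonoid M] (f : V × V → M) :
    ∏ e : Eg G c, f (se G c e, te G c e) = ∏ p ∈ ed G c, f p :=
  Finset.prod_coe_sort (ed G c) f

theorem card_eg : Fintype.card (Eg G c) = (ed G c).card := Fintype.card_coe (ed G c)

/-- `d` times the sum over the vertices -/
theorem sum_deg2 (hc : Prp G c) (d : ℕ) (hr : Rgl G d) (f : V → ℝ) :
    ∑ e : Eg G c, (f (se G c e) + f (te G c e)) = (d : ℝ) * ∑ v, f v := by
  rw [sum_deg G c hc d hr f]
  exact sum_eg (fun p => f p.1 + f p.2)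

theorem prod_deg2 (hc : Prp G c) (d : ℕ) (hr : Rgl G d) (f : V → ℝ) :
    ∏ e : Eg G c, (f (se G c e) * f (te G c e)) = ∏ v, f v ^ d := by
  rw [prod_deg G c hc d hr f]
  exact prod_eg (fun p => f p.1 * f p.2)

end PF
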