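import Pool.Agent.W_5dd92e_pf.CluB
import Pool.Agent.W_5dd92e_pf.Egs

/-! # Balls of edges -/

set_option autoImplicit false

open Finset TPB
open scoped Classical

namespace PF

variable {V : Type*} [Fintype V] (G : SimpleGraph V) (c : V → Bool)

theorem se_ne_te (hc : Prp G c) (e : Eg G c) : se G c e ≠ te G c e := by
  have _ := hc
  exact (eg_adj e).ne

theorem adj_e (e : Eg G c) : G.Adj (se G c e) (te G c e) := eg_adj e

/-- every edge of `G` is in the family -/
theorem exists_e (hc : Prp G c) (u v : V) (h : G.Adj u v) :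
    ∃ e : Eg G c, (se G c e = u ∧ te G c e = v) ∨ (se G c e = v ∧ te G c e = u) := by
  by_cases hu : c u = true
  · have hm : (u, v) ∈ ed G c := by
      unfold ed
      rw [mem_filter]
      exact ⟨mem_univ _, h, hu⟩
    exact ⟨mkE (u, v) hm, Or.inl ⟨rfl, rfl⟩⟩
  · have hv : c v = true := by
      have h1 := hc u v h
      cases h2 : c u
      · cases h3 : c v
        · rw [h2, h3] at h1
          exact absurd rfl h1
        · rfl
      · exact absurd h2 hu
    have hm : (v, u) ∈ ed G c := by
      unfold ed
      rw [mem_filter]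
      exact ⟨mem_univ _, h.symm, hv⟩
    exact ⟨mkE (v, u) hm, Or.inr ⟨rfl, rfl⟩⟩

/-- PROOF. induction on `r`, all `v` -/
theorem bb_succ (r : ℕ) (v : V) : BB G c r v ⊆ BB G c (r + 1) v := by
  induction r generalizing v with
  | zero =>
    intro e he
    exact absurd he (notMem_empty e)
  | succ r ih =>
    have h1 : BB G c (r + 1) v = univ.filter (fun e => se G c e = v ∨ te G c e = v) ∪
      (univ.filter (fun w => G.Adj v w)).biUnion (fun w => BB G c r w) := rfl
    have h2 : BB G c (r + 1 + 1) v = univ.filter (fun e => se G c e = v ∨ te G c e = v) ∪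
      (univ.filter (fun w => G.Adj v w)).biUnion (fun w => BB G c (r + 1) w) := rfl
    rw [h1, h2]
    exact union_subset_union (Subset.refl _) (biUnion_mono fun w _ => ih w)

theorem bb_mono {r r' : ℕ} (h : r ≤ r') (v : V) : BB G c r v ⊆ BB G c r' v := by
  induction r', h using Nat.le_induction with
  | base => exact Subset.refl _
  | succ n _ ih => exact ih.trans (bb_succ G c n v)

private theorem BallA_succ (r : ℕ) (v : V) (e : Eg G c) : e ∈ BB G c (r + 1) v ↔
    (se G c e = v ∨ te G c e = v) ∨ ∃ w, G.Adj v w ∧ e ∈ BB G c r w := by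
  have h1 : BB G c (r + 1) v = univ.filter (fun e => se G c e = v ∨ te G c e = v) ∪
      (univ.filter (fun w => G.Adj v w)).biUnion (fun w => BB G c r w) := rfl
  rw [h1, mem_union, mem_filter, mem_biUnion]
  simp only [mem_univ, true_and, mem_filter]

theorem bb_adj (r : ℕ) (v w : V) (h : G.Adj v w) : BB G c r w ⊆ BB G c (r + 1) v := by
  intro e he
  rw [BallA_succ]
  exact Or.inr ⟨w, h, he⟩

theorem mem_bb_one (e : Eg G c) (r : ℕ) :
    e ∈ BB G c (r + 1) (se G c e) ∧ e ∈ BB G c (r + 1) (te G c e) := by
  rw [BallA_succ, BallA_succ]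
  exact ⟨Or.inl (Or.inl rfl), Or.inl (Or.inr rfl)⟩

theorem nb_univ (L : ℕ) (hL : 1 ≤ L) : NB G c L univ = univ := by
  obtain ⟨r, rfl⟩ : ∃ r, L = r + 1 := ⟨L - 1, by omega⟩
  ext e
  unfold NB
  rw [mem_biUnion]
  exact ⟨fun _ => mem_univ _, fun _ => ⟨se G c e, mem_univ _, (mem_bb_one G c e r).1⟩⟩

/-- PROOF. `m (r + 1) = d m r + 2`: `{v : e ∈ BB (r + 1) v}` is contained in the two ends and the union of the neighbourhoods
of the `w` with `e ∈ BB r w`. -/
theorem bb_count (d : ℕ) (r : ℕ) : ∃ M : ℕ, ∀ (W : Type*) [Fintype W] (G : SimpleGraph W)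
    (c : W → Bool), Rgl G d → ∀ e : Eg G c,
      (univ.filter (fun v => e ∈ BB G c r v)).card ≤ M := by
  induction r with
  | zero =>
    refine ⟨0, ?_⟩
    intro W _ G c _ e
    rw [Nat.le_zero, card_eq_zero, filter_eq_empty_iff]
    intro v _ he
    exact absurd he (notMem_empty e)
  | succ r ih =>
    obtain ⟨M, hM⟩ := ih
    refine ⟨2 + M * d, ?_⟩
    intro W _ G c hr e
    have h1 : univ.filter (fun v => e ∈ BB G c (r + 1) v) ⊆
        {se G c e, te G c e} ∪ (univ.filter (fun w => e ∈ BB G c r w)).biUnion
          (fun w => univ.filter (fun v => G.Adj w v)) := by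
      intro v hv
      rw [mem_filter] at hv
      rw [mem_union, mem_biUnion]
      rcases (BallA_succ G c r v e).1 hv.2 with h2 | ⟨w, h2, h3⟩
      · left
        rw [mem_insert, mem_singleton]
        rcases h2 with h2 | h2
        · exact Or.inl h2.symm
        · exact Or.inr h2.symm
      · right
        exact ⟨w, mem_filter.2 ⟨mem_univ _, h3⟩, mem_filter.2 ⟨mem_univ _, h2.symm⟩⟩
    have h2 : ((univ.filter (fun w => e ∈ BB G c r w)).biUnion
          (fun w => univ.filter (fun v => G.Adj w v))).card ≤ M * d :=
      (card_biUnion_le_card_mul _ _ d fun w _ => (hr w).le).trans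
        (Nat.mul_le_mul_right d (hM W G c hr e))
    calc (univ.filter (fun v => e ∈ BB G c (r + 1) v)).card ≤ _ := card_le_card h1
      _ ≤ _ := card_union_le _ _
      _ ≤ 2 + M * d := Nat.add_le_add card_le_two h2

/-- PROOF. induction on `r`, all `v` -/
theorem bb_dist (r : ℕ) (v : V) (e : Eg G c) (he : e ∈ BB G c r v) :
    G.Reachable v (se G c e) ∧ G.dist v (se G c e) ≤ r := by
  induction r generalizing v with
  | zero => exact absurd he (notMem_empty e)
  | succ r ih =>
    rcases (BallA_succ G c r v e).1 he with (h1 | h1) | ⟨w, h1, h2⟩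
    · rw [h1]
      exact ⟨SimpleGraph.Reachable.refl _, by simp⟩
    · have h2 : G.Adj v (se G c e) := by
        rw [← h1]
        exact (eg_adj e).symm
      refine ⟨h2.reachable, ?_⟩
      have h3 := SimpleGraph.dist_le h2.toWalk
      rw [SimpleGraph.Walk.length_cons, SimpleGraph.Walk.length_nil] at h3
      omega
    · obtain ⟨h3, h4⟩ := ih w h2
      obtain ⟨q, hq⟩ := h3.exists_walk_length_eq_dist
      refine ⟨h1.reachable.trans h3, ?_⟩
      have h5 := SimpleGraph.dist_le (SimpleGraph.Walk.cons h1 q)
      rw [SimpleGraph.Walk.length_cons, hq] at h5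
      omega

/-- PROOF. a component of `S` with `v` and `w` contains a path of `G` from `v` to `w`, hence at least `dist + 1` vertices
(the vertices at `G`-distance `0, 1, .., dist` from `v`); `bb_dist` and the triangle inequality for the disjointness. -/
theorem far_of_Pr (L R : ℕ) (h : 2 * L ≤ R) (p : V × V) (hp : p ∈ Pr G R) :
    Far G c L p.1 p.2 := by
  obtain ⟨v, w⟩ := p
  unfold Pr at hp
  rw [mem_filter] at hp
  obtain ⟨-, hreach, hd1, -⟩ := hp
  simp only at hreach hd1 ⊢
  have hstep : ∀ x y : V, G.Reachable v x → G.Adj x y → G.dist v y ≤ G.dist v x + 1 := by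
    intro x y hx hxy
    obtain ⟨q, hq⟩ := hx.exists_walk_length_eq_dist
    have h1 := SimpleGraph.dist_le (q.concat hxy)
    rw [SimpleGraph.Walk.length_concat, hq] at h1
    exact h1
  refine ⟨?_, ?_⟩
  · rw [disjoint_left]
    intro e he1 he2
    obtain ⟨h1, h2⟩ := bb_dist G c L v e he1
    obtain ⟨h3, h4⟩ := bb_dist G c L w e he2
    obtain ⟨q1, hq1⟩ := h1.exists_walk_length_eq_dist
    obtain ⟨q2, hq2⟩ := h3.exists_walk_length_eq_dist
    have h5 := SimpleGraph.dist_le (q1.append q2.reverse)
    rw [SimpleGraph.Walk.length_append, SimpleGraph.Walk.length_reverse, hq1, hq2] at h5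
    omega
  · intro S hS
    have hR : ∀ x, Con (se G c) (te G c) S v x → G.Reachable v x := by
      intro x hx
      have h1 := con_closed (s := se G c) (t := te G c) (S := S) {y | G.Reachable v y}
        (fun i _ => ⟨fun h2 => h2.trans (eg_adj i).reachable,
          fun h2 => h2.trans (eg_adj i).symm.reachable⟩) hx
      exact h1.1 (SimpleGraph.Reachable.refl _)
    have hall : ∀ j ≤ G.dist v w, ∃ x ∈ cl (se G c) (te G c) S v, G.dist v x = j := by
      intro j hj
      by_contra hno
      push Not at hno
      have hno' : ∀ x, Con (se G c) (te G c) S v x → G.dist v x ≠ j := fun x hx =>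
        hno x (mem_cl.2 hx)
      have hj0 : 0 < j := by
        rcases Nat.eq_zero_or_pos j with h0 | h0
        · exfalso
          exact hno' v (con_refl S v) (by rw [h0]; simp)
        · exact h0
      have h1 := con_closed (s := se G c) (t := te G c) (S := S)
        {y | Con (se G c) (te G c) S v y ∧ G.dist v y < j} (fun i hi => by
          have hc1 : Con (se G c) (te G c) S (se G c i) (te G c i) := con_edge hi
          constructor
          · rintro ⟨h2, h3⟩
            have h4 := con_trans h2 hc1
            refine ⟨h4, ?_⟩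
            have h5 := hstep _ _ (hR _ h2) (eg_adj i)
            have h6 := hno' _ h4
            omega
          · rintro ⟨h2, h3⟩
            have h4 := con_trans h2 (con_symm hc1)
            refine ⟨h4, ?_⟩
            have h5 := hstep _ _ (hR _ h2) (eg_adj i).symm
            have h6 := hno' _ h4
            omega) hS
      have h2 : v ∈ {y | Con (se G c) (te G c) S v y ∧ G.dist v y < j} :=
        ⟨con_refl S v, by simpa using hj0⟩
      have h3 := (h1.1 h2).2
      omega
    have hsub : range (G.dist v w + 1) ⊆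
        (cl (se G c) (te G c) S v).image (fun x => G.dist v x) := by
      intro j hj
      rw [mem_range] at hj
      obtain ⟨x, hx, hxj⟩ := hall j (by omega)
      exact mem_image.2 ⟨x, hx, hxj⟩
    have h1 := (card_le_card hsub).trans card_image_le
    rw [card_range] at h1
    omega

end PF
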