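import Pool.Agent.W_5dd92e_pf.BallA

/-! # Separation and locality -/

set_option autoImplicit false

open Finset TPB
open scoped Classical

namespace PF

variable {V : Type*} [Fintype V] (G : SimpleGraph V) (c : V → Bool)

theorem BallB_mem_succ {r : ℕ} {v : V} {e : Eg G c} : e ∈ BB G c (r + 1) v ↔
    (se G c e = v ∨ te G c e = v) ∨ ∃ w, G.Adj v w ∧ e ∈ BB G c r w := by
  rw [BB, mem_union, mem_filter, mem_biUnion]
  constructor
  · rintro (h | ⟨w, hw, h⟩)
    · exact Or.inl h.2
    · exact Or.inr ⟨w, (mem_filter.1 hw).2, h⟩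
  · rintro (h | ⟨w, hw, h⟩)
    · exact Or.inl ⟨mem_univ _, h⟩
    · exact Or.inr ⟨w, mem_filter.2 ⟨mem_univ _, hw⟩, h⟩

theorem BallB_in (Q C : Finset V) (hQ : ∀ w ∈ Q, ∀ w', G.Adj w w' → w' ∈ Q ∪ C)
    (e : Eg G c) : ∀ (r : ℕ) (q : V), q ∈ Q → e ∈ BB G c r q →
      e ∈ NB G c r C ∨ (se G c e ∈ Q ∧ te G c e ∈ Q) := by
  intro r
  induction r with
  | zero =>
    intro q _ h
    rw [BB] at h
    exact absurd h (notMem_empty _)
  | succ r ih =>
    intro q hq h
    rcases (BallB_mem_succ G c).1 h with (h | h) | ⟨w, hw, h⟩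
    · rw [← h] at hq
      rcases mem_union.1 (hQ _ hq _ (adj_e G c e)) with h' | h'
      · exact Or.inr ⟨hq, h'⟩
      · exact Or.inl (mem_biUnion.2 ⟨_, h', (mem_bb_one G c e r).2⟩)
    · rw [← h] at hq
      rcases mem_union.1 (hQ _ hq _ (adj_e G c e).symm) with h' | h'
      · exact Or.inr ⟨h', hq⟩
      · exact Or.inl (mem_biUnion.2 ⟨_, h', (mem_bb_one G c e r).1⟩)
    · rcases mem_union.1 (hQ _ hq _ hw) with h' | h'
      · rcases ih w h' h with h2 | h2
        · rw [NB, mem_biUnion] at h2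
          obtain ⟨z, hz, h3⟩ := h2
          exact Or.inl (mem_biUnion.2 ⟨z, hz, bb_succ G c r z h3⟩)
        · exact Or.inr h2
      · exact Or.inl (mem_biUnion.2 ⟨w, h', bb_succ G c r w h⟩)

theorem BallB_out (Q C : Finset V) (hQ : ∀ w ∈ Q, ∀ w', G.Adj w w' → w' ∈ Q ∪ C)
    (e : Eg G c) : ∀ (r : ℕ) (x : V), x ∉ Q → e ∈ BB G c r x →
      e ∈ NB G c r C ∨ ¬ (se G c e ∈ Q ∧ te G c e ∈ Q) := by
  intro r
  induction r with
  | zero =>
    intro q _ h
    rw [BB] at h
    exact absurd h (notMem_empty _)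
  | succ r ih =>
    intro x hx h
    rcases (BallB_mem_succ G c).1 h with (h1 | h1) | ⟨w, hw, h1⟩
    · refine Or.inr fun h2 => hx ?_
      rw [← h1]
      exact h2.1
    · refine Or.inr fun h2 => hx ?_
      rw [← h1]
      exact h2.2
    · by_cases hwQ : w ∈ Q
      · rcases mem_union.1 (hQ _ hwQ _ hw.symm) with h' | h'
        · exact absurd h' hx
        · exact Or.inl (mem_biUnion.2 ⟨x, h', h⟩)
      · rcases ih w hwQ h1 with h2 | h2
        · rw [NB, mem_biUnion] at h2
          obtain ⟨z, hz, h3⟩ := h2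
          exact Or.inl (mem_biUnion.2 ⟨z, hz, bb_succ G c r z h3⟩)
        · exact Or.inr h2

/-- the vertices reached from `v` by at most `r` edges of `S` -/
noncomputable def BallB_lay (S : Finset (Eg G c)) (v : V) : ℕ → Finset V
  | 0 => {v}
  | r + 1 => BallB_lay S v r ∪ univ.filter (fun w => ∃ i ∈ S,
      (se G c i = w ∧ te G c i ∈ BallB_lay S v r) ∨ (te G c i = w ∧ se G c i ∈ BallB_lay S v r))

theorem BallB_lay_zero (S : Finset (Eg G c)) (v : V) : BallB_lay G c S v 0 = {v} := by
  rw [BallB_lay]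

theorem BallB_mem_lay {S : Finset (Eg G c)} {v w : V} {r : ℕ} :
    w ∈ BallB_lay G c S v (r + 1) ↔ w ∈ BallB_lay G c S v r ∨ ∃ i ∈ S,
      (se G c i = w ∧ te G c i ∈ BallB_lay G c S v r) ∨
        (te G c i = w ∧ se G c i ∈ BallB_lay G c S v r) := by
  rw [BallB_lay, mem_union, mem_filter]
  constructor
  · rintro (h | h)
    · exact Or.inl h
    · exact Or.inr h.2
  · rintro (h | h)
    · exact Or.inl h
    · exact Or.inr ⟨mem_univ _, h⟩

theorem BallB_lay_succ (S : Finset (Eg G c)) (v : V) (r : ℕ) :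
    BallB_lay G c S v r ⊆ BallB_lay G c S v (r + 1) := fun _ h =>
  (BallB_mem_lay G c).2 (Or.inl h)

theorem BallB_self_mem (S : Finset (Eg G c)) (v : V) (r : ℕ) : v ∈ BallB_lay G c S v r := by
  induction r with
  | zero =>
    rw [BallB_lay_zero]
    exact mem_singleton_self v
  | succ r ih => exact BallB_lay_succ G c S v r ih

theorem BallB_lay_sub (S : Finset (Eg G c)) (v : V) (r : ℕ) :
    BallB_lay G c S v r ⊆ cl (se G c) (te G c) S v := by
  induction r with
  | zero =>
    rw [BallB_lay_zero]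
    intro w hw
    rw [mem_singleton] at hw
    rw [hw]
    exact self_mem_cl S v
  | succ r ih =>
    intro w hw
    rw [mem_cl]
    rcases (BallB_mem_lay G c).1 hw with h | ⟨i, hi, ⟨h1, h2⟩ | ⟨h1, h2⟩⟩
    · exact mem_cl.1 (ih h)
    · rw [← h1]
      exact con_trans (mem_cl.1 (ih h2)) (con_symm (con_edge hi))
    · rw [← h1]
      exact con_trans (mem_cl.1 (ih h2)) (con_edge hi)

theorem BallB_lay_stop {S : Finset (Eg G c)} {v : V} {r : ℕ}
    (h : BallB_lay G c S v (r + 1) = BallB_lay G c S v r) :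
    BallB_lay G c S v r = cl (se G c) (te G c) S v := by
  refine Subset.antisymm (BallB_lay_sub G c S v r) fun b hb => ?_
  have h1 := con_closed (s := se G c) (t := te G c) (S := S)
    (A := {w | w ∈ BallB_lay G c S v r}) (fun i hi => by
      constructor
      · intro h2
        have h3 : te G c i ∈ BallB_lay G c S v (r + 1) :=
          (BallB_mem_lay G c).2 (Or.inr ⟨i, hi, Or.inr ⟨rfl, h2⟩⟩)
        rw [h] at h3
        exact h3
      · intro h2
        have h3 : se G c i ∈ BallB_lay G c S v (r + 1) :=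
          (BallB_mem_lay G c).2 (Or.inr ⟨i, hi, Or.inl ⟨rfl, h2⟩⟩)
        rw [h] at h3
        exact h3) (mem_cl.1 hb)
  exact h1.1 (BallB_self_mem G c S v r)

theorem BallB_lay_card (S : Finset (Eg G c)) (v : V) (r : ℕ) :
    BallB_lay G c S v r = cl (se G c) (te G c) S v ∨ r + 1 ≤ (BallB_lay G c S v r).card := by
  induction r with
  | zero =>
    right
    rw [BallB_lay_zero, card_singleton]
  | succ r ih =>
    rcases ih with h | h
    · left
      refine Subset.antisymm (BallB_lay_sub G c S v (r + 1)) ?_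
      rw [← h]
      exact BallB_lay_succ G c S v r
    · by_cases h1 : BallB_lay G c S v (r + 1) = BallB_lay G c S v r
      · left
        rw [h1]
        exact BallB_lay_stop G c h1
      · right
        have h2 : (BallB_lay G c S v r).card < (BallB_lay G c S v (r + 1)).card := by
          refine card_lt_card ((ssubset_iff_subset_ne).2 ⟨BallB_lay_succ G c S v r, fun h3 => ?_⟩)
          exact h1 h3.symm
        omega

theorem BallB_lay_bb (S : Finset (Eg G c)) (v : V) (r : ℕ) : ∀ w ∈ BallB_lay G c S v r,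
    ∀ k, BB G c k w ⊆ BB G c (k + r) v := by
  induction r with
  | zero =>
    intro w hw k
    rw [BallB_lay_zero, mem_singleton] at hw
    rw [hw, add_zero]
  | succ r ih =>
    intro w hw k
    rcases (BallB_mem_lay G c).1 hw with h | ⟨i, hi, ⟨h1, h2⟩ | ⟨h1, h2⟩⟩
    · exact (ih w h k).trans (bb_succ G c (k + r) v)
    · have h3 := bb_adj G c k _ _ (adj_e G c i).symm
      rw [h1] at h3
      refine h3.trans ?_
      have h4 := ih _ h2 (k + 1)
      rwa [show k + 1 + r = k + (r + 1) by ring] at h4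
    · have h3 := bb_adj G c k _ _ (adj_e G c i)
      rw [h1] at h3
      refine h3.trans ?_
      have h4 := ih _ h2 (k + 1)
      rwa [show k + 1 + r = k + (r + 1) by ring] at h4

theorem BallB_loc (L : ℕ) (v : V) (S S' : Finset (Eg G c))
    (h : ∀ e ∈ BB G c L v, e ∈ S ↔ e ∈ S') (hL : (cl (se G c) (te G c) S v).card ≤ L) :
    cl (se G c) (te G c) S v = cl (se G c) (te G c) S' v := by
  have hpos := cl_card_pos (s := se G c) (t := te G c) S v
  obtain ⟨m, rfl⟩ : ∃ m, L = m + 1 := ⟨L - 1, by omega⟩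
  have hlay : BallB_lay G c S v m = cl (se G c) (te G c) S v := by
    rcases BallB_lay_card G c S v m with h1 | h1
    · exact h1
    · exact eq_of_subset_of_card_le (BallB_lay_sub G c S v m) (by omega)
  -- every edge with an end in the component is in the ball
  have hend : ∀ w ∈ cl (se G c) (te G c) S v, BB G c 1 w ⊆ BB G c (m + 1) v := by
    intro w hw
    rw [← hlay] at hw
    have h1 := BallB_lay_bb G c S v m w hw 1
    rwa [add_comm 1 m] at h1
  have hs : ∀ i : Eg G c, se G c i ∈ cl (se G c) (te G c) S v → (i ∈ S ↔ i ∈ S') := fun i hi =>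
    h i (hend _ hi (mem_bb_one G c i 0).1)
  have ht : ∀ i : Eg G c, te G c i ∈ cl (se G c) (te G c) S v → (i ∈ S ↔ i ∈ S') := fun i hi =>
    h i (hend _ hi (mem_bb_one G c i 0).2)
  refine Subset.antisymm ?_ ?_
  · intro b hb
    rw [mem_cl] at hb ⊢
    have h1 := con_closed (s := se G c) (t := te G c) (S := S)
      (A := {w | Con (se G c) (te G c) S v w ∧ Con (se G c) (te G c) S' v w}) (fun i hi => by
        constructor
        · rintro ⟨h2, h3⟩
          exact ⟨con_trans h2 (con_edge hi),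
            con_trans h3 (con_edge ((hs i (mem_cl.2 h2)).1 hi))⟩
        · rintro ⟨h2, h3⟩
          exact ⟨con_trans h2 (con_symm (con_edge hi)),
            con_trans h3 (con_symm (con_edge ((ht i (mem_cl.2 h2)).1 hi)))⟩) hb
    exact (h1.1 ⟨con_refl S v, con_refl S' v⟩).2
  · intro b hb
    rw [mem_cl] at hb ⊢
    have h1 := con_closed (s := se G c) (t := te G c) (S := S')
      (A := {w | Con (se G c) (te G c) S v w}) (fun i hi => by
        constructor
        · intro h2
          exact con_trans h2 (con_edge ((hs i (mem_cl.2 h2)).2 hi))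
        · intro h2
          exact con_trans h2 (con_symm (con_edge ((ht i (mem_cl.2 h2)).2 hi)))) hb
    exact h1.1 (con_refl S v)

/-- SEPARATION.  `Q` has no neighbours outside `Q ∪ C`.  PROOF. (1) induction on `r`: if `e ∈ BB r q`, `q ∈ Q`, then
`e ∈ NB r C` or both ends of `e` are in `Q` (`e` at `q`: the other end is in `Q` or in `C`; `e ∈ BB r w`, `w` a neighbour of
`q`: `w ∈ C` or induction).  (2) induction on `r`: if `e ∈ BB r x`, `x ∉ Q`, then `e ∈ NB r C` or one end of `e` is not in
`Q` (if the neighbour `w` of `x` is in `Q` then `x ∈ C`). -/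
theorem bb_sep (Q C : Finset V) (hQ : ∀ w ∈ Q, ∀ w', G.Adj w w' → w' ∈ Q ∪ C) (r : ℕ)
    (q x : V) (hq : q ∈ Q) (hx : x ∉ Q) (e : Eg G c) (h1 : e ∈ BB G c r q)
    (h2 : e ∈ BB G c r x) : e ∈ NB G c r C := by
  rcases BallB_in G c Q C hQ e r q hq h1 with h | h
  · exact h
  · rcases BallB_out G c Q C hQ e r x hx h2 with h' | h'
    · exact h'
    · exact absurd h h'

/-- LOCALITY.  PROOF. It is enough: if `(cl S v).card ≤ L` then `cl S' v = cl S v`.  Let `A 0 = {v}`,
`A (r + 1) = A r ∪ (the ends of the edges of S with an end in A r)`; `A r ⊆ cl S v`; if `A (r + 1) = A r` then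
`A r = cl S v` (`con_closed`), so `A (L - 1) = cl S v`.  Every edge of the family with an end in `A r` is in
`BB (r + 1) v` (induction: `bb_adj`, `mem_bb_one`).  So every edge with an end in `cl S v` is in `BB L v`, hence is in `S` iff
it is in `S'`; `cl S v` is closed under the edges of `S'` (`con_closed`) and connected by edges of `S ∩ BB L v ⊆ S'`. -/
theorem loc (L : ℕ) (v : V) (S S' : Finset (Eg G c)) (h : ∀ e ∈ BB G c L v, e ∈ S ↔ e ∈ S') :
    cl (se G c) (te G c) S v = cl (se G c) (te G c) S' v ∨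
      (L < (cl (se G c) (te G c) S v).card ∧ L < (cl (se G c) (te G c) S' v).card) := by
  by_cases h1 : (cl (se G c) (te G c) S v).card ≤ L
  · exact Or.inl (BallB_loc G c L v S S' h h1)
  by_cases h2 : (cl (se G c) (te G c) S' v).card ≤ L
  · exact Or.inl (BallB_loc G c L v S' S (fun e he => (h e he).symm) h2).symm
  exact Or.inr ⟨not_le.1 h1, not_le.1 h2⟩

end PF
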