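import Pool.Agent.W_5dd92e_pf.Defs

/-! # Entropy: images, kernels, restrictions -/

set_option autoImplicit false

open Finset TPB
open scoped Classical

namespace PF

variable {Ω : Type*} [Fintype Ω] {Ω' : Type*} [Fintype Ω'] {γ δ : Type*}

theorem sum_map (P : Ω → ℝ) (φ : Ω → Ω') (P' : Ω' → ℝ) (h : ∀ y, P' y = prf P φ y)
    (g : Ω' → ℝ) : ∑ ω, P ω * g (φ ω) = ∑ y, P' y * g y := by
  rw [← Finset.sum_fiberwise_of_maps_to (s := (univ : Finset Ω)) (t := (univ : Finset Ω'))
    (g := φ) (fun _ _ => mem_univ _)]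
  refine Finset.sum_congr rfl fun y _ => ?_
  rw [h y, prf, Finset.sum_mul]
  refine Finset.sum_congr rfl fun ω hω => ?_
  rw [(mem_filter.mp hω).2]

private theorem entG_prf (P : Ω → ℝ) (φ : Ω → Ω') (P' : Ω' → ℝ) (h : ∀ y, P' y = prf P φ y)
    (g : Ω' → γ) (z : γ) : prf P (fun ω => g (φ ω)) z = prf P' g z := by
  have h1 := sum_map P φ P' h (fun y => if g y = z then 1 else 0)
  rw [prf, prf, Finset.sum_filter, Finset.sum_filter]
  calc ∑ a, (if g (φ a) = z then P a else 0) = ∑ ω, P ω * (if g (φ ω) = z then 1 else 0) :=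
        Finset.sum_congr rfl fun ω _ => by split_ifs <;> simp
    _ = ∑ y, P' y * (if g y = z then 1 else 0) := h1
    _ = ∑ a, (if g a = z then P' a else 0) :=
        Finset.sum_congr rfl fun ω _ => by split_ifs <;> simp

/-- the entropy of a function of `φ` computed with the law `P'` of `φ` -/
theorem ent_map (P : Ω → ℝ) (φ : Ω → Ω') (P' : Ω' → ℝ) (h : ∀ y, P' y = prf P φ y)
    (g : Ω' → γ) : Ent P (fun ω => g (φ ω)) = Ent P' g := by
  unfold Ent
  rw [← sum_map P φ P' h (fun y => Real.log (prf P' g (g y)))]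
  congr 1
  refine Finset.sum_congr rfl fun ω _ => ?_
  rw [entG_prf P φ P' h g]

/-- PROOF. `prf (f, y) = prf μ f (f ω) * κ ω y`; `log` of the product where it is positive. -/
theorem ent_kernel [Fintype γ] (μ : Ω → ℝ) (hμ : ∀ ω, 0 ≤ μ ω) (κ : Ω → γ → ℝ)
    (h0 : ∀ ω y, 0 ≤ κ ω y) (h1 : ∀ ω, ∑ y, κ ω y = 1) (f : Ω → δ)
    (hκ : ∀ ω ω', f ω = f ω' → κ ω = κ ω') :
    Ent (fun p : Ω × γ => μ p.1 * κ p.1 p.2) (fun p => (f p.1, p.2)) =
      Ent μ f + ∑ ω, μ ω * (-∑ y, κ ω y * Real.log (κ ω y)) := by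
  have hprf : ∀ (ω : Ω) (y : γ), prf (fun p : Ω × γ => μ p.1 * κ p.1 p.2)
      (fun p => (f p.1, p.2)) (f ω, y) = prf μ f (f ω) * κ ω y := by
    intro ω y
    rw [prf, prf, Finset.sum_filter, Finset.sum_filter, Fintype.sum_prod_type, Finset.sum_mul]
    refine Finset.sum_congr rfl fun ω' _ => ?_
    by_cases hf : f ω' = f ω
    · have hs : ∀ y', (if (f ω', y') = (f ω, y) then μ ω' * κ ω' y' else 0) =
          (if y' = y then μ ω' * κ ω' y' else 0) := by
        intro y'
        by_cases hy : y' = y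
        · rw [if_pos (by rw [hf, hy]), if_pos hy]
        · rw [if_neg (fun hh => hy (Prod.mk.inj hh).2), if_neg hy]
      simp only [hs]
      rw [Finset.sum_ite_eq' univ y (fun y' => μ ω' * κ ω' y'), if_pos (mem_univ _), if_pos hf,
        hκ _ _ hf]
    · rw [if_neg hf, zero_mul]
      refine Finset.sum_eq_zero fun y' _ => ?_
      rw [if_neg (fun hh => hf (Prod.mk.inj hh).1)]
  unfold Ent
  rw [Fintype.sum_prod_type]
  have hterm : ∀ ω : Ω, ∑ y, μ ω * κ ω y * Real.log (prf (fun p : Ω × γ => μ p.1 * κ p.1 p.2)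
      (fun p => (f p.1, p.2)) (f ω, y)) =
      μ ω * Real.log (prf μ f (f ω)) + μ ω * ∑ y, κ ω y * Real.log (κ ω y) := by
    intro ω
    have hs : ∀ y, μ ω * κ ω y * Real.log (prf (fun p : Ω × γ => μ p.1 * κ p.1 p.2)
        (fun p => (f p.1, p.2)) (f ω, y)) =
        μ ω * Real.log (prf μ f (f ω)) * κ ω y + μ ω * (κ ω y * Real.log (κ ω y)) := by
      intro y
      rw [hprf]
      rcases (hμ ω).eq_or_lt with hm | hm
      · rw [← hm]; ring
      rcases (h0 ω y).eq_or_lt with hk | hk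
      · rw [← hk]; ring
      · have hp : 0 < prf μ f (f ω) := by
          refine lt_of_lt_of_le hm ?_
          exact Finset.single_le_sum (f := μ) (fun i _ => hμ i)
            (mem_filter.mpr ⟨mem_univ ω, rfl⟩)
        rw [Real.log_mul hp.ne' hk.ne']
        ring
    rw [Finset.sum_congr rfl fun y _ => hs y, Finset.sum_add_distrib, ← Finset.mul_sum, h1,
      mul_one, ← Finset.mul_sum]
  rw [Finset.sum_congr rfl fun ω _ => hterm ω, Finset.sum_add_distrib]
  have hneg : ∑ ω, μ ω * (-∑ y, κ ω y * Real.log (κ ω y)) =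
      -∑ ω, μ ω * ∑ y, κ ω y * Real.log (κ ω y) := by
    rw [← Finset.sum_neg_distrib]
    refine Finset.sum_congr rfl fun ω _ => by ring
  rw [hneg]
  ring

theorem res_eq_iff {ι : Type*} (D : Finset ι) (σ τ : ι → Fin 2) :
    res D σ = res D τ ↔ ∀ i ∈ D, σ i = τ i := by
  constructor
  · intro h i hi
    have := congrFun h i
    simp only [res, if_pos hi] at this
    exact this
  · intro h
    funext i
    unfold res
    split_ifs with hi
    · exact h i hi
    · rfl

/-- PROOF. `res_eq_iff`: the fibre of `res D` is the cylinder. -/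
theorem ent_res {ι : Type*} [Fintype ι] (μ : (ι → Fin 2) → ℝ) (D : Finset ι) :
    Ent μ (res D) = Hs μ D := by
  unfold Ent Hs
  congr 1
  refine Finset.sum_congr rfl fun τ _ => ?_
  have : prf μ (res D) (res D τ) = mg μ D τ := by
    unfold prf mg cyl
    refine Finset.sum_congr ?_ fun _ _ => rfl
    ext σ
    simp only [mem_filter, mem_univ, true_and]
    exact res_eq_iff D σ τ
  rw [this]

end PF
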