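import Pool.Agent.W_5dd92e_pf.Rat

/-! # The Gibbs measure of the open edges -/

set_option autoImplicit false

open Finset TPB
open scoped Classical

namespace PF

variable {ι W : Type*} [Fintype ι] [Fintype W] {s t : ι → W} {F : ℕ → ℝ}

private theorem mu_fin (a : Fin 2) : a = 0 ∨ a = 1 := by
  rcases a with ⟨a, ha⟩
  interval_cases a
  · exact Or.inl rfl
  · exact Or.inr rfl

theorem op_inf (σ τ : ι → Fin 2) : op (σ ⊓ τ) = op σ ∩ op τ := by
  ext i
  simp only [op, mem_filter, mem_univ, true_and, mem_inter, Pi.inf_apply]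
  rcases mu_fin (σ i) with h | h <;> rcases mu_fin (τ i) with h' | h' <;> rw [h, h'] <;> decide

theorem op_sup (σ τ : ι → Fin 2) : op (σ ⊔ τ) = op σ ∪ op τ := by
  ext i
  simp only [op, mem_filter, mem_univ, true_and, mem_union, Pi.sup_apply]
  rcases mu_fin (σ i) with h | h <;> rcases mu_fin (τ i) with h' | h' <;> rw [h, h'] <;> decide

theorem mem_op (σ : ι → Fin 2) (i : ι) : i ∈ op σ ↔ σ i = 1 := by
  simp only [op, mem_filter, mem_univ, true_and]

/-- sums over sets are sums over configurations -/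
theorem sum_op (f : Finset ι → ℝ) : ∑ S : Finset ι, f S = ∑ σ : ι → Fin 2, f (op σ) := by
  symm
  refine Finset.sum_nbij' (fun σ => op σ) (fun S i => if i ∈ S then (1 : Fin 2) else 0)
    (fun σ _ => mem_univ _) (fun S _ => mem_univ _) ?_ ?_ (fun σ _ => rfl)
  · intro σ _
    funext i
    show (if i ∈ op σ then (1 : Fin 2) else 0) = σ i
    rcases mu_fin (σ i) with h | h
    · rw [if_neg (fun hi => by rw [mem_op, h] at hi; exact absurd hi (by decide)), h]
    · rw [if_pos ((mem_op σ i).2 h), h]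
  · intro S _
    ext i
    rw [mem_op]
    show (if i ∈ S then (1 : Fin 2) else 0) = 1 ↔ i ∈ S
    by_cases hi : i ∈ S
    · rw [if_pos hi]
      exact ⟨fun _ => hi, fun _ => rfl⟩
    · rw [if_neg hi]
      exact ⟨fun h => absurd h (by decide), fun h => absurd h hi⟩

theorem xx_op (σ : ι → Fin 2) : XX σ = (op σ).card := by
  unfold XX op
  rw [Finset.card_filter, Nat.cast_sum]
  refine Finset.sum_congr rfl (fun i _ => ?_)
  rcases mu_fin (σ i) with h | h <;> rw [h] <;> simp

theorem ww_pos (hF : Adm F) (ε : ℝ) (hε : 0 < ε) (σ : ι → Fin 2) : 0 < ww s t F ε σ :=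
  mul_pos (pow_pos hε _) (phi_pos hF _)

/-- PROOF. `phi_lsf`, `op_inf`, `op_sup`, `|S| + |T| = |S ∩ T| + |S ∪ T|` -/
theorem ww_lsm (hF : Adm F) (ε : ℝ) (hε : 0 < ε) : LSM (ww s t F ε) := by
  intro σ τ
  unfold ww
  rw [op_inf, op_sup]
  have h1 := phi_lsf (s := s) (t := t) hF (op σ) (op τ)
  have h2 : ε ^ (op σ).card * ε ^ (op τ).card =
      ε ^ (op σ ∩ op τ).card * ε ^ (op σ ∪ op τ).card := by
    rw [← pow_add, ← pow_add, Finset.card_inter_add_card_union]
  calc ε ^ (op σ).card * Phi s t F (op σ) * (ε ^ (op τ).card * Phi s t F (op τ))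
      = (ε ^ (op σ).card * ε ^ (op τ).card) * (Phi s t F (op σ) * Phi s t F (op τ)) := by ring
    _ ≤ (ε ^ (op σ).card * ε ^ (op τ).card) *
        (Phi s t F (op σ ∩ op τ) * Phi s t F (op σ ∪ op τ)) :=
      mul_le_mul_of_nonneg_left h1 (by positivity)
    _ = _ := by rw [h2]; ring

theorem sum_ww (ε : ℝ) : ∑ σ, ww s t F ε σ = Zt s t F ε := by
  unfold Zt ww
  rw [sum_op (fun S => ε ^ S.card * Phi s t F S)]

private theorem mu_upd1 (σ : ι → Fin 2) (i : ι) :
    op (Function.update σ i 1) = insert i (op σ) := by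
  ext j
  rw [mem_op, mem_insert, mem_op]
  by_cases hj : j = i
  · subst hj
    rw [Function.update_self]
    exact ⟨fun _ => Or.inl rfl, fun _ => rfl⟩
  · rw [Function.update_of_ne hj]
    exact ⟨fun h => Or.inr h, fun h => h.resolve_left hj⟩

private theorem mu_step (hF : Adm F) (ε : ℝ) (hε : 0 < ε) (σ : ι → Fin 2) (i : ι) (a : Fin 2) :
    min 1 (min ε ε⁻¹) / F 1 ^ 2 * ww s t F ε σ ≤ ww s t F ε (Function.update σ i a) := by
  have hF1 : 1 ≤ F 1 := hF.one 1 le_rfl
  have hF2 : 1 ≤ F 1 ^ 2 := one_le_pow₀ hF1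
  have hF2' : 0 < F 1 ^ 2 := by linarith
  have hm0 : 0 < min 1 (min ε ε⁻¹) := lt_min one_pos (lt_min hε (inv_pos.2 hε))
  have hm1 : min 1 (min ε ε⁻¹) / F 1 ^ 2 ≤ min 1 (min ε ε⁻¹) := div_le_self hm0.le hF2
  have hme : min 1 (min ε ε⁻¹) ≤ ε := (min_le_right _ _).trans (min_le_left _ _)
  have hmi : min 1 (min ε ε⁻¹) ≤ ε⁻¹ := (min_le_right _ _).trans (min_le_right _ _)
  have hm2 : min 1 (min ε ε⁻¹) ≤ 1 := min_le_left _ _
  by_cases hσ : σ i = a
  · have h1 : Function.update σ i a = σ := by rw [← hσ, Function.update_eq_self]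
    rw [h1]
    have h2 := ww_pos (s := s) (t := t) hF ε hε σ
    have h3 : min 1 (min ε ε⁻¹) / F 1 ^ 2 ≤ 1 := hm1.trans hm2
    nlinarith
  · rcases mu_fin a with ha | ha
    · -- the new value is 0, the old one is 1
      have h1 : σ i = 1 := by
        rcases mu_fin (σ i) with h | h
        · exact absurd (h.trans ha.symm) hσ
        · exact h
      subst ha
      set τ : ι → Fin 2 := Function.update σ i 0 with hτ
      have h2 : σ = Function.update τ i 1 := by
        rw [hτ, Function.update_idem, ← h1, Function.update_eq_self]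
      have h3 : op σ = insert i (op τ) := by
        conv_lhs => rw [h2]
        exact mu_upd1 τ i
      have h4 : i ∉ op τ := by
        rw [mem_op, hτ, Function.update_self]
        decide
      have hp := phi_pos (s := s) (t := t) hF (op τ)
      have hr := rat_le_one (s := s) (t := t) hF (op τ) i
      unfold ww
      rw [h3, Finset.card_insert_of_notMem h4, phi_insert hF, pow_succ]
      have hr0 : 0 < rat s t F (op τ) i :=
        lt_of_lt_of_le (by positivity) (rat_low (s := s) (t := t) hF (op τ) i)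
      have hc : 0 < ε ^ (op τ).card := pow_pos hε _
      have h5 : min 1 (min ε ε⁻¹) / F 1 ^ 2 * ε * rat s t F (op τ) i ≤ 1 := by
        have h6 : min 1 (min ε ε⁻¹) / F 1 ^ 2 * ε ≤ 1 := by
          calc min 1 (min ε ε⁻¹) / F 1 ^ 2 * ε ≤ ε⁻¹ * ε :=
                mul_le_mul_of_nonneg_right (hm1.trans hmi) hε.le
            _ = 1 := inv_mul_cancel₀ hε.ne'
        calc min 1 (min ε ε⁻¹) / F 1 ^ 2 * ε * rat s t F (op τ) i
            ≤ 1 * 1 := mul_le_mul h6 hr hr0.le one_pos.le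
          _ = 1 := one_mul 1
      calc min 1 (min ε ε⁻¹) / F 1 ^ 2 *
            (ε ^ (op τ).card * ε * (Phi s t F (op τ) * rat s t F (op τ) i))
          = (min 1 (min ε ε⁻¹) / F 1 ^ 2 * ε * rat s t F (op τ) i) *
            (ε ^ (op τ).card * Phi s t F (op τ)) := by ring
        _ ≤ 1 * (ε ^ (op τ).card * Phi s t F (op τ)) :=
          mul_le_mul_of_nonneg_right h5 (by positivity)
        _ = _ := one_mul _
    · subst ha
      have h4 : i ∉ op σ := by
        rw [mem_op]
        exact hσ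
      have hp := phi_pos (s := s) (t := t) hF (op σ)
      have hr := rat_low (s := s) (t := t) hF (op σ) i
      unfold ww
      rw [mu_upd1, Finset.card_insert_of_notMem h4, phi_insert hF, pow_succ]
      have hc : 0 < ε ^ (op σ).card := pow_pos hε _
      calc min 1 (min ε ε⁻¹) / F 1 ^ 2 * (ε ^ (op σ).card * Phi s t F (op σ))
          = min 1 (min ε ε⁻¹) * (1 / F 1 ^ 2) * (ε ^ (op σ).card * Phi s t F (op σ)) := by ring
        _ ≤ ε * rat s t F (op σ) i * (ε ^ (op σ).card * Phi s t F (op σ)) := by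
          refine mul_le_mul_of_nonneg_right ?_ (by positivity)
          exact mul_le_mul hme hr (by positivity) hε.le
        _ = _ := by ring

/-- PROOF. changing `σ` at one site changes `ww` by a factor at least `m = min 1 ε ε⁻¹ / F 1 ^ 2` (`phi_insert`, `rat_low`,
`rat_le_one`) and `exp (h XX)` by at least `exp (- 2 δ)` (`TPB.GibA_XX`); then `TPB.GibA_sum` for the function
`F σ = ww σ exp (h XX σ)` as in `TPB.ssb` (`W_5dd92e_h55/GibA.lean`). -/
theorem ssb_w {F : ℕ → ℝ} (hF : Adm F) (ε : ℝ) (hε : 0 < ε) (δ : ℝ) (hδ : 0 ≤ δ) :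
    ∃ c0 : ℝ, 0 < c0 ∧ ∀ (ι W : Type*) [Fintype ι] [Fintype W] (s t : ι → W) (h : ℝ),
      0 ≤ h → h ≤ δ → SSB (muh (ww s t F ε) h) c0 := by
  have hF1 : 1 ≤ F 1 := hF.one 1 le_rfl
  have hm0 : 0 < min 1 (min ε ε⁻¹) := lt_min one_pos (lt_min hε (inv_pos.2 hε))
  set m : ℝ := min 1 (min ε ε⁻¹) / F 1 ^ 2 with hm
  have hmp : 0 < m := by positivity
  refine ⟨m * Real.exp (-(δ * 2)) / 2, by positivity, ?_⟩
  intro ι W _ _ s t h h0 hδ' S w τ hw
  have hwt : ∀ σ : ι → Fin 2, 0 < ww s t F ε σ := fun σ => ww_pos hF ε hε σ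
  have hZ : 0 ≤ Zh (ww s t F ε) h :=
    Finset.sum_nonneg fun σ _ => mul_nonneg (hwt σ).le (Real.exp_pos _).le
  have hmu : ∀ σ : ι → Fin 2, 0 ≤ muh (ww s t F ε) h σ := fun σ =>
    div_nonneg (mul_nonneg (hwt σ).le (Real.exp_pos _).le) hZ
  have key : ∀ (σ : ι → Fin 2) (i : Fin 2), m * Real.exp (-(δ * 2)) * muh (ww s t F ε) h σ ≤
      muh (ww s t F ε) h (Function.update σ w i) := by
    intro σ i
    unfold muh
    rw [← mul_div_assoc]
    refine div_le_div_of_nonneg_right ?_ hZ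
    have e1 := mu_step (s := s) (t := t) hF ε hε σ w i
    have e2 : Real.exp (-(δ * 2)) * Real.exp (h * XX σ) ≤
        Real.exp (h * XX (Function.update σ w i)) := by
      rw [← Real.exp_add]
      apply Real.exp_le_exp.2
      have := GibA_XX w σ i
      push_cast at this
      nlinarith
    calc m * Real.exp (-(δ * 2)) * (ww s t F ε σ * Real.exp (h * XX σ))
        = (m * ww s t F ε σ) * (Real.exp (-(δ * 2)) * Real.exp (h * XX σ)) := by ring
      _ ≤ _ := mul_le_mul e1 e2 (by positivity) (hwt _).le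
  have h1 : m * Real.exp (-(δ * 2)) * mg (muh (ww s t F ε) h) S τ ≤
      2 * mg (muh (ww s t F ε) h) (insert w S) τ := by
    unfold mg
    rw [Finset.mul_sum]
    have h2 := GibA_sum _ hmu S w hw τ
    push_cast at h2
    exact (Finset.sum_le_sum fun σ _ => key σ (τ w)).trans h2
  linarith

/-- PROOF. `mg μ T τ ≤ mg μ S τ` -/
theorem hs_mono {μ : (ι → Fin 2) → ℝ} (hμ : PW μ) {S T : Finset ι} (h : S ⊆ T) :
    Hs μ S ≤ Hs μ T := by
  unfold Hs
  rw [neg_le_neg_iff]
  refine Finset.sum_le_sum (fun τ _ => ?_)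
  refine mul_le_mul_of_nonneg_left ?_ (hμ.1 τ).le
  refine Real.log_le_log (mg_pos hμ T τ) ?_
  unfold mg
  refine Finset.sum_le_sum_of_subset_of_nonneg ?_ (fun σ _ _ => (hμ.1 σ).le)
  intro σ hσ
  simp only [cyl, mem_filter, mem_univ, true_and] at hσ ⊢
  exact fun v hv => hσ v (h hv)

end PF
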