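import Pool.Agent.W_5dd92e_pf.EntF
import Pool.Agent.W_5dd92e_pf.EntG
import Pool.Agent.W_5dd92e_pf.BallA
import Pool.Agent.W_5dd92e_pf.Mu

/-! # The chain inequality, local steps -/

set_option autoImplicit false

open Finset TPB
open scoped Classical

namespace PF

variable {V : Type*} [Fintype V] {q : ℕ} (G : SimpleGraph V) (c : V → Bool)

/-- the measures are probability measures; `Pe2` has the marginals `Pv1` (if `e` is open, both ends have the same
component) -/
theorem pe2_prob (K : ℕ → Fin q → ℝ) (hK0 : ∀ n k, 0 ≤ K n k) (hK1 : ∀ n, ∑ k, K n k = 1)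
    (μ : (Eg G c → Fin 2) → ℝ) (hμ : PW μ) (e : Eg G c) :
    (∀ ω, 0 ≤ Pe2 (se G c) (te G c) K μ e ω) ∧ ∑ ω, Pe2 (se G c) (te G c) K μ e ω = 1 := by
  constructor
  · intro ω
    unfold Pe2
    apply mul_nonneg (hμ.pos _).le
    split_ifs
    · exact hK0 _ _
    · exact le_refl _
    · exact mul_nonneg (hK0 _ _) (hK0 _ _)
  · unfold Pe2
    rw [Fintype.sum_prod_type]
    rw [← hμ.sum]
    apply Finset.sum_congr rfl
    intro σ _
    dsimp only
    rw [← Finset.mul_sum]
    have h1 : ∑ x : Fin q × Fin q, (if e ∈ op σ then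
        (if x.1 = x.2 then K (cl (se G c) (te G c) (op σ) (se G c e)).card x.1 else 0)
        else K (cl (se G c) (te G c) (op σ) (se G c e)).card x.1 *
          K (cl (se G c) (te G c) (op σ) (te G c e)).card x.2) = 1 := by
      rw [Fintype.sum_prod_type]
      by_cases he : e ∈ op σ
      · simp only [he, if_true]
        simp only [Finset.sum_ite_eq, Finset.mem_univ, if_true]
        exact hK1 _
      · simp only [he, if_false]
        simp only [← Finset.mul_sum, hK1, mul_one]
    rw [h1, mul_one]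

theorem pv1_prob (K : ℕ → Fin q → ℝ) (hK0 : ∀ n k, 0 ≤ K n k) (hK1 : ∀ n, ∑ k, K n k = 1)
    (μ : (Eg G c → Fin 2) → ℝ) (hμ : PW μ) (v : V) :
    (∀ ω, 0 ≤ Pv1 (se G c) (te G c) K μ v ω) ∧ ∑ ω, Pv1 (se G c) (te G c) K μ v ω = 1 := by
  constructor
  · intro ω
    unfold Pv1
    exact mul_nonneg (hμ.pos _).le (hK0 _ _)
  · unfold Pv1
    rw [Fintype.sum_prod_type]
    rw [← hμ.sum]
    apply Finset.sum_congr rfl
    intro σ _
    dsimp only
    rw [← Finset.mul_sum, hK1, mul_one]

theorem pe2_left (K : ℕ → Fin q → ℝ) (hK1 : ∀ n, ∑ k, K n k = 1)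
    (μ : (Eg G c → Fin 2) → ℝ) (e : Eg G c) (y : (Eg G c → Fin 2) × Fin q) :
    Pv1 (se G c) (te G c) K μ (se G c e) y =
      prf (Pe2 (se G c) (te G c) K μ e) (fun ω => (ω.1, ω.2.1)) y := by
  obtain ⟨σ, k⟩ := y
  unfold prf
  rw [Finset.sum_filter, Fintype.sum_prod_type]
  rw [Finset.sum_eq_single σ]
  · rw [Fintype.sum_prod_type, Finset.sum_eq_single k]
    · simp only [if_true]
      unfold Pv1 Pe2
      dsimp only
      rw [← Finset.mul_sum]
      congr 1
      by_cases he : e ∈ op σ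
      · simp only [he, if_true]
        simp only [Finset.sum_ite_eq, Finset.mem_univ, if_true]
      · simp only [he, if_false]
        rw [← Finset.mul_sum, hK1, mul_one]
    · intro k' _ hk'
      apply Finset.sum_eq_zero
      intro l _
      rw [if_neg]
      intro h
      exact hk' (congrArg Prod.snd h)
    · intro h
      exact absurd (Finset.mem_univ _) h
  · intro σ' _ hσ'
    apply Finset.sum_eq_zero
    intro x _
    rw [if_neg]
    intro h
    exact hσ' (congrArg Prod.fst h)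
  · intro h
    exact absurd (Finset.mem_univ _) h

theorem pe2_right (K : ℕ → Fin q → ℝ) (hK1 : ∀ n, ∑ k, K n k = 1)
    (μ : (Eg G c → Fin 2) → ℝ) (e : Eg G c) (y : (Eg G c → Fin 2) × Fin q) :
    Pv1 (se G c) (te G c) K μ (te G c e) y =
      prf (Pe2 (se G c) (te G c) K μ e) (fun ω => (ω.1, ω.2.2)) y := by
  obtain ⟨σ, k⟩ := y
  unfold prf
  rw [Finset.sum_filter, Fintype.sum_prod_type]
  rw [Finset.sum_eq_single σ]
  · rw [Fintype.sum_prod_type, Finset.sum_comm, Finset.sum_eq_single k]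
    · simp only [if_true]
      unfold Pv1 Pe2
      dsimp only
      rw [← Finset.mul_sum]
      congr 1
      by_cases he : e ∈ op σ
      · simp only [he, if_true]
        simp only [Finset.sum_ite_eq', Finset.mem_univ, if_true]
        rw [cl_eq (con_edge he)]
      · simp only [he, if_false]
        rw [← Finset.sum_mul, hK1, one_mul]
    · intro k' _ hk'
      apply Finset.sum_eq_zero
      intro l _
      rw [if_neg]
      intro h
      exact hk' (congrArg Prod.snd h)
    · intro h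
      exact absurd (Finset.mem_univ _) h
  · intro σ' _ hσ'
    apply Finset.sum_eq_zero
    intro x _
    rw [if_neg]
    intro h
    exact hσ' (congrArg Prod.fst h)
  · intro h
    exact absurd (Finset.mem_univ _) h

theorem ChnA_left (K : ℕ → Fin q → ℝ) (hK1 : ∀ n, ∑ k, K n k = 1)
    (μ : (Eg G c → Fin 2) → ℝ) (e : Eg G c) (D : Finset (Eg G c)) :
    VD (se G c) (te G c) K μ D (se G c e) =
      Ent (Pe2 (se G c) (te G c) K μ e) (fun ω => (res D ω.1, ω.2.1)) := by
  unfold VD
  exact (ent_map (Pe2 (se G c) (te G c) K μ e) (fun ω => (ω.1, ω.2.1))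
    (Pv1 (se G c) (te G c) K μ (se G c e)) (pe2_left G c K hK1 μ e)
    (fun ω => (res D ω.1, ω.2))).symm

theorem ChnA_right (K : ℕ → Fin q → ℝ) (hK1 : ∀ n, ∑ k, K n k = 1)
    (μ : (Eg G c → Fin 2) → ℝ) (e : Eg G c) (D : Finset (Eg G c)) :
    VD (se G c) (te G c) K μ D (te G c e) =
      Ent (Pe2 (se G c) (te G c) K μ e) (fun ω => (res D ω.1, ω.2.2)) := by
  unfold VD
  exact (ent_map (Pe2 (se G c) (te G c) K μ e) (fun ω => (ω.1, ω.2.2))
    (Pv1 (se G c) (te G c) K μ (te G c e)) (pe2_right G c K hK1 μ e)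
    (fun ω => (res D ω.1, ω.2))).symm

theorem ChnA_res {ι : Type*} {D D' : Finset ι} (h : D ⊆ D') {σ τ : ι → Fin 2}
    (hs : res D' σ = res D' τ) : res D σ = res D τ := by
  rw [res_eq_iff] at hs ⊢
  exact fun i hi => hs i (h hi)

theorem ChnA_union {ι : Type*} {D D' D'' : Finset ι} (h : D'' ⊆ D ∪ D') {σ τ : ι → Fin 2}
    (hs : res D σ = res D τ) (hs' : res D' σ = res D' τ) : res D'' σ = res D'' τ := by
  rw [res_eq_iff] at hs hs' ⊢
  intro i hi
  rcases Finset.mem_union.1 (h hi) with h1 | h1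
  · exact hs i h1
  · exact hs' i h1

theorem ChnA_sub_left (r : ℕ) (e : Eg G c) : DD G c r e ⊆ BB G c (r + 1) (se G c e) := by
  unfold DD
  intro x hx
  rcases Finset.mem_insert.1 hx with h | h
  · rw [h]
    exact (mem_bb_one G c e r).1
  · rcases Finset.mem_union.1 h with h | h
    · exact bb_succ G c r _ h
    · exact bb_adj G c r _ _ (adj_e G c e) h

theorem ChnA_sub_right (r : ℕ) (e : Eg G c) : DD G c r e ⊆ BB G c (r + 1) (te G c e) := by
  unfold DD
  intro x hx
  rcases Finset.mem_insert.1 hx with h | h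
  · rw [h]
    exact (mem_bb_one G c e r).2
  · rcases Finset.mem_union.1 h with h | h
    · exact bb_adj G c r _ _ (adj_e G c e).symm h
    · exact bb_succ G c r _ h

/-- PROOF (proofs row 563, (3.3)).  Let `u = s e`, `v = t e`, `D = DD r e`; `D ⊆ BB (r + 1) u` and `D ⊆ BB (r + 1) v`
(`bb_succ`, `bb_adj`, `mem_bb_one`).  On `Pe2` (`ent_map` with `pe2_left`, `pe2_right` for the one-vertex entropies) apply
`ent_sub` twice: `Ent (BB (r+1) u, k, l) + Ent (D, k) ≤ Ent (D, k, l) + Ent (BB (r+1) u, k)` and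
`Ent (DD (r+1) e, k, l) + Ent (D, l) ≤ Ent (BB (r+1) u, k, l) + Ent (BB (r+1) v, l)`
(`DD (r+1) e = BB (r+1) u ∪ BB (r+1) v`; equality of restrictions by `res_eq_iff`). -/
theorem chn_edge (hc : Prp G c) (K : ℕ → Fin q → ℝ) (hK0 : ∀ n k, 0 ≤ K n k)
    (hK1 : ∀ n, ∑ k, K n k = 1) (μ : (Eg G c → Fin 2) → ℝ) (hμ : PW μ) (r : ℕ) (e : Eg G c) :
    EE (se G c) (te G c) K μ (DD G c (r + 1) e) e ≤ EE (se G c) (te G c) K μ (DD G c r e) e +
      (VD (se G c) (te G c) K μ (BB G c (r + 1) (se G c e)) (se G c e) -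
        VD (se G c) (te G c) K μ (DD G c r e) (se G c e)) +
      (VD (se G c) (te G c) K μ (BB G c (r + 1) (te G c e)) (te G c e) -
        VD (se G c) (te G c) K μ (DD G c r e) (te G c e)) := by
  obtain ⟨hP0, hP1⟩ := pe2_prob G c K hK0 hK1 μ hμ e
  have hl := ChnA_sub_left G c r e
  have hr := ChnA_sub_right G c r e
  have hD : DD G c (r + 1) e ⊆ BB G c (r + 1) (se G c e) ∪ BB G c (r + 1) (te G c e) := by
    unfold DD
    intro x hx
    rcases Finset.mem_insert.1 hx with h | h
    · rw [h]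
      exact Finset.mem_union_left _ (mem_bb_one G c e r).1
    · exact h
  have h1 := ent_sub hP0 hP1 (fun ω => (res (BB G c (r + 1) (se G c e)) ω.1, ω.2.1, ω.2.2))
    (fun ω => (res (DD G c r e) ω.1, ω.2.1))
    (fun ω => (res (DD G c r e) ω.1, ω.2.1, ω.2.2))
    (fun ω => (res (BB G c (r + 1) (se G c e)) ω.1, ω.2.1))
    (by
      intro ω ω' hF hG
      simp only [Prod.mk.injEq] at hF hG ⊢
      exact ⟨hG.1, hF.2.1, hF.2.2⟩)
    (by
      intro ω ω' hF
      simp only [Prod.mk.injEq] at hF ⊢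
      exact ⟨hF.1, hF.2.1⟩)
    (by
      intro ω ω' hG
      simp only [Prod.mk.injEq] at hG ⊢
      exact ⟨ChnA_res hl hG.1, hG.2⟩)
  have h2 := ent_sub hP0 hP1 (fun ω => (res (DD G c (r + 1) e) ω.1, ω.2.1, ω.2.2))
    (fun ω => (res (DD G c r e) ω.1, ω.2.2))
    (fun ω => (res (BB G c (r + 1) (se G c e)) ω.1, ω.2.1, ω.2.2))
    (fun ω => (res (BB G c (r + 1) (te G c e)) ω.1, ω.2.2))
    (by
      intro ω ω' hF hG
      simp only [Prod.mk.injEq] at hF hG ⊢
      exact ⟨ChnA_union hD hF.1 hG.1, hF.2.1, hF.2.2⟩)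
    (by
      intro ω ω' hF
      simp only [Prod.mk.injEq] at hF ⊢
      exact ⟨ChnA_res hl hF.1, hF.2.2⟩)
    (by
      intro ω ω' hG
      simp only [Prod.mk.injEq] at hG ⊢
      exact ⟨ChnA_res hr hG.1, hG.2⟩)
  rw [ChnA_left G c K hK1 μ e, ChnA_left G c K hK1 μ e, ChnA_right G c K hK1 μ e,
    ChnA_right G c K hK1 μ e]
  unfold EE
  linarith

theorem ChnA_card (hc : Prp G c) (d : ℕ) (hr : Rgl G d) (v : V) :
    ((univ.filter (fun e : Eg G c => se G c e = v ∨ te G c e = v)).card : ℝ) = d := by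
  have h := sum_deg2 (G := G) (c := c) hc d hr (fun w => if w = v then (1 : ℝ) else 0)
  rw [Finset.sum_ite_eq' univ v (fun _ => (1 : ℝ)), if_pos (Finset.mem_univ v), mul_one] at h
  rw [← h, Finset.card_eq_sum_ones, Nat.cast_sum, Finset.sum_filter]
  apply Finset.sum_congr rfl
  intro e _
  have hne := se_ne_te G c hc e
  by_cases h1 : se G c e = v
  · have h2 : ¬ te G c e = v := by
      intro h2
      exact hne (h1.trans h2.symm)
    simp [h1, h2]
  · by_cases h2 : te G c e = v
    · simp [h1, h2]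
    · simp [h1, h2]

theorem ChnA_ind (K : ℕ → Fin q → ℝ) (hK0 : ∀ n k, 0 ≤ K n k) (hK1 : ∀ n, ∑ k, K n k = 1)
    (μ : (Eg G c → Fin 2) → ℝ) (hμ : PW μ) (r : ℕ) (v : V) (T : Finset (Eg G c)) :
    (∀ e ∈ T, se G c e = v ∨ te G c e = v) →
    VD (se G c) (te G c) K μ (BB G c r v ∪ T.biUnion (DD G c r)) v -
      VD (se G c) (te G c) K μ (BB G c r v) v ≤
      ∑ e ∈ T, (VD (se G c) (te G c) K μ (DD G c r e) v -
        VD (se G c) (te G c) K μ (BB G c r v) v) := by
  induction T using Finset.induction_on with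
  | empty => intro _; simp
  | insert e T he ih =>
    intro hT
    have ih' := ih (fun e' he' => hT e' (Finset.mem_insert_of_mem he'))
    rw [Finset.sum_insert he]
    obtain ⟨hP0, hP1⟩ := pv1_prob G c K hK0 hK1 μ hμ v
    have hsub : BB G c r v ⊆ DD G c r e := by
      unfold DD
      intro x hx
      apply Finset.mem_insert_of_mem
      rcases hT e (Finset.mem_insert_self _ _) with h | h
      · rw [h]
        exact Finset.mem_union_left _ hx
      · rw [h]
        exact Finset.mem_union_right _ hx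
    have h1 := ent_sub hP0 hP1
      (fun ω => (res (BB G c r v ∪ (insert e T).biUnion (DD G c r)) ω.1, ω.2))
      (fun ω => (res (BB G c r v) ω.1, ω.2))
      (fun ω => (res (BB G c r v ∪ T.biUnion (DD G c r)) ω.1, ω.2))
      (fun ω => (res (DD G c r e) ω.1, ω.2))
      (by
        intro ω ω' hF hG
        simp only [Prod.mk.injEq] at hF hG ⊢
        refine ⟨ChnA_union ?_ hF.1 hG.1, hF.2⟩
        rw [Finset.biUnion_insert]
        intro x hx
        simp only [Finset.mem_union] at hx ⊢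
        tauto)
      (by
        intro ω ω' hF
        simp only [Prod.mk.injEq] at hF ⊢
        exact ⟨ChnA_res Finset.subset_union_left hF.1, hF.2⟩)
      (by
        intro ω ω' hG
        simp only [Prod.mk.injEq] at hG ⊢
        exact ⟨ChnA_res hsub hG.1, hG.2⟩)
    unfold VD at ih' ⊢
    linarith

theorem ChnA_all (hc : Prp G c) (r : ℕ) (v : V) :
    BB G c r v ∪ (univ.filter (fun e : Eg G c => se G c e = v ∨ te G c e = v)).biUnion
      (DD G c r) = BB G c (r + 1) v := by
  apply Finset.Subset.antisymm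
  · intro x hx
    rcases Finset.mem_union.1 hx with h | h
    · exact bb_succ G c r v h
    · rw [Finset.mem_biUnion] at h
      obtain ⟨e, he, hx'⟩ := h
      rw [Finset.mem_filter] at he
      rcases he.2 with h | h
      · rw [← h]
        exact ChnA_sub_left G c r e hx'
      · rw [← h]
        exact ChnA_sub_right G c r e hx'
  · intro x hx
    have hx2 : x ∈ univ.filter (fun e : Eg G c => se G c e = v ∨ te G c e = v) ∪
      (univ.filter (fun w => G.Adj v w)).biUnion (fun w => BB G c r w) := hx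
    rcases Finset.mem_union.1 hx2 with h | h
    · apply Finset.mem_union_right
      rw [Finset.mem_biUnion]
      exact ⟨x, h, Finset.mem_insert_self _ _⟩
    · rw [Finset.mem_biUnion] at h
      obtain ⟨w, hw, hxw⟩ := h
      rw [Finset.mem_filter] at hw
      obtain ⟨e, he⟩ := exists_e G c hc v w hw.2
      apply Finset.mem_union_right
      rw [Finset.mem_biUnion]
      rcases he with ⟨h1, h2⟩ | ⟨h1, h2⟩
      · refine ⟨e, Finset.mem_filter.2 ⟨Finset.mem_univ _, Or.inl h1⟩, ?_⟩
        unfold DD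
        rw [h2]
        exact Finset.mem_insert_of_mem (Finset.mem_union_right _ hxw)
      · refine ⟨e, Finset.mem_filter.2 ⟨Finset.mem_univ _, Or.inr h2⟩, ?_⟩
        unfold DD
        rw [h1]
        exact Finset.mem_insert_of_mem (Finset.mem_union_left _ hxw)

/-- PROOF.  Conditional subadditivity: for a set `T` of edges at `v`,
`VD (BB r v ∪ ⋃_{e ∈ T} DD r e) - VD (BB r v) ≤ ∑_{e ∈ T} (VD (DD r e) - VD (BB r v))` by induction with `ent_sub`
(`I` = `(BB r v, k)`; `BB r v ⊆ DD r e`).  For `T` = all `d` edges at `v`: `BB r v ∪ ⋃ DD r e = BB (r + 1) v` (`bb_succ`). -/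
theorem chn_vert (hc : Prp G c) (d : ℕ) (hd : 1 ≤ d) (hr : Rgl G d) (K : ℕ → Fin q → ℝ)
    (hK0 : ∀ n k, 0 ≤ K n k) (hK1 : ∀ n, ∑ k, K n k = 1) (μ : (Eg G c → Fin 2) → ℝ)
    (hμ : PW μ) (r : ℕ) (v : V) :
    ∑ e ∈ univ.filter (fun e : Eg G c => se G c e = v ∨ te G c e = v),
        (VD (se G c) (te G c) K μ (BB G c (r + 1) v) v -
          VD (se G c) (te G c) K μ (DD G c r e) v) ≤
      ((d : ℝ) - 1) * (VD (se G c) (te G c) K μ (BB G c (r + 1) v) v -
        VD (se G c) (te G c) K μ (BB G c r v) v) := by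
  have h := ChnA_ind G c K hK0 hK1 μ hμ r v
    (univ.filter (fun e : Eg G c => se G c e = v ∨ te G c e = v))
    (fun e he => (Finset.mem_filter.1 he).2)
  rw [ChnA_all G c hc r v] at h
  rw [Finset.sum_sub_distrib, Finset.sum_const, nsmul_eq_mul, ChnA_card G c hc d hr v] at h ⊢
  linarith

end PF
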