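import Pool.Agent.W_5dd92e_pf.ChnA

/-! # The chain inequality -/

set_option autoImplicit false

open Finset TPB
open scoped Classical

namespace PF

variable {V : Type*} [Fintype V] {q : ℕ} (G : SimpleGraph V) (c : V → Bool)

private theorem ChnB_swap (hc : Prp G c) (A : V → Eg G c → ℝ) :
    ∑ e : Eg G c, (A (se G c e) e + A (te G c e) e) =
      ∑ v, ∑ e ∈ univ.filter (fun e : Eg G c => se G c e = v ∨ te G c e = v), A v e := by
  have h1 : ∀ v, ∑ e ∈ univ.filter (fun e : Eg G c => se G c e = v ∨ te G c e = v), A v e =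
      ∑ e : Eg G c, if se G c e = v ∨ te G c e = v then A v e else 0 := by
    intro v
    rw [Finset.sum_filter]
  simp only [h1]
  rw [Finset.sum_comm]
  apply Finset.sum_congr rfl
  intro e _
  have hne := se_ne_te G c hc e
  have h2 : ∀ v, (if se G c e = v ∨ te G c e = v then A v e else 0) =
      (if se G c e = v then A v e else 0) + (if te G c e = v then A v e else 0) := by
    intro v
    by_cases h3 : se G c e = v
    · have h4 : ¬ te G c e = v := fun h4 => hne (h3.trans h4.symm)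
      rw [if_pos (Or.inl h3), if_pos h3, if_neg h4, add_zero]
    · by_cases h4 : te G c e = v
      · rw [if_pos (Or.inr h4), if_neg h3, if_pos h4, zero_add]
      · rw [if_neg (by tauto), if_neg h3, if_neg h4, add_zero]
  simp only [h2]
  rw [Finset.sum_add_distrib, Finset.sum_ite_eq, Finset.sum_ite_eq, if_pos (mem_univ _),
    if_pos (mem_univ _)]

/-- PROOF. sum `chn_edge` over the edges; the one-vertex terms are sums over the pairs (vertex, edge at the vertex)
(`se e ≠ te e`), bounded by `chn_vert`. -/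
theorem chn_step (hc : Prp G c) (d : ℕ) (hd : 1 ≤ d) (hr : Rgl G d) (K : ℕ → Fin q → ℝ)
    (hK0 : ∀ n k, 0 ≤ K n k) (hK1 : ∀ n, ∑ k, K n k = 1) (μ : (Eg G c → Fin 2) → ℝ)
    (hμ : PW μ) (r : ℕ) :
    ∑ e, EE (se G c) (te G c) K μ (DD G c (r + 1) e) e -
        ((d : ℝ) - 1) * ∑ v, VD (se G c) (te G c) K μ (BB G c (r + 1) v) v ≤
      ∑ e, EE (se G c) (te G c) K μ (DD G c r e) e -
        ((d : ℝ) - 1) * ∑ v, VD (se G c) (te G c) K μ (BB G c r v) v := by
  have h1 : ∑ e, EE (se G c) (te G c) K μ (DD G c (r + 1) e) e ≤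
      ∑ e, (EE (se G c) (te G c) K μ (DD G c r e) e +
        ((VD (se G c) (te G c) K μ (BB G c (r + 1) (se G c e)) (se G c e) -
          VD (se G c) (te G c) K μ (DD G c r e) (se G c e)) +
        (VD (se G c) (te G c) K μ (BB G c (r + 1) (te G c e)) (te G c e) -
          VD (se G c) (te G c) K μ (DD G c r e) (te G c e)))) := by
    apply Finset.sum_le_sum
    intro e _
    have := chn_edge G c hc K hK0 hK1 μ hμ r e
    linarith
  rw [Finset.sum_add_distrib, ChnB_swap G c hc (fun v e =>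
    VD (se G c) (te G c) K μ (BB G c (r + 1) v) v - VD (se G c) (te G c) K μ (DD G c r e) v)] at h1
  have h2 : ∑ v, ∑ e ∈ univ.filter (fun e : Eg G c => se G c e = v ∨ te G c e = v),
        (VD (se G c) (te G c) K μ (BB G c (r + 1) v) v -
          VD (se G c) (te G c) K μ (DD G c r e) v) ≤
      ∑ v, ((d : ℝ) - 1) * (VD (se G c) (te G c) K μ (BB G c (r + 1) v) v -
        VD (se G c) (te G c) K μ (BB G c r v) v) := by
    apply Finset.sum_le_sum
    intro v _
    exact chn_vert G c hc d hd hr K hK0 hK1 μ hμ r v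
  rw [← Finset.mul_sum, Finset.sum_sub_distrib] at h2
  linarith

/-- PROOF. induction on `r`; `DD 0 e = {e}`, `BB 0 v = ∅` -/
theorem chn (hc : Prp G c) (d : ℕ) (hd : 1 ≤ d) (hr : Rgl G d) (K : ℕ → Fin q → ℝ)
    (hK0 : ∀ n k, 0 ≤ K n k) (hK1 : ∀ n, ∑ k, K n k = 1) (μ : (Eg G c → Fin 2) → ℝ)
    (hμ : PW μ) (r : ℕ) :
    ∑ e, EE (se G c) (te G c) K μ (DD G c r e) e -
        ((d : ℝ) - 1) * ∑ v, VD (se G c) (te G c) K μ (BB G c r v) v ≤
      ∑ e, EE (se G c) (te G c) K μ {e} e -
        ((d : ℝ) - 1) * ∑ v, VD (se G c) (te G c) K μ ∅ v := by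
  induction r with
  | zero =>
    have h1 : ∀ e, DD G c 0 e = {e} := by
      intro e
      unfold DD
      simp [BB]
    have h2 : ∀ v, BB G c 0 v = ∅ := fun v => by simp [BB]
    simp only [h1, h2]
    exact le_refl _
  | succ r ih => exact (chn_step G c hc d hd hr K hK0 hK1 μ hμ r).trans ih

end PF
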