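import Pool.Agent.W_5dd92e_pf.Defs

/-! # Components of a set of edges -/

set_option autoImplicit false

open Finset TPB
open scoped Classical

namespace PF

variable {ι W : Type*} {s t : ι → W}

theorem con_refl (S : Finset ι) (a : W) : Con s t S a a := by
  exact Relation.EqvGen.refl a

theorem con_symm {S : Finset ι} {a b : W} (h : Con s t S a b) : Con s t S b a := by
  exact Relation.EqvGen.symm _ _ h

theorem con_trans {S : Finset ι} {a b c : W} (h : Con s t S a b) (h' : Con s t S b c) :
    Con s t S a c := by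
  exact Relation.EqvGen.trans _ _ _ h h'

theorem con_mono {S S' : Finset ι} (hS : S ⊆ S') {a b : W} (h : Con s t S a b) :
    Con s t S' a b := by
  unfold Con at h
  induction h with
  | rel x y h =>
    obtain ⟨j, hj, h1, h2⟩ := h
    exact Relation.EqvGen.rel _ _ ⟨j, hS hj, h1, h2⟩
  | refl x => exact con_refl _ _
  | symm x y _ ih => exact con_symm ih
  | trans x y z _ _ ih1 ih2 => exact con_trans ih1 ih2

theorem con_edge {S : Finset ι} {i : ι} (hi : i ∈ S) : Con s t S (s i) (t i) := by
  exact Relation.EqvGen.rel _ _ ⟨i, hi, rfl, rfl⟩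

/-- PROOF. `→`: the right side is an equivalence relation in `(a, b)` containing the edges (`EqvGen` induction). -/
theorem con_insert (S : Finset ι) (i : ι) (a b : W) : Con s t (insert i S) a b ↔
    Con s t S a b ∨ (Con s t S a (s i) ∧ Con s t S (t i) b) ∨
      (Con s t S a (t i) ∧ Con s t S (s i) b) := by
  constructor
  · intro h
    unfold Con at h
    induction h with
    | rel x y h =>
      obtain ⟨j, hj, rfl, rfl⟩ := h
      rcases Finset.mem_insert.1 hj with rfl | hj
      · exact Or.inr (Or.inl ⟨con_refl _ _, con_refl _ _⟩)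
      · exact Or.inl (con_edge hj)
    | refl x => exact Or.inl (con_refl _ _)
    | symm x y _ ih =>
      rcases ih with h | ⟨h1, h2⟩ | ⟨h1, h2⟩
      · exact Or.inl (con_symm h)
      · exact Or.inr (Or.inr ⟨con_symm h2, con_symm h1⟩)
      · exact Or.inr (Or.inl ⟨con_symm h2, con_symm h1⟩)
    | trans x y z _ _ ih1 ih2 =>
      rcases ih1 with h | ⟨h1, h2⟩ | ⟨h1, h2⟩
      · rcases ih2 with h' | ⟨h1', h2'⟩ | ⟨h1', h2'⟩
        · exact Or.inl (con_trans h h')
        · exact Or.inr (Or.inl ⟨con_trans h h1', h2'⟩)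
        · exact Or.inr (Or.inr ⟨con_trans h h1', h2'⟩)
      · rcases ih2 with h' | ⟨h1', h2'⟩ | ⟨h1', h2'⟩
        · exact Or.inr (Or.inl ⟨h1, con_trans h2 h'⟩)
        · exact Or.inl (con_trans h1 (con_trans (con_symm h1') (con_trans (con_symm h2) h2')))
        · exact Or.inl (con_trans h1 h2')
      · rcases ih2 with h' | ⟨h1', h2'⟩ | ⟨h1', h2'⟩
        · exact Or.inr (Or.inr ⟨h1, con_trans h2 h'⟩)
        · exact Or.inl (con_trans h1 h2')
        · exact Or.inl (con_trans h1 (con_trans (con_symm h1') (con_trans (con_symm h2) h2')))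
  · have hm : S ⊆ insert i S := Finset.subset_insert _ _
    have hi : Con s t (insert i S) (s i) (t i) := con_edge (Finset.mem_insert_self _ _)
    rintro (h | ⟨h1, h2⟩ | ⟨h1, h2⟩)
    · exact con_mono hm h
    · exact con_trans (con_mono hm h1) (con_trans hi (con_mono hm h2))
    · exact con_trans (con_mono hm h1) (con_trans (con_symm hi) (con_mono hm h2))

/-- a set closed under the edges of `S` contains whole components.  PROOF. `EqvGen` induction -/
theorem con_closed {S : Finset ι} (A : Set W) (hA : ∀ i ∈ S, (s i ∈ A ↔ t i ∈ A)) {a b : W}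
    (h : Con s t S a b) : a ∈ A ↔ b ∈ A := by
  unfold Con at h
  induction h with
  | rel x y h =>
    obtain ⟨j, hj, rfl, rfl⟩ := h
    exact hA j hj
  | refl x => exact Iff.rfl
  | symm x y _ ih => exact ih.symm
  | trans x y z _ _ ih1 ih2 => exact ih1.trans ih2

variable [Fintype W]

theorem mem_cl {S : Finset ι} {a b : W} : b ∈ cl s t S a ↔ Con s t S a b := by
  unfold cl
  rw [Finset.mem_filter]
  exact ⟨fun h => h.2, fun h => ⟨Finset.mem_univ _, h⟩⟩

theorem self_mem_cl (S : Finset ι) (a : W) : a ∈ cl s t S a := by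
  exact mem_cl.2 (con_refl _ _)

theorem cl_eq {S : Finset ι} {a b : W} (h : Con s t S a b) : cl s t S a = cl s t S b := by
  ext x
  rw [mem_cl, mem_cl]
  exact ⟨fun h' => con_trans (con_symm h) h', fun h' => con_trans h h'⟩

theorem cl_disj {S : Finset ι} {a b : W} (h : ¬ Con s t S a b) :
    Disjoint (cl s t S a) (cl s t S b) := by
  rw [Finset.disjoint_left]
  intro x hx hy
  exact h (con_trans (mem_cl.1 hx) (con_symm (mem_cl.1 hy)))

theorem cl_mono {S S' : Finset ι} (hS : S ⊆ S') (a : W) : cl s t S a ⊆ cl s t S' a := by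
  intro x hx
  exact mem_cl.2 (con_mono hS (mem_cl.1 hx))

theorem cl_card_pos (S : Finset ι) (a : W) : 1 ≤ (cl s t S a).card := by
  exact Finset.card_pos.2 ⟨a, self_mem_cl S a⟩

theorem mem_Cls {S : Finset ι} {C : Finset W} : C ∈ Cls s t S ↔ ∃ a, cl s t S a = C := by
  unfold Cls
  rw [Finset.mem_image]
  exact ⟨fun ⟨a, _, h⟩ => ⟨a, h⟩, fun ⟨a, h⟩ => ⟨a, Finset.mem_univ _, h⟩⟩

theorem cl_mem_Cls (S : Finset ι) (a : W) : cl s t S a ∈ Cls s t S := by
  exact mem_Cls.2 ⟨a, rfl⟩

/-- `C` is the component of each of its elements -/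
theorem eq_cl {S : Finset ι} {C : Finset W} (hC : C ∈ Cls s t S) {a : W} (ha : a ∈ C) :
    C = cl s t S a := by
  obtain ⟨b, rfl⟩ := mem_Cls.1 hC
  exact cl_eq (mem_cl.1 ha)

theorem cl_insert_con {S : Finset ι} {i : ι} (h : Con s t S (s i) (t i)) (a : W) :
    cl s t (insert i S) a = cl s t S a := by
  ext b
  rw [mem_cl, mem_cl, con_insert]
  constructor
  · rintro (h' | ⟨h1, h2⟩ | ⟨h1, h2⟩)
    · exact h'
    · exact con_trans h1 (con_trans h h2)
    · exact con_trans h1 (con_trans (con_symm h) h2)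
  · exact Or.inl

theorem cls_insert_con {S : Finset ι} {i : ι} (h : Con s t S (s i) (t i)) :
    Cls s t (insert i S) = Cls s t S := by
  unfold Cls
  exact Finset.image_congr (fun a _ => cl_insert_con h a)

theorem cl_insert_end {S : Finset ι} (i : ι) :
    cl s t (insert i S) (s i) = cl s t S (s i) ∪ cl s t S (t i) := by
  ext b
  rw [Finset.mem_union, mem_cl, mem_cl, mem_cl, con_insert]
  constructor
  · rintro (h' | ⟨_, h2⟩ | ⟨_, h2⟩)
    · exact Or.inl h'
    · exact Or.inr h2
    · exact Or.inl h2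
  · rintro (h' | h')
    · exact Or.inl h'
    · exact Or.inr (Or.inl ⟨con_refl _ _, h'⟩)

theorem cl_insert_far {S : Finset ι} {i : ι} {a : W} (h1 : ¬ Con s t S a (s i))
    (h2 : ¬ Con s t S a (t i)) : cl s t (insert i S) a = cl s t S a := by
  ext b
  rw [mem_cl, mem_cl, con_insert]
  constructor
  · rintro (h' | ⟨h3, _⟩ | ⟨h3, _⟩)
    · exact h'
    · exact absurd h3 h1
    · exact absurd h3 h2
  · exact Or.inl

/-- PROOF. `Cls (insert i S)` is `Cls S` with the two (different) sets `cl S (s i)`, `cl S (t i)` replaced by their union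
(which is not in `Cls S` outside these two). -/
theorem prc_insert (g : Finset W → ℝ) (S : Finset ι) (i : ι) (h : ¬ Con s t S (s i) (t i)) :
    (∏ C ∈ Cls s t (insert i S), g C) * (g (cl s t S (s i)) * g (cl s t S (t i))) =
      (∏ C ∈ Cls s t S, g C) * g (cl s t S (s i) ∪ cl s t S (t i)) := by
  have hAB : cl s t S (s i) ≠ cl s t S (t i) := by
    intro h1
    apply h
    rw [← mem_cl, h1]
    exact self_mem_cl _ _
  have hi : Con s t (insert i S) (s i) (t i) := con_edge (Finset.mem_insert_self _ _)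
  have hcl : Cls s t (insert i S) = insert (cl s t S (s i) ∪ cl s t S (t i))
      (((Cls s t S).erase (cl s t S (s i))).erase (cl s t S (t i))) := by
    ext C
    rw [Finset.mem_insert, Finset.mem_erase, Finset.mem_erase]
    constructor
    · intro hC
      obtain ⟨a, rfl⟩ := mem_Cls.1 hC
      by_cases h1 : Con s t S a (s i)
      · left
        rw [← cl_insert_end]
        exact cl_eq (con_mono (Finset.subset_insert _ _) h1)
      · by_cases h2 : Con s t S a (t i)
        · left
          rw [← cl_insert_end]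
          exact cl_eq (con_trans (con_mono (Finset.subset_insert _ _) h2) (con_symm hi))
        · right
          rw [cl_insert_far h1 h2]
          refine ⟨?_, ?_, cl_mem_Cls _ _⟩
          · intro h3
            apply h2
            rw [← mem_cl, h3]
            exact self_mem_cl _ _
          · intro h3
            apply h1
            rw [← mem_cl, h3]
            exact self_mem_cl _ _
    · rintro (rfl | ⟨h2, h1, hC⟩)
      · rw [← cl_insert_end]
        exact cl_mem_Cls _ _
      · obtain ⟨a, rfl⟩ := mem_Cls.1 hC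
        rw [← cl_insert_far (i := i) (fun h3 => h1 (cl_eq h3)) (fun h3 => h2 (cl_eq h3))]
        exact cl_mem_Cls _ _
  have hnot : cl s t S (s i) ∪ cl s t S (t i) ∉
      ((Cls s t S).erase (cl s t S (s i))).erase (cl s t S (t i)) := by
    intro h1
    rw [Finset.mem_erase, Finset.mem_erase] at h1
    obtain ⟨_, h3, h4⟩ := h1
    exact h3 (eq_cl h4 (Finset.mem_union_left _ (self_mem_cl _ _)))
  rw [hcl, Finset.prod_insert hnot]
  have h5 := Finset.mul_prod_erase (Cls s t S) g (cl_mem_Cls (s := s) (t := t) S (s i))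
  have h6 := Finset.mul_prod_erase ((Cls s t S).erase (cl s t S (s i))) g
    (Finset.mem_erase.2 ⟨hAB.symm, cl_mem_Cls (s := s) (t := t) S (t i)⟩)
  rw [← h5, ← h6]
  ring

/-- the components partition the vertices -/
theorem sum_Cls (S : Finset ι) (f : W → ℝ) : ∑ C ∈ Cls s t S, ∑ v ∈ C, f v = ∑ v, f v := by
  rw [← Finset.sum_fiberwise_of_maps_to (s := univ) (t := Cls s t S) (g := cl s t S)
    (fun a _ => cl_mem_Cls S a) f]
  refine Finset.sum_congr rfl fun C hC => ?_
  refine Finset.sum_congr ?_ fun _ _ => rfl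
  ext v
  rw [Finset.mem_filter]
  constructor
  · intro hv
    exact ⟨Finset.mem_univ _, (eq_cl hC hv).symm⟩
  · rintro ⟨_, rfl⟩
    exact self_mem_cl _ _

/-- the components partition the open edges -/
theorem sum_Cls_edges (S : Finset ι) (f : ι → ℝ) :
    ∑ C ∈ Cls s t S, ∑ i ∈ S.filter (fun i => s i ∈ C), f i = ∑ i ∈ S, f i := by
  rw [← Finset.sum_fiberwise_of_maps_to (s := S) (t := Cls s t S) (g := fun i => cl s t S (s i))
    (fun i _ => cl_mem_Cls S (s i)) f]
  refine Finset.sum_congr rfl fun C hC => ?_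
  refine Finset.sum_congr ?_ fun _ _ => rfl
  ext v
  rw [Finset.mem_filter, Finset.mem_filter]
  constructor
  · rintro ⟨h1, hv⟩
    exact ⟨h1, (eq_cl hC hv).symm⟩
  · rintro ⟨h1, rfl⟩
    exact ⟨h1, self_mem_cl _ _⟩

/-- PROOF. group the vertices by their component (`Finset.prod_fiberwise`), a component `C` gives
`(g C ^ (1 / |C|)) ^ |C| = g C`. -/
theorem prod_vert (g : Finset W → ℝ) (hg : ∀ C, 0 ≤ g C) (S : Finset ι) :
    ∏ C ∈ Cls s t S, g C = ∏ v, g (cl s t S v) ^ (1 / ((cl s t S v).card : ℝ)) := by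
  rw [← Finset.prod_fiberwise_of_maps_to (s := univ) (t := Cls s t S) (g := cl s t S)
    (fun a _ => cl_mem_Cls S a) (fun v => g (cl s t S v) ^ (1 / ((cl s t S v).card : ℝ)))]
  refine Finset.prod_congr rfl fun C hC => ?_
  have hf : univ.filter (fun v => cl s t S v = C) = C := by
    ext v
    rw [Finset.mem_filter]
    constructor
    · rintro ⟨_, rfl⟩
      exact self_mem_cl _ _
    · intro hv
      exact ⟨Finset.mem_univ _, (eq_cl hC hv).symm⟩
  rw [hf, Finset.prod_congr rfl (g := fun _ => g C ^ (1 / (C.card : ℝ)))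
    (fun v hv => by rw [← eq_cl hC hv]), Finset.prod_const]
  have hc : C.card ≠ 0 := by
    obtain ⟨a, rfl⟩ := mem_Cls.1 hC
    have := cl_card_pos (s := s) (t := t) S a
    omega
  rw [one_div, Real.rpow_inv_natCast_pow (hg C) hc]

end PF
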