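import Pool.Agent.W_5dd92e_pf.CluA

/-! # Numbers of edges of components -/

set_option autoImplicit false

open Finset TPB
open scoped Classical

namespace PF

variable {ι W : Type*} [Fintype W] {s t : ι → W}

/-- the ends of an edge of `S` are in the same component -/
theorem end_mem {S : Finset ι} {i : ι} (hi : i ∈ S) {C : Finset W} (hC : C ∈ Cls s t S) :
    s i ∈ C ↔ t i ∈ C := by
  constructor
  · intro h
    rw [eq_cl hC h, mem_cl]
    exact con_edge hi
  · intro h
    rw [eq_cl hC h, mem_cl]
    exact con_symm (con_edge hi)

omit [Fintype W] in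
private theorem CluB_mE_not (S : Finset ι) (i : ι) (C : Finset W) (h : s i ∉ C) :
    mE s (insert i S) C = mE s S C := by
  unfold mE
  rw [Finset.filter_insert, if_neg h]

omit [Fintype W] in
private theorem CluB_mE_mem (S : Finset ι) (i : ι) (hi : i ∉ S) (C : Finset W) (h : s i ∈ C) :
    mE s (insert i S) C = mE s S C + 1 := by
  unfold mE
  rw [Finset.filter_insert, if_pos h, Finset.card_insert_of_notMem]
  intro h'
  exact hi (Finset.mem_filter.mp h').1

omit [Fintype W] in
private theorem CluB_mE_union (S : Finset ι) (C D : Finset W) (h : Disjoint C D) :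
    mE s S (C ∪ D) = mE s S C + mE s S D := by
  unfold mE
  rw [← Finset.card_union_of_disjoint]
  · congr 1
    ext i
    simp only [Finset.mem_filter, Finset.mem_union]
    tauto
  · rw [Finset.disjoint_left]
    intro i h1 h2
    exact Finset.disjoint_left.mp h (Finset.mem_filter.mp h1).2 (Finset.mem_filter.mp h2).2

private theorem CluB_empty (C : Finset W) (hC : C ∈ Cls s t (∅ : Finset ι)) : C.card = 1 := by
  obtain ⟨a, rfl⟩ := mem_Cls.mp hC
  rw [Finset.card_eq_one]
  refine ⟨a, ?_⟩
  ext b
  rw [mem_cl, Finset.mem_singleton]
  constructor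
  · intro h
    have := (con_closed ({a} : Set W) (fun i hi => by simp at hi) h).mp rfl
    exact this
  · rintro rfl
    exact con_refl _ _

private theorem CluB_split (S : Finset ι) (i : ι) (hi : i ∉ S) (h : ¬ Con s t S (s i) (t i))
    (C : Finset W) (hC : C ∈ Cls s t (insert i S)) :
    (C.card = (cl s t S (s i)).card + (cl s t S (t i)).card ∧
      mE s (insert i S) C = mE s S (cl s t S (s i)) + mE s S (cl s t S (t i)) + 1) ∨
    (C ∈ Cls s t S ∧ mE s (insert i S) C = mE s S C) := by
  obtain ⟨a, rfl⟩ := mem_Cls.mp hC
  have hdis := cl_disj h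
  by_cases h1 : Con s t S a (s i) ∨ Con s t S a (t i)
  · left
    have hcon : Con s t (insert i S) a (s i) := by
      rcases h1 with h1 | h1
      · exact con_mono (Finset.subset_insert _ _) h1
      · exact con_trans (con_mono (Finset.subset_insert _ _) h1)
          (con_symm (con_edge (Finset.mem_insert_self _ _)))
    have heq : cl s t (insert i S) a = cl s t S (s i) ∪ cl s t S (t i) := by
      rw [cl_eq hcon, cl_insert_end]
    rw [heq]
    refine ⟨Finset.card_union_of_disjoint hdis, ?_⟩
    rw [CluB_mE_mem S i hi _ (Finset.mem_union_left _ (self_mem_cl S (s i))),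
      CluB_mE_union S _ _ hdis]
  · right
    push Not at h1
    rw [cl_insert_far h1.1 h1.2]
    refine ⟨cl_mem_Cls S a, ?_⟩
    apply CluB_mE_not
    intro h2
    exact h1.1 (mem_cl.mp h2)

/-- a component is connected.  PROOF. induction on `S` (`Finset.induction_on`).  Insert `i`: if the ends are connected
(`cls_insert_con`) the number of edges does not decrease; otherwise a component of `insert i S` is `cl S (s i) ∪ cl S (t i)`
(disjoint, `cl_disj`; its edges are those of the two and `i`) or is a component of `S` not containing the ends. -/
theorem card_le_mE (S : Finset ι) (C : Finset W) (hC : C ∈ Cls s t S) : C.card ≤ mE s S C + 1 := by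
  induction S using Finset.induction_on generalizing C with
  | empty =>
    rw [CluB_empty C hC]
    omega
  | insert i S hi ih =>
    by_cases h : Con s t S (s i) (t i)
    · rw [cls_insert_con h] at hC
      have h1 := ih C hC
      by_cases h2 : s i ∈ C
      · rw [CluB_mE_mem S i hi C h2]
        omega
      · rw [CluB_mE_not S i C h2]
        exact h1
    · rcases CluB_split S i hi h C hC with ⟨h1, h2⟩ | ⟨h1, h2⟩
      · have h3 := ih _ (cl_mem_Cls S (s i))
        have h4 := ih _ (cl_mem_Cls S (t i))
        omega
      · rw [h2]
        exact ih C h1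

/-- small components are trees.  PROOF. the same induction; if the ends of `i` are connected in `S` then the component of
`s i` has more than `L` vertices by `Gir`. -/
theorem card_eq_mE (L : ℕ) (hG : Gir s t L) (S : Finset ι) (C : Finset W) (hC : C ∈ Cls s t S)
    (hL : C.card ≤ L) : C.card = mE s S C + 1 := by
  induction S using Finset.induction_on generalizing C with
  | empty =>
    rw [CluB_empty C hC]
    simp [mE]
  | insert i S hi ih =>
    by_cases h : Con s t S (s i) (t i)
    · rw [cls_insert_con h] at hC
      by_cases h2 : s i ∈ C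
      · have h3 := hG S i hi h
        rw [← eq_cl hC h2] at h3
        omega
      · rw [CluB_mE_not S i C h2]
        exact ih C hC hL
    · rcases CluB_split S i hi h C hC with ⟨h1, h2⟩ | ⟨h1, h2⟩
      · have h3 := ih _ (cl_mem_Cls S (s i)) (by omega)
        have h4 := ih _ (cl_mem_Cls S (t i)) (by omega)
        omega
      · rw [h2]
        exact ih C h1 hL

end PF
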