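import Pool.Agent.W_5dd92e_pf.LemL

/-! # The abstract cover inequality -/

set_option autoImplicit false

open Finset TPB
open scoped Classical

namespace PF

private theorem cova_gen {α : Type*} [DecidableEq α] (Φ : Finset α → ℝ) (h0 : ∀ S, 0 < Φ S)
    (hΦ : ∀ S T, Φ S * Φ T ≤ Φ (S ∩ T) * Φ (S ∪ T))
    (D : Finset α) (T T' : Finset α) (hT : Disjoint T D) (hT' : Disjoint T' D) :
    (∑ s ∈ D.powerset, Φ (T ∪ s)) * (∑ s ∈ D.powerset, Φ (T' ∪ s)) ≤
      (∑ s ∈ D.powerset, Φ ((T ∩ T') ∪ s)) * (∑ s ∈ D.powerset, Φ ((T ∪ T') ∪ s)) := by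
  have h := Finset.four_functions_theorem (f₁ := fun s => Φ (T ∪ s)) (f₂ := fun s => Φ (T' ∪ s))
    (f₃ := fun s => Φ ((T ∩ T') ∪ s)) (f₄ := fun s => Φ ((T ∪ T') ∪ s)) D
    (fun s => (h0 _).le) (fun s => (h0 _).le) (fun s => (h0 _).le) (fun s => (h0 _).le)
    (fun s hs t ht => by
      have h1 := hΦ (T ∪ s) (T' ∪ t)
      have e1 : (T ∪ s) ∩ (T' ∪ t) = (T ∩ T') ∪ (s ∩ t) := by
        rw [Finset.disjoint_left] at hT hT'
        ext x
        simp only [mem_inter, mem_union]
        constructor
        · rintro ⟨h1 | h1, h2 | h2⟩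
          · exact Or.inl ⟨h1, h2⟩
          · exact absurd (ht h2) (hT h1)
          · exact absurd (hs h1) (hT' h2)
          · exact Or.inr ⟨h1, h2⟩
        · rintro (⟨h1, h2⟩ | ⟨h1, h2⟩)
          · exact ⟨Or.inl h1, Or.inl h2⟩
          · exact ⟨Or.inr h1, Or.inr h2⟩
      have e2 : (T ∪ s) ∪ (T' ∪ t) = (T ∪ T') ∪ (s ∪ t) := by
        ext x
        simp only [mem_union]
        tauto
      rw [e1, e2] at h1
      exact h1)
    (Finset.Subset.refl D.powerset) (Finset.Subset.refl D.powerset)
  rw [powerset_sups_powerset_self, powerset_infs_powerset_self] at h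
  exact h

/-- sums of a log-supermodular function over a part of the variables are log-supermodular.
PROOF. `Finset.four_functions_theorem` (or `four_functions_theorem_univ`) for the distributive lattice `Finset α`, with
`f₁ = Φ (T ∪ ·)`, `f₂ = Φ (T' ∪ ·)`, `f₃ = Φ ((T ∩ T') ∪ ·)`, `f₄ = Φ ((T ∪ T') ∪ ·)` on the powerset of `D`
(sublattice: `s ⊼ t`, `s ⊻ t` are contained in the powerset). -/
theorem lsf_part {α : Type*} [Fintype α] (Φ : Finset α → ℝ) (h0 : ∀ S, 0 < Φ S) (hΦ : LSF Φ)
    (D : Finset α) (T T' : Finset α) (hT : Disjoint T D) (hT' : Disjoint T' D) :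
    (∑ s ∈ D.powerset, Φ (T ∪ s)) * (∑ s ∈ D.powerset, Φ (T' ∪ s)) ≤
      (∑ s ∈ D.powerset, Φ ((T ∩ T') ∪ s)) * (∑ s ∈ D.powerset, Φ ((T ∪ T') ∪ s)) :=
  cova_gen Φ h0 (fun S T => hΦ S T) D T T' hT hT'

private theorem cova_split {α : Type*} [DecidableEq α] (X Y : Finset α) (h : Disjoint X Y)
    (f : Finset α → ℝ) :
    ∑ s ∈ (X ∪ Y).powerset, f s = ∑ a ∈ X.powerset, ∑ b ∈ Y.powerset, f (a ∪ b) := by
  rw [← Finset.sum_product' (f := fun a b => f (a ∪ b))]
  symm
  rw [Finset.disjoint_left] at h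
  refine Finset.sum_nbij' (fun p => p.1 ∪ p.2) (fun s => (s ∩ X, s ∩ Y)) ?_ ?_ ?_ ?_ ?_
  · rintro ⟨a, b⟩ hp
    rw [mem_product, mem_powerset, mem_powerset] at hp
    rw [mem_powerset]
    exact union_subset_union hp.1 hp.2
  · intro s _
    rw [mem_product, mem_powerset, mem_powerset]
    exact ⟨inter_subset_right, inter_subset_right⟩
  · rintro ⟨a, b⟩ hp
    rw [mem_product, mem_powerset, mem_powerset] at hp
    ext x
    · simp only [mem_inter, mem_union]
      constructor
      · rintro ⟨h1 | h1, h2⟩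
        · exact h1
        · exact absurd (hp.2 h1) (h h2)
      · intro h1
        exact ⟨Or.inl h1, hp.1 h1⟩
    · simp only [mem_inter, mem_union]
      constructor
      · rintro ⟨h1 | h1, h2⟩
        · exact absurd h2 (h (hp.1 h1))
        · exact h1
      · intro h1
        exact ⟨Or.inr h1, hp.2 h1⟩
  · intro s hs
    rw [mem_powerset] at hs
    ext x
    simp only [mem_inter, mem_union]
    constructor
    · rintro (h1 | h1)
      · exact h1.1
      · exact h1.1
    · intro h1
      rcases mem_union.1 (hs h1) with h2 | h2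
      · exact Or.inl ⟨h1, h2⟩
      · exact Or.inr ⟨h1, h2⟩
  · intro p _
    rfl

private theorem cova_fib {E : Type*} {k : ℕ} (e : E) (g : Finset (E × Fin k) → ℝ) :
    ∑ a ∈ (({e} : Finset E) ×ˢ (univ : Finset (Fin k))).powerset, g a =
      ∑ u : Finset (Fin k), g (({e} : Finset E) ×ˢ u) := by
  symm
  refine Finset.sum_nbij' (fun u => ({e} : Finset E) ×ˢ u)
    (fun a => univ.filter (fun j => (e, j) ∈ a)) ?_ ?_ ?_ ?_ ?_
  · intro u _
    rw [mem_powerset]
    exact product_subset_product (Subset.refl _) (subset_univ _)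
  · intro a _
    exact mem_univ _
  · intro u _
    ext j
    simp
  · intro a ha
    rw [mem_powerset] at ha
    ext ⟨x, j⟩
    simp only [mem_product, mem_singleton, mem_filter, mem_univ, true_and]
    constructor
    · rintro ⟨rfl, h2⟩
      exact h2
    · intro h1
      have h2 := ha h1
      rw [mem_product, mem_singleton] at h2
      have h3 : x = e := h2.1
      subst h3
      exact ⟨rfl, h1⟩
  · intro u _
    rfl

private theorem cova_lev {E : Type*} [Fintype E] {k : ℕ} (T : Finset (E × Fin k)) (e : E)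
    (hT : ∀ j, (e, j) ∉ T) (u : Finset (Fin k)) (i : ℕ) :
    lev (T ∪ ({e} : Finset E) ×ˢ u) i = if i < u.card then insert e (lev T i) else lev T i := by
  have h1 : (univ.filter (fun j : Fin k => (e, j) ∈ T ∪ ({e} : Finset E) ×ˢ u)) = u := by
    ext j
    simp [hT j]
  have h2 : (univ.filter (fun j : Fin k => (e, j) ∈ T)) = ∅ := by
    ext j
    simp [hT j]
  have h3 : ∀ x, x ≠ e → (univ.filter (fun j : Fin k => (x, j) ∈ T ∪ ({e} : Finset E) ×ˢ u)) =
      univ.filter (fun j : Fin k => (x, j) ∈ T) := by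
    intro x hx
    ext j
    simp only [mem_filter, mem_univ, true_and, mem_union, mem_product, mem_singleton]
    constructor
    · rintro (h | h)
      · exact h
      · exact absurd h.1 hx
    · intro h
      exact Or.inl h
  have h4 : e ∉ lev T i := by
    unfold lev
    rw [mem_filter, h2]
    simp
  ext x
  by_cases hx : x = e
  · subst hx
    have h5 : x ∈ lev (T ∪ ({x} : Finset E) ×ˢ u) i ↔ i < u.card := by
      unfold lev
      rw [mem_filter, h1]
      simp
    rw [h5]
    by_cases hi : i < u.card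
    · rw [if_pos hi]
      simp [hi]
    · rw [if_neg hi]
      exact ⟨fun h => absurd h hi, fun h => absurd h h4⟩
  · have h5 : x ∈ lev (T ∪ ({e} : Finset E) ×ˢ u) i ↔ x ∈ lev T i := by
      unfold lev
      rw [mem_filter, mem_filter, h3 x hx]
    rw [h5]
    by_cases hi : i < u.card
    · rw [if_pos hi, mem_insert]
      constructor
      · intro h
        exact Or.inr h
      · rintro (h | h)
        · exact absurd h hx
        · exact h
    · rw [if_neg hi]

/-- ABSTRACT COVER INEQUALITY.  PROOF.  For `D : Finset E` let `A_D T = ∑_{s ⊆ D × Fin k} Ψ (T ∪ s)` and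
`B_D S = ∑_{s ⊆ D} Φ (S ∪ s)`.  Claim, by induction on `D`: `A_D T ≤ ∏ i, B_D (lev T i)` for all `T` disjoint from
`D × Fin k`.  `D = ∅` is `hstar`.  Step `D + e` (`e ∉ D`, `T` disjoint from `(D + e) × Fin k`): for `u : Finset (Fin k)` let
`g u = A_D (T ∪ {e} × u)`; then `A_{D+e} T = ∑_u g u`; `g > 0` is log-supermodular (`lsf_part`); `lev (T ∪ {e} × u) i` is
`insert e (lev T i)` if `i < |u|` and `lev T i` otherwise, so the claim for `D` gives the hypothesis of `lem_L` with
`A i = B_D (insert e (lev T i))`, `B i = B_D (lev T i)`; the result is `∏ i, (A i + B i) = ∏ i, B_{D+e} (lev T i)`.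
Finally `D = univ`, `T = ∅`. -/
theorem cov_abs {E : Type*} [Fintype E] (k : ℕ) (Ψ : Finset (E × Fin k) → ℝ) (Φ : Finset E → ℝ)
    (hΨ0 : ∀ T, 0 < Ψ T) (hΦ0 : ∀ S, 0 < Φ S) (hΨ : LSF Ψ)
    (hstar : ∀ T, Ψ T ≤ ∏ i : Fin k, Φ (lev T i)) :
    ∑ T, Ψ T ≤ (∑ S, Φ S) ^ k := by
  have hΨ' : ∀ S T, Ψ S * Ψ T ≤ Ψ (S ∩ T) * Ψ (S ∪ T) := fun S T => hΨ.any_inst S T
  have key : ∀ D : Finset E, ∀ T : Finset (E × Fin k),
      Disjoint T (D ×ˢ (univ : Finset (Fin k))) →
      ∑ s ∈ (D ×ˢ (univ : Finset (Fin k))).powerset, Ψ (T ∪ s) ≤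
        ∏ i : Fin k, ∑ s ∈ D.powerset, Φ (lev T i ∪ s) := by
    intro D
    induction D using Finset.induction with
    | empty =>
      intro T _
      simpa using hstar T
    | insert e D he ih =>
      intro T hT
      have hTe : ∀ j, (e, j) ∉ T := by
        intro j hj
        exact (Finset.disjoint_left.1 hT) hj (by simp)
      have hTD : Disjoint T (D ×ˢ (univ : Finset (Fin k))) :=
        Finset.disjoint_of_subset_right
          (product_subset_product (subset_insert e D) (Subset.refl _)) hT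
      have hsp : (insert e D) ×ˢ (univ : Finset (Fin k)) =
          (({e} : Finset E) ×ˢ (univ : Finset (Fin k))) ∪ (D ×ˢ (univ : Finset (Fin k))) := by
        ext ⟨x, j⟩
        simp only [mem_product, mem_insert, mem_univ, and_true, mem_union, mem_singleton]
      have hdj : Disjoint (({e} : Finset E) ×ˢ (univ : Finset (Fin k)))
          (D ×ˢ (univ : Finset (Fin k))) := by
        rw [Finset.disjoint_left]
        rintro ⟨x, j⟩ h1 h2
        rw [mem_product, mem_singleton] at h1
        rw [mem_product] at h2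
        have h3 : x = e := h1.1
        subst h3
        exact he h2.1
      have hfd : ∀ u : Finset (Fin k), Disjoint (T ∪ ({e} : Finset E) ×ˢ u)
          (D ×ˢ (univ : Finset (Fin k))) := by
        intro u
        rw [Finset.disjoint_union_left]
        exact ⟨hTD, Finset.disjoint_of_subset_left
          (product_subset_product (Subset.refl _) (subset_univ _)) hdj⟩
      rw [hsp, cova_split _ _ hdj, cova_fib e (fun a => ∑ b ∈ (D ×ˢ (univ : Finset (Fin k))).powerset,
        Ψ (T ∪ (a ∪ b)))]
      have hL := lem_L k (fun u => ∑ b ∈ (D ×ˢ (univ : Finset (Fin k))).powerset,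
        Ψ ((T ∪ ({e} : Finset E) ×ˢ u) ∪ b))
        (fun u => Finset.sum_pos (fun b _ => hΨ0 _) ⟨∅, empty_mem_powerset _⟩)
        (by
          intro u u'
          have h1 := cova_gen Ψ hΨ0 hΨ' (D ×ˢ (univ : Finset (Fin k)))
            (T ∪ ({e} : Finset E) ×ˢ u) (T ∪ ({e} : Finset E) ×ˢ u') (hfd u) (hfd u')
          have e1 : (T ∪ ({e} : Finset E) ×ˢ u) ∩ (T ∪ ({e} : Finset E) ×ˢ u') =
              T ∪ ({e} : Finset E) ×ˢ (u ∩ u') := by
            ext ⟨x, j⟩
            simp only [mem_inter, mem_union, mem_product]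
            tauto
          have e2 : (T ∪ ({e} : Finset E) ×ˢ u) ∪ (T ∪ ({e} : Finset E) ×ˢ u') =
              T ∪ ({e} : Finset E) ×ˢ (u ∪ u') := by
            ext ⟨x, j⟩
            simp only [mem_union, mem_product]
            tauto
          rw [e1, e2] at h1
          refine le_of_le_of_eq h1 ?_
          have hi : ∀ inst1 inst2 : DecidableEq (Fin k), ∀ F : Finset (Fin k) → ℝ,
              F (@Inter.inter _ (@Finset.instInter _ inst1) u u') =
                F (@Inter.inter _ (@Finset.instInter _ inst2) u u') := by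
            intro inst1 inst2 F
            rw [Subsingleton.elim inst1 inst2]
          have hj : ∀ inst1 inst2 : DecidableEq (Fin k), ∀ F : Finset (Fin k) → ℝ,
              F (@Union.union _ (@Finset.instUnion _ inst1) u u') =
                F (@Union.union _ (@Finset.instUnion _ inst2) u u') := by
            intro inst1 inst2 F
            rw [Subsingleton.elim inst1 inst2]
          exact congrArg₂ (· * ·) (hi _ _ (fun w => ∑ b ∈ (D ×ˢ (univ : Finset (Fin k))).powerset,
            Ψ ((T ∪ ({e} : Finset E) ×ˢ w) ∪ b))) (hj _ _ (fun w => ∑ b ∈ (D ×ˢ (univ : Finset (Fin k))).powerset,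
            Ψ ((T ∪ ({e} : Finset E) ×ˢ w) ∪ b))))
        (fun i => ∑ s ∈ D.powerset, Φ (insert e (lev T i) ∪ s))
        (fun i => ∑ s ∈ D.powerset, Φ (lev T i ∪ s))
        (fun i => Finset.sum_pos (fun b _ => hΦ0 _) ⟨∅, empty_mem_powerset _⟩)
        (fun i => Finset.sum_pos (fun b _ => hΦ0 _) ⟨∅, empty_mem_powerset _⟩)
        (by
          intro u
          refine (ih _ (hfd u)).trans (le_of_eq ?_)
          refine Finset.prod_congr rfl (fun i _ => ?_)
          rw [cova_lev T e hTe u i]
          by_cases hi : (i : ℕ) < u.card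
          · rw [if_pos hi, if_pos hi]
          · rw [if_neg hi, if_neg hi])
      have e3 : ∀ u : Finset (Fin k), ∑ b ∈ (D ×ˢ (univ : Finset (Fin k))).powerset,
          Ψ (T ∪ (({e} : Finset E) ×ˢ u ∪ b)) =
          ∑ b ∈ (D ×ˢ (univ : Finset (Fin k))).powerset, Ψ ((T ∪ ({e} : Finset E) ×ˢ u) ∪ b) :=
        fun u => Finset.sum_congr rfl (fun b _ => by rw [union_assoc])
      rw [Finset.sum_congr rfl (fun u _ => e3 u)]
      refine hL.trans (le_of_eq ?_)
      refine Finset.prod_congr rfl (fun i _ => ?_)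
      rw [Finset.sum_powerset_insert he, add_comm]
      congr 1
      refine Finset.sum_congr rfl (fun s _ => ?_)
      congr 1
      ext x
      simp only [mem_union, mem_insert]
      tauto
  have h1 := key univ ∅ (Finset.disjoint_empty_left _)
  have e1 : ∑ s ∈ ((univ : Finset E) ×ˢ (univ : Finset (Fin k))).powerset, Ψ (∅ ∪ s) =
      ∑ T, Ψ T := by
    rw [Finset.univ_product_univ, Finset.powerset_univ]
    refine Finset.sum_congr rfl (fun s _ => ?_)
    rw [empty_union]
  have e2 : ∀ i : Fin k, ∑ s ∈ (univ : Finset E).powerset,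
      Φ (lev (∅ : Finset (E × Fin k)) i ∪ s) = ∑ S, Φ S := by
    intro i
    have h3 : lev (∅ : Finset (E × Fin k)) i = ∅ := by
      unfold lev
      ext x
      simp
    rw [h3, Finset.powerset_univ]
    refine Finset.sum_congr rfl (fun s _ => ?_)
    rw [empty_union]
  rw [e1, Finset.prod_congr rfl (fun i _ => e2 i), Finset.prod_const, Finset.card_univ,
    Fintype.card_fin] at h1
  exact h1

end PF
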