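import Pool.Agent.W_5dd92e_pf.Star
import Pool.Agent.W_5dd92e_pf.CovA

/-! # The cover inequality -/

set_option autoImplicit false

open Finset TPB
open scoped Classical

namespace PF

private theorem CovG_lsf_pow {α : Type*} {P : Finset α → ℝ} (hP : LSF P) {ε : ℝ} (hε : 0 < ε) :
    LSF (fun S : Finset α => ε ^ S.card * P S) := by
  intro S T
  have h1 := hP S T
  have h2 : S.card + T.card = (S ∩ T).card + (S ∪ T).card :=
    (Finset.card_inter_add_card_union S T).symm
  calc ε ^ S.card * P S * (ε ^ T.card * P T)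
      = ε ^ (S.card + T.card) * (P S * P T) := by
        rw [pow_add]
        ring
    _ ≤ ε ^ (S.card + T.card) * (P (S ∩ T) * P (S ∪ T)) :=
        mul_le_mul_of_nonneg_left h1 (pow_pos hε _).le
    _ = ε ^ (S ∩ T).card * P (S ∩ T) * (ε ^ (S ∪ T).card * P (S ∪ T)) := by
        rw [h2, pow_add]
        ring

variable {E V : Type*} [Fintype E] [Fintype V]

/-- PROOF. `cov_abs` for `Ψ T = ε ^ |T| * Phi T` and `Φ S = ε ^ |S| * Phi S`: `sum_lev`, `star`, `phi_lsf`, `phi_pos`,
`|S| + |T| = |S ∩ T| + |S ∪ T|`. -/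
theorem cov_ineq (s t : E → V) (k : ℕ) (π : E → Equiv.Perm (Fin k)) {F : ℕ → ℝ} (hF : Adm F)
    (ε : ℝ) (hε : 0 < ε) : Zt (sc s k) (tc t k π) F ε ≤ Zt s t F ε ^ k := by
  unfold Zt
  refine cov_abs k (fun T => ε ^ T.card * Phi (sc s k) (tc t k π) F T)
    (fun S => ε ^ S.card * Phi s t F S) ?_ ?_ ?_ ?_
  · intro T
    exact mul_pos (pow_pos hε _) (phi_pos hF T)
  · intro S
    exact mul_pos (pow_pos hε _) (phi_pos hF S)
  · exact CovG_lsf_pow (phi_lsf hF) hε
  · intro T
    have h1 := star s t π hF T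
    have h2 := sum_lev T
    rw [Finset.prod_mul_distrib, Finset.prod_pow_eq_pow_sum, h2]
    exact mul_le_mul_of_nonneg_left h1 (pow_pos hε _).le

end PF
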