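import Pool.Agent.W_5dd92e_pf.PsiA

/-! # The pair terms -/

set_option autoImplicit false

open Finset TPB
open scoped Classical

namespace PF

variable {V : Type*} [Fintype V] (G : SimpleGraph V) (c : V → Bool)

theorem cvv_nn (η : ℕ → ℝ) (L : ℕ) (K : ℝ) (hK : 0 ≤ K) (μ : (Eg G c → Fin 2) → ℝ) (hμ : PW μ)
    (hl : LSM μ) (v w : V) : 0 ≤ cvv G c η L K μ v w := by
  unfold cvv
  split_ifs
  · exact mul_nonneg hK (Finset.sum_nonneg fun e _ => Finset.sum_nonneg fun e' _ => cv_nonneg hμ hl e e')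
  · exact Finset.sum_nonneg fun S _ => abs_nonneg _

private theorem Cvb_meet {W : Type*} (C S : Finset W) (v : W) :
    (C ∩ insert v S).Nonempty ↔ v ∈ C ∨ (C ∩ S).Nonempty := by
  constructor
  · rintro ⟨x, hx⟩
    rw [mem_inter, mem_insert] at hx
    rcases hx.2 with h | h
    · exact Or.inl (h ▸ hx.1)
    · exact Or.inr ⟨x, mem_inter.2 ⟨hx.1, h⟩⟩
  · rintro (h | ⟨x, hx⟩)
    · exact ⟨v, mem_inter.2 ⟨h, mem_insert_self _ _⟩⟩
    · rw [mem_inter] at hx
      exact ⟨x, mem_inter.2 ⟨hx.1, mem_insert_of_mem hx.2⟩⟩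

/-- PROOF. Not far: one term of the sum of absolute values.  Far: (1) `Hs` part, `M = NB L S`: `TPB.mi_sum` with
`H = Hs μ`, `cv e e' = K * Cv μ e e'` (`TPB.mi_cov`), `X = BB L v \ M`, `D = BB L w \ M`, `C = M` (disjoint, as the balls
are), then enlarge the sums (`TPB.cv_nonneg`).  (2) `Psi` part: termwise
`1[D meets v+S] + 1[D meets w+S] - 1[D meets v+w+S] - 1[D meets S] = 1[v, w ∈ D, D ∩ S = ∅]`, and then
`η |D| = 0`, because `D` has more than `L` vertices by `Far`. -/
theorem HH_cv (η : ℕ → ℝ) (hη : ∀ n, 0 ≤ η n) (L : ℕ) (hηL : ∀ n, L < n → η n = 0)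
    (μ : (Eg G c → Fin 2) → ℝ) (hμ : PW μ) (hl : LSM μ) (c0 : ℝ) (hc0 : 0 < c0)
    (hs : SSB μ c0) (v w : V) (S : Finset V) (hvw : v ≠ w) (hv : v ∉ S) (hw : w ∉ S) :
    HH G c η L μ (insert v S) + HH G c η L μ (insert w S) -
      HH G c η L μ (insert v (insert w S)) - HH G c η L μ S ≤
      cvv G c η L (4 / c0 ^ 2) μ v w := by
  unfold cvv
  split_ifs with hfar
  · -- the entropy part
    have hK : 0 ≤ 4 / c0 ^ 2 := by positivity
    set M := NB G c L S with hM
    have e1 : NB G c L (insert v S) = BB G c L v \ M ∪ M := by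
      rw [hM]
      unfold NB
      rw [Finset.biUnion_insert, Finset.sdiff_union_self_eq_union]
    have e2 : NB G c L (insert w S) = BB G c L w \ M ∪ M := by
      rw [hM]
      unfold NB
      rw [Finset.biUnion_insert, Finset.sdiff_union_self_eq_union]
    have e3 : NB G c L (insert v (insert w S)) = BB G c L v \ M ∪ BB G c L w \ M ∪ M := by
      rw [← Finset.union_sdiff_distrib, Finset.sdiff_union_self_eq_union, hM]
      unfold NB
      rw [Finset.biUnion_insert, Finset.biUnion_insert, Finset.union_assoc]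
    have h1 := mi_sum (Hs μ) (fun e e' => 4 / c0 ^ 2 * Cv μ e e')
      (fun e e' S' hee he he' => mi_cov hμ hl c0 hc0 hs S' e e' hee he he')
      (BB G c L v \ M) (BB G c L w \ M) M
      (hfar.1.mono Finset.sdiff_subset Finset.sdiff_subset) Finset.sdiff_disjoint Finset.sdiff_disjoint
    have h2 : ∑ e ∈ BB G c L v \ M, ∑ e' ∈ BB G c L w \ M, 4 / c0 ^ 2 * Cv μ e e' ≤
        4 / c0 ^ 2 * ∑ e ∈ BB G c L v, ∑ e' ∈ BB G c L w, Cv μ e e' := by
      rw [Finset.mul_sum]
      calc ∑ e ∈ BB G c L v \ M, ∑ e' ∈ BB G c L w \ M, 4 / c0 ^ 2 * Cv μ e e'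
          ≤ ∑ e ∈ BB G c L v \ M, ∑ e' ∈ BB G c L w, 4 / c0 ^ 2 * Cv μ e e' :=
            Finset.sum_le_sum fun e _ => Finset.sum_le_sum_of_subset_of_nonneg Finset.sdiff_subset
              fun e' _ _ => mul_nonneg hK (cv_nonneg hμ hl e e')
        _ ≤ ∑ e ∈ BB G c L v, ∑ e' ∈ BB G c L w, 4 / c0 ^ 2 * Cv μ e e' :=
            Finset.sum_le_sum_of_subset_of_nonneg Finset.sdiff_subset
              fun e _ _ => Finset.sum_nonneg fun e' _ => mul_nonneg hK (cv_nonneg hμ hl e e')
        _ = ∑ e ∈ BB G c L v, 4 / c0 ^ 2 * ∑ e' ∈ BB G c L w, Cv μ e e' :=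
            Finset.sum_congr rfl fun e _ => (Finset.mul_sum _ _ _).symm
    -- the colour part
    have h3 : Psi (se G c) (te G c) η μ (insert v S) + Psi (se G c) (te G c) η μ (insert w S) =
        Psi (se G c) (te G c) η μ (insert v (insert w S)) + Psi (se G c) (te G c) η μ S := by
      unfold Psi Ex
      rw [← Finset.sum_add_distrib, ← Finset.sum_add_distrib]
      refine Finset.sum_congr rfl fun σ _ => ?_
      rw [← mul_add, ← mul_add]
      congr 1
      beta_reduce
      rw [Finset.sum_filter, Finset.sum_filter, Finset.sum_filter, Finset.sum_filter,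
        ← Finset.sum_add_distrib, ← Finset.sum_add_distrib]
      refine Finset.sum_congr rfl fun C hC => ?_
      simp only [Cvb_meet]
      by_cases hS : (C ∩ S).Nonempty
      · simp [hS]
      · by_cases hvC : v ∈ C
        · by_cases hwC : w ∈ C
          · have h4 : η C.card = 0 := by
              apply hηL
              have h5 := eq_cl hC hvC
              rw [h5] at hwC ⊢
              exact hfar.2 _ (mem_cl.1 hwC)
            simp [hS, hvC, hwC, h4]
          · simp [hS, hvC, hwC]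
        · by_cases hwC : w ∈ C
          · simp [hS, hvC, hwC]
          · simp [hS, hvC, hwC]
    unfold HH
    rw [e1, e2, e3, ← hM]
    linarith
  · have h1 := Finset.single_le_sum (f := fun S : Finset V => |HH G c η L μ (insert v S) +
      HH G c η L μ (insert w S) - HH G c η L μ (insert v (insert w S)) - HH G c η L μ S|)
      (fun S _ => abs_nonneg _) (mem_univ S)
    exact (le_abs_self _).trans h1

end PF
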