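import Pool.Agent.W_5dd92e_h55.Final

/-!
# MP_5dd92e_co, Potts targets with arbitrary external fields (helper6): definitions

Paper proof: proofs row 563.  Edge families: edge `i : ι` joins the vertices `s i` and `t i` of `W` (parallel
edges allowed, no loops needed).  Sets of open edges are finite sets `S : Finset ι`, or configurations
`σ : ι → Fin 2` with `op σ` the set of the open edges.
-/

set_option autoImplicit false

open Finset TPB
open scoped Classical

namespace PF

section Fam

variable {ι W : Type*} [Fintype ι] [Fintype W]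

/-- `a` and `b` are joined by edges of `S` -/
def Con (s t : ι → W) (S : Finset ι) (a b : W) : Prop :=
  Relation.EqvGen (fun x y => ∃ i ∈ S, s i = x ∧ t i = y) a b

/-- the vertices of the component of `a` -/
noncomputable def cl (s t : ι → W) (S : Finset ι) (a : W) : Finset W :=
  univ.filter (fun b => Con s t S a b)

/-- the components -/
noncomputable def Cls (s t : ι → W) (S : Finset ι) : Finset (Finset W) := univ.image (cl s t S)

/-- the number of edges of `S` in the component `C` -/
noncomputable def mE (s : ι → W) (S : Finset ι) (C : Finset W) : ℕ :=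
  (S.filter (fun i => s i ∈ C)).card

/-- the cluster weight -/
noncomputable def Phi (s t : ι → W) (F : ℕ → ℝ) (S : Finset ι) : ℝ := ∏ C ∈ Cls s t S, F C.card

/-- the ratio `Phi (S + i) / Phi S` -/
noncomputable def rat (s t : ι → W) (F : ℕ → ℝ) (S : Finset ι) (i : ι) : ℝ :=
  if Con s t S (s i) (t i) then 1
  else F ((cl s t S (s i)).card + (cl s t S (t i)).card) /
    (F (cl s t S (s i)).card * F (cl s t S (t i)).card)

/-- the cover with `k` sheets: the row ends -/
def sc (s : ι → W) (k : ℕ) : ι × Fin k → W × Fin k := fun p => (s p.1, p.2)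

/-- the cover with `k` sheets given by the permutations `π`: the column ends -/
def tc (t : ι → W) (k : ℕ) (π : ι → Equiv.Perm (Fin k)) : ι × Fin k → W × Fin k :=
  fun p => (t p.1, π p.1 p.2)

/-- the cluster expansion of the colour model -/
noncomputable def Zx {q : ℕ} (s t : ι → W) (a b : Fin q → ℝ) (ε : ℝ) : ℝ :=
  ∑ S : Finset ι, ε ^ S.card * ∏ C ∈ Cls s t S, ∑ k, a k ^ C.card * b k ^ mE s S C

/-- the partition function of the clusters -/
noncomputable def Zt (s t : ι → W) (F : ℕ → ℝ) (ε : ℝ) : ℝ :=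
  ∑ S : Finset ι, ε ^ S.card * Phi s t F S

/-- every component with a cycle has more than `L` vertices -/
def Gir (s t : ι → W) (L : ℕ) : Prop :=
  ∀ (S : Finset ι) (i : ι), i ∉ S → Con s t S (s i) (t i) → L < (cl s t S (s i)).card

end Fam

/-- admissible sequences (only the values at `n ≥ 1` matter) -/
structure Adm (F : ℕ → ℝ) : Prop where
  one : ∀ n, 1 ≤ n → 1 ≤ F n
  anti : ∀ n, 1 ≤ n → F (n + 1) ≤ F n
  conv : ∀ n, 1 ≤ n → F (n + 1) * F (n + 1) ≤ F n * F (n + 2)

/-- log-supermodular set functions -/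
def LSF {α : Type*} (Φ : Finset α → ℝ) : Prop := ∀ S T, Φ S * Φ T ≤ Φ (S ∩ T) * Φ (S ∪ T)

/-- the `i`-th level set of a subset of `E × Fin k`: the edges covered more than `i` times -/
noncomputable def lev {E : Type*} [Fintype E] {k : ℕ} (T : Finset (E × Fin k)) (i : ℕ) : Finset E :=
  univ.filter (fun e => i < (univ.filter (fun j : Fin k => (e, j) ∈ T)).card)

/-! ## Colours -/

/-- the normalised parameters: `a k = (x k / x o) ^ d`, `b k = (y k / x k ^ 2) / (y o / x o ^ 2)` -/
structure Dm {q : ℕ} (a b : Fin q → ℝ) (o : Fin q) : Prop where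
  apos : ∀ k, 0 < a k
  bnn : ∀ k, 0 ≤ b k
  ao : a o = 1
  bo : b o = 1
  dom : ∀ k, b k = 0 ∨ (a k ≤ 1 ∧ b k ≤ 1)

/-- the weight of a tree component with `n` vertices -/
noncomputable def fw {q : ℕ} (a b : Fin q → ℝ) (n : ℕ) : ℝ := ∑ k, a k ^ n * b k ^ (n - 1)

/-- the truncated weight -/
noncomputable def FF {q : ℕ} (a b : Fin q → ℝ) (κ : ℝ) (n : ℕ) : ℝ :=
  max 1 (Real.exp (-(κ * n)) * fw a b n)

/-- the law of the colour of a component with `n` vertices -/
noncomputable def pk {q : ℕ} (a b : Fin q → ℝ) (o : Fin q) (κ : ℝ) (n : ℕ) (k : Fin q) : ℝ :=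
  if 1 < Real.exp (-(κ * n)) * fw a b n then
    Real.exp (-(κ * n)) * (a k ^ n * b k ^ (n - 1)) / FF a b κ n
  else if k = o then 1 else 0

/-- the entropy of the colour of a component with `n` vertices -/
noncomputable def hh {q : ℕ} (a b : Fin q → ℝ) (o : Fin q) (κ : ℝ) (n : ℕ) : ℝ :=
  -∑ k, pk a b o κ n k * Real.log (pk a b o κ n k)

/-- the normalised target -/
noncomputable def Mn {q : ℕ} (d : ℕ) (a b : Fin q → ℝ) (ε : ℝ) (k l : Fin q) : ℝ :=
  (a k * a l) ^ (1 / (d : ℝ)) * (1 + if k = l then ε * b k else 0)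

/-! ## The edge family of a bipartite graph -/

section Graph

variable {V : Type*} [Fintype V]

/-- the edges, as a type (a definition, so that equality is decided classically) -/
def Eg (G : SimpleGraph V) (c : V → Bool) : Type _ := {p : V × V // p ∈ ed G c}

noncomputable instance (G : SimpleGraph V) (c : V → Bool) : Fintype (Eg G c) :=
  inferInstanceAs (Fintype {p : V × V // p ∈ ed G c})

/-- the row end of an edge -/
def se (G : SimpleGraph V) (c : V → Bool) (e : Eg G c) : V := (Subtype.val e).1

/-- the column end of an edge -/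
def te (G : SimpleGraph V) (c : V → Bool) (e : Eg G c) : V := (Subtype.val e).2

/-- the partition function of the covering graph -/
noncomputable def Zcov {q : ℕ} (G : SimpleGraph V) (c : V → Bool) (k : ℕ)
    (π : Eg G c → Equiv.Perm (Fin k)) (B : Fin q → Fin q → ℝ) : ℝ :=
  ∑ σ : V × Fin k → Fin q, ∏ p : Eg G c × Fin k,
    B (σ (sc (se G c) k p)) (σ (tc (te G c) k π p))

/-- the edges within distance `r` of `v` -/
noncomputable def BB (G : SimpleGraph V) (c : V → Bool) : ℕ → V → Finset (Eg G c)
  | 0, _ => ∅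
  | r + 1, v => univ.filter (fun e => se G c e = v ∨ te G c e = v) ∪
      (univ.filter (fun w => G.Adj v w)).biUnion (fun w => BB G c r w)

/-- the edges near a set -/
noncomputable def NB (G : SimpleGraph V) (c : V → Bool) (r : ℕ) (A : Finset V) : Finset (Eg G c) :=
  A.biUnion (BB G c r)

/-- the edge set of the r-th step of the chain at the edge `e` -/
noncomputable def DD (G : SimpleGraph V) (c : V → Bool) (r : ℕ) (e : Eg G c) : Finset (Eg G c) :=
  insert e (BB G c r (se G c e) ∪ BB G c r (te G c e))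

end Graph

/-! ## Configurations and entropy -/

/-- the open edges of a configuration -/
noncomputable def op {ι : Type*} [Fintype ι] (σ : ι → Fin 2) : Finset ι :=
  univ.filter (fun i => σ i = 1)

/-- the weight of a configuration -/
noncomputable def ww {ι W : Type*} [Fintype ι] [Fintype W] (s t : ι → W) (F : ℕ → ℝ) (ε : ℝ)
    (σ : ι → Fin 2) : ℝ := ε ^ (op σ).card * Phi s t F (op σ)

/-- the restriction of a configuration -/
noncomputable def res {ι : Type*} (D : Finset ι) (σ : ι → Fin 2) : ι → Fin 2 :=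
  fun i => if i ∈ D then σ i else 0

/-- the probability of a value -/
noncomputable def prf {Ω γ : Type*} [Fintype Ω] (P : Ω → ℝ) (f : Ω → γ) (y : γ) : ℝ :=
  ∑ ω ∈ univ.filter (fun ω => f ω = y), P ω

/-- the entropy of a function on a finite probability space -/
noncomputable def Ent {Ω γ : Type*} [Fintype Ω] (P : Ω → ℝ) (f : Ω → γ) : ℝ :=
  -∑ ω, P ω * Real.log (prf P f (f ω))

section Cov

variable {ι W : Type*} [Fintype ι] [Fintype W] {q : ℕ}

/-- the configuration and the colour of `v` -/
noncomputable def Pv1 (s t : ι → W) (K : ℕ → Fin q → ℝ) (μ : (ι → Fin 2) → ℝ) (v : W)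
    (ω : (ι → Fin 2) × Fin q) : ℝ := μ ω.1 * K (cl s t (op ω.1) v).card ω.2

/-- the configuration and the colours of the ends of `e` -/
noncomputable def Pe2 (s t : ι → W) (K : ℕ → Fin q → ℝ) (μ : (ι → Fin 2) → ℝ) (e : ι)
    (ω : (ι → Fin 2) × Fin q × Fin q) : ℝ :=
  μ ω.1 * (if e ∈ op ω.1 then
      (if ω.2.1 = ω.2.2 then K (cl s t (op ω.1) (s e)).card ω.2.1 else 0)
    else K (cl s t (op ω.1) (s e)).card ω.2.1 * K (cl s t (op ω.1) (t e)).card ω.2.2)

/-- entropy of the edges of `D` and the colour of `v` -/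
noncomputable def VD (s t : ι → W) (K : ℕ → Fin q → ℝ) (μ : (ι → Fin 2) → ℝ) (D : Finset ι)
    (v : W) : ℝ := Ent (Pv1 s t K μ v) (fun ω => (res D ω.1, ω.2))

/-- entropy of the edges of `D` and the colours of the ends of `e` -/
noncomputable def EE (s t : ι → W) (K : ℕ → Fin q → ℝ) (μ : (ι → Fin 2) → ℝ) (D : Finset ι)
    (e : ι) : ℝ := Ent (Pe2 s t K μ e) (fun ω => (res D ω.1, ω.2.1, ω.2.2))

/-- the part of the colour entropy seen from `A` -/
noncomputable def Psi (s t : ι → W) (η : ℕ → ℝ) (μ : (ι → Fin 2) → ℝ) (A : Finset W) : ℝ :=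
  Ex μ (fun σ => ∑ C ∈ (Cls s t (op σ)).filter (fun C => (C ∩ A).Nonempty), η C.card)

end Cov

/-- the extended entropy -/
noncomputable def HH {V : Type*} [Fintype V] (G : SimpleGraph V) (c : V → Bool) (η : ℕ → ℝ) (L : ℕ)
    (μ : (Eg G c → Fin 2) → ℝ) (A : Finset V) : ℝ :=
  Hs μ (NB G c L A) + Psi (se G c) (te G c) η μ A

/-- far apart: disjoint balls, and a component containing both has more than `L` vertices -/
def Far {V : Type*} [Fintype V] (G : SimpleGraph V) (c : V → Bool) (L : ℕ) (v w : V) : Prop :=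
  Disjoint (BB G c L v) (BB G c L w) ∧
    ∀ S : Finset (Eg G c), Con (se G c) (te G c) S v w → L < (cl (se G c) (te G c) S v).card

/-- the pair terms of the abstract entropy lemma -/
noncomputable def cvv {V : Type*} [Fintype V] (G : SimpleGraph V) (c : V → Bool) (η : ℕ → ℝ) (L : ℕ)
    (K : ℝ) (μ : (Eg G c → Fin 2) → ℝ) (v w : V) : ℝ :=
  if Far G c L v w then K * ∑ e ∈ BB G c L v, ∑ e' ∈ BB G c L w, Cv μ e e'
  else ∑ S : Finset V, |HH G c η L μ (insert v S) + HH G c η L μ (insert w S) -
    HH G c η L μ (insert v (insert w S)) - HH G c η L μ S|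

end PF
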