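import Pool.Agent.W_5dd92e_pf.Seq

/-! # The colour laws -/

set_option autoImplicit false

open Finset TPB
open scoped Classical

namespace PF

variable {q : ℕ} {a b : Fin q → ℝ} {o : Fin q}

private lemma Pk_ff {κ : ℝ} {n : ℕ} (ht : 1 < Real.exp (-(κ * n)) * fw a b n) :
    FF a b κ n = Real.exp (-(κ * n)) * fw a b n := by
  unfold FF
  exact max_eq_right ht.le

private lemma Pk_ff_pos (κ : ℝ) (n : ℕ) : 0 < FF a b κ n := by
  unfold FF
  exact lt_of_lt_of_le one_pos (le_max_left _ _)

private lemma Pk_not {κ : ℝ} {n : ℕ} (hF : FF a b κ n = 1) :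
    ¬ 1 < Real.exp (-(κ * n)) * fw a b n := by
  unfold FF at hF
  have := le_max_right (1 : ℝ) (Real.exp (-(κ * n)) * fw a b n)
  rw [hF] at this
  exact not_lt.mpr this

theorem pk_nn (h : Dm a b o) (κ : ℝ) (n : ℕ) (k : Fin q) : 0 ≤ pk a b o κ n k := by
  unfold pk
  split_ifs with h1 h2
  · exact div_nonneg (mul_nonneg (Real.exp_pos _).le
      (mul_nonneg (pow_nonneg (h.apos k).le _) (pow_nonneg (h.bnn k) _))) (Pk_ff_pos κ n).le
  · exact zero_le_one
  · exact le_rfl

/-- PROOF. if `exp (-κ n) fw n > 1` then `FF n = exp (-κ n) fw n`. -/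
theorem pk_sum (h : Dm a b o) (κ : ℝ) (n : ℕ) : ∑ k, pk a b o κ n k = 1 := by
  have _ := h
  unfold pk
  by_cases ht : 1 < Real.exp (-(κ * n)) * fw a b n
  · simp only [ht, if_true]
    rw [← Finset.sum_div, ← Finset.mul_sum]
    have h1 : Real.exp (-(κ * n)) * ∑ k, a k ^ n * b k ^ (n - 1) = FF a b κ n := by
      rw [Pk_ff ht]; rfl
    rw [h1]
    exact div_self (Pk_ff_pos κ n).ne'
  · simp only [ht, if_false]
    simp

theorem pk_one (κ : ℝ) (n : ℕ) (hF : FF a b κ n = 1) (k : Fin q) :
    pk a b o κ n k = if k = o then 1 else 0 := by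
  unfold pk
  rw [if_neg (Pk_not hF)]

/-- PROOF. if `n ≥ 2` and `b k = 0` then `b k ^ (n - 1) = 0`, and `b o = 1`. -/
theorem pk_supp (h : Dm a b o) (κ : ℝ) (n : ℕ) (hn : 2 ≤ n) (k : Fin q)
    (hk : 0 < pk a b o κ n k) : 0 < b k := by
  rcases (h.bnn k).eq_or_lt with h0 | h0
  · exfalso
    unfold pk at hk
    split_ifs at hk with h1 h2
    · rw [← h0, zero_pow (by omega)] at hk
      simp at hk
    · rw [h2, h.bo] at h0
      exact zero_ne_one h0
    · exact lt_irrefl _ hk
  · exact h0

private lemma Pk_le_one (h : Dm a b o) (κ : ℝ) (n : ℕ) (k : Fin q) : pk a b o κ n k ≤ 1 := by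
  rw [← pk_sum h κ n]
  exact Finset.single_le_sum (f := fun k => pk a b o κ n k)
    (fun i _ => pk_nn h κ n i) (Finset.mem_univ k)

theorem hh_nn (h : Dm a b o) (κ : ℝ) (n : ℕ) : 0 ≤ hh a b o κ n := by
  unfold hh
  rw [neg_nonneg]
  refine Finset.sum_nonpos fun k _ => ?_
  exact mul_nonpos_of_nonneg_of_nonpos (pk_nn h κ n k)
    (Real.log_nonpos (pk_nn h κ n k) (Pk_le_one h κ n k))

theorem hh_zero (κ : ℝ) (n : ℕ) (hF : FF a b κ n = 1) : hh a b o κ n = 0 := by
  unfold hh
  rw [neg_eq_zero]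
  refine Finset.sum_eq_zero fun k _ => ?_
  rw [pk_one κ n hF k]
  split_ifs <;> simp

/-- PROOF. If `FF n = 1` (`pk_one`, `hh_zero`): both sides are `0` as `a o = b o = 1`.  Otherwise
`FF n = exp (-κ n) fw n`, and for `pk n k > 0`: `log (pk n k) = - κ n + n log (a k) + (n - 1) log (b k) - log (FF n)`
(if `n = 1` the power `b k ^ 0 = 1` and the factor `n - 1 = 0`); multiply by `pk n k`, sum, `- κ n ≤ 0`. -/
theorem log_ff (h : Dm a b o) (κ : ℝ) (hκ : 0 ≤ κ) (n : ℕ) (hn : 1 ≤ n) :
    Real.log (FF a b κ n) ≤ hh a b o κ n + n * ∑ k, pk a b o κ n k * Real.log (a k) +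
      ((n : ℝ) - 1) * ∑ k, pk a b o κ n k * Real.log (b k) := by
  by_cases ht : 1 < Real.exp (-(κ * n)) * fw a b n
  · have key : ∀ k, pk a b o κ n k * Real.log (FF a b κ n) =
        -(κ * n) * pk a b o κ n k + n * (pk a b o κ n k * Real.log (a k)) +
        ((n : ℝ) - 1) * (pk a b o κ n k * Real.log (b k)) -
        pk a b o κ n k * Real.log (pk a b o κ n k) := by
      intro k
      by_cases h0 : pk a b o κ n k = 0
      · rw [h0]; ring
      · have e1 : pk a b o κ n k = Real.exp (-(κ * n)) * (a k ^ n * b k ^ (n - 1)) / FF a b κ n := by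
          unfold pk
          rw [if_pos ht]
        have hb : b k ^ (n - 1) ≠ 0 := by
          intro hb
          apply h0
          rw [e1, hb]
          simp
        have ha : a k ^ n ≠ 0 := pow_ne_zero _ (h.apos k).ne'
        have e2 : Real.log (pk a b o κ n k) =
            -(κ * n) + n * Real.log (a k) + ((n : ℝ) - 1) * Real.log (b k) -
              Real.log (FF a b κ n) := by
          rw [e1, Real.log_div (mul_ne_zero (Real.exp_pos _).ne' (mul_ne_zero ha hb))
            (Pk_ff_pos κ n).ne', Real.log_mul (Real.exp_pos _).ne' (mul_ne_zero ha hb),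
            Real.log_mul ha hb, Real.log_exp, Real.log_pow, Real.log_pow,
            Nat.cast_sub hn, Nat.cast_one]
          ring
        rw [e2]
        ring
    have hs : Real.log (FF a b κ n) = -(κ * n) + n * ∑ k, pk a b o κ n k * Real.log (a k) +
        ((n : ℝ) - 1) * ∑ k, pk a b o κ n k * Real.log (b k) -
        ∑ k, pk a b o κ n k * Real.log (pk a b o κ n k) := by
      calc Real.log (FF a b κ n) = (∑ k, pk a b o κ n k) * Real.log (FF a b κ n) := by
            rw [pk_sum h, one_mul]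
        _ = ∑ k, pk a b o κ n k * Real.log (FF a b κ n) := Finset.sum_mul _ _ _
        _ = ∑ k, (-(κ * n) * pk a b o κ n k + n * (pk a b o κ n k * Real.log (a k)) +
            ((n : ℝ) - 1) * (pk a b o κ n k * Real.log (b k)) -
            pk a b o κ n k * Real.log (pk a b o κ n k)) := Finset.sum_congr rfl fun k _ => key k
        _ = _ := by
            rw [Finset.sum_sub_distrib, Finset.sum_add_distrib, Finset.sum_add_distrib,
              ← Finset.mul_sum, ← Finset.mul_sum, ← Finset.mul_sum, pk_sum h]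
            ring
    have hκn : 0 ≤ κ * n := mul_nonneg hκ (Nat.cast_nonneg n)
    rw [hs]
    unfold hh
    linarith
  · have hF : FF a b κ n = 1 := by
      unfold FF
      exact max_eq_left (not_lt.mp ht)
    rw [hh_zero κ n hF, hF, Real.log_one]
    have e1 : ∑ k, pk a b o κ n k * Real.log (a k) = 0 := by
      refine Finset.sum_eq_zero fun k _ => ?_
      rw [pk_one κ n hF k]
      split_ifs with hk
      · rw [hk, h.ao]; simp
      · simp
    have e2 : ∑ k, pk a b o κ n k * Real.log (b k) = 0 := by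
      refine Finset.sum_eq_zero fun k _ => ?_
      rw [pk_one κ n hF k]
      split_ifs with hk
      · rw [hk, h.bo]; simp
      · simp
    rw [e1, e2]
    simp

end PF
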