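import Pool.Agent.W_5dd92e_pf.ChnA
import Pool.Agent.W_5dd92e_pf.Pk
import Pool.Agent.W_5dd92e_h55.GibC

/-! # The local inequality at an edge -/

set_option autoImplicit false

open Finset TPB
open scoped Classical

namespace PF

variable {V : Type*} [Fintype V] {q : ℕ}

private theorem EdgeI_Mn_le (d : ℕ) {a b : Fin q → ℝ} {o : Fin q} (hm : Dm a b o) (ε : ℝ)
    (hε : 0 < ε) (h : ℝ) (hh0 : 0 ≤ h) (k l : Fin q) :
    Mn d a b (ε * Real.exp h) k l ≤ Real.exp h * Mn d a b ε k l := by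
  unfold Mn
  have h1 : (0 : ℝ) ≤ (a k * a l) ^ (1 / (d : ℝ)) :=
    Real.rpow_nonneg (mul_nonneg (hm.apos k).le (hm.apos l).le) _
  have h2 : (1 : ℝ) ≤ Real.exp h := Real.one_le_exp hh0
  have h3 : 1 + (if k = l then ε * Real.exp h * b k else 0) ≤
      Real.exp h * (1 + if k = l then ε * b k else 0) := by
    split_ifs
    · nlinarith [mul_nonneg hε.le (hm.bnn k)]
    · linarith
  calc (a k * a l) ^ (1 / (d : ℝ)) * (1 + if k = l then ε * Real.exp h * b k else 0) ≤
      (a k * a l) ^ (1 / (d : ℝ)) * (Real.exp h * (1 + if k = l then ε * b k else 0)) :=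
        mul_le_mul_of_nonneg_left h3 h1
    _ = _ := by ring

theorem mn_pos (d : ℕ) {a b : Fin q → ℝ} {o : Fin q} (hm : Dm a b o) (ε : ℝ)
    (hε : 0 < ε) (k l : Fin q) : 0 < Mn d a b ε k l := by
  unfold Mn
  refine mul_pos (Real.rpow_pos_of_pos (mul_pos (hm.apos k) (hm.apos l)) _) ?_
  split_ifs
  · have := mul_nonneg hε.le (hm.bnn k)
    linarith
  · linarith

private theorem EdgeI_single (o : Fin q) : Pv (Pi.single o (1 : ℝ) : Fin q → ℝ) := by
  refine ⟨fun i => ?_, ?_⟩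
  · by_cases h : i = o
    · rw [h, Pi.single_eq_same]
      exact zero_le_one
    · rw [Pi.single_eq_of_ne h]
  · rw [Finset.sum_pi_single']
    exact if_pos (Finset.mem_univ _)

/-- PROOF. `Mn` with `ε e^h` is at most `e^h Mn` with `ε`, entrywise (`h ≥ 0`) -/
theorem nn_field (d : ℕ) (hd : 1 ≤ d) {a b : Fin q → ℝ} {o : Fin q} (hm : Dm a b o) (ε : ℝ)
    (hε : 0 < ε) (h : ℝ) (hh0 : 0 ≤ h) :
    NN d (Mn d a b (ε * Real.exp h)) ≤ Real.exp h * NN d (Mn d a b ε) := by
  refine csSup_le ?_ ?_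
  · exact ⟨_, Pi.single o 1, Pi.single o 1, EdgeI_single o, EdgeI_single o, rfl⟩
  · rintro x ⟨p, p', hp, hp', rfl⟩
    have h1 : form d (Mn d a b (ε * Real.exp h)) p p' ≤
        Real.exp h * form d (Mn d a b ε) p p' := by
      unfold form
      rw [Finset.mul_sum]
      refine Finset.sum_le_sum fun i _ => ?_
      rw [Finset.mul_sum]
      refine Finset.sum_le_sum fun j _ => ?_
      rw [← mul_assoc]
      exact mul_le_mul_of_nonneg_right (EdgeI_Mn_le d hm ε hε h hh0 i j)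
        (Real.rpow_nonneg (mul_nonneg (hp.1 i) (hp'.1 j)) _)
    refine h1.trans (mul_le_mul_of_nonneg_left ?_ (Real.exp_pos h).le)
    exact form_le_NN d hd _ (fun i j => (mn_pos d hm ε hε i j).le) p p' hp hp'

section
variable {ι W : Type*} [Fintype ι] [Fintype W]

/-- the law of the colour of `v` -/
private noncomputable def EdgeI_p (s t : ι → W) (K : ℕ → Fin q → ℝ) (μ : (ι → Fin 2) → ℝ) (v : W)
    (k : Fin q) : ℝ := ∑ σ, μ σ * K (cl s t (op σ) v).card k

private theorem EdgeI_sum (s t : ι → W) (K : ℕ → Fin q → ℝ) (μ : (ι → Fin 2) → ℝ) (v : W)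
    (g : (ι → Fin 2) → Fin q → ℝ) :
    ∑ y, Pv1 s t K μ v y * g y.1 y.2 =
      Ex μ (fun σ => ∑ k, K (cl s t (op σ) v).card k * g σ k) := by
  unfold Ex Pv1
  rw [Fintype.sum_prod_type]
  refine Finset.sum_congr rfl fun σ _ => ?_
  rw [Finset.mul_sum]
  refine Finset.sum_congr rfl fun k _ => ?_
  simp only
  ring

private theorem EdgeI_VD (s t : ι → W) (K : ℕ → Fin q → ℝ) (μ : (ι → Fin 2) → ℝ) (v : W) :
    VD s t K μ ∅ v = -∑ y, Pv1 s t K μ v y * Real.log (EdgeI_p s t K μ v y.2) := by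
  unfold VD Ent
  congr 1
  refine Finset.sum_congr rfl fun ω _ => ?_
  congr 2
  unfold prf EdgeI_p
  rw [Finset.sum_filter, Fintype.sum_prod_type]
  refine Finset.sum_congr rfl fun σ _ => ?_
  have hr : res (∅ : Finset ι) σ = res ∅ ω.1 := by
    funext i
    simp [res]
  refine (Finset.sum_congr rfl (fun k _ => ?_)).trans
    ((Finset.sum_ite_eq' univ ω.2 (fun k => μ σ * K (cl s t (op σ) v).card k)).trans
      (if_pos (mem_univ _)))
  by_cases hk : k = ω.2
  · rw [if_pos (Prod.ext hr hk), if_pos hk]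
    rfl
  · rw [if_neg (fun hh => hk (Prod.mk.inj hh).2), if_neg hk]

private theorem EdgeI_Pv (s t : ι → W) (K : ℕ → Fin q → ℝ) (hK0 : ∀ n k, 0 ≤ K n k)
    (hK1 : ∀ n, ∑ k, K n k = 1) {μ : (ι → Fin 2) → ℝ} (hμ : PW μ) (v : W) :
    Pv (EdgeI_p s t K μ v) := by
  refine ⟨fun k => Finset.sum_nonneg fun σ _ => mul_nonneg (hμ.pos σ).le (hK0 _ _), ?_⟩
  unfold EdgeI_p
  rw [Finset.sum_comm]
  rw [← hμ.sum]
  refine Finset.sum_congr rfl fun σ _ => ?_
  rw [← Finset.mul_sum, hK1, mul_one]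

private theorem EdgeI_two (s t : ι → W) (e : ι) (h : s e ≠ t e) (S : Finset ι) (he : e ∈ S) :
    2 ≤ (cl s t S (s e)).card := by
  have h1 : s e ∈ cl s t S (s e) := by
    unfold cl
    rw [mem_filter]
    exact ⟨mem_univ _, Relation.EqvGen.refl _⟩
  have h2 : t e ∈ cl s t S (s e) := by
    unfold cl
    rw [mem_filter]
    exact ⟨mem_univ _, Relation.EqvGen.rel _ _ ⟨e, he, rfl, rfl⟩⟩
  have h3 : ({s e, t e} : Finset W) ⊆ cl s t S (s e) := by
    intro x hx
    rw [mem_insert, mem_singleton] at hx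
    rcases hx with rfl | rfl
    · exact h1
    · exact h2
  calc 2 = ({s e, t e} : Finset W).card := (Finset.card_pair h).symm
    _ ≤ _ := Finset.card_le_card h3

/-- the comparison function -/
private noncomputable def EdgeI_Q (d : ℕ) (a b : Fin q → ℝ) (ε' : ℝ) (p p' : Fin q → ℝ) (e : ι)
    (y : (ι → Fin 2) × Fin q × Fin q) : ℝ :=
  ((if y.1 = res {e} (fun _ => 1) then (if y.2.1 = y.2.2 then ε' * b y.2.1 else 0) else 0) +
    (if y.1 = res {e} (fun _ => 0) then 1 else 0)) *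
    ((a y.2.1 * a y.2.2) ^ (1 / (d : ℝ)) * (p y.2.1 * p' y.2.2) ^ (((d : ℝ) - 1) / d))

private theorem EdgeI_Q_sum (d : ℕ) (a b : Fin q → ℝ) (ε' : ℝ) (p p' : Fin q → ℝ) (e : ι) :
    ∑ y, EdgeI_Q d a b ε' p p' e y = form d (Mn d a b ε') p p' := by
  unfold EdgeI_Q form Mn
  rw [Fintype.sum_prod_type, Finset.sum_comm, Fintype.sum_prod_type]
  refine Finset.sum_congr rfl fun k _ => Finset.sum_congr rfl fun l _ => ?_
  simp only
  rw [← Finset.sum_mul, Finset.sum_add_distrib, Finset.sum_ite_eq', Finset.sum_ite_eq',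
    if_pos (mem_univ _), if_pos (mem_univ _)]
  ring

private theorem EdgeI_res_ne (e : ι) :
    res ({e} : Finset ι) (fun _ => (1 : Fin 2)) ≠ res {e} (fun _ => 0) := by
  intro h
  have := (res_eq_iff _ _ _).1 h e (mem_singleton_self e)
  exact absurd this (by decide)

private theorem EdgeI_res_one (e : ι) (σ : ι → Fin 2) (h : e ∈ op σ) :
    res ({e} : Finset ι) σ = res {e} (fun _ => 1) := by
  rw [res_eq_iff]
  intro i hi
  rw [mem_singleton] at hi
  subst hi
  exact (mem_op σ i).1 h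

private theorem EdgeI_res_zero (e : ι) (σ : ι → Fin 2) (h : e ∉ op σ) :
    res ({e} : Finset ι) σ = res {e} (fun _ => 0) := by
  rw [res_eq_iff]
  intro i hi
  rw [mem_singleton] at hi
  subst hi
  rw [mem_op] at h
  have h2 : ∀ x : Fin 2, x ≠ 1 → x = 0 := by decide
  exact h2 _ h

end

/-- PROOF (proofs row 563, (3.5)).  Let `P = Pe2 .. e`, `p k = ∑ μ σ pk |cl (s e)| k`, `p' l` the same at `t e` (probability
vectors; the laws of the colours, `pe2_left`, `pe2_right`, `sum_map`).  `ent_gibbs` for the function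
`f ω = (res {e} ω.1, ω.2.1, ω.2.2)` and
`Q (ρ, k, l) = (if ρ e = 1 then (if k = l then ε e^h b k else 0) else 1) * (a k a l)^(1/d) * (p k p' l)^(1 - 1/d)` for the two
`ρ` in the image of `res {e}` and `0` for the others.  It is positive where `P > 0`: then `p k, p' l > 0`, and if `e` is open
the component has at least two vertices (`se_ne_te`), `pk_supp`.
`Ent P (colour of s e) = VD ∅ (s e) = - ∑ P log (p k)`, and `∑_{k, l} Q = form (Mn with ε e^h) p p' ≤ NN`
(`TPB.form_le_NN`), `nn_field`. -/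
theorem edge_ineq2 (G : SimpleGraph V) (c : V → Bool) (hc : Prp G c) (d : ℕ) (hd : 1 ≤ d)
    {a b : Fin q → ℝ} {o : Fin q} (hm : Dm a b o) (κ : ℝ) (ε : ℝ) (hε : 0 < ε) (h : ℝ)
    (hh0 : 0 ≤ h) (μ : (Eg G c → Fin 2) → ℝ) (hμ : PW μ) (e : Eg G c) :
    EE (se G c) (te G c) (pk a b o κ) μ {e} e -
        (1 - 1 / (d : ℝ)) * (VD (se G c) (te G c) (pk a b o κ) μ ∅ (se G c e) +
          VD (se G c) (te G c) (pk a b o κ) μ ∅ (te G c e)) +
        Ex μ (fun σ => if e ∈ op σ then Real.log ε + h else 0) +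
        1 / (d : ℝ) * (Ex μ (fun σ => ∑ k, pk a b o κ (cl (se G c) (te G c) (op σ)
            (se G c e)).card k * Real.log (a k)) +
          Ex μ (fun σ => ∑ k, pk a b o κ (cl (se G c) (te G c) (op σ)
            (te G c e)).card k * Real.log (a k))) +
        Ex μ (fun σ => if e ∈ op σ then ∑ k, pk a b o κ (cl (se G c) (te G c) (op σ)
            (se G c e)).card k * Real.log (b k) else 0) ≤
      h + Real.log (NN d (Mn d a b ε)) := by
  have hK0 : ∀ n k, 0 ≤ pk a b o κ n k := fun n k => pk_nn hm κ n k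
  have hK1 : ∀ n, ∑ k, pk a b o κ n k = 1 := fun n => pk_sum hm κ n
  generalize hKd : pk a b o κ = K at hK0 hK1 ⊢
  have hd' : (1 : ℝ) ≤ d := by exact_mod_cast hd
  obtain ⟨hP0, hP1⟩ := pe2_prob G c K hK0 hK1 μ hμ e
  have hL : ∀ g : (Eg G c → Fin 2) → Fin q → ℝ,
      ∑ ω, Pe2 (se G c) (te G c) K μ e ω * g ω.1 ω.2.1 =
        Ex μ (fun σ => ∑ k, K (cl (se G c) (te G c) (op σ) (se G c e)).card k * g σ k) := by
    intro g
    rw [← EdgeI_sum]
    exact sum_map _ (fun ω : (Eg G c → Fin 2) × Fin q × Fin q => (ω.1, ω.2.1)) _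
      (fun y => pe2_left G c K hK1 μ e y) (fun y => g y.1 y.2)
  have hR : ∀ g : (Eg G c → Fin 2) → Fin q → ℝ,
      ∑ ω, Pe2 (se G c) (te G c) K μ e ω * g ω.1 ω.2.2 =
        Ex μ (fun σ => ∑ k, K (cl (se G c) (te G c) (op σ) (te G c e)).card k * g σ k) := by
    intro g
    rw [← EdgeI_sum]
    exact sum_map _ (fun ω : (Eg G c → Fin 2) × Fin q × Fin q => (ω.1, ω.2.2)) _
      (fun y => pe2_right G c K hK1 μ e y) (fun y => g y.1 y.2)
  set p := EdgeI_p (se G c) (te G c) K μ (se G c e) with hp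
  set p' := EdgeI_p (se G c) (te G c) K μ (te G c e) with hp'
  have hpv : Pv p := EdgeI_Pv _ _ K hK0 hK1 hμ _
  have hpv' : Pv p' := EdgeI_Pv _ _ K hK0 hK1 hμ _
  -- positivity of the marginals
  have hpp : ∀ ω, 0 < Pe2 (se G c) (te G c) K μ e ω → 0 < p ω.2.1 := by
    intro ω hω
    have h1 := hL (fun _ k => if k = ω.2.1 then 1 else 0)
    have h2 : Ex μ (fun σ => ∑ k, K (cl (se G c) (te G c) (op σ) (se G c e)).card k *
        (if k = ω.2.1 then 1 else 0)) = p ω.2.1 := by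
      rw [hp]
      unfold Ex EdgeI_p
      refine Finset.sum_congr rfl fun σ _ => ?_
      congr 1
      simp
    rw [h2] at h1
    rw [← h1]
    refine lt_of_lt_of_le ?_ (Finset.single_le_sum (f := fun ω' =>
      Pe2 (se G c) (te G c) K μ e ω' * (if ω'.2.1 = ω.2.1 then 1 else 0)) ?_ (mem_univ ω))
    · simp only [if_true, mul_one]
      exact hω
    · intro ω' _
      refine mul_nonneg (hP0 ω') ?_
      split_ifs <;> norm_num
  have hpp' : ∀ ω, 0 < Pe2 (se G c) (te G c) K μ e ω → 0 < p' ω.2.2 := by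
    intro ω hω
    have h1 := hR (fun _ k => if k = ω.2.2 then 1 else 0)
    have h2 : Ex μ (fun σ => ∑ k, K (cl (se G c) (te G c) (op σ) (te G c e)).card k *
        (if k = ω.2.2 then 1 else 0)) = p' ω.2.2 := by
      rw [hp']
      unfold Ex EdgeI_p
      refine Finset.sum_congr rfl fun σ _ => ?_
      congr 1
      simp
    rw [h2] at h1
    rw [← h1]
    refine lt_of_lt_of_le ?_ (Finset.single_le_sum (f := fun ω' =>
      Pe2 (se G c) (te G c) K μ e ω' * (if ω'.2.2 = ω.2.2 then 1 else 0)) ?_ (mem_univ ω))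
    · simp only [if_true, mul_one]
      exact hω
    · intro ω' _
      refine mul_nonneg (hP0 ω') ?_
      split_ifs <;> norm_num
  -- open edges
  have hop : ∀ ω, 0 < Pe2 (se G c) (te G c) K μ e ω → e ∈ op ω.1 →
      ω.2.1 = ω.2.2 ∧ 0 < b ω.2.1 := by
    intro ω hω he
    unfold Pe2 at hω
    rw [if_pos he] at hω
    by_cases hk : ω.2.1 = ω.2.2
    · rw [if_pos hk] at hω
      refine ⟨hk, ?_⟩
      have h2 : 0 < K (cl (se G c) (te G c) (op ω.1) (se G c e)).card ω.2.1 :=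
        pos_of_mul_pos_right hω (hμ.pos _).le
      rw [← hKd] at h2
      exact pk_supp hm κ _ (EdgeI_two _ _ e (se_ne_te G c hc e) _ he) _ h2
    · rw [if_neg hk, mul_zero] at hω
      exact absurd hω (lt_irrefl _)
  have hε' : 0 < ε * Real.exp h := mul_pos hε (Real.exp_pos h)
  have hA : ∀ k l, 0 < (a k * a l) ^ (1 / (d : ℝ)) := fun k l =>
    Real.rpow_pos_of_pos (mul_pos (hm.apos k) (hm.apos l)) _
  have hT0 : ∀ k l, 0 ≤ (p k * p' l) ^ (((d : ℝ) - 1) / d) := fun k l =>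
    Real.rpow_nonneg (mul_nonneg (hpv.1 k) (hpv'.1 l)) _
  have hQ0 : ∀ y, 0 ≤ EdgeI_Q d a b (ε * Real.exp h) p p' e y := by
    intro y
    unfold EdgeI_Q
    refine mul_nonneg (add_nonneg ?_ ?_) (mul_nonneg (hA _ _).le (hT0 _ _))
    · split_ifs
      · exact mul_nonneg hε'.le (hm.bnn _)
      · exact le_rfl
      · exact le_rfl
    · split_ifs <;> norm_num
  -- the value of `Q` where `P` is positive
  have hQe : ∀ ω, 0 < Pe2 (se G c) (te G c) K μ e ω →
      0 < EdgeI_Q d a b (ε * Real.exp h) p p' e (res {e} ω.1, ω.2.1, ω.2.2) ∧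
      Real.log (EdgeI_Q d a b (ε * Real.exp h) p p' e (res {e} ω.1, ω.2.1, ω.2.2)) =
        (if e ∈ op ω.1 then Real.log ε + h else 0) + (if e ∈ op ω.1 then Real.log (b ω.2.1) else 0)
        + 1 / (d : ℝ) * Real.log (a ω.2.1) + 1 / (d : ℝ) * Real.log (a ω.2.2) +
        (1 - 1 / (d : ℝ)) * Real.log (p ω.2.1) + (1 - 1 / (d : ℝ)) * Real.log (p' ω.2.2) := by
    intro ω hω
    have h1 := hpp ω hω
    have h2 := hpp' ω hω
    have hT : 0 < (p ω.2.1 * p' ω.2.2) ^ (((d : ℝ) - 1) / d) :=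
      Real.rpow_pos_of_pos (mul_pos h1 h2) _
    have hlog : Real.log ((a ω.2.1 * a ω.2.2) ^ (1 / (d : ℝ)) *
        (p ω.2.1 * p' ω.2.2) ^ (((d : ℝ) - 1) / d)) =
        1 / (d : ℝ) * Real.log (a ω.2.1) + 1 / (d : ℝ) * Real.log (a ω.2.2) +
        (1 - 1 / (d : ℝ)) * Real.log (p ω.2.1) + (1 - 1 / (d : ℝ)) * Real.log (p' ω.2.2) := by
      rw [Real.log_mul (hA _ _).ne' hT.ne', Real.log_rpow (mul_pos (hm.apos _) (hm.apos _)),
        Real.log_rpow (mul_pos h1 h2), Real.log_mul (hm.apos _).ne' (hm.apos _).ne',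
        Real.log_mul h1.ne' h2.ne']
      have ht : ((d : ℝ) - 1) / d = 1 - 1 / (d : ℝ) := by
        rw [sub_div, div_self (by linarith)]
      rw [ht]
      ring
    by_cases he : e ∈ op ω.1
    · obtain ⟨hkl, hb⟩ := hop ω hω he
      have hval : EdgeI_Q d a b (ε * Real.exp h) p p' e (res {e} ω.1, ω.2.1, ω.2.2) =
          (ε * Real.exp h * b ω.2.1) * ((a ω.2.1 * a ω.2.2) ^ (1 / (d : ℝ)) *
            (p ω.2.1 * p' ω.2.2) ^ (((d : ℝ) - 1) / d)) := by
        unfold EdgeI_Q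
        simp only
        rw [EdgeI_res_one e ω.1 he, if_pos rfl, if_pos hkl, if_neg (EdgeI_res_ne e), add_zero]
      rw [hval]
      refine ⟨mul_pos (mul_pos hε' hb) (mul_pos (hA _ _) hT), ?_⟩
      rw [Real.log_mul (mul_pos hε' hb).ne' (mul_pos (hA _ _) hT).ne', hlog,
        Real.log_mul hε'.ne' hb.ne', Real.log_mul hε.ne' (Real.exp_pos h).ne', Real.log_exp,
        if_pos he, if_pos he]
      ring
    · have hval : EdgeI_Q d a b (ε * Real.exp h) p p' e (res {e} ω.1, ω.2.1, ω.2.2) =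
          (a ω.2.1 * a ω.2.2) ^ (1 / (d : ℝ)) *
            (p ω.2.1 * p' ω.2.2) ^ (((d : ℝ) - 1) / d) := by
        unfold EdgeI_Q
        simp only
        rw [EdgeI_res_zero e ω.1 he, if_neg (EdgeI_res_ne e).symm, if_pos rfl, zero_add, one_mul]
      rw [hval]
      refine ⟨mul_pos (hA _ _) hT, ?_⟩
      rw [hlog, if_neg he, if_neg he]
      ring
  have hgib := ent_gibbs hP0 hP1 (fun ω => (res {e} ω.1, ω.2.1, ω.2.2))
    (EdgeI_Q d a b (ε * Real.exp h) p p' e) hQ0 (fun ω hω => (hQe ω hω).1)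
  -- the sum of the logarithms
  have hsum : ∑ ω, Pe2 (se G c) (te G c) K μ e ω *
      Real.log (EdgeI_Q d a b (ε * Real.exp h) p p' e (res {e} ω.1, ω.2.1, ω.2.2)) =
      Ex μ (fun σ => if e ∈ op σ then Real.log ε + h else 0) +
      Ex μ (fun σ => if e ∈ op σ then ∑ k, K (cl (se G c) (te G c) (op σ)
            (se G c e)).card k * Real.log (b k) else 0) +
      1 / (d : ℝ) * Ex μ (fun σ => ∑ k, K (cl (se G c) (te G c) (op σ)
            (se G c e)).card k * Real.log (a k)) +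
      1 / (d : ℝ) * Ex μ (fun σ => ∑ k, K (cl (se G c) (te G c) (op σ)
            (te G c e)).card k * Real.log (a k)) +
      (1 - 1 / (d : ℝ)) * (-VD (se G c) (te G c) K μ ∅ (se G c e)) +
      (1 - 1 / (d : ℝ)) * (-VD (se G c) (te G c) K μ ∅ (te G c e)) := by
    have e0 : ∀ ω, Pe2 (se G c) (te G c) K μ e ω *
        Real.log (EdgeI_Q d a b (ε * Real.exp h) p p' e (res {e} ω.1, ω.2.1, ω.2.2)) =
        Pe2 (se G c) (te G c) K μ e ω * (if e ∈ op ω.1 then Real.log ε + h else 0) +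
        Pe2 (se G c) (te G c) K μ e ω * (if e ∈ op ω.1 then Real.log (b ω.2.1) else 0) +
        1 / (d : ℝ) * (Pe2 (se G c) (te G c) K μ e ω * Real.log (a ω.2.1)) +
        1 / (d : ℝ) * (Pe2 (se G c) (te G c) K μ e ω * Real.log (a ω.2.2)) +
        (1 - 1 / (d : ℝ)) * (Pe2 (se G c) (te G c) K μ e ω * Real.log (p ω.2.1)) +
        (1 - 1 / (d : ℝ)) * (Pe2 (se G c) (te G c) K μ e ω * Real.log (p' ω.2.2)) := by
      intro ω
      rcases (hP0 ω).eq_or_lt with h0 | h0
      · rw [← h0]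
        ring
      · rw [(hQe ω h0).2]
        ring
    have e1 : ∑ ω, Pe2 (se G c) (te G c) K μ e ω * (if e ∈ op ω.1 then Real.log ε + h else 0) =
        Ex μ (fun σ => if e ∈ op σ then Real.log ε + h else 0) := by
      rw [hL (fun σ _ => if e ∈ op σ then Real.log ε + h else 0)]
      unfold Ex
      refine Finset.sum_congr rfl fun σ _ => ?_
      simp only [← Finset.sum_mul, hK1, one_mul]
    have e2 : ∑ ω, Pe2 (se G c) (te G c) K μ e ω *
        (if e ∈ op ω.1 then Real.log (b ω.2.1) else 0) =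
        Ex μ (fun σ => if e ∈ op σ then ∑ k, K (cl (se G c) (te G c) (op σ)
            (se G c e)).card k * Real.log (b k) else 0) := by
      rw [hL (fun σ k => if e ∈ op σ then Real.log (b k) else 0)]
      unfold Ex
      refine Finset.sum_congr rfl fun σ _ => ?_
      by_cases he : e ∈ op σ
      · simp only [if_pos he]
      · simp only [if_neg he, mul_zero, Finset.sum_const_zero]
    have e3 := hL (fun _ k => Real.log (a k))
    have e4 := hR (fun _ k => Real.log (a k))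
    have e5 : ∑ ω, Pe2 (se G c) (te G c) K μ e ω * Real.log (p ω.2.1) =
        -VD (se G c) (te G c) K μ ∅ (se G c e) := by
      rw [hL (fun _ k => Real.log (p k)), ← EdgeI_sum, EdgeI_VD, neg_neg]
    have e6 : ∑ ω, Pe2 (se G c) (te G c) K μ e ω * Real.log (p' ω.2.2) =
        -VD (se G c) (te G c) K μ ∅ (te G c e) := by
      rw [hR (fun _ k => Real.log (p' k)), ← EdgeI_sum, EdgeI_VD, neg_neg]
    rw [Finset.sum_congr rfl fun ω _ => e0 ω]
    simp only [Finset.sum_add_distrib, ← Finset.mul_sum]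
    rw [e1, e2, e3, e4, e5, e6]
  rw [hsum, EdgeI_Q_sum] at hgib
  have hEE : EE (se G c) (te G c) K μ {e} e =
      Ent (Pe2 (se G c) (te G c) K μ e) (fun ω => (res {e} ω.1, ω.2.1, ω.2.2)) := rfl
  rw [← hEE] at hgib
  -- the final bound
  have hNp : 0 < NN d (Mn d a b ε) := NN_pos d hd (Fin.pos o) _ (fun i j => mn_pos d hm ε hε i j)
  have hform : 0 < form d (Mn d a b (ε * Real.exp h)) p p' := by
    obtain ⟨ω, hω⟩ : ∃ ω, 0 < Pe2 (se G c) (te G c) K μ e ω := by
      by_contra hcon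
      push Not at hcon
      have : ∑ ω, Pe2 (se G c) (te G c) K μ e ω ≤ 0 := Finset.sum_nonpos fun ω _ => hcon ω
      rw [hP1] at this
      linarith
    rw [← EdgeI_Q_sum d a b (ε * Real.exp h) p p' e]
    refine lt_of_lt_of_le (hQe ω hω).1 ?_
    exact Finset.single_le_sum (fun y _ => hQ0 y) (mem_univ _)
  have hfin : Real.log (form d (Mn d a b (ε * Real.exp h)) p p') ≤
      h + Real.log (NN d (Mn d a b ε)) := by
    have h1 : form d (Mn d a b (ε * Real.exp h)) p p' ≤ Real.exp h * NN d (Mn d a b ε) :=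
      (form_le_NN d hd _ (fun i j => (mn_pos d hm _ hε' i j).le) p p' hpv hpv').trans
        (nn_field d hd hm ε hε h hh0)
    calc Real.log (form d (Mn d a b (ε * Real.exp h)) p p') ≤
        Real.log (Real.exp h * NN d (Mn d a b ε)) := Real.log_le_log hform h1
      _ = _ := by rw [Real.log_mul (Real.exp_pos h).ne' hNp.ne', Real.log_exp]
  linarith [hgib.trans hfin]

end PF
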