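import Pool.Agent.W_5dd92e_pf.CluB
import Pool.Agent.W_5dd92e_pf.Pk

/-! # The energy of the clusters -/

set_option autoImplicit false

open Finset TPB
open scoped Classical

namespace PF

variable {ι W : Type*} [Fintype W] {q : ℕ}

private theorem Ener_step (s t : ι → W) {a b : Fin q → ℝ} {o : Fin q} (h : Dm a b o) (κ : ℝ)
    (hκ : 0 ≤ κ) (L : ℕ) (hL : ∀ n, L < n → FF a b κ n = 1) (hG : Gir s t L) (S : Finset ι)
    (C : Finset W) (hC : C ∈ Cls s t S) :
    Real.log (FF a b κ C.card) ≤ hh a b o κ C.card +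
      (C.card : ℝ) * ∑ k, pk a b o κ C.card k * Real.log (a k) +
      (mE s S C : ℝ) * ∑ k, pk a b o κ C.card k * Real.log (b k) := by
  have h1 : 1 ≤ C.card := by
    obtain ⟨v, rfl⟩ := mem_Cls.1 hC
    exact cl_card_pos S v
  by_cases hc : C.card ≤ L
  · have h2 := card_eq_mE L hG S C hC hc
    have h3 : (mE s S C : ℝ) = (C.card : ℝ) - 1 := by
      have h4 : (C.card : ℝ) = (mE s S C : ℝ) + 1 := by exact_mod_cast h2
      linarith
    rw [h3]
    exact log_ff h κ hκ C.card h1
  · have hF := hL C.card (not_le.mp hc)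
    have e1 : ∑ k, pk a b o κ C.card k * Real.log (a k) = 0 := by
      refine Finset.sum_eq_zero fun k _ => ?_
      rw [pk_one κ _ hF k]
      split_ifs with hk
      · rw [hk, h.ao]; simp
      · simp
    have e2 : ∑ k, pk a b o κ C.card k * Real.log (b k) = 0 := by
      refine Finset.sum_eq_zero fun k _ => ?_
      rw [pk_one κ _ hF k]
      split_ifs with hk
      · rw [hk, h.bo]; simp
      · simp
    rw [hh_zero κ _ hF, hF, e1, e2]
    simp

/-- PROOF. `log Phi = ∑_C log (FF |C|)`.  If `|C| ≤ L`: `log_ff` with `|C| - 1 = mE S C` (`card_eq_mE`).  If `|C| > L`: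
`FF = 1`, `log = 0`, `hh_zero`, and `pk` is the point mass at `o` (`pk_one`) with `log (a o) = log (b o) = 0`.  Then
`sum_Cls`, `sum_Cls_edges` (`eq_cl`). -/
theorem log_phi (s t : ι → W) {a b : Fin q → ℝ} {o : Fin q} (h : Dm a b o) (κ : ℝ)
    (hκ : 0 ≤ κ) (L : ℕ) (hL : ∀ n, L < n → FF a b κ n = 1) (hG : Gir s t L) (S : Finset ι) :
    Real.log (Phi s t (FF a b κ) S) ≤ ∑ C ∈ Cls s t S, hh a b o κ C.card +
      ∑ v, ∑ k, pk a b o κ (cl s t S v).card k * Real.log (a k) +
      ∑ i ∈ S, ∑ k, pk a b o κ (cl s t S (s i)).card k * Real.log (b k) := by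
  have hlog : Real.log (Phi s t (FF a b κ) S) = ∑ C ∈ Cls s t S, Real.log (FF a b κ C.card) := by
    unfold Phi
    refine Real.log_prod fun C hC => ?_
    unfold FF
    exact (lt_of_lt_of_le one_pos (le_max_left _ _)).ne'
  have hv : ∑ v, ∑ k, pk a b o κ (cl s t S v).card k * Real.log (a k) =
      ∑ C ∈ Cls s t S, (C.card : ℝ) * ∑ k, pk a b o κ C.card k * Real.log (a k) := by
    rw [← sum_Cls (s := s) (t := t) S]
    refine Finset.sum_congr rfl fun C hC => ?_
    rw [Finset.sum_congr rfl fun v hv => by rw [← eq_cl hC hv], Finset.sum_const, nsmul_eq_mul]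
  have he : ∑ i ∈ S, ∑ k, pk a b o κ (cl s t S (s i)).card k * Real.log (b k) =
      ∑ C ∈ Cls s t S, (mE s S C : ℝ) * ∑ k, pk a b o κ C.card k * Real.log (b k) := by
    rw [← sum_Cls_edges (s := s) (t := t) S]
    refine Finset.sum_congr rfl fun C hC => ?_
    rw [Finset.sum_congr rfl fun i hi => by
      rw [← eq_cl hC (Finset.mem_filter.mp hi).2], Finset.sum_const, nsmul_eq_mul]
    rfl
  rw [hlog, hv, he, ← Finset.sum_add_distrib, ← Finset.sum_add_distrib]
  exact Finset.sum_le_sum fun C hC => Ener_step s t h κ hκ L hL hG S C hC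

end PF
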