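import Pool.Agent.W_5dd92e_pf.Defs

/-! # Entropy of functions on a finite probability space -/

set_option autoImplicit false

open Finset TPB
open scoped Classical

namespace PF

variable {Ω : Type*} [Fintype Ω] {γ δ ζ β : Type*} {P : Ω → ℝ}

private theorem EntF_prf_nonneg (hP : ∀ ω, 0 ≤ P ω) (f : Ω → γ) (y : γ) : 0 ≤ prf P f y :=
  Finset.sum_nonneg fun ω _ => hP ω

private theorem EntF_le_prf (hP : ∀ ω, 0 ≤ P ω) (f : Ω → γ) (ω : Ω) : P ω ≤ prf P f (f ω) :=
  Finset.single_le_sum (f := P) (fun ω _ => hP ω) (Finset.mem_filter.2 ⟨Finset.mem_univ _, rfl⟩)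

theorem ent_congr (f : Ω → γ) (g : Ω → δ) (h : ∀ ω ω', f ω = f ω' ↔ g ω = g ω') :
    Ent P f = Ent P g := by
  unfold Ent
  congr 1
  refine Finset.sum_congr rfl fun ω _ => ?_
  have : prf P f (f ω) = prf P g (g ω) := by
    unfold prf
    congr 1
    ext ω'
    simp only [Finset.mem_filter, Finset.mem_univ, true_and]
    exact h ω' ω
  rw [this]

/-- PROOF. `prf P g (g ω) ≤ prf P f (f ω)`, and `0 < prf P g (g ω)` where `P ω > 0`. -/
theorem ent_mono (hP : ∀ ω, 0 ≤ P ω) (f : Ω → γ) (g : Ω → δ)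
    (h : ∀ ω ω', g ω = g ω' → f ω = f ω') : Ent P f ≤ Ent P g := by
  unfold Ent
  rw [neg_le_neg_iff]
  refine Finset.sum_le_sum fun ω _ => ?_
  rcases (hP ω).eq_or_lt with h0 | h0
  · rw [← h0, zero_mul, zero_mul]
  · refine mul_le_mul_of_nonneg_left (Real.log_le_log (h0.trans_le (EntF_le_prf hP g ω)) ?_) h0.le
    unfold prf
    refine Finset.sum_le_sum_of_subset_of_nonneg ?_ fun ω' _ _ => hP ω'
    intro ω' hω'
    simp only [Finset.mem_filter, Finset.mem_univ, true_and] at hω' ⊢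
    exact h ω' ω hω'

private theorem EntF_gibbs (hP : ∀ ω, 0 ≤ P ω) (hS : ∑ ω, P ω = 1) (f : Ω → γ) (Q : γ → ℝ)
    (T : Finset γ) (hT : ∀ ω, f ω ∈ T) (hQ : ∀ y, 0 ≤ Q y) (hac : ∀ ω, 0 < P ω → 0 < Q (f ω)) :
    Ent P f + ∑ ω, P ω * Real.log (Q (f ω)) ≤ Real.log (∑ y ∈ T, Q y) := by
  set Z : ℝ := ∑ y ∈ T, Q y with hZ
  obtain ⟨ω0, h0⟩ : ∃ ω, 0 < P ω := by
    by_contra hcon
    push Not at hcon
    have : ∑ ω, P ω ≤ 0 := Finset.sum_nonpos fun ω _ => hcon ω
    linarith
  have hZ0 : 0 < Z := by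
    have h1 : Q (f ω0) ≤ Z := Finset.single_le_sum (f := Q) (fun y _ => hQ y) (hT ω0)
    linarith [hac ω0 h0]
  have key : ∀ ω, P ω * (Real.log (Q (f ω)) - Real.log (prf P f (f ω)) - Real.log Z) ≤
      P ω * (Q (f ω) / (prf P f (f ω) * Z)) - P ω := by
    intro ω
    rcases (hP ω).eq_or_lt with h1 | h1
    · rw [← h1]; simp
    · have hp := h1.trans_le (EntF_le_prf hP f ω)
      have hq := hac ω h1
      have e : Real.log (Q (f ω)) - Real.log (prf P f (f ω)) - Real.log Z =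
          Real.log (Q (f ω) / (prf P f (f ω) * Z)) := by
        rw [Real.log_div hq.ne' (mul_pos hp hZ0).ne', Real.log_mul hp.ne' hZ0.ne']
        ring
      rw [e]
      have h2 := Real.log_le_sub_one_of_pos (div_pos hq (mul_pos hp hZ0))
      nlinarith
  have hsum := Finset.sum_le_sum fun ω (_ : ω ∈ (Finset.univ : Finset Ω)) => key ω
  rw [Finset.sum_sub_distrib, hS] at hsum
  have hle : ∑ ω, P ω * (Q (f ω) / (prf P f (f ω) * Z)) ≤ 1 := by
    rw [← Finset.sum_fiberwise_of_maps_to (g := f) (t := T) fun ω _ => hT ω]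
    calc ∑ y ∈ T, ∑ ω ∈ univ.filter (fun ω => f ω = y), P ω * (Q (f ω) / (prf P f (f ω) * Z))
        = ∑ y ∈ T, prf P f y * (Q y / (prf P f y * Z)) := by
          refine Finset.sum_congr rfl fun y _ => ?_
          conv_rhs => rw [prf, Finset.sum_mul]
          refine Finset.sum_congr rfl fun ω hω => ?_
          rw [(Finset.mem_filter.1 hω).2]
          rfl
      _ ≤ ∑ y ∈ T, Q y / Z := by
          refine Finset.sum_le_sum fun y _ => ?_
          rcases (EntF_prf_nonneg hP f y).eq_or_lt with h1 | h1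
          · rw [← h1, zero_mul]
            exact div_nonneg (hQ y) hZ0.le
          · apply le_of_eq
            field_simp
      _ = 1 := by
          rw [← Finset.sum_div, ← hZ, div_self hZ0.ne']
  have hexp : ∑ ω, P ω * (Real.log (Q (f ω)) - Real.log (prf P f (f ω)) - Real.log Z) =
      Ent P f + ∑ ω, P ω * Real.log (Q (f ω)) - Real.log Z := by
    unfold Ent
    have e1 : ∀ ω, P ω * (Real.log (Q (f ω)) - Real.log (prf P f (f ω)) - Real.log Z) =
        P ω * Real.log (Q (f ω)) - P ω * Real.log (prf P f (f ω)) - P ω * Real.log Z := by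
      intro ω; ring
    rw [Finset.sum_congr rfl fun ω _ => e1 ω, Finset.sum_sub_distrib, Finset.sum_sub_distrib,
      ← Finset.sum_mul, hS]
    ring
  linarith

/-- Gibbs inequality.  PROOF. `log x ≤ x - 1` with `x = Q (f ω) / (prf P f (f ω) * ∑ Q)`; sum over `ω`, group by the value of
`f`. -/
theorem ent_gibbs [Fintype γ] (hP : ∀ ω, 0 ≤ P ω) (hS : ∑ ω, P ω = 1) (f : Ω → γ) (Q : γ → ℝ)
    (hQ : ∀ y, 0 ≤ Q y) (hac : ∀ ω, 0 < P ω → 0 < Q (f ω)) :
    Ent P f + ∑ ω, P ω * Real.log (Q (f ω)) ≤ Real.log (∑ y, Q y) :=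
  EntF_gibbs hP hS f Q Finset.univ (fun _ => Finset.mem_univ _) hQ hac

private theorem EntF_marg (f : Ω → γ) (k : Ω → ζ) (z : ζ) :
    ∑ x ∈ univ.image f, prf P (fun ω => (f ω, k ω)) (x, z) = prf P k z := by
  unfold prf
  rw [← Finset.sum_fiberwise_of_maps_to (s := univ.filter fun ω => k ω = z) (g := f)
    (t := univ.image f) fun ω _ => Finset.mem_image_of_mem f (Finset.mem_univ ω)]
  refine Finset.sum_congr rfl fun x _ => ?_
  congr 1
  ext ω
  simp only [Finset.mem_filter, Finset.mem_univ, true_and, Prod.mk.injEq]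
  tauto

/-- strong subadditivity.  PROOF. `log x ≤ x - 1` with `x = prf (f,k) prf (g,k) / (prf (f,g,k) prf k)` at the `ω` with
`P ω > 0`; `∑ P x ≤ 1` (group by the values of `(f, g, k)`). -/
theorem ent_ssa (hP : ∀ ω, 0 ≤ P ω) (hS : ∑ ω, P ω = 1) (f : Ω → γ) (g : Ω → δ) (k : Ω → ζ) :
    Ent P (fun ω => (f ω, g ω, k ω)) + Ent P k ≤
      Ent P (fun ω => (f ω, k ω)) + Ent P (fun ω => (g ω, k ω)) := by
  set Q : γ × δ × ζ → ℝ := fun y => prf P (fun ω => (f ω, k ω)) (y.1, y.2.2) *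
    prf P (fun ω => (g ω, k ω)) (y.2.1, y.2.2) / prf P k y.2.2 with hQ
  have h1 := EntF_gibbs hP hS (fun ω => (f ω, g ω, k ω)) Q
    (univ.image f ×ˢ (univ.image g ×ˢ univ.image k))
    (fun ω => by
      simp only [Finset.mem_product]
      exact ⟨Finset.mem_image_of_mem f (Finset.mem_univ ω),
        Finset.mem_image_of_mem g (Finset.mem_univ ω), Finset.mem_image_of_mem k (Finset.mem_univ ω)⟩)
    (fun y => div_nonneg (mul_nonneg (EntF_prf_nonneg hP _ _) (EntF_prf_nonneg hP _ _))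
      (EntF_prf_nonneg hP _ _))
    (fun ω hω => by
      have a1 := hω.trans_le (EntF_le_prf hP (fun ω => (f ω, k ω)) ω)
      have a2 := hω.trans_le (EntF_le_prf hP (fun ω => (g ω, k ω)) ω)
      have a3 := hω.trans_le (EntF_le_prf hP k ω)
      exact div_pos (mul_pos a1 a2) a3)
  have hsum : ∑ y ∈ univ.image f ×ˢ (univ.image g ×ˢ univ.image k), Q y = 1 := by
    rw [Finset.sum_product]
    have e1 : ∀ x, ∑ p ∈ univ.image g ×ˢ univ.image k, Q (x, p) =
        ∑ z ∈ univ.image k, prf P (fun ω => (f ω, k ω)) (x, z) * prf P k z / prf P k z := by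
      intro x
      rw [Finset.sum_product_right]
      refine Finset.sum_congr rfl fun z _ => ?_
      rw [← EntF_marg g k z, hQ]
      simp only
      rw [← Finset.sum_div, ← Finset.mul_sum, EntF_marg g k z]
    rw [Finset.sum_congr rfl fun x _ => e1 x, Finset.sum_comm]
    have e2 : ∀ z ∈ univ.image k, ∑ x ∈ univ.image f,
        prf P (fun ω => (f ω, k ω)) (x, z) * prf P k z / prf P k z = prf P k z := by
      intro z _
      rw [← Finset.sum_div, ← Finset.sum_mul, EntF_marg f k z]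
      by_cases hz : prf P k z = 0
      · rw [hz]; simp
      · field_simp
    rw [Finset.sum_congr rfl e2]
    unfold prf
    rw [Finset.sum_fiberwise_of_maps_to (fun ω _ => Finset.mem_image_of_mem k (Finset.mem_univ ω))]
    exact hS
  rw [hsum, Real.log_one] at h1
  have hlog : ∑ ω, P ω * Real.log (Q (f ω, g ω, k ω)) =
      Ent P k - Ent P (fun ω => (f ω, k ω)) - Ent P (fun ω => (g ω, k ω)) := by
    unfold Ent
    have e1 : ∀ ω, P ω * Real.log (Q (f ω, g ω, k ω)) =
        P ω * Real.log (prf P (fun ω => (f ω, k ω)) (f ω, k ω)) +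
        P ω * Real.log (prf P (fun ω => (g ω, k ω)) (g ω, k ω)) -
        P ω * Real.log (prf P k (k ω)) := by
      intro ω
      rcases (hP ω).eq_or_lt with h0 | h0
      · rw [← h0]; simp
      · have a1 := h0.trans_le (EntF_le_prf hP (fun ω => (f ω, k ω)) ω)
        have a2 := h0.trans_le (EntF_le_prf hP (fun ω => (g ω, k ω)) ω)
        have a3 := h0.trans_le (EntF_le_prf hP k ω)
        rw [hQ]
        simp only
        rw [Real.log_div (mul_pos a1 a2).ne' a3.ne', Real.log_mul a1.ne' a2.ne']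
        ring
    rw [Finset.sum_congr rfl fun ω _ => e1 ω, Finset.sum_sub_distrib, Finset.sum_add_distrib]
    ring
  linarith

/-- `U` is a function of `(F, G)`, `I` is a function of `F` and a function of `G`.
PROOF. `ent_ssa` for `F, G, I`, `ent_congr` for the pairs, `ent_mono` for `U`. -/
theorem ent_sub (hP : ∀ ω, 0 ≤ P ω) (hS : ∑ ω, P ω = 1) (U : Ω → β) (I : Ω → ζ) (F : Ω → γ)
    (G : Ω → δ) (hU : ∀ ω ω', F ω = F ω' → G ω = G ω' → U ω = U ω')
    (hF : ∀ ω ω', F ω = F ω' → I ω = I ω') (hG : ∀ ω ω', G ω = G ω' → I ω = I ω') :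
    Ent P U + Ent P I ≤ Ent P F + Ent P G := by
  have h1 := ent_ssa hP hS F G I
  have h2 : Ent P (fun ω => (F ω, I ω)) = Ent P F := by
    refine ent_congr _ _ fun ω ω' => ?_
    rw [Prod.mk.injEq]
    exact ⟨fun h => h.1, fun h => ⟨h, hF ω ω' h⟩⟩
  have h3 : Ent P (fun ω => (G ω, I ω)) = Ent P G := by
    refine ent_congr _ _ fun ω ω' => ?_
    rw [Prod.mk.injEq]
    exact ⟨fun h => h.1, fun h => ⟨h, hG ω ω' h⟩⟩
  have h4 : Ent P U ≤ Ent P (fun ω => (F ω, G ω, I ω)) := by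
    refine ent_mono hP _ _ fun ω ω' h => ?_
    rw [Prod.mk.injEq, Prod.mk.injEq] at h
    exact hU ω ω' h.1 h.2.1
  rw [h2, h3] at h1
  linarith

end PF
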