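import Pool.Agent.W_5dd92e_pf.BallA
import Pool.Agent.W_5dd92e_h55.MainU

/-! # Dyadic pigeonhole and the total covariance -/

set_option autoImplicit false

open Finset TPB
open scoped Classical

namespace PF

variable {V : Type*} [Fintype V]

/-- as `TPB.pig` (`W_5dd92e_h55/MainU.lean`), with the scales `j0 ≤ j < j0 + J` -/
theorem pig2 (G : SimpleGraph V) (f : V → V → ℝ) (hf : ∀ u v, 0 ≤ f u v) (j0 J : ℕ)
    (hJ : 0 < J) :
    ∃ j, j0 ≤ j ∧ j < j0 + J ∧ ∑ p ∈ Pr G (2 ^ j), f p.1 p.2 ≤ (∑ u, ∑ v, f u v) / J := by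
  by_contra hcon
  push Not at hcon
  have h1 : ∑ j ∈ range J, ((∑ u, ∑ v, f u v) / J) <
      ∑ j ∈ range J, ∑ p ∈ Pr G (2 ^ (j0 + j)), f p.1 p.2 := by
    apply Finset.sum_lt_sum_of_nonempty ⟨0, mem_range.mpr hJ⟩
    intro j hj
    have hj' := mem_range.mp hj
    exact hcon (j0 + j) (by omega) (by omega)
  rw [Finset.sum_const, card_range, nsmul_eq_mul, mul_div_cancel₀ _ (by positivity)] at h1
  have hdis : ∀ i ∈ range J, ∀ j ∈ range J, i ≠ j →
      Disjoint (Pr G (2 ^ (j0 + i))) (Pr G (2 ^ (j0 + j))) := by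
    have aux : ∀ i j, i < j → Disjoint (Pr G (2 ^ (j0 + i))) (Pr G (2 ^ (j0 + j))) := by
      intro i j hij
      rw [Finset.disjoint_left]
      intro p hp hp'
      unfold Pr at hp hp'
      rw [mem_filter] at hp hp'
      have : 2 ^ (j0 + i + 1) ≤ 2 ^ (j0 + j) := Nat.pow_le_pow_right (by norm_num) (by omega)
      rw [pow_succ] at this
      omega
    intro i _ j _ hij
    rcases lt_or_gt_of_ne hij with h | h
    · exact aux i j h
    · exact (aux j i h).symm
  rw [← Finset.sum_biUnion hdis] at h1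
  have h2 : ∑ p ∈ (range J).biUnion (fun j => Pr G (2 ^ (j0 + j))), f p.1 p.2 ≤
      ∑ p : V × V, f p.1 p.2 :=
    Finset.sum_le_sum_of_subset_of_nonneg (subset_univ _) (fun p _ _ => hf _ _)
  rw [Fintype.sum_prod_type] at h2
  linarith

/-- PROOF. exchange the sums: `∑_{u, v} ∑_{e ∈ BB u} ∑_{e' ∈ BB v} f e e' = ∑_{e, e'} m e * m e' * f e e'`. -/
theorem cov_total (G : SimpleGraph V) (c : V → Bool) (L M : ℕ)
    (hM : ∀ e : Eg G c, (univ.filter (fun v => e ∈ BB G c L v)).card ≤ M)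
    (f : Eg G c → Eg G c → ℝ) (hf : ∀ e e', 0 ≤ f e e') :
    ∑ u, ∑ v, ∑ e ∈ BB G c L u, ∑ e' ∈ BB G c L v, f e e' ≤ (M : ℝ) ^ 2 * ∑ e, ∑ e', f e e' := by
  have hm : ∀ e : Eg G c, (∑ u : V, if e ∈ BB G c L u then (1 : ℝ) else 0) ≤ M := by
    intro e
    rw [Finset.sum_boole]
    exact_mod_cast hM e
  have hm0 : ∀ e : Eg G c, 0 ≤ (∑ u : V, if e ∈ BB G c L u then (1 : ℝ) else 0) := by
    intro e
    exact Finset.sum_nonneg fun u _ => by split_ifs <;> norm_num
  have h1 : ∀ u v : V, ∑ e ∈ BB G c L u, ∑ e' ∈ BB G c L v, f e e' =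
      ∑ e, ∑ e', (if e ∈ BB G c L u then (1 : ℝ) else 0) *
        (if e' ∈ BB G c L v then (1 : ℝ) else 0) * f e e' := by
    intro u v
    rw [← Finset.sum_filter_add_sum_filter_not univ (fun e => e ∈ BB G c L u)]
    have ha : (univ.filter (fun e => e ∈ BB G c L u)) = BB G c L u := by
      ext e
      simp
    have hb : ∑ e ∈ univ.filter (fun e => ¬ e ∈ BB G c L u), ∑ e',
        (if e ∈ BB G c L u then (1 : ℝ) else 0) *
        (if e' ∈ BB G c L v then (1 : ℝ) else 0) * f e e' = 0 := by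
      refine Finset.sum_eq_zero fun e he => Finset.sum_eq_zero fun e' _ => ?_
      rw [mem_filter] at he
      rw [if_neg he.2]
      ring
    rw [hb, add_zero, ha]
    refine Finset.sum_congr rfl fun e he => ?_
    rw [← Finset.sum_filter_add_sum_filter_not univ (fun e' => e' ∈ BB G c L v)]
    have ha' : (univ.filter (fun e' => e' ∈ BB G c L v)) = BB G c L v := by
      ext e
      simp
    have hb' : ∑ e' ∈ univ.filter (fun e' => ¬ e' ∈ BB G c L v),
        (if e ∈ BB G c L u then (1 : ℝ) else 0) *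
        (if e' ∈ BB G c L v then (1 : ℝ) else 0) * f e e' = 0 := by
      refine Finset.sum_eq_zero fun e' he' => ?_
      rw [mem_filter] at he'
      rw [if_neg he'.2]
      ring
    rw [hb', add_zero, ha']
    refine Finset.sum_congr rfl fun e' he' => ?_
    rw [if_pos he, if_pos he']
    ring
  have h2 : ∑ u, ∑ v, ∑ e ∈ BB G c L u, ∑ e' ∈ BB G c L v, f e e' =
      ∑ e, ∑ e', (∑ u, if e ∈ BB G c L u then (1 : ℝ) else 0) *
        (∑ v, if e' ∈ BB G c L v then (1 : ℝ) else 0) * f e e' := by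
    calc ∑ u, ∑ v, ∑ e ∈ BB G c L u, ∑ e' ∈ BB G c L v, f e e'
        = ∑ u, ∑ v, ∑ e, ∑ e', (if e ∈ BB G c L u then (1 : ℝ) else 0) *
          (if e' ∈ BB G c L v then (1 : ℝ) else 0) * f e e' := by
          refine Finset.sum_congr rfl fun u _ => Finset.sum_congr rfl fun v _ => h1 u v
      _ = ∑ u, ∑ e, ∑ v, ∑ e', (if e ∈ BB G c L u then (1 : ℝ) else 0) *
          (if e' ∈ BB G c L v then (1 : ℝ) else 0) * f e e' := by
          refine Finset.sum_congr rfl fun u _ => Finset.sum_comm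
      _ = ∑ e, ∑ u, ∑ v, ∑ e', (if e ∈ BB G c L u then (1 : ℝ) else 0) *
          (if e' ∈ BB G c L v then (1 : ℝ) else 0) * f e e' := Finset.sum_comm
      _ = ∑ e, ∑ u, ∑ e', ∑ v, (if e ∈ BB G c L u then (1 : ℝ) else 0) *
          (if e' ∈ BB G c L v then (1 : ℝ) else 0) * f e e' := by
          refine Finset.sum_congr rfl fun e _ => Finset.sum_congr rfl fun u _ => Finset.sum_comm
      _ = ∑ e, ∑ e', ∑ u, ∑ v, (if e ∈ BB G c L u then (1 : ℝ) else 0) *
          (if e' ∈ BB G c L v then (1 : ℝ) else 0) * f e e' := by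
          refine Finset.sum_congr rfl fun e _ => Finset.sum_comm
      _ = _ := by
          refine Finset.sum_congr rfl fun e _ => Finset.sum_congr rfl fun e' _ => ?_
          rw [Finset.sum_mul_sum, Finset.sum_mul]
          refine Finset.sum_congr rfl fun u _ => ?_
          rw [Finset.sum_mul]
  rw [h2, Finset.mul_sum]
  refine Finset.sum_le_sum fun e _ => ?_
  rw [Finset.mul_sum]
  refine Finset.sum_le_sum fun e' _ => ?_
  refine mul_le_mul_of_nonneg_right ?_ (hf e e')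
  rw [sq]
  exact mul_le_mul (hm e) (hm e') (hm0 e') (Nat.cast_nonneg M)

end PF
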