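import Pool.Agent.W_5dd92e_pf.Mk
import Pool.Agent.W_5dd92e_pf.Cvb
import Pool.Agent.W_5dd92e_pf.PigS

/-! # The entropy lemma for the extended entropy -/

set_option autoImplicit false

open Finset TPB
open scoped Classical

namespace PF

variable {V : Type*} [Fintype V]

/-- PROOF. As `TPB.ent_graph` (`W_5dd92e_h55/MainU.lean`), with `H = HH .. μ`, `cv = cvv .. (4 / c0 ^ 2) μ`: `abs_ent` for
`T x y = SS G r x y`, `T' = SS G (r + 1)`, `B = Bl G (r + 1)` (`geo1` .. `geo5`), `hM` from `HH_markov` and `geo6`;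
`geo_count` with `f = cvv` (`cvv_nn`); the pairs of `Pr G (r + 1)` are far (`far_of_Pr`), so `cvv` is the first case. -/
theorem ent_graph2 (G : SimpleGraph V) (c : V → Bool) (hp : Prp G c) {F : ℕ → ℝ} (hF : Adm F)
    (ε : ℝ) (hε : 0 < ε) (h : ℝ) (c0 : ℝ) (hc0 : 0 < c0)
    (hs : SSB (muh (ww (se G c) (te G c) F ε) h) c0) (η : ℕ → ℝ) (hη : ∀ n, 0 ≤ η n) (L : ℕ)
    (hL : ∀ n, L < n → F n = 1) (hηL : ∀ n, L < n → η n = 0) (r : ℕ) (hr : 2 * L ≤ r + 1)
    (hg : ((4 * (r + 1) + 1 : ℕ) : ℕ∞) ≤ G.egirth) (μ : (Eg G c → Fin 2) → ℝ)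
    (hμ : μ = muh (ww (se G c) (te G c) F ε) h) :
    ∑ e : Eg G c, (HH G c η L μ {se G c e} + HH G c η L μ {te G c e} -
        HH G c η L μ {se G c e, te G c e}) -
        2 * ∑ p ∈ Pr G (r + 1), 4 / c0 ^ 2 *
          ∑ e ∈ BB G c L p.1, ∑ e' ∈ BB G c L p.2, Cv μ e e' ≤
      ∑ v, HH G c η L μ {v} - HH G c η L μ univ := by
  have hpw : PW μ := by
    rw [hμ]
    exact muh_pw _ (fun σ => ww_pos hF ε hε σ) h ⟨fun _ => 0⟩
  have hl : LSM μ := by
    rw [hμ]
    exact muh_lsm _ (fun σ => ww_pos hF ε hε σ) (ww_lsm hF ε hε) h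
  have hs' : SSB μ c0 := by
    rw [hμ]
    exact hs
  have hg2 : ((2 * (r + 1) + 1 : ℕ) : ℕ∞) ≤ G.egirth := by
    refine le_trans ?_ hg
    exact_mod_cast (by omega : 2 * (r + 1) + 1 ≤ 4 * (r + 1) + 1)
  have key := abs_ent G c hp (HH G c η L μ) (HH_empty G c η L μ hpw)
    (fun A B => HH_submod G c η hη L μ hpw A B)
    (cvv G c η L (4 / c0 ^ 2) μ)
    (fun w w' S hww hw hw' => HH_cv G c η hη L hηL μ hpw hl c0 hc0 hs' w w' S hww hw hw')
    (fun x y => SS G r x y) (fun x y => SS G (r + 1) x y) (fun v => Bl G (r + 1) v)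
    (fun x y hxy => geo1 G r x y hxy) (fun v => geo2 G r v) (fun v c h => geo3 G r v c h)
    (fun v c c' h h' hne => geo4 G r hg2 v c c' h h' hne)
    (fun v x h => geo5 G c hp r v x h)
    (by
      intro u v huv
      have hdis : Disjoint (SS G r u v) (SS G (r + 1) v u) := by
        rw [geo5 G c hp r v u huv.symm]
        exact disjoint_sdiff
      have hsub : SS G r v u ⊆ SS G (r + 1) v u := (geo1 G r v u huv.symm).2
      have hu : u ∉ SS G r v u := geo3 G r u v huv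
      rw [hμ]
      refine HH_markov G c hF ε hε h η hη L hL _ _ _ ?_ ?_ ?_
      · rw [Finset.disjoint_left] at hdis ⊢
        intro x hx hx'
        exact hdis (mem_of_mem_erase hx) (hsub (mem_of_mem_erase hx'))
      · rw [Finset.disjoint_left]
        intro x hx hx'
        rw [mem_union, mem_insert, mem_singleton, mem_sdiff] at hx'
        rcases hx' with (rfl | rfl) | ⟨_, h2⟩
        · exact hu (mem_of_mem_erase hx)
        · exact (Finset.notMem_erase _ _) hx
        · exact h2 (mem_of_mem_erase hx)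
      · intro w hw w' hww'
        rw [mem_erase] at hw
        have h3 := geo6 G c hp r hg2 u v w w' huv hw.2 hw.1 hww'
        rw [mem_union, mem_erase, mem_union, mem_insert, mem_singleton, mem_sdiff]
        by_cases hw'v : w' = v
        · exact Or.inr (Or.inl (Or.inr hw'v))
        · by_cases hw'T : w' ∈ SS G r v u
          · exact Or.inl ⟨hw'v, hw'T⟩
          · exact Or.inr (Or.inr ⟨h3, hw'T⟩))
  have hcount := geo_count G c hp r hg (cvv G c η L (4 / c0 ^ 2) μ)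
    (fun w w' => cvv_nn G c η L (4 / c0 ^ 2) (by positivity) μ hpw hl w w')
  have hfar : ∑ q ∈ Pr G (r + 1), cvv G c η L (4 / c0 ^ 2) μ q.1 q.2 =
      ∑ p ∈ Pr G (r + 1), 4 / c0 ^ 2 *
        ∑ e ∈ BB G c L p.1, ∑ e' ∈ BB G c L p.2, Cv μ e e' := by
    refine Finset.sum_congr rfl fun p hpp => ?_
    unfold cvv
    rw [if_pos (far_of_Pr G c L (r + 1) hr p hpp)]
  have hed : ∑ e : Eg G c, (HH G c η L μ {se G c e} + HH G c η L μ {te G c e} -
        HH G c η L μ {se G c e, te G c e}) =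
      ∑ e ∈ ed G c, (HH G c η L μ {e.1} + HH G c η L μ {e.2} - HH G c η L μ {e.1, e.2}) :=
    sum_eg (fun p => HH G c η L μ {p.1} + HH G c η L μ {p.2} - HH G c η L μ {p.1, p.2})
  rw [hed, ← hfar]
  linarith

end PF
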