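import Pool.Agent.W_5dd92e_pf.Defs

/-! # Admissible sequences -/

set_option autoImplicit false

open Finset TPB
open scoped Classical

namespace PF

theorem adm_pos {F : ℕ → ℝ} (hF : Adm F) (n : ℕ) (hn : 1 ≤ n) : 0 < F n :=
  lt_of_lt_of_le one_pos (hF.one n hn)

theorem adm_anti {F : ℕ → ℝ} (hF : Adm F) (m n : ℕ) (hm : 1 ≤ m) (hmn : m ≤ n) : F n ≤ F m := by
  induction n, hmn using Nat.le_induction with
  | base => exact le_rfl
  | succ k hk ih => exact (hF.anti k (hm.trans hk)).trans ih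

/-- PROOF. `F (m + n) ≤ F m ≤ F m * F n`. -/
theorem adm_sub {F : ℕ → ℝ} (hF : Adm F) (m n : ℕ) (hm : 1 ≤ m) (hn : 1 ≤ n) :
    F (m + n) ≤ F m * F n := by
  have h1 := adm_anti hF m (m + n) hm (Nat.le_add_right m n)
  have h2 := hF.one n hn
  have h3 := adm_pos hF m hm
  nlinarith

private theorem adm_conv_one {F : ℕ → ℝ} (hF : Adm F) (m m' : ℕ) (hm : 1 ≤ m) (hmm : m ≤ m') :
    F (m + 1) * F m' ≤ F (m' + 1) * F m := by
  induction m', hmm using Nat.le_induction with
  | base => exact le_rfl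
  | succ k hk ih =>
    have hk1 : 1 ≤ k := hm.trans hk
    have p0 := adm_pos hF m hm
    have p1 := adm_pos hF k hk1
    have p2 := adm_pos hF (k + 1) (by omega)
    have c := hF.conv k hk1
    have h : F (m + 1) * F (k + 1) * F k ≤ F (k + 1 + 1) * F m * F k := by
      calc F (m + 1) * F (k + 1) * F k = (F (m + 1) * F k) * F (k + 1) := by ring
        _ ≤ (F (k + 1) * F m) * F (k + 1) := mul_le_mul_of_nonneg_right ih p2.le
        _ = (F (k + 1) * F (k + 1)) * F m := by ring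
        _ ≤ (F k * F (k + 2)) * F m := mul_le_mul_of_nonneg_right c p0.le
        _ = F (k + 1 + 1) * F m * F k := by ring_nf
    exact le_of_mul_le_mul_right h p1

/-- log-convexity over a distance.  PROOF. the quotients `F (n + 1) / F n` increase; induction on `m' - m` and `n`. -/
theorem adm_conv {F : ℕ → ℝ} (hF : Adm F) (m m' n : ℕ) (hm : 1 ≤ m) (hmm : m ≤ m') :
    F (m + n) * F m' ≤ F (m' + n) * F m := by
  induction n with
  | zero => simp [mul_comm]
  | succ n ih =>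
    have a := adm_conv_one hF (m + n) (m' + n) (by omega) (by omega)
    have q1 := adm_pos hF (m + n) (by omega)
    have q2 := adm_pos hF (m' + n) (by omega)
    have q3 := adm_pos hF m hm
    have q4 := adm_pos hF m' (by omega)
    have q5 := adm_pos hF (m + n + 1) (by omega)
    have q6 := adm_pos hF (m' + n + 1) (by omega)
    have h : (F (m + (n + 1)) * F m') * (F (m' + n) * F (m + n)) ≤
        (F (m' + (n + 1)) * F m) * (F (m' + n) * F (m + n)) := by
      calc (F (m + (n + 1)) * F m') * (F (m' + n) * F (m + n))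
          = (F (m + n + 1) * F (m' + n)) * (F (m + n) * F m') := by
            rw [← add_assoc]; ring
        _ ≤ (F (m' + n + 1) * F (m + n)) * (F (m' + n) * F m) :=
            mul_le_mul a ih (by positivity) (by positivity)
        _ = (F (m' + (n + 1)) * F m) * (F (m' + n) * F (m + n)) := by
            rw [← add_assoc m' n 1]; ring
    exact le_of_mul_le_mul_right h (by positivity)

/-- PROOF. `adm_conv` twice -/
theorem adm_ratio {F : ℕ → ℝ} (hF : Adm F) (m m' n n' : ℕ) (hm : 1 ≤ m) (hmm : m ≤ m')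
    (hn : 1 ≤ n) (hnn : n ≤ n') : F (m + n) / (F m * F n) ≤ F (m' + n') / (F m' * F n') := by
  have q1 := adm_pos hF m hm
  have q2 := adm_pos hF n hn
  have q3 := adm_pos hF m' (by omega)
  have q4 := adm_pos hF n' (by omega)
  have h1 := adm_conv hF m m' n hm hmm
  have h2 := adm_conv hF n n' m' hn hnn
  rw [add_comm n m', add_comm n' m'] at h2
  calc F (m + n) / (F m * F n) ≤ F (m' + n) / (F m' * F n) := by
        rw [div_le_div_iff₀ (by positivity) (by positivity)]
        nlinarith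
    _ ≤ F (m' + n') / (F m' * F n') := by
        rw [div_le_div_iff₀ (by positivity) (by positivity)]
        nlinarith

theorem adm_low {F : ℕ → ℝ} (hF : Adm F) (m n : ℕ) (hm : 1 ≤ m) (hn : 1 ≤ n) :
    1 / F 1 ^ 2 ≤ F (m + n) / (F m * F n) := by
  have q1 := adm_pos hF m hm
  have q2 := adm_pos hF n hn
  have q3 := adm_pos hF 1 le_rfl
  have h1 := adm_anti hF 1 m le_rfl hm
  have h2 := adm_anti hF 1 n le_rfl hn
  have h3 := hF.one (m + n) (by omega)
  apply div_le_div₀ (by linarith) h3 (by positivity)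
  rw [pow_two]
  exact mul_le_mul h1 h2 q2.le q3.le

section
variable {q : ℕ} {a b : Fin q → ℝ} {o : Fin q}

/-- PROOF. the term `k = o` is `1`. -/
theorem one_le_sum (h : Dm a b o) (n m : ℕ) : 1 ≤ ∑ k, a k ^ n * b k ^ m := by
  have h1 : a o ^ n * b o ^ m ≤ ∑ k, a k ^ n * b k ^ m :=
    Finset.single_le_sum (f := fun k => a k ^ n * b k ^ m)
      (fun k _ => mul_nonneg (pow_nonneg (h.apos k).le _) (pow_nonneg (h.bnn k) _))
      (Finset.mem_univ o)
  rw [h.ao, h.bo] at h1
  simpa using h1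

/-- PROOF. termwise: `b k = 0` (then `b k ^ m ≤ b k ^ (n - 1)` as `n - 1 ≤ m`, `0 ^ 0 = 1`) or `b k ≤ 1`. -/
theorem sum_le_fw (h : Dm a b o) (n m : ℕ) (hm : n ≤ m + 1) :
    ∑ k, a k ^ n * b k ^ m ≤ fw a b n := by
  unfold fw
  apply Finset.sum_le_sum
  intro k _
  apply mul_le_mul_of_nonneg_left _ (pow_nonneg (h.apos k).le _)
  rcases h.dom k with hb | ⟨_, hb⟩
  · rw [hb]
    rcases Nat.eq_zero_or_pos m with hm0 | hm0
    · have : n - 1 = 0 := by omega
      rw [hm0, this]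
    · rw [zero_pow (by omega)]
      positivity
  · exact pow_le_pow_of_le_one (h.bnn k) hb (by omega)

/-- PROOF. termwise -/
theorem fw_anti (h : Dm a b o) (n : ℕ) (hn : 1 ≤ n) : fw a b (n + 1) ≤ fw a b n := by
  unfold fw
  apply Finset.sum_le_sum
  intro k _
  rcases h.dom k with hb | ⟨ha, hb⟩
  · rw [hb]
    have : n + 1 - 1 ≠ 0 := by omega
    rw [zero_pow this, mul_zero]
    exact mul_nonneg (pow_nonneg (h.apos k).le _) (by positivity)
  · exact mul_le_mul (pow_le_pow_of_le_one (h.apos k).le ha (by omega))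
      (pow_le_pow_of_le_one (h.bnn k) hb (by omega)) (pow_nonneg (h.bnn k) _)
      (pow_nonneg (h.apos k).le _)

/-- PROOF. Cauchy-Schwarz: `a^(n+1) b^n = sqrt (a^n b^(n-1)) sqrt (a^(n+2) b^(n+1))` for `n ≥ 1`
(`Finset.sum_mul_sq_le_sq_mul_sq` or `inner_mul_le_norm_mul_norm`) -/
theorem fw_conv (h : Dm a b o) (n : ℕ) (hn : 1 ≤ n) :
    fw a b (n + 1) * fw a b (n + 1) ≤ fw a b n * fw a b (n + 2) := by
  unfold fw
  rw [← pow_two]
  apply Finset.sum_sq_le_sum_mul_sum_of_sq_le_mul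
  · intro k _
    exact mul_nonneg (pow_nonneg (h.apos k).le _) (pow_nonneg (h.bnn k) _)
  · intro k _
    exact mul_nonneg (pow_nonneg (h.apos k).le _) (pow_nonneg (h.bnn k) _)
  · intro k _
    obtain ⟨m, rfl⟩ : ∃ m, n = m + 1 := ⟨n - 1, by omega⟩
    have e1 : m + 1 + 1 - 1 = m + 1 := by omega
    have e2 : m + 1 - 1 = m := by omega
    have e3 : m + 1 + 2 - 1 = m + 2 := by omega
    rw [e1, e2, e3]
    apply le_of_eq
    ring

/-- PROOF. with `g n = exp (-κ n) * fw n`: `g` is antitone and log-convex on `n ≥ 1`, and `max 1 g` inherits both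
(`max 1 x * max 1 x ≤ max 1 y * max 1 z` if `x * x ≤ y * z`). -/
theorem ff_adm (h : Dm a b o) (κ : ℝ) (hκ : 0 ≤ κ) : Adm (FF a b κ) := by
  have hfw : ∀ n, 0 ≤ fw a b n := fun n => Finset.sum_nonneg fun k _ =>
    mul_nonneg (pow_nonneg (h.apos k).le _) (pow_nonneg (h.bnn k) _)
  refine ⟨fun n _ => le_max_left _ _, fun n hn => ?_, fun n hn => ?_⟩
  · unfold FF
    apply max_le_max le_rfl
    apply mul_le_mul _ (fw_anti h n hn) (hfw _) (Real.exp_pos _).le
    apply Real.exp_le_exp.mpr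
    push_cast
    nlinarith
  · have hx : (Real.exp (-(κ * ((n + 1 : ℕ) : ℝ))) * fw a b (n + 1)) *
        (Real.exp (-(κ * ((n + 1 : ℕ) : ℝ))) * fw a b (n + 1)) ≤
        (Real.exp (-(κ * (n : ℝ))) * fw a b n) *
        (Real.exp (-(κ * ((n + 2 : ℕ) : ℝ))) * fw a b (n + 2)) := by
      have he : Real.exp (-(κ * ((n + 1 : ℕ) : ℝ))) * Real.exp (-(κ * ((n + 1 : ℕ) : ℝ))) =
          Real.exp (-(κ * (n : ℝ))) * Real.exp (-(κ * ((n + 2 : ℕ) : ℝ))) := by
        rw [← Real.exp_add, ← Real.exp_add]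
        congr 1
        push_cast
        ring
      have hc := fw_conv h n hn
      calc _ = (Real.exp (-(κ * ((n + 1 : ℕ) : ℝ))) * Real.exp (-(κ * ((n + 1 : ℕ) : ℝ)))) *
            (fw a b (n + 1) * fw a b (n + 1)) := by ring
        _ ≤ (Real.exp (-(κ * ((n + 1 : ℕ) : ℝ))) * Real.exp (-(κ * ((n + 1 : ℕ) : ℝ)))) *
            (fw a b n * fw a b (n + 2)) := mul_le_mul_of_nonneg_left hc (by positivity)
        _ = _ := by rw [he]; ring
    have hy : 0 ≤ Real.exp (-(κ * (n : ℝ))) * fw a b n := mul_nonneg (Real.exp_pos _).le (hfw _)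
    have hz : 0 ≤ Real.exp (-(κ * ((n + 2 : ℕ) : ℝ))) * fw a b (n + 2) :=
      mul_nonneg (Real.exp_pos _).le (hfw _)
    unfold FF
    set x := Real.exp (-(κ * ((n + 1 : ℕ) : ℝ))) * fw a b (n + 1)
    set y := Real.exp (-(κ * (n : ℝ))) * fw a b n
    set z := Real.exp (-(κ * ((n + 2 : ℕ) : ℝ))) * fw a b (n + 2)
    have hy1 : (1 : ℝ) ≤ max 1 y := le_max_left _ _
    have hz1 : (1 : ℝ) ≤ max 1 z := le_max_left _ _
    rcases le_total x 1 with hx1 | hx1
    · rw [max_eq_left hx1]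
      nlinarith
    · rw [max_eq_right hx1]
      exact hx.trans (mul_le_mul (le_max_right _ _) (le_max_right _ _) hz (by linarith))

/-- PROOF. `fw n ≤ fw 1` and `exp (-κ n) * fw 1 → 0`. -/
theorem ff_L (h : Dm a b o) (κ : ℝ) (hκ : 0 < κ) : ∃ L : ℕ, 1 ≤ L ∧ ∀ n, L < n → FF a b κ n = 1 := by
  have hmono : ∀ n, 1 ≤ n → fw a b n ≤ fw a b 1 := by
    intro n hn
    induction n, hn using Nat.le_induction with
    | base => exact le_rfl
    | succ k hk ih => exact (fw_anti h k hk).trans ih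
  refine ⟨⌈fw a b 1 / κ⌉₊ + 1, by omega, fun n hn => ?_⟩
  unfold FF
  apply max_eq_left
  have h1 := hmono n (by omega)
  have h2 : fw a b 1 / κ ≤ n := by
    have h3 := Nat.le_ceil (fw a b 1 / κ)
    have h4 : ((⌈fw a b 1 / κ⌉₊ : ℕ) : ℝ) ≤ n := by
      have : ⌈fw a b 1 / κ⌉₊ ≤ n := by omega
      exact_mod_cast this
    linarith
  rw [div_le_iff₀ hκ] at h2
  have h5 : fw a b n ≤ Real.exp (κ * n) := by
    have := Real.add_one_le_exp (κ * n)
    nlinarith
  calc Real.exp (-(κ * n)) * fw a b n ≤ Real.exp (-(κ * n)) * Real.exp (κ * n) :=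
        mul_le_mul_of_nonneg_left h5 (Real.exp_pos _).le
    _ = 1 := by rw [← Real.exp_add]; simp

theorem fw_le (κ : ℝ) (n : ℕ) : fw a b n ≤ Real.exp (κ * n) * FF a b κ n := by
  have h1 : Real.exp (-(κ * n)) * fw a b n ≤ FF a b κ n := le_max_right _ _
  calc fw a b n = Real.exp (κ * n) * (Real.exp (-(κ * n)) * fw a b n) := by
        rw [← mul_assoc, ← Real.exp_add]; simp
    _ ≤ Real.exp (κ * n) * FF a b κ n := mul_le_mul_of_nonneg_left h1 (Real.exp_pos _).le

/-- PROOF. `1 ≤ fw n` and `exp (-κ n) ≤ 1`. -/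
theorem ff_le_fw (h : Dm a b o) (κ : ℝ) (hκ : 0 ≤ κ) (n : ℕ) : FF a b κ n ≤ fw a b n := by
  have h1 : 1 ≤ fw a b n := one_le_sum h n (n - 1)
  unfold FF
  apply max_le h1
  have h2 : Real.exp (-(κ * n)) ≤ 1 := by
    apply Real.exp_le_one_iff.mpr
    have : 0 ≤ κ * n := by positivity
    linarith
  nlinarith

end

end PF
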