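import Pool.Agent.W_5dd92e_pf.CluA
import Pool.Agent.W_5dd92e_pf.Seq

/-! # The cluster weight is log-supermodular -/

set_option autoImplicit false

open Finset TPB
open scoped Classical

namespace PF

variable {ι W : Type*} [Fintype W] {s t : ι → W} {F : ℕ → ℝ}

theorem phi_pos (hF : Adm F) (S : Finset ι) : 0 < Phi s t F S := by
  unfold Phi
  refine Finset.prod_pos fun C hC => ?_
  obtain ⟨a, rfl⟩ := mem_Cls.mp hC
  exact adm_pos hF _ (cl_card_pos S a)

private lemma Rat_den (hF : Adm F) (S : Finset ι) (a b : W) :
    0 < F (cl s t S a).card * F (cl s t S b).card :=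
  mul_pos (adm_pos hF _ (cl_card_pos S a)) (adm_pos hF _ (cl_card_pos S b))

/-- PROOF. `cls_insert_con` or `prc_insert` with `g C = F C.card` (`cl_disj` for the cardinality of the union). -/
theorem phi_insert (hF : Adm F) (S : Finset ι) (i : ι) :
    Phi s t F (insert i S) = Phi s t F S * rat s t F S i := by
  unfold rat
  split_ifs with h
  · rw [mul_one]
    unfold Phi
    rw [cls_insert_con h]
  · have h1 := prc_insert (s := s) (t := t) (fun C => F C.card) S i h
    rw [Finset.card_union_of_disjoint (cl_disj h)] at h1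
    have h2 := Rat_den (s := s) (t := t) hF S (s i) (t i)
    unfold Phi
    rw [← mul_div_assoc, eq_div_iff h2.ne']
    exact h1

private lemma Rat_sub (hF : Adm F) (S : Finset ι) (a b : W) :
    F ((cl s t S a).card + (cl s t S b).card) /
      (F (cl s t S a).card * F (cl s t S b).card) ≤ 1 := by
  rw [div_le_one (Rat_den hF S a b)]
  exact adm_sub hF _ _ (cl_card_pos S a) (cl_card_pos S b)

/-- PROOF. `adm_ratio` (`cl_mono`), `adm_sub` if the ends become connected, both `1` if they are connected in `S`. -/
theorem rat_mono (hF : Adm F) {S S' : Finset ι} (hS : S ⊆ S') (i : ι) :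
    rat s t F S i ≤ rat s t F S' i := by
  unfold rat
  by_cases h : Con s t S (s i) (t i)
  · rw [if_pos h, if_pos (con_mono hS h)]
  · rw [if_neg h]
    split_ifs with h'
    · exact Rat_sub hF S _ _
    · exact adm_ratio hF _ _ _ _ (cl_card_pos S _) (Finset.card_le_card (cl_mono hS _))
        (cl_card_pos S _) (Finset.card_le_card (cl_mono hS _))

theorem rat_le_one (hF : Adm F) (S : Finset ι) (i : ι) : rat s t F S i ≤ 1 := by
  unfold rat
  split_ifs with h
  · exact le_rfl
  · exact Rat_sub hF S _ _

theorem rat_low (hF : Adm F) (S : Finset ι) (i : ι) : 1 / F 1 ^ 2 ≤ rat s t F S i := by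
  unfold rat
  split_ifs with h
  · have h1 := hF.one 1 le_rfl
    rw [div_le_one (by positivity)]
    exact one_le_pow₀ h1
  · exact adm_low hF _ _ (cl_card_pos S _) (cl_card_pos S _)

private lemma Rat_nn (hF : Adm F) (S : Finset ι) (i : ι) : 0 ≤ rat s t F S i :=
  le_trans (by positivity) (rat_low hF S i)

theorem phi_anti (hF : Adm F) {S S' : Finset ι} (hS : S ⊆ S') : Phi s t F S' ≤ Phi s t F S := by
  have key : ∀ U : Finset ι, Phi s t F (S ∪ U) ≤ Phi s t F S := by
    intro U
    induction U using Finset.induction_on with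
    | empty => rw [Finset.union_empty]
    | insert i U _ ih =>
      rw [Finset.union_insert, phi_insert hF]
      calc Phi s t F (S ∪ U) * rat s t F (S ∪ U) i ≤ Phi s t F (S ∪ U) * 1 :=
            mul_le_mul_of_nonneg_left (rat_le_one hF _ _) (phi_pos hF _).le
        _ ≤ _ := by rw [mul_one]; exact ih
  have := key S'
  rwa [Finset.union_eq_right.mpr hS] at this

/-- if the ends of `i` are connected in `S - i` then `i` can be removed -/
theorem phi_erase (hF : Adm F) (S : Finset ι) (i : ι) (h : Con s t (S.erase i) (s i) (t i)) :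
    Phi s t F S = Phi s t F (S.erase i) := by
  by_cases hi : i ∈ S
  · have h1 := phi_insert (s := s) (t := t) hF (S.erase i) i
    rw [Finset.insert_erase hi] at h1
    rw [h1]
    unfold rat
    rw [if_pos h, mul_one]
  · rw [Finset.erase_eq_of_notMem hi]

/-- PROOF. induction on `T \ S` (or on `U` disjoint from `T`: `Φ (A ∪ U) * Φ B ≤ Φ A * Φ (B ∪ U)` for `A ⊆ B`, from
`phi_insert` and `rat_mono`), applied to `A = S ∩ T`, `U = S \ T`, `B = T`. -/
theorem phi_lsf (hF : Adm F) : LSF (Phi s t F) := by
  have key : ∀ (A B : Finset ι), A ⊆ B → ∀ U : Finset ι,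
      Phi s t F (A ∪ U) * Phi s t F B ≤ Phi s t F A * Phi s t F (B ∪ U) := by
    intro A B hAB U
    induction U using Finset.induction_on with
    | empty => rw [Finset.union_empty, Finset.union_empty]
    | insert i U _ ih =>
      rw [Finset.union_insert, Finset.union_insert, phi_insert hF, phi_insert hF]
      have h1 : rat s t F (A ∪ U) i ≤ rat s t F (B ∪ U) i :=
        rat_mono hF (Finset.union_subset_union_left hAB) i
      have h2 : 0 ≤ Phi s t F (A ∪ U) * Phi s t F B :=
        mul_nonneg (phi_pos hF _).le (phi_pos hF _).le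
      calc Phi s t F (A ∪ U) * rat s t F (A ∪ U) i * Phi s t F B =
          Phi s t F (A ∪ U) * Phi s t F B * rat s t F (A ∪ U) i := by ring
        _ ≤ Phi s t F (A ∪ U) * Phi s t F B * rat s t F (B ∪ U) i :=
          mul_le_mul_of_nonneg_left h1 h2
        _ ≤ Phi s t F A * Phi s t F (B ∪ U) * rat s t F (B ∪ U) i :=
          mul_le_mul_of_nonneg_right ih (Rat_nn hF _ _)
        _ = _ := by ring
  intro S T
  have h1 := key (S ∩ T) T Finset.inter_subset_right S
  rw [Finset.union_eq_right.mpr (Finset.inter_subset_left : S ∩ T ⊆ S), Finset.union_comm T S] at h1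
  exact h1

end PF
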