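import Pool.Agent.W_5dd92e_pf.CluB
import Pool.Agent.W_5dd92e_pf.Pk
import Pool.Agent.W_5dd92e_pf.Rat

/-! # The cluster expansion -/

set_option autoImplicit false

open Finset TPB
open scoped Classical

namespace PF

variable {ι W : Type*} [Fintype ι] [Fintype W] {q : ℕ}

/-- the class of a vertex, as an element of the subtype -/
private noncomputable def expA_g (s t : ι → W) (S : Finset ι) (v : W) :
    {C : Finset W // C ∈ Cls s t S} := ⟨cl s t S v, cl_mem_Cls S v⟩

omit [Fintype ι] in
private theorem expA_g_iff (s t : ι → W) (S : Finset ι) (v : W)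
    (C : {C : Finset W // C ∈ Cls s t S}) : expA_g s t S v = C ↔ v ∈ C.1 := by
  constructor
  · intro h
    rw [← h]
    exact self_mem_cl S v
  · intro h
    exact Subtype.ext (eq_cl C.2 h).symm

omit [Fintype ι] in
private theorem expA_const (s t : ι → W) (S : Finset ι) (σ : W → Fin q)
    (h : ∀ i ∈ S, σ (s i) = σ (t i)) {x y : W} (hxy : Con s t S x y) : σ x = σ y := by
  have h1 := con_closed (s := s) (t := t) (S := S) {w | σ w = σ x}
    (fun i hi => by simp only [Set.mem_setOf_eq]; rw [h i hi]) hxy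
  have h2 : σ y = σ x := h1.1 rfl
  exact h2.symm

private theorem expA_one (s t : ι → W) (a b : Fin q → ℝ) (ε : ℝ) (S : Finset ι) :
    ∑ σ : W → Fin q, (∏ v, a (σ v)) *
        ∏ i ∈ S, (if σ (s i) = σ (t i) then ε * b (σ (s i)) else 0) =
      ε ^ S.card * ∏ C ∈ Cls s t S, ∑ k, a k ^ C.card * b k ^ mE s S C := by
  set Φ : ({C : Finset W // C ∈ Cls s t S} → Fin q) → (W → Fin q) :=
    fun κ v => κ (expA_g s t S v) with hΦ
  have hinj : Function.Injective Φ := by
    intro κ κ' h
    funext C
    obtain ⟨x, hx⟩ := mem_Cls.1 C.2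
    have h1 : expA_g s t S x = C := Subtype.ext hx
    have h2 := congrFun h x
    simp only [hΦ] at h2
    rwa [h1] at h2
  have hzero : ∀ σ ∈ (univ : Finset (W → Fin q)), σ ∉ univ.image Φ →
      (∏ v, a (σ v)) * ∏ i ∈ S, (if σ (s i) = σ (t i) then ε * b (σ (s i)) else 0) = 0 := by
    intro σ _ hσ
    by_contra hne
    apply hσ
    have hgood : ∀ i ∈ S, σ (s i) = σ (t i) := by
      intro i hi
      by_contra hi2
      apply hne
      rw [Finset.prod_eq_zero hi (if_neg hi2), mul_zero]
    rw [Finset.mem_image]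
    refine ⟨fun C => σ (Classical.choose (mem_Cls.1 C.2)), Finset.mem_univ _, ?_⟩
    funext v
    simp only [hΦ]
    have h1 := Classical.choose_spec (mem_Cls.1 (expA_g s t S v).2)
    have h2 : cl s t S (Classical.choose (mem_Cls.1 (expA_g s t S v).2)) = cl s t S v := h1
    have h3 : v ∈ cl s t S (Classical.choose (mem_Cls.1 (expA_g s t S v).2)) := by
      rw [h2]; exact self_mem_cl S v
    exact expA_const s t S σ hgood (mem_cl.1 h3)
  rw [← Finset.sum_subset (Finset.subset_univ (univ.image Φ)) hzero,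
    Finset.sum_image (fun x _ y _ h => hinj h)]
  have hterm : ∀ κ : {C : Finset W // C ∈ Cls s t S} → Fin q,
      (∏ v, a (Φ κ v)) * ∏ i ∈ S, (if Φ κ (s i) = Φ κ (t i) then ε * b (Φ κ (s i)) else 0) =
      ε ^ S.card * ∏ C : {C : Finset W // C ∈ Cls s t S},
        (a (κ C) ^ (C : Finset W).card * b (κ C) ^ mE s S C) := by
    intro κ
    have h1 : ∏ v, a (Φ κ v) = ∏ C : {C : Finset W // C ∈ Cls s t S},
        a (κ C) ^ (C : Finset W).card := by
      rw [← Finset.prod_fiberwise univ (expA_g s t S) (fun v => a (Φ κ v))]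
      refine Finset.prod_congr rfl fun C _ => ?_
      have h2 : (univ.filter (fun v => expA_g s t S v = C)) = C.1 := by
        ext v
        rw [Finset.mem_filter, expA_g_iff]
        simp
      rw [Finset.prod_congr rfl (g := fun _ => a (κ C)), Finset.prod_const, h2]
      intro v hv
      rw [Finset.mem_filter] at hv
      simp only [hΦ, hv.2]
    have h3 : ∏ i ∈ S, (if Φ κ (s i) = Φ κ (t i) then ε * b (Φ κ (s i)) else 0) =
        ε ^ S.card * ∏ C : {C : Finset W // C ∈ Cls s t S}, b (κ C) ^ mE s S C := by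
      have h4 : ∏ i ∈ S, (if Φ κ (s i) = Φ κ (t i) then ε * b (Φ κ (s i)) else 0) =
          ∏ i ∈ S, (ε * b (Φ κ (s i))) := by
        refine Finset.prod_congr rfl fun i hi => ?_
        rw [if_pos]
        simp only [hΦ]
        congr 1
        exact Subtype.ext (cl_eq (con_edge hi))
      rw [h4, Finset.prod_mul_distrib, Finset.prod_const]
      congr 1
      rw [← Finset.prod_fiberwise S (fun i => expA_g s t S (s i)) (fun i => b (Φ κ (s i)))]
      refine Finset.prod_congr rfl fun C _ => ?_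
      have h2 : (S.filter (fun i => expA_g s t S (s i) = C)) = S.filter (fun i => s i ∈ C.1) := by
        ext i
        rw [Finset.mem_filter, Finset.mem_filter, expA_g_iff]
      rw [Finset.prod_congr rfl (g := fun _ => b (κ C)), Finset.prod_const, h2]
      · rfl
      intro i hi
      rw [Finset.mem_filter] at hi
      simp only [hΦ, hi.2]
    rw [h1, h3, Finset.prod_mul_distrib]
    ring
  rw [Finset.sum_congr rfl (fun κ _ => hterm κ), ← Finset.mul_sum]
  congr 1
  rw [← Finset.prod_coe_sort (Cls s t S) (fun C => ∑ k, a k ^ C.card * b k ^ mE s S C),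
    Finset.prod_univ_sum, Fintype.piFinset_univ]

/-- PROOF. Expand the product over `i` (`Finset.prod_one_add` / `Finset.prod_add`); for a set `S` of open edges the sum over
`σ` runs over the `σ` constant on the components: it is the product over the components `C` of
`∑ k, a k ^ |C| * b k ^ mE S C` (induction on `S`, or the bijection between functions constant on components and
functions on `Cls`; `sum_Cls`, `sum_Cls_edges`). -/
theorem exp_id (s t : ι → W) (a b : Fin q → ℝ) (ε : ℝ) :
    ∑ σ : W → Fin q, (∏ v, a (σ v)) *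
        ∏ i, (1 + if σ (s i) = σ (t i) then ε * b (σ (s i)) else 0) = Zx s t a b ε := by
  unfold Zx
  have h1 : ∀ σ : W → Fin q, (∏ v, a (σ v)) *
      ∏ i, (1 + if σ (s i) = σ (t i) then ε * b (σ (s i)) else 0) =
      ∑ S : Finset ι, (∏ v, a (σ v)) *
        ∏ i ∈ S, (if σ (s i) = σ (t i) then ε * b (σ (s i)) else 0) := by
    intro σ
    rw [Finset.prod_one_add, Finset.powerset_univ, Finset.mul_sum]
  rw [Finset.sum_congr rfl (fun σ _ => h1 σ), Finset.sum_comm]
  exact Finset.sum_congr rfl fun S _ => expA_one s t a b ε S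

/-- PROOF. `card_le_mE`, `sum_le_fw`, `fw_le`; `∏ C, exp (κ |C|) = exp (κ |W|)`. -/
theorem exp_up {a b : Fin q → ℝ} {o : Fin q} (h : Dm a b o) (κ : ℝ) (ε : ℝ)
    (hε : 0 < ε) (s t : ι → W) :
    Zx s t a b ε ≤ Real.exp (κ * Fintype.card W) * Zt s t (FF a b κ) ε := by
  unfold Zx Zt Phi
  rw [Finset.mul_sum]
  refine Finset.sum_le_sum fun S _ => ?_
  have h1 : ∏ C ∈ Cls s t S, ∑ k, a k ^ C.card * b k ^ mE s S C ≤
      ∏ C ∈ Cls s t S, (Real.exp (κ * C.card) * FF a b κ C.card) := by
    refine Finset.prod_le_prod (fun C _ => ?_) (fun C hC => ?_)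
    · exact zero_le_one.trans (one_le_sum h _ _)
    · exact (sum_le_fw h _ _ (card_le_mE S C hC)).trans (fw_le κ _)
  have h2 : ∏ C ∈ Cls s t S, Real.exp (κ * (C.card : ℝ)) =
      Real.exp (κ * Fintype.card W) := by
    rw [← Real.exp_sum, ← Finset.mul_sum]
    congr 2
    have h3 := sum_Cls (s := s) (t := t) S (fun _ : W => (1 : ℝ))
    simpa using h3
  rw [Finset.prod_mul_distrib, h2] at h1
  calc ε ^ S.card * ∏ C ∈ Cls s t S, ∑ k, a k ^ C.card * b k ^ mE s S C
      ≤ ε ^ S.card * (Real.exp (κ * Fintype.card W) * ∏ C ∈ Cls s t S, FF a b κ C.card) :=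
        mul_le_mul_of_nonneg_left h1 (by positivity)
    _ = _ := by ring

/-- PROOF. For `|C| ≤ L`: `card_eq_mE`, so the sum is `fw |C| ≥ FF |C|` (`ff_le_fw`); for `|C| > L`: `FF = 1` and
`one_le_sum`. -/
theorem exp_low {a b : Fin q → ℝ} {o : Fin q} (h : Dm a b o) (κ : ℝ) (hκ : 0 ≤ κ) (ε : ℝ)
    (hε : 0 < ε) (s t : ι → W) (L : ℕ) (hG : Gir s t L) (hL : ∀ n, L < n → FF a b κ n = 1) :
    Zt s t (FF a b κ) ε ≤ Zx s t a b ε := by
  unfold Zx Zt Phi
  refine Finset.sum_le_sum fun S _ => ?_
  refine mul_le_mul_of_nonneg_left ?_ (by positivity)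
  refine Finset.prod_le_prod (fun C _ => ?_) (fun C hC => ?_)
  · exact zero_le_one.trans (le_max_left _ _)
  · by_cases hCL : C.card ≤ L
    · have h1 := card_eq_mE L hG S C hC hCL
      refine (ff_le_fw h κ hκ C.card).trans (le_of_eq ?_)
      unfold fw
      rw [show C.card - 1 = mE s S C by omega]
    · rw [hL C.card (by omega)]
      exact one_le_sum h _ _

end PF
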