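import Pool.Agent.W_5dd92e_pf.ExpA
import Pool.Agent.W_5dd92e_pf.Egs

/-! # The colour model of a regular graph and of its covers -/

set_option autoImplicit false

open Finset TPB
open scoped Classical

namespace PF

variable {V : Type*} [Fintype V] {q : ℕ}

private theorem expB_root {d : ℕ} (hd : 1 ≤ d) {x : ℝ} (hx : 0 < x) :
    (x ^ (1 / (d : ℝ))) ^ d = x := by
  rw [one_div]
  exact Real.rpow_inv_natCast_pow hx.le (by omega)

private theorem expB_Mn (d : ℕ) (a b : Fin q → ℝ) (ha : ∀ k, 0 < a k) (ε : ℝ) (k l : Fin q) :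
    Mn d a b ε k l = (a k ^ (1 / (d : ℝ)) * a l ^ (1 / (d : ℝ))) *
      (1 + if k = l then ε * b k else 0) := by
  unfold Mn
  rw [Real.mul_rpow (ha k).le (ha l).le]

/-- PROOF. `∏ e, (a (σ e.1) * a (σ e.2)) ^ (1 / d) = ∏ v, a (σ v)` by `TPB.prod_deg` for the function `v ↦ a (σ v) ^ (1 / d)`
(or `Real.finset_prod_rpow`); products over `ed G c` and over the subtype (`Finset.prod_coe_sort`); then `exp_id`. -/
theorem zb_eq (G : SimpleGraph V) (c : V → Bool) (hc : Prp G c) (d : ℕ) (hd : 1 ≤ d)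
    (hr : Rgl G d) (a b : Fin q → ℝ) (ha : ∀ k, 0 < a k) (ε : ℝ) :
    ZB G c (Mn d a b ε) = Zx (se G c) (te G c) a b ε := by
  rw [← exp_id]
  unfold ZB
  apply Finset.sum_congr rfl
  intro σ _
  have h1 : wt G c (Mn d a b ε) σ
      = ∏ e : Eg G c, Mn d a b ε (σ (se G c e)) (σ (te G c e)) :=
    (prod_eg (G := G) (c := c) (fun p => Mn d a b ε (σ p.1) (σ p.2))).symm
  rw [h1]
  have h2 : ∏ e : Eg G c, Mn d a b ε (σ (se G c e)) (σ (te G c e))
      = (∏ e : Eg G c, (a (σ (se G c e)) ^ (1 / (d : ℝ)) * a (σ (te G c e)) ^ (1 / (d : ℝ)))) *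
        ∏ e : Eg G c, (1 + if σ (se G c e) = σ (te G c e) then ε * b (σ (se G c e)) else 0) := by
    rw [← Finset.prod_mul_distrib]
    apply Finset.prod_congr rfl
    intro e _
    exact expB_Mn d a b ha ε _ _
  have h4 : ∏ e : Eg G c, (a (σ (se G c e)) ^ (1 / (d : ℝ)) * a (σ (te G c e)) ^ (1 / (d : ℝ)))
      = ∏ v, (a (σ v) ^ (1 / (d : ℝ))) ^ d :=
    prod_deg2 hc d hr (fun v => a (σ v) ^ (1 / (d : ℝ)))
  rw [h2, h4]
  congr 1
  apply Finset.prod_congr rfl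
  intro v _
  exact expB_root hd (ha _)

/-- PROOF. The same for the cover: `∏ p, (a (σ (sc p)) * a (σ (tc p))) ^ (1 / d) = ∏ (v, j), a (σ (v, j))`, since for every
edge `e` the map `π e` is a bijection of the sheets: sum over the sheets first, use `prod_deg` for
`v ↦ ∏ j, a (σ (v, j)) ^ (1 / d)`. -/
theorem zcov_eq (G : SimpleGraph V) (c : V → Bool) (hc : Prp G c) (d : ℕ) (hd : 1 ≤ d)
    (hr : Rgl G d) (a b : Fin q → ℝ) (ha : ∀ k, 0 < a k) (ε : ℝ) (k : ℕ)
    (π : Eg G c → Equiv.Perm (Fin k)) :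
    Zcov G c k π (Mn d a b ε) = Zx (sc (se G c) k) (tc (te G c) k π) a b ε := by
  rw [← exp_id]
  unfold Zcov
  refine Finset.sum_congr (by ext; simp) ?_
  intro σ _
  have h2 : ∏ p : Eg G c × Fin k, Mn d a b ε (σ (sc (se G c) k p)) (σ (tc (te G c) k π p))
      = (∏ p : Eg G c × Fin k, (a (σ (sc (se G c) k p)) ^ (1 / (d : ℝ)) *
          a (σ (tc (te G c) k π p)) ^ (1 / (d : ℝ)))) *
        ∏ p : Eg G c × Fin k, (1 + if σ (sc (se G c) k p) = σ (tc (te G c) k π p) then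
          ε * b (σ (sc (se G c) k p)) else 0) := by
    rw [← Finset.prod_mul_distrib]
    apply Finset.prod_congr rfl
    intro e _
    exact expB_Mn d a b ha ε _ _
  rw [h2]
  congr 1
  have h3 : ∏ p : Eg G c × Fin k, (a (σ (sc (se G c) k p)) ^ (1 / (d : ℝ)) *
          a (σ (tc (te G c) k π p)) ^ (1 / (d : ℝ)))
      = ∏ e : Eg G c, ((∏ j : Fin k, a (σ (se G c e, j)) ^ (1 / (d : ℝ))) *
          (∏ j : Fin k, a (σ (te G c e, j)) ^ (1 / (d : ℝ)))) := by
    rw [Fintype.prod_prod_type]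
    apply Finset.prod_congr rfl
    intro e _
    rw [Finset.prod_mul_distrib]
    congr 1
    exact Equiv.prod_comp (π e) (fun j => a (σ (te G c e, j)) ^ (1 / (d : ℝ)))
  have h4 : ∏ e : Eg G c, ((∏ j : Fin k, a (σ (se G c e, j)) ^ (1 / (d : ℝ))) *
          (∏ j : Fin k, a (σ (te G c e, j)) ^ (1 / (d : ℝ))))
      = ∏ v, (∏ j : Fin k, a (σ (v, j)) ^ (1 / (d : ℝ))) ^ d :=
    prod_deg2 hc d hr (fun v => ∏ j : Fin k, a (σ (v, j)) ^ (1 / (d : ℝ)))
  rw [h3, h4, Fintype.prod_prod_type]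
  apply Finset.prod_congr rfl
  intro v _
  rw [← Finset.prod_pow]
  apply Finset.prod_congr rfl
  intro j _
  exact expB_root hd (ha _)

end PF
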