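import Pool.Agent.W_5dd92e_pf.CluA
import Pool.Agent.W_5dd92e_pf.Egs
import Pool.Agent.W_5dd92e_h6.Comp

/-! # Large girth -/

set_option autoImplicit false

open Finset TPB
open scoped Classical

namespace PF

variable {V : Type*} [Fintype V]

private lemma girG_adj (G : SimpleGraph V) (c : V → Bool) (S : Finset (Eg G c)) (a b : V) :
    (SimpleGraph.fromEdgeSet {x : Sym2 V | ∃ e ∈ S, s(se G c e, te G c e) = x}).Adj a b ↔
      ∃ e ∈ S, (se G c e = a ∧ te G c e = b) ∨ (se G c e = b ∧ te G c e = a) := by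
  rw [SimpleGraph.fromEdgeSet_adj]
  constructor
  · rintro ⟨⟨e, he, h⟩, -⟩
    refine ⟨e, he, ?_⟩
    rw [Sym2.eq_iff] at h
    exact h
  · rintro ⟨e, he, h⟩
    refine ⟨⟨e, he, ?_⟩, ?_⟩
    · rw [Sym2.eq_iff]
      exact h
    · have h1 := (eg_adj e).ne
      rcases h with ⟨h2, h3⟩ | ⟨h2, h3⟩
      · rw [← h2, ← h3]; exact h1
      · rw [← h2, ← h3]; exact h1.symm

/-- components of the edge family of a graph are components of the graph of the open edges.
PROOF. `EqvGen` induction; walks. -/
theorem con_reach (G : SimpleGraph V) (c : V → Bool) (S : Finset (Eg G c)) (a b : V) :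
    Con (se G c) (te G c) S a b ↔
      (SimpleGraph.fromEdgeSet {x : Sym2 V | ∃ e ∈ S, s(se G c e, te G c e) = x}).Reachable a b := by
  constructor
  · intro h
    unfold Con at h
    induction h with
    | rel x y h =>
      obtain ⟨i, hi, h1, h2⟩ := h
      exact SimpleGraph.Adj.reachable ((girG_adj G c S x y).2 ⟨i, hi, Or.inl ⟨h1, h2⟩⟩)
    | refl x => exact SimpleGraph.Reachable.refl x
    | symm x y _ ih => exact ih.symm
    | trans x y z _ _ ih1 ih2 => exact ih1.trans ih2
  · rintro ⟨w⟩
    unfold Con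
    induction w with
    | nil => exact Relation.EqvGen.refl _
    | cons h _ ih =>
      refine Relation.EqvGen.trans _ _ _ ?_ ih
      obtain ⟨e, he, h1 | h1⟩ := (girG_adj G c S _ _).1 h
      · exact Relation.EqvGen.rel _ _ ⟨e, he, h1⟩
      · exact Relation.EqvGen.symm _ _ (Relation.EqvGen.rel _ _ ⟨e, he, h1⟩)

/-- PROOF. A path of open edges from `s i` to `t i` (simple: length at most `|C| - 1` where `C` is the component, its
vertices are in `C`) together with the edge `i ∉ S` is a cycle of `G` of length at most `|C|`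
(`i` is not an edge of the path: `s(se e, te e)` determines `e`, as `c (se e) = true` and `c (te e) = false`).  Or use
`Pool.Agent.W_5dd92e_h6.girth_le` / `nV_le` for the edge set `insert i S`. -/
theorem gir_of (G : SimpleGraph V) (c : V → Bool) (hp : Prp G c) (L : ℕ)
    (hg : ((L + 1 : ℕ) : ℕ∞) ≤ G.egirth) : Gir (se G c) (te G c) L := by
  intro S i hi hcon
  have hr := (con_reach G c S _ _).1 hcon
  obtain ⟨p, hpp⟩ := hr.exists_isPath
  have hle : SimpleGraph.fromEdgeSet {x : Sym2 V | ∃ e ∈ S, s(se G c e, te G c e) = x} ≤ G := by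
    intro u v h
    obtain ⟨e, -, h1 | h1⟩ := (girG_adj G c S u v).1 h
    · rw [← h1.1, ← h1.2]; exact eg_adj e
    · rw [← h1.1, ← h1.2]; exact (eg_adj e).symm
  have hne : s(te G c i, se G c i) ∉ (p.mapLe hle).edges := by
    intro h
    rw [SimpleGraph.Walk.edges_mapLe_eq_edges] at h
    have h1 := p.edges_subset_edgeSet h
    rw [SimpleGraph.mem_edgeSet] at h1
    obtain ⟨e, he, h2 | h2⟩ := (girG_adj G c S _ _).1 h1
    · have h3 := eg_col e
      have h4 := eg_col i
      have h5 := hp _ _ (eg_adj i)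
      rw [h2.1] at h3
      exact h5 (h4.trans h3.symm)
    · exact hi ((eg_ext h2.1 h2.2) ▸ he)
  have hcyc : (SimpleGraph.Walk.cons (eg_adj i).symm (p.mapLe hle)).IsCycle := by
    have h1 : (p.mapLe hle).IsPath := hpp.mapLe hle
    exact SimpleGraph.Path.cons_isCycle ⟨_, h1⟩ (eg_adj i).symm hne
  have h2 := hg.trans (SimpleGraph.egirth_le_length hcyc)
  rw [Nat.cast_le, SimpleGraph.Walk.length_cons, SimpleGraph.Walk.length_map] at h2
  have h3 : p.support.toFinset ⊆ cl (se G c) (te G c) S (se G c i) := by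
    intro v hv
    rw [List.mem_toFinset] at hv
    unfold cl
    rw [mem_filter]
    exact ⟨mem_univ _, (con_reach G c S _ _).2 ⟨p.takeUntil v hv⟩⟩
  have h4 := card_le_card h3
  rw [List.toFinset_card_of_nodup hpp.support_nodup, SimpleGraph.Walk.length_support] at h4
  omega

end PF
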