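import Pool.Agent.W_5dd92e_pf.TypB
import Pool.Agent.W_5dd92e_pf.CovG
import Pool.Agent.W_5dd92e_pf.ExpB
import Pool.Agent.W_5dd92e_pf.GirG

/-! # The lower bound -/

set_option autoImplicit false

open Finset TPB
open scoped Classical

namespace PF

universe u

/-- PROOF. if `x ^ k ≤ C (k + 1) ^ m y ^ k` for all `k ≥ 1` then `x ≤ y` (`x, y ≥ 0`): otherwise `(x / y)^k` grows
exponentially. -/
theorem root_le (x y : ℝ) (hx : 0 ≤ x) (hy : 0 ≤ y) (m : ℕ)
    (h : ∀ k : ℕ, 1 ≤ k → x ^ k ≤ ((k : ℝ) + 1) ^ m * y ^ k) : x ≤ y := by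
  by_contra hxy
  push Not at hxy
  rcases hy.eq_or_lt with hy0 | hy0
  · have h1 := h 1 le_rfl
    rw [← hy0] at h1 hxy
    simp only [pow_one, mul_zero] at h1
    linarith
  · set r := x / y with hr
    have hr1 : 1 < r := by rw [hr, lt_div_iff₀ hy0, one_mul]; exact hxy
    have hr0 : 0 < r := by linarith
    have ht := (tendsto_pow_const_div_const_pow_of_one_lt m hr1).comp (Filter.tendsto_add_atTop_nat 1)
    have hev : ∀ᶠ k : ℕ in Filter.atTop, ((fun n : ℕ => (n : ℝ) ^ m / r ^ n) ∘ fun a => a + 1) k < 1 / r :=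
      (tendsto_order.1 ht).2 _ (by positivity)
    obtain ⟨k, hk1, hk2⟩ := (hev.and (Filter.eventually_ge_atTop 1)).exists
    have h2 := h k hk2
    have h3 : r ^ k ≤ ((k : ℝ) + 1) ^ m := by
      rw [hr, div_pow, div_le_iff₀ (pow_pos hy0 k)]
      exact h2
    simp only [Function.comp] at hk1
    rw [div_lt_div_iff₀ (pow_pos hr0 _) hr0, one_mul, pow_succ] at hk1
    have h4 : ((k + 1 : ℕ) : ℝ) ^ m < r ^ k := lt_of_mul_lt_mul_right hk1 hr0.le
    push_cast at h4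
    linarith

private theorem mn_nn (d : ℕ) {q : ℕ} {a b : Fin q → ℝ} {o : Fin q} (h : Dm a b o) (ε : ℝ)
    (hε : 0 < ε) (i j : Fin q) : 0 ≤ Mn d a b ε i j := by
  unfold Mn
  apply mul_nonneg (Real.rpow_nonneg (mul_nonneg (h.apos i).le (h.apos j).le) _)
  have := mul_nonneg hε.le (h.bnn i)
  split_ifs <;> linarith

private theorem form_nn (d : ℕ) {q : ℕ} (B : Fin q → Fin q → ℝ) (hB : ∀ i j, 0 ≤ B i j)
    (p p' : Fin q → ℝ) (hp : Pv p) (hp' : Pv p') : 0 ≤ form d B p p' :=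
  Finset.sum_nonneg fun i _ => Finset.sum_nonneg fun j _ =>
    mul_nonneg (hB i j) (Real.rpow_nonneg (mul_nonneg (hp.1 i) (hp'.1 j)) _)

private theorem zt_nn {ι W : Type*} [Fintype ι] [Fintype W] {q : ℕ} (s t : ι → W) {a b : Fin q → ℝ}
    {o : Fin q} (h : Dm a b o) (κ : ℝ) (hκ : 0 ≤ κ) (ε : ℝ) (hε : 0 < ε) :
    0 ≤ Zt s t (FF a b κ) ε :=
  Finset.sum_nonneg fun S _ => mul_nonneg (pow_nonneg hε.le _) (phi_pos (ff_adm h κ hκ) S).le

/-- PROOF. `B = Mn d a b ε ≥ 0`.  For all probability vectors `p, p'` and all `k`: `typ_bound`, `zcov_eq`, `exp_up` (for the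
cover: `|V × Fin k| = k n`), `cov_ineq`, `exp_low` (`gir_of`), `zb_eq` give
`(form ^ |E|) ^ k ≤ ((k+1)^(2q))^|E| * (exp (κ n) * ZB) ^ k`; `root_le`; take the supremum over `p, p'`
(`NN = sSup`, `csSup_le`, roots: `form ≤ (exp (κ n) ZB)^(1/|E|)`; `|E| = 0` only if `V` is empty, then both sides are `1`). -/
theorem lower (d : ℕ) (hd : 1 ≤ d) {q : ℕ} {a b : Fin q → ℝ} {o : Fin q} (h : Dm a b o) (ε : ℝ)
    (hε : 0 < ε) (κ : ℝ) (hκ : 0 < κ) :
    ∃ g : ℕ, ∀ (W : Type u) [Fintype W] (G : SimpleGraph W) (c : W → Bool), Prp G c →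
      Rgl G d → (g : ℕ∞) ≤ G.egirth →
      NN d (Mn d a b ε) ^ (ed G c).card ≤
        Real.exp (κ * Fintype.card W) * ZB G c (Mn d a b ε) := by
  obtain ⟨L, hL1, hL⟩ := ff_L h κ hκ
  refine ⟨L + 1, ?_⟩
  intro W _ G c hc hr hg
  have hG : Gir (se G c) (te G c) L := gir_of G c hc L hg
  have hB : ∀ i j, 0 ≤ Mn d a b ε i j := mn_nn d h ε hε
  have hF : Adm (FF a b κ) := ff_adm h κ hκ.le
  have hq : 0 < q := lt_of_le_of_lt (Nat.zero_le _) o.isLt
  have hZB : ZB G c (Mn d a b ε) = Zx (se G c) (te G c) a b ε := zb_eq G c hc d hd hr a b h.apos ε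
  have hZt0 := zt_nn (se G c) (te G c) h κ hκ.le ε hε
  have hlow := exp_low h κ hκ.le ε hε (se G c) (te G c) L hG hL
  have hZB0 : 0 ≤ ZB G c (Mn d a b ε) := by
    rw [hZB]
    exact hZt0.trans hlow
  set R : ℝ := Real.exp (κ * Fintype.card W) * ZB G c (Mn d a b ε) with hR
  have hR0 : 0 ≤ R := mul_nonneg (Real.exp_pos _).le hZB0
  have key : ∀ p p' : Fin q → ℝ, Pv p → Pv p' → form d (Mn d a b ε) p p' ^ (ed G c).card ≤ R := by
    intro p p' hp hp'
    refine root_le _ _ (pow_nonneg (form_nn d _ hB p p' hp hp') _) hR0 (2 * q * (ed G c).card) ?_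
    intro k hk
    obtain ⟨π, hπ⟩ := typ_bound G c hc d hd hr hq (Mn d a b ε) hB p p' hp hp' k
    have h1 := exp_up h κ ε hε (sc (se G c) k) (tc (te G c) k π)
    rw [← zcov_eq G c hc d hd hr a b h.apos ε k π] at h1
    have h2 := cov_ineq (se G c) (te G c) k π hF ε hε
    have h3 : Zt (se G c) (te G c) (FF a b κ) ε ^ k ≤ ZB G c (Mn d a b ε) ^ k := by
      rw [hZB]
      exact pow_le_pow_left₀ hZt0 hlow k
    have h4 : Zcov G c k π (Mn d a b ε) ≤ R ^ k := by
      calc Zcov G c k π (Mn d a b ε) ≤ Real.exp (κ * Fintype.card (W × Fin k)) *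
            Zt (sc (se G c) k) (tc (te G c) k π) (FF a b κ) ε := h1
        _ ≤ Real.exp (κ * Fintype.card (W × Fin k)) * ZB G c (Mn d a b ε) ^ k :=
            mul_le_mul_of_nonneg_left (h2.trans h3) (Real.exp_pos _).le
        _ = R ^ k := by
            rw [hR, mul_pow, ← Real.exp_nat_mul]
            congr 2
            rw [Fintype.card_prod, Fintype.card_fin]
            push_cast
            ring
    calc (form d (Mn d a b ε) p p' ^ (ed G c).card) ^ k ≤
          (((k : ℝ) + 1) ^ (2 * q)) ^ (ed G c).card * Zcov G c k π (Mn d a b ε) := hπ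
      _ ≤ (((k : ℝ) + 1) ^ (2 * q)) ^ (ed G c).card * R ^ k :=
          mul_le_mul_of_nonneg_left h4 (by positivity)
      _ = ((k : ℝ) + 1) ^ (2 * q * (ed G c).card) * R ^ k := by rw [← pow_mul]
  have hne : ∃ p : Fin q → ℝ, Pv p := by
    refine ⟨fun i => if i = o then 1 else 0, fun i => ?_, ?_⟩
    · beta_reduce
      split_ifs <;> norm_num
    · simp
  obtain ⟨p0, hp0⟩ := hne
  rcases Nat.eq_zero_or_pos (ed G c).card with hE | hE
  · have := key p0 p0 hp0 hp0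
    rw [hE, pow_zero] at this ⊢
    exact this
  · have hE0 : (ed G c).card ≠ 0 := hE.ne'
    have hx : (R ^ (1 / ((ed G c).card : ℝ))) ^ (ed G c).card = R := by
      rw [one_div]
      exact Real.rpow_inv_natCast_pow hR0 hE0
    have hNN : NN d (Mn d a b ε) ≤ R ^ (1 / ((ed G c).card : ℝ)) := by
      have hne : {x : ℝ | ∃ p p' : Fin q → ℝ, Pv p ∧ Pv p' ∧
          x = form d (Mn d a b ε) p p'}.Nonempty := ⟨_, p0, p0, hp0, hp0, rfl⟩
      refine csSup_le hne ?_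
      rintro x ⟨p, p', hp, hp', rfl⟩
      have h5 := key p p' hp hp'
      rw [← hx] at h5
      exact (pow_le_pow_iff_left₀ (form_nn d _ hB p p' hp hp') (Real.rpow_nonneg hR0 _) hE0).1 h5
    have hNN0 : 0 ≤ NN d (Mn d a b ε) := by
      apply Real.sSup_nonneg
      rintro x ⟨p, p', hp, hp', rfl⟩
      exact form_nn d _ hB p p' hp hp'
    calc NN d (Mn d a b ε) ^ (ed G c).card ≤ (R ^ (1 / ((ed G c).card : ℝ))) ^ (ed G c).card :=
          pow_le_pow_left₀ hNN0 hNN _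
      _ = R := hx

end PF
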