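import Pool.Agent.W_5dd92e_pf.Upper
import Pool.Agent.W_5dd92e_pf.Lower

/-! # The limit theorem -/

set_option autoImplicit false

open Finset Filter Topology TPB
open scoped Classical Pointwise

namespace PF

universe u

variable {q : ℕ}

/-- the target `x xᵀ + diag y` -/
def Pm (x y : Fin q → ℝ) : Matrix (Fin q) (Fin q) ℝ :=
  fun k l => x k * x l + if k = l then y k else 0

theorem pm_symm (x y : Fin q → ℝ) : (Pm x y).IsSymm := by
  apply Matrix.IsSymm.ext
  intro i j
  unfold Pm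
  by_cases h : i = j
  · subst h; rfl
  · have h' : ¬ j = i := fun e => h e.symm
    rw [if_neg h, if_neg h']
    ring

/-- PROOF. `a k = (x k / x o) ^ d`, `b k = (y k / x k ^ 2) / (y o / x o ^ 2)`, `ε = y o / x o ^ 2`:
`(a k a l)^(1/d) = x k x l / x o ^ 2` (`Real.pow_rpow_inv_natCast`). -/
theorem pm_eq (d : ℕ) (hd : 1 ≤ d) (x y : Fin q → ℝ) (o : Fin q) (hx : ∀ k, 0 < x k)
    (hyo : 0 < y o) (k l : Fin q) :
    Pm x y k l = x o ^ 2 * Mn d (fun k => (x k / x o) ^ d)
      (fun k => (y k / x k ^ 2) / (y o / x o ^ 2)) (y o / x o ^ 2) k l := by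
  have hk := hx k
  have hl := hx l
  have ho := hx o
  unfold Pm Mn
  have h1 : (((x k / x o) ^ d * (x l / x o) ^ d) ^ (1 / (d : ℝ)) : ℝ) = (x k / x o) * (x l / x o) := by
    rw [← mul_pow, one_div]
    exact Real.pow_rpow_inv_natCast (by positivity) (by omega)
  simp only
  rw [h1]
  by_cases h : k = l
  · rw [if_pos h, if_pos h]
    subst h
    field_simp
  · rw [if_neg h, if_neg h]
    field_simp
    ring

theorem pm_dm (d : ℕ) (x y : Fin q → ℝ) (o : Fin q) (hx : ∀ k, 0 < x k) (hy : ∀ k, 0 ≤ y k)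
    (hyo : 0 < y o) (hdom : ∀ k, y k = 0 ∨ (x k ≤ x o ∧ y k * x o ^ 2 ≤ y o * x k ^ 2)) :
    Dm (fun k => (x k / x o) ^ d) (fun k => (y k / x k ^ 2) / (y o / x o ^ 2)) o := by
  have ho := hx o
  refine ⟨fun k => ?_, fun k => ?_, ?_, ?_, fun k => ?_⟩
  · have := hx k
    positivity
  · have := hx k
    have := hy k
    positivity
  · show (x o / x o) ^ d = 1
    rw [div_self ho.ne', one_pow]
  · show (y o / x o ^ 2) / (y o / x o ^ 2) = 1
    exact div_self (by positivity)
  · have hk := hx k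
    rcases hdom k with h | ⟨h1, h2⟩
    · left
      show (y k / x k ^ 2) / (y o / x o ^ 2) = 0
      rw [h]
      simp
    · right
      constructor
      · show (x k / x o) ^ d ≤ 1
        exact pow_le_one₀ (by positivity) ((div_le_one ho).2 h1)
      · show (y k / x k ^ 2) / (y o / x o ^ 2) ≤ 1
        rw [div_le_one (by positivity), div_le_div_iff₀ (by positivity) (by positivity)]
        exact h2

/-- PROOF. `NN d (r • B) = r * NN d B`, `ZB G c (r • B) = r ^ |E| * ZB G c B` for `r > 0` -/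
theorem nn_smul (d : ℕ) (hd : 1 ≤ d) (B : Fin q → Fin q → ℝ) (hB : ∀ i j, 0 ≤ B i j) (r : ℝ)
    (hr : 0 < r) : NN d (fun k l => r * B k l) = r * NN d B := by
  unfold NN
  have h1 : {x : ℝ | ∃ p p' : Fin q → ℝ, Pv p ∧ Pv p' ∧ x = form d (fun k l => r * B k l) p p'} =
      r • {x : ℝ | ∃ p p' : Fin q → ℝ, Pv p ∧ Pv p' ∧ x = form d B p p'} := by
    have hf : ∀ p p' : Fin q → ℝ, form d (fun k l => r * B k l) p p' = r * form d B p p' := by
      intro p p'
      unfold form
      rw [Finset.mul_sum]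
      refine Finset.sum_congr rfl fun i _ => ?_
      rw [Finset.mul_sum]
      refine Finset.sum_congr rfl fun j _ => ?_
      ring
    ext z
    rw [Set.mem_smul_set]
    constructor
    · rintro ⟨p, p', hp, hp', rfl⟩
      exact ⟨form d B p p', ⟨p, p', hp, hp', rfl⟩, by rw [hf, smul_eq_mul]⟩
    · rintro ⟨w, ⟨p, p', hp, hp', rfl⟩, rfl⟩
      exact ⟨p, p', hp, hp', by rw [hf, smul_eq_mul]⟩
  rw [h1, Real.sSup_smul_of_nonneg hr.le, smul_eq_mul]

theorem zb_smul {V : Type u} [Fintype V] (G : SimpleGraph V) (c : V → Bool)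
    (B : Fin q → Fin q → ℝ) (r : ℝ) :
    ZB G c (fun k l => r * B k l) = r ^ (ed G c).card * ZB G c B := by
  unfold ZB wt
  rw [Finset.mul_sum]
  refine Finset.sum_congr rfl fun σ _ => ?_
  rw [Finset.prod_mul_distrib, Finset.prod_const]

theorem log_root_lim (Z : ℕ → ℝ) (hZ : ∀ n, 0 < Z n) (N : ℝ) (hN : 0 < N)
    (h : ∀ η : ℝ, 0 < η → ∀ᶠ n in atTop, |Real.log (Z n) - Real.log N| ≤ η) :
    Tendsto Z atTop (𝓝 N) := by
  have h1 : Tendsto (fun n => Real.log (Z n)) atTop (𝓝 (Real.log N)) := by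
    rw [Metric.tendsto_atTop]
    intro ε hε
    obtain ⟨n0, hn0⟩ := eventually_atTop.mp (h (ε / 2) (by positivity))
    refine ⟨n0, fun n hn => ?_⟩
    rw [Real.dist_eq]
    have := hn0 n hn
    linarith
  have h2 := (Real.continuous_exp.tendsto _).comp h1
  rw [Real.exp_log hN] at h2
  refine h2.congr fun n => ?_
  simp [Real.exp_log (hZ n)]

/-- THE LIMIT THEOREM for Potts targets with a dominating colour.
PROOF. If all `y k = 0`: `Pm x y` has rank at most one, `TPB.rank_two` and `TPB.limit_thm`.  Otherwise the dominating colour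
has `y o > 0`.  `upper` and `lower` for `Mn`, rescaled (`pm_eq`, `nn_smul`, `zb_smul`), `TPB.Zpart_eq`, `TPB.exists_col`,
`TPB.rgl_of`, `TPB.two_card_ed`; then as in `TPB.limit_thm` (`W_5dd92e_h55/Final.lean`), where the lower bound now has a factor
`exp (- κ n)` and holds for large girth only. -/
theorem limit_potts (d : ℕ) (hd : 1 ≤ d) (x y : Fin q → ℝ) (hx : ∀ k, 0 < x k)
    (hy : ∀ k, 0 ≤ y k) (o : Fin q)
    (hdom : ∀ k, y k = 0 ∨ (x k ≤ x o ∧ y k * x o ^ 2 ≤ y o * x k ^ 2)) (V : ℕ → Type u)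
    [∀ n, Fintype (V n)] [∀ n, Nonempty (V n)] (G : ∀ n, SimpleGraph (V n))
    (hreg : ∀ n, (G n).IsRegularOfDegree d) (hbip : ∀ n, (G n).IsBipartite)
    (hgirth : Tendsto (fun n => (G n).egirth) atTop (𝓝 ⊤)) :
    Tendsto (fun n => Zpart (G n) (Pm x y) (pm_symm x y) ^ (1 / (Fintype.card (V n) : ℝ))) atTop
      (𝓝 (NN d (Pm x y) ^ ((d : ℝ) / 2))) := by
  have hPpos : ∀ k l, 0 < Pm x y k l := by
    intro k l
    unfold Pm
    have h1 := mul_pos (hx k) (hx l)
    split_ifs with h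
    · have := hy k
      linarith
    · linarith
  by_cases hz : ∀ k, y k = 0
  · refine limit_thm d hd (Pm x y) (pm_symm x y) (fun i j => (hPpos i j).le) ?_ V G hreg hbip
      hgirth
    refine ⟨1, 1, fun i i' j j' _ _ => le_of_eq ?_⟩
    have h1 : ∀ k l, Pm x y k l = x k * x l := by
      intro k l
      unfold Pm
      split_ifs with h
      · rw [hz k, add_zero]
      · rw [add_zero]
    rw [h1, h1, h1, h1]
    simp only [Equiv.Perm.coe_one, id_eq]
    ring
  push Not at hz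
  obtain ⟨k0, hk0⟩ := hz
  have hxo := hx o
  have hyo : 0 < y o := by
    have h1 : 0 < y k0 := lt_of_le_of_ne (hy k0) (Ne.symm hk0)
    rcases hdom k0 with h | ⟨_, h2⟩
    · exact absurd h hk0
    · have h3 : 0 < y k0 * x o ^ 2 := by positivity
      have h4 : 0 < x k0 ^ 2 := by have := hx k0; positivity
      by_contra hc
      push Not at hc
      have : y o * x k0 ^ 2 ≤ 0 := mul_nonpos_of_nonpos_of_nonneg hc h4.le
      linarith
  have hq : 0 < q := lt_of_le_of_lt (Nat.zero_le _) o.2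
  obtain ⟨a, ha⟩ : ∃ a : Fin q → ℝ, a = fun k => (x k / x o) ^ d := ⟨_, rfl⟩
  obtain ⟨b, hb⟩ : ∃ b : Fin q → ℝ, b = fun k => (y k / x k ^ 2) / (y o / x o ^ 2) := ⟨_, rfl⟩
  obtain ⟨ε, hε⟩ : ∃ ε : ℝ, ε = y o / x o ^ 2 := ⟨_, rfl⟩
  have hε0 : 0 < ε := by rw [hε]; positivity
  have hdm : Dm a b o := by
    rw [ha, hb]
    exact pm_dm d x y o hx hy hyo hdom
  obtain ⟨r, hr⟩ : ∃ r : ℝ, r = x o ^ 2 := ⟨_, rfl⟩
  have hr0 : 0 < r := by rw [hr]; positivity
  obtain ⟨B, hB⟩ : ∃ B : Fin q → Fin q → ℝ, B = Mn d a b ε := ⟨_, rfl⟩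
  have hPB : (Pm x y : Fin q → Fin q → ℝ) = fun k l => r * B k l := by
    funext k l
    rw [hr, hB, ha, hb, hε]
    exact pm_eq d hd x y o hx hyo k l
  have hBpos : ∀ k l, 0 < B k l := by
    intro k l
    have h1 := hPpos k l
    rw [show Pm x y k l = r * B k l from congrFun (congrFun hPB k) l] at h1
    exact (mul_pos_iff_of_pos_left hr0).1 h1
  have hNN : NN d (Pm x y) = r * NN d B := by
    rw [← nn_smul d hd B (fun i j => (hBpos i j).le) r hr0]
    exact congrArg (NN d) hPB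
  have hNB : 0 < NN d B := NN_pos0 d hd hq B (fun i j => (hBpos i j).le) o o (hBpos o o)
  have hNP : 0 < NN d (Pm x y) := by rw [hNN]; positivity
  choose c hc using fun n => exists_col (G n) (hbip n)
  have hR : ∀ n, Rgl (G n) d := fun n => rgl_of (G n) d (hreg n)
  have hn : ∀ n, (0 : ℝ) < Fintype.card (V n) := fun n => by exact_mod_cast Fintype.card_pos
  have hcard : ∀ n, ((ed (G n) (c n)).card : ℝ) = d * (Fintype.card (V n) : ℝ) / 2 := by
    intro n
    have := two_card_ed (G n) (c n) (hc n) d (hR n)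
    linarith
  have hZ : ∀ n, Zpart (G n) (Pm x y) (pm_symm x y) =
      r ^ (ed (G n) (c n)).card * ZB (G n) (c n) B := by
    intro n
    rw [Zpart_eq (G n) (c n) (hc n) (Pm x y) (pm_symm x y), ← zb_smul]
    exact congrArg (ZB (G n) (c n)) hPB
  have hZB : ∀ n, 0 < ZB (G n) (c n) B := by
    intro n
    unfold ZB wt
    refine Finset.sum_pos (fun σ _ => Finset.prod_pos fun e _ => hBpos _ _) ?_
    have : Nonempty (Fin q) := ⟨o⟩
    exact Finset.univ_nonempty
  have hZ0 : ∀ n, 0 < Zpart (G n) (Pm x y) (pm_symm x y) := by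
    intro n
    rw [hZ n]
    exact mul_pos (pow_pos hr0 _) (hZB n)
  refine log_root_lim _ (fun n => Real.rpow_pos_of_pos (hZ0 n) _) _ (Real.rpow_pos_of_pos hNP _)
    ?_
  intro η hη
  obtain ⟨g1, hg1⟩ := upper.{u} d hd hdm ε hε0 η hη
  obtain ⟨g2, hg2⟩ := lower.{u} d hd hdm ε hε0 η hη
  have hev : ∀ g : ℕ, ∀ᶠ n in atTop, (g : ℕ∞) ≤ (G n).egirth := by
    intro g
    have h1 : ∀ᶠ x in 𝓝 (⊤ : ℕ∞), (g : ℕ∞) < x := lt_mem_nhds (ENat.natCast_lt_top g)
    exact (hgirth.eventually h1).mono fun n h => h.le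
  filter_upwards [hev g1, hev g2] with n h1 h2
  have hu := hg1 (V n) (G n) (c n) (hc n) (hR n) h1
  have hl := hg2 (V n) (G n) (c n) (hc n) (hR n) h2
  rw [← hB] at hu hl
  have hlogu : Real.log (ZB (G n) (c n) B) ≤
      (ed (G n) (c n)).card * Real.log (NN d B) + η * Fintype.card (V n) := by
    have h3 := Real.log_le_log (hZB n) hu
    rw [Real.log_mul (pow_pos hNB _).ne' (Real.exp_pos _).ne', Real.log_pow, Real.log_exp] at h3
    exact h3
  have hlogl : (ed (G n) (c n)).card * Real.log (NN d B) ≤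
      η * Fintype.card (V n) + Real.log (ZB (G n) (c n) B) := by
    have h3 := Real.log_le_log (pow_pos hNB _) hl
    rw [Real.log_mul (Real.exp_pos _).ne' (hZB n).ne', Real.log_pow, Real.log_exp] at h3
    exact h3
  rw [Real.log_rpow (hZ0 n), Real.log_rpow hNP, hZ n, hNN,
    Real.log_mul (pow_pos hr0 _).ne' (hZB n).ne', Real.log_pow, Real.log_mul hr0.ne' hNB.ne']
  have hm := hn n
  have hcn := hcard n
  rw [abs_le]
  obtain ⟨m, hmm⟩ : ∃ m : ℝ, m = (Fintype.card (V n) : ℝ) := ⟨_, rfl⟩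
  obtain ⟨e, hee⟩ : ∃ e : ℝ, e = ((ed (G n) (c n)).card : ℝ) := ⟨_, rfl⟩
  rw [← hmm, ← hee] at hlogu hlogl hcn ⊢
  rw [← hmm] at hm
  subst hcn
  constructor
  · have h5 : (1 / m) * (d * m / 2 * Real.log (NN d B)) ≤
        (1 / m) * (η * m + Real.log (ZB (G n) (c n) B)) :=
      mul_le_mul_of_nonneg_left hlogl (by positivity)
    have h6 : (1 / m) * (d * m / 2 * Real.log (NN d B)) = (d : ℝ) / 2 * Real.log (NN d B) := by
      field_simp
    have h7 : (1 / m) * (η * m + Real.log (ZB (G n) (c n) B)) =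
        η + (1 / m) * Real.log (ZB (G n) (c n) B) := by
      field_simp
    have h8 : 1 / m * (d * m / 2 * Real.log r + Real.log (ZB (G n) (c n) B)) =
        (d : ℝ) / 2 * Real.log r + (1 / m) * Real.log (ZB (G n) (c n) B) := by
      field_simp
    rw [h8]
    linarith
  · have h5 : (1 / m) * Real.log (ZB (G n) (c n) B) ≤
        (1 / m) * (d * m / 2 * Real.log (NN d B) + η * m) :=
      mul_le_mul_of_nonneg_left hlogu (by positivity)
    have h7 : (1 / m) * (d * m / 2 * Real.log (NN d B) + η * m) =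
        (d : ℝ) / 2 * Real.log (NN d B) + η := by
      field_simp
    have h8 : 1 / m * (d * m / 2 * Real.log r + Real.log (ZB (G n) (c n) B)) =
        (d : ℝ) / 2 * Real.log r + (1 / m) * Real.log (ZB (G n) (c n) B) := by
      field_simp
    rw [h8]
    linarith

end PF
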