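import Pool.Agent.W_5dd92e_pf.Defs

/-! # A log-supermodular function bounded by a product along one chain -/

set_option autoImplicit false

open Finset TPB
open scoped Classical

namespace PF

/-- a log-supermodular function, with any decidability instance -/
theorem LSF.any_inst {α : Type*} {Φ : Finset α → ℝ} (h : LSF Φ) [inst : DecidableEq α] (S T : Finset α) :
    Φ S * Φ T ≤ Φ (S ∩ T) * Φ (S ∪ T) := by
  have e : inst = fun a b => Classical.propDecidable (a = b) := Subsingleton.elim _ _
  subst e
  exact h S T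

private lemma LemL_scalar (x a b : ℝ) (hx0 : 0 < x) (hx1 : x < 1) (ha : 0 < a) (hb : 0 < b) :
    x * Real.log a + (1 - x) * Real.log b - (x * Real.log x + (1 - x) * Real.log (1 - x))
      ≤ Real.log (a + b) := by
  have h1x : 0 < 1 - x := by linarith
  have hab : 0 < a + b := by linarith
  have e1 : Real.log (a / (x * (a + b))) ≤ a / (x * (a + b)) - 1 :=
    Real.log_le_sub_one_of_pos (by positivity)
  have e2 : Real.log (b / ((1 - x) * (a + b))) ≤ b / ((1 - x) * (a + b)) - 1 :=
    Real.log_le_sub_one_of_pos (by positivity)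
  rw [Real.log_div ha.ne' (by positivity), Real.log_mul hx0.ne' hab.ne'] at e1
  rw [Real.log_div hb.ne' (by positivity), Real.log_mul h1x.ne' hab.ne'] at e2
  have f1 := mul_le_mul_of_nonneg_left e1 hx0.le
  have f2 := mul_le_mul_of_nonneg_left e2 h1x.le
  have g1 : x * (a / (x * (a + b)) - 1) = a / (a + b) - x := by field_simp
  have g2 : (1 - x) * (b / ((1 - x) * (a + b)) - 1) = b / (a + b) - (1 - x) := by field_simp
  have g3 : a / (a + b) + b / (a + b) = 1 := by field_simp
  rw [g1] at f1
  rw [g2] at f2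
  nlinarith

private lemma LemL_abel (k : ℕ) (q d : ℕ → ℝ) (hq0 : ∀ j, j < k → 0 ≤ q j) (hq1 : ∀ j, j < k → q j ≤ 1)
    (hq : ∀ i j, i ≤ j → j < k → q j ≤ q i) (hd : ∀ j, j ≤ k → 0 ≤ d j) :
    0 ≤ d 0 + ∑ j ∈ range k, q j * (d (j + 1) - d j) := by
  have key : ∀ n, n ≤ k → (if n = 0 then 1 else q (n - 1)) * d n
      ≤ d 0 + ∑ j ∈ range n, q j * (d (j + 1) - d j) := by
    intro n
    induction n with
    | zero => intro _; simp
    | succ n ih =>
      intro hn
      rw [sum_range_succ]
      have ih' := ih (by omega)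
      have hdn := hd n (by omega)
      simp only [Nat.succ_ne_zero, if_false, Nat.add_sub_cancel]
      have hr : q n ≤ (if n = 0 then 1 else q (n - 1)) := by
        split_ifs with h0
        · exact hq1 n (by omega)
        · exact hq _ _ (by omega) (by omega)
      nlinarith [mul_le_mul_of_nonneg_right hr hdn]
  rcases Nat.eq_zero_or_pos k with rfl | hk
  · simpa using hd 0 le_rfl
  · have h1 := key k le_rfl
    rw [if_neg hk.ne'] at h1
    exact le_trans (mul_nonneg (hq0 _ (by omega)) (hd k le_rfl)) h1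

/-- LEMMA (L).  PROOF (proofs row 563, section 2).  `P s = T s / ∑ T`, `p j = ∑_{s ∋ j} P s`; `τ : Fin k ≃ Fin k` with
`p ∘ τ` antitone (`Tuple.sort`), `S j = {τ 0, .., τ (j - 1)}`, `g s = log (T s)`.
(1) Gibbs: `log ∑ T = ∑ P s (g s - log (P s)) ≤ ∑ P s (g s - log (Q s))` with `Q s = ∏_{j ∈ s} p j ∏_{j ∉ s} (1 - p j)`
(`0 < p j < 1` as `T > 0`; `∑ Q = 1`), and `∑ P s log (Q s) = ∑_j (p j log (p j) + (1 - p j) log (1 - p j))`.
(2) supermodularity: `g s ≤ g ∅ + ∑_{j, τ j ∈ s} (g (S (j + 1)) - g (S j))` (remove the elements of `s` from the largest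
index down: `g (s ∩ S (j + 1)) + g (S j) ≤ g (s ∩ S j) + g (S (j + 1))` if `τ j ∈ s`).
(3) so `∑ P g ≤ g ∅ + ∑_j p (τ j) (g (S (j + 1)) - g (S j))`, a combination of the `g (S j)` with the nonnegative
coefficients `1 - p (τ 0)`, `p (τ (j - 1)) - p (τ j)`, `p (τ (k - 1))`; insert
`g (S j) ≤ ∑_{i < j} log (A i) + ∑_{i ≥ j} log (B i)` and sum by parts:
`∑ P g ≤ ∑_j (p (τ j) log (A j) + (1 - p (τ j)) log (B j))`.
(4) for one `j` with `x = p (τ j)`: `x log A + (1 - x) log B - x log x - (1 - x) log (1 - x) ≤ log (A + B)`. -/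
theorem lem_L (k : ℕ) (T : Finset (Fin k) → ℝ) (hT0 : ∀ s, 0 < T s) (hT : LSF T)
    (A B : Fin k → ℝ) (hA : ∀ i, 0 < A i) (hB : ∀ i, 0 < B i)
    (h : ∀ s, T s ≤ ∏ i : Fin k, if (i : ℕ) < s.card then A i else B i) :
    ∑ s, T s ≤ ∏ i, (A i + B i) := by
  set Z := ∑ s, T s with hZ
  have hZ0 : 0 < Z := sum_pos (fun s _ => hT0 s) ⟨∅, mem_univ _⟩
  set P : Finset (Fin k) → ℝ := fun s => T s / Z with hP
  have hP0 : ∀ s, 0 < P s := fun s => div_pos (hT0 s) hZ0
  have hP1 : ∑ s, P s = 1 := by
    simp only [hP, ← sum_div]; exact div_self hZ0.ne'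
  set p : Fin k → ℝ := fun i => ∑ s, if i ∈ s then P s else 0 with hp
  have hp0 : ∀ i, 0 < p i := by
    intro i
    refine sum_pos' (fun s _ => ?_) ⟨{i}, mem_univ _, ?_⟩
    · split_ifs
      · exact (hP0 s).le
      · exact le_rfl
    · simp [hP0]
  have hpc : ∀ i, 1 - p i = ∑ s, if i ∈ s then 0 else P s := by
    intro i
    rw [← hP1, hp, ← sum_sub_distrib]
    refine sum_congr rfl fun s _ => ?_
    split_ifs <;> simp
  have hp1 : ∀ i, p i < 1 := by
    intro i
    have : 0 < 1 - p i := by
      rw [hpc]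
      refine sum_pos' (fun s _ => ?_) ⟨∅, mem_univ _, ?_⟩
      · split_ifs
        · exact le_rfl
        · exact (hP0 s).le
      · simp [hP0]
    linarith
  set τ := Tuple.sort (fun i => - p i) with hτ
  have hmono : Monotone ((fun i => - p i) ∘ τ) := Tuple.monotone_sort _
  set S : ℕ → Finset (Fin k) := fun n => (univ.filter (fun i : Fin k => (i : ℕ) < n)).map τ.toEmbedding with hS
  have hmemS : ∀ n (j : Fin k), τ j ∈ S n ↔ (j : ℕ) < n := by
    intro n j
    simp [hS]
  have hcardS : ∀ n, n ≤ k → (S n).card = n := by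
    intro n hn
    rw [hS, card_map]
    have : (univ.filter (fun i : Fin k => (i : ℕ) < n)) = (univ : Finset (Fin n)).map (Fin.castLEEmb hn) := by
      ext i
      simp only [mem_filter, mem_univ, true_and, mem_map]
      constructor
      · intro hi
        exact ⟨⟨i, hi⟩, by ext; rfl⟩
      · rintro ⟨a, rfl⟩
        exact a.2
    rw [this, card_map, card_univ, Fintype.card_fin]
  set g : Finset (Fin k) → ℝ := fun s => Real.log (T s) with hg
  have hsup : ∀ X Y, g X + g Y ≤ g (X ∩ Y) + g (X ∪ Y) := by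
    intro X Y
    simp only [hg]
    rw [← Real.log_mul (hT0 _).ne' (hT0 _).ne', ← Real.log_mul (hT0 _).ne' (hT0 _).ne']
    refine Real.log_le_log (mul_pos (hT0 _) (hT0 _)) ?_
    exact hT.any_inst X Y
  -- natural number versions
  set pt : ℕ → ℝ := fun n => if hn : n < k then p (τ ⟨n, hn⟩) else 0 with hpt
  have hchain : ∀ s n, n ≤ k → g (s ∩ S n) ≤ g ∅ +
      ∑ j ∈ range n, (if hj : j < k then (if τ ⟨j, hj⟩ ∈ s then (g (S (j + 1)) - g (S j)) else 0) else 0) := by
    intro s n
    induction n with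
    | zero =>
      intro _
      have : S 0 = ∅ := by simp [hS]
      simp [this]
    | succ n ih =>
      intro hn
      have ih' := ih (by omega)
      have hnk : n < k := by omega
      rw [sum_range_succ, dif_pos hnk]
      have hSs : ∀ x, x ∈ S (n + 1) ↔ x ∈ S n ∨ x = τ ⟨n, hnk⟩ := by
        intro x
        obtain ⟨y, rfl⟩ := τ.surjective x
        rw [hmemS, hmemS, τ.injective.eq_iff]
        constructor
        · intro hy
          rcases Nat.lt_succ_iff_lt_or_eq.mp hy with h1 | h1
          · exact Or.inl h1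
          · exact Or.inr (Fin.ext h1)
        · rintro (h1 | h1)
          · omega
          · rw [h1]; simp
      by_cases hm : τ ⟨n, hnk⟩ ∈ s
      · rw [if_pos hm]
        have h1 := hsup (s ∩ S (n + 1)) (S n)
        have e1 : (s ∩ S (n + 1)) ∩ S n = s ∩ S n := by
          ext x
          simp only [mem_inter, hSs]
          tauto
        have e2 : (s ∩ S (n + 1)) ∪ S n = S (n + 1) := by
          ext x
          simp only [mem_inter, mem_union, hSs]
          constructor
          · rintro (⟨_, h2⟩ | h2)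
            · exact h2
            · exact Or.inl h2
          · rintro (h2 | h2)
            · exact Or.inr h2
            · left; exact ⟨h2 ▸ hm, Or.inr h2⟩
        rw [e1, e2] at h1
        linarith
      · rw [if_neg hm]
        have e1 : s ∩ S (n + 1) = s ∩ S n := by
          ext x
          simp only [mem_inter, hSs]
          constructor
          · rintro ⟨h2, h3 | h3⟩
            · exact ⟨h2, h3⟩
            · exact absurd (h3 ▸ h2) hm
          · rintro ⟨h2, h3⟩
            exact ⟨h2, Or.inl h3⟩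
        rw [e1]
        linarith
  have hSk : S k = univ := by
    ext x
    obtain ⟨y, rfl⟩ := τ.surjective x
    rw [hmemS]
    simp
  have hgs : ∀ s, g s ≤ g ∅ + ∑ j : Fin k, (if τ j ∈ s then (g (S ((j : ℕ) + 1)) - g (S (j : ℕ))) else 0) := by
    intro s
    have h1 := hchain s k le_rfl
    rw [hSk, inter_univ, ← Fin.sum_univ_eq_sum_range (fun j =>
      (if hj : j < k then (if τ ⟨j, hj⟩ ∈ s then (g (S (j + 1)) - g (S j)) else 0) else 0)) k] at h1
    refine h1.trans (le_of_eq ?_)
    congr 1
    refine sum_congr rfl fun j _ => ?_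
    rw [dif_pos j.2]
  -- average
  have hPg : ∑ s, P s * g s ≤ g ∅ + ∑ j : Fin k, p (τ j) * (g (S ((j : ℕ) + 1)) - g (S (j : ℕ))) := by
    calc ∑ s, P s * g s ≤ ∑ s, P s * (g ∅ +
          ∑ j : Fin k, (if τ j ∈ s then (g (S ((j : ℕ) + 1)) - g (S (j : ℕ))) else 0)) :=
          sum_le_sum fun s _ => mul_le_mul_of_nonneg_left (hgs s) (hP0 s).le
      _ = _ := by
        simp only [mul_add, sum_add_distrib, ← sum_mul, hP1, one_mul]
        congr 1
        simp only [mul_sum]
        rw [sum_comm]
        refine sum_congr rfl fun j _ => ?_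
        rw [hp, sum_mul]
        refine sum_congr rfl fun s _ => ?_
        split_ifs <;> ring
  -- upper bounds along the chain
  set u : ℕ → ℝ := fun n => ∑ i : Fin k, if (i : ℕ) < n then Real.log (A i) else Real.log (B i) with hu
  have hgu : ∀ n, n ≤ k → g (S n) ≤ u n := by
    intro n hn
    have h1 := h (S n)
    rw [hcardS n hn] at h1
    have h2 := Real.log_le_log (hT0 _) h1
    rw [Real.log_prod (fun i _ => by split_ifs; exacts [(hA i).ne', (hB i).ne'])] at h2
    refine h2.trans (le_of_eq ?_)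
    refine sum_congr rfl fun i _ => ?_
    split_ifs <;> rfl
  have hustep : ∀ j : Fin k, u ((j : ℕ) + 1) - u (j : ℕ) = Real.log (A j) - Real.log (B j) := by
    intro j
    rw [hu, ← sum_sub_distrib, sum_eq_single j]
    · simp
    · intro b _ hb
      have hb' : (b : ℕ) ≠ j := fun hh => hb (Fin.ext hh)
      by_cases h1 : (b : ℕ) < j
      · rw [if_pos h1, if_pos (by omega)]; ring
      · rw [if_neg h1, if_neg (by omega)]; ring
    · intro hh; exact absurd (mem_univ _) hh
  have hab := LemL_abel k pt (fun n => u n - g (S n))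
    (fun j hj => by simp only [hpt, dif_pos hj]; exact (hp0 _).le)
    (fun j hj => by simp only [hpt, dif_pos hj]; exact (hp1 _).le)
    (fun i j hij hj => by
      have hi : i < k := lt_of_le_of_lt hij hj
      simp only [hpt, dif_pos hj, dif_pos hi]
      have := hmono (show (⟨i, hi⟩ : Fin k) ≤ ⟨j, hj⟩ from hij)
      simp only [Function.comp] at this
      linarith)
    (fun j hj => sub_nonneg.mpr (hgu j hj))
  rw [← Fin.sum_univ_eq_sum_range (fun j => pt j * ((u (j + 1) - g (S (j + 1))) - (u j - g (S j)))) k] at hab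
  have hab2 : ∑ j : Fin k, pt j * ((u ((j : ℕ) + 1) - g (S ((j : ℕ) + 1))) - (u (j : ℕ) - g (S (j : ℕ)))) =
      ∑ j : Fin k, p (τ j) * (Real.log (A j) - Real.log (B j)) -
      ∑ j : Fin k, p (τ j) * (g (S ((j : ℕ) + 1)) - g (S (j : ℕ))) := by
    rw [← sum_sub_distrib]
    refine sum_congr rfl fun j _ => ?_
    have : pt j = p (τ j) := by simp [hpt]
    rw [this, ← hustep j]
    ring
  rw [hab2] at hab
  have hS0 : S 0 = ∅ := by simp [hS]
  have hu0 : u 0 = ∑ j : Fin k, Real.log (B j) := by simp [hu]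
  have hPg2 : ∑ s, P s * g s ≤ ∑ j : Fin k, (p (τ j) * Real.log (A j) + (1 - p (τ j)) * Real.log (B j)) := by
    have e : ∑ j : Fin k, (p (τ j) * Real.log (A j) + (1 - p (τ j)) * Real.log (B j)) =
        ∑ j : Fin k, Real.log (B j) + ∑ j : Fin k, p (τ j) * (Real.log (A j) - Real.log (B j)) := by
      rw [← sum_add_distrib]
      refine sum_congr rfl fun j _ => by ring
    rw [e]
    simp only [hS0, hu0] at hab
    linarith
  -- Gibbs
  set Q : Finset (Fin k) → ℝ := fun s => (∏ i ∈ s, p i) * ∏ i ∈ univ \ s, (1 - p i) with hQ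
  have hQ0 : ∀ s, 0 < Q s := fun s => mul_pos (prod_pos fun i _ => hp0 i)
    (prod_pos fun i _ => by linarith [hp1 i])
  have hQ1 : ∑ s, Q s = 1 := by
    have := prod_add (fun i => p i) (fun i => 1 - p i) (univ : Finset (Fin k))
    simp only [powerset_univ] at this
    rw [hQ, ← this]
    simp
  have hlogQ : ∀ s, Real.log (Q s) = ∑ i, ((if i ∈ s then Real.log (p i) else 0) +
      (if i ∈ s then 0 else Real.log (1 - p i))) := by
    intro s
    rw [hQ]
    simp only
    rw [Real.log_mul (prod_pos fun i _ => hp0 i).ne' (prod_pos fun i _ => by linarith [hp1 i]).ne',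
      Real.log_prod (fun i _ => (hp0 i).ne'), Real.log_prod (fun i _ => by linarith [hp1 i]),
      sum_add_distrib]
    congr 1
    · rw [sum_ite_mem, univ_inter]
    · rw [← sum_filter_add_sum_filter_not univ (fun i => i ∈ s)]
      rw [sum_eq_zero (s := univ.filter (fun i => i ∈ s)), zero_add]
      · refine sum_congr (by ext; simp) fun i hi => ?_
        have : i ∉ s := by simpa using hi
        rw [if_neg this]
      · intro i hi
        have : i ∈ s := by simpa using hi
        rw [if_pos this]
  have hent : ∑ s, P s * Real.log (Q s) = ∑ i, (p i * Real.log (p i) + (1 - p i) * Real.log (1 - p i)) := by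
    simp only [hlogQ, mul_sum]
    rw [sum_comm]
    refine sum_congr rfl fun i _ => ?_
    rw [hpc i]
    conv_rhs => rw [show p i = ∑ s, if i ∈ s then P s else 0 from rfl]
    rw [sum_mul, sum_mul, ← sum_add_distrib]
    refine sum_congr rfl fun s _ => ?_
    rw [show (∑ s, if i ∈ s then 0 else P s) = 1 - p i from (hpc i).symm,
      show (∑ s, if i ∈ s then P s else 0) = p i from rfl]
    split_ifs <;> ring
  have hgibbs : ∑ s, P s * (Real.log (Q s) - Real.log (P s)) ≤ 0 := by
    calc ∑ s, P s * (Real.log (Q s) - Real.log (P s)) ≤ ∑ s, (Q s - P s) := by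
          refine sum_le_sum fun s _ => ?_
          have h1 := Real.log_le_sub_one_of_pos (div_pos (hQ0 s) (hP0 s))
          rw [Real.log_div (hQ0 s).ne' (hP0 s).ne'] at h1
          have h2 := mul_le_mul_of_nonneg_left h1 (hP0 s).le
          have h3 : P s * (Q s / P s - 1) = Q s - P s := by
            have := (hP0 s).ne'
            field_simp
          linarith
      _ = 0 := by rw [sum_sub_distrib, hQ1, hP1, sub_self]
  have hlogZ : Real.log Z = ∑ s, P s * (g s - Real.log (P s)) := by
    have : ∀ s, g s - Real.log (P s) = Real.log Z := by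
      intro s
      simp only [hg, hP]
      rw [Real.log_div (hT0 s).ne' hZ0.ne']
      ring
    simp only [this, ← sum_mul, hP1, one_mul]
  have hmain : Real.log Z ≤ ∑ j : Fin k, Real.log (A j + B j) := by
    have e1 : ∑ i, (p i * Real.log (p i) + (1 - p i) * Real.log (1 - p i)) =
        ∑ j, (p (τ j) * Real.log (p (τ j)) + (1 - p (τ j)) * Real.log (1 - p (τ j))) :=
      (Equiv.sum_comp τ (fun i => p i * Real.log (p i) + (1 - p i) * Real.log (1 - p i))).symm
    have e2 : ∑ s, P s * (g s - Real.log (P s)) = ∑ s, P s * g s - ∑ s, P s * Real.log (Q s)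
        + ∑ s, P s * (Real.log (Q s) - Real.log (P s)) := by
      rw [← sum_sub_distrib, ← sum_add_distrib]
      refine sum_congr rfl fun s _ => by ring
    have e3 : ∑ j : Fin k, (p (τ j) * Real.log (A j) + (1 - p (τ j)) * Real.log (B j)) -
        ∑ j, (p (τ j) * Real.log (p (τ j)) + (1 - p (τ j)) * Real.log (1 - p (τ j)))
        ≤ ∑ j : Fin k, Real.log (A j + B j) := by
      rw [← sum_sub_distrib]
      refine sum_le_sum fun j _ => ?_
      exact LemL_scalar _ _ _ (hp0 _) (hp1 _) (hA j) (hB j)
    rw [hlogZ, e2, hent, e1]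
    linarith
  rw [← Real.log_prod (fun j _ => by linarith [hA j, hB j])] at hmain
  exact (Real.log_le_log_iff hZ0 (prod_pos fun j _ => by linarith [hA j, hB j])).mp hmain

end PF
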