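import Pool.Agent.W_5dd92e_pf.PsiA
import Pool.Agent.W_5dd92e_pf.BallB

/-! # Markov property -/

set_option autoImplicit false

open Finset TPB
open scoped Classical

namespace PF

variable {V : Type*} [Fintype V] (G : SimpleGraph V) (c : V → Bool)

private theorem Mk_nb_union (L : ℕ) (A B : Finset V) :
    NB G c L (A ∪ B) = NB G c L A ∪ NB G c L B := by
  unfold NB
  exact Finset.union_biUnion

/-- the combinatorial inequality for one component -/
private theorem Mk_comp (S : Finset (Eg G c)) (X Q C : Finset V) (hXQ : Disjoint X Q)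
    (hQ : ∀ w ∈ Q, ∀ w', G.Adj w w' → w' ∈ Q ∪ C) (D : Finset V)
    (hD : D ∈ Cls (se G c) (te G c) S) (y : ℝ) (hy : 0 ≤ y) :
    (if (D ∩ (X ∪ C)).Nonempty then y else 0) + (if (D ∩ (Q ∪ C)).Nonempty then y else 0) ≤
      (if (D ∩ (X ∪ Q ∪ C)).Nonempty then y else 0) + (if (D ∩ C).Nonempty then y else 0) := by
  have key : (D ∩ (X ∪ C)).Nonempty → (D ∩ (Q ∪ C)).Nonempty → (D ∩ C).Nonempty := by
    rintro ⟨a, ha⟩ ⟨b, hb⟩
    by_contra hn
    rw [Finset.not_nonempty_iff_eq_empty] at hn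
    have hnc : ∀ w ∈ D, w ∉ C := by
      intro w hw hwc
      have : w ∈ D ∩ C := mem_inter.2 ⟨hw, hwc⟩
      rw [hn] at this
      exact absurd this (Finset.notMem_empty _)
    rw [mem_inter, mem_union] at ha hb
    have ha2 : a ∈ X := ha.2.resolve_right (hnc a ha.1)
    have hb2 : b ∈ Q := hb.2.resolve_right (hnc b hb.1)
    have hcon : Con (se G c) (te G c) S b a := by
      rw [← mem_cl, ← eq_cl hD hb.1]
      exact ha.1
    have hcl := con_closed (s := se G c) (t := te G c) (S := S) {w | w ∈ Q ∧ w ∈ D} (by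
      intro i hi
      have hend := end_mem (s := se G c) (t := te G c) hi hD
      have hadj : G.Adj (se G c i) (te G c i) := adj_e G c i
      constructor
      · rintro ⟨h1, h2⟩
        have h3 := hend.1 h2
        exact ⟨(mem_union.1 (hQ _ h1 _ hadj)).resolve_right (hnc _ h3), h3⟩
      · rintro ⟨h1, h2⟩
        have h3 := hend.2 h2
        exact ⟨(mem_union.1 (hQ _ h1 _ hadj.symm)).resolve_right (hnc _ h3), h3⟩) hcon
    have h5 := (hcl.1 ⟨hb2, hb.1⟩).1
    exact (Finset.disjoint_left.1 hXQ ha2) h5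
  have m1 : (D ∩ (X ∪ C)).Nonempty → (D ∩ (X ∪ Q ∪ C)).Nonempty := fun h =>
    h.mono (inter_subset_inter_left (by
      intro v hv
      simp only [mem_union] at hv ⊢
      tauto))
  have m2 : (D ∩ (Q ∪ C)).Nonempty → (D ∩ (X ∪ Q ∪ C)).Nonempty := fun h =>
    h.mono (inter_subset_inter_left (by
      intro v hv
      simp only [mem_union] at hv ⊢
      tauto))
  by_cases h1 : (D ∩ (X ∪ C)).Nonempty
  · by_cases h2 : (D ∩ (Q ∪ C)).Nonempty
    · rw [if_pos h1, if_pos h2, if_pos (m1 h1), if_pos (key h1 h2)]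
    · rw [if_pos h1, if_neg h2, if_pos (m1 h1)]
      have : 0 ≤ (if (D ∩ C).Nonempty then y else 0) := by split_ifs <;> simp [hy]
      linarith
  · by_cases h2 : (D ∩ (Q ∪ C)).Nonempty
    · rw [if_neg h1, if_pos h2, if_pos (m2 h2)]
      have : 0 ≤ (if (D ∩ C).Nonempty then y else 0) := by split_ifs <;> simp [hy]
      linarith
    · rw [if_neg h1, if_neg h2]
      have : 0 ≤ (if (D ∩ C).Nonempty then y else 0) := by split_ifs <;> simp [hy]
      have : 0 ≤ (if (D ∩ (X ∪ Q ∪ C)).Nonempty then y else 0) := by split_ifs <;> simp [hy]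
      linarith

private theorem Mk_psi (η : ℕ → ℝ) (hη : ∀ n, 0 ≤ η n) (μ : (Eg G c → Fin 2) → ℝ)
    (hμ : PW μ) (X Q C : Finset V) (hXQ : Disjoint X Q)
    (hQ : ∀ w ∈ Q, ∀ w', G.Adj w w' → w' ∈ Q ∪ C) :
    Psi (se G c) (te G c) η μ (X ∪ C) + Psi (se G c) (te G c) η μ (Q ∪ C) ≤
      Psi (se G c) (te G c) η μ (X ∪ Q ∪ C) + Psi (se G c) (te G c) η μ C := by
  unfold Psi Ex
  rw [← sum_add_distrib, ← sum_add_distrib]
  refine sum_le_sum fun σ _ => ?_
  rw [← mul_add, ← mul_add]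
  refine mul_le_mul_of_nonneg_left ?_ (hμ.pos σ).le
  beta_reduce
  rw [sum_filter, sum_filter, sum_filter, sum_filter, ← sum_add_distrib, ← sum_add_distrib]
  exact sum_le_sum fun D hD => Mk_comp G c (op σ) X Q C hXQ hQ D hD _ (hη _)

/-- the weight of a vertex -/
private noncomputable def Mk_gp (F : ℕ → ℝ) (D : Finset V) : ℝ := if D.card = 0 then 1 else F D.card

omit [Fintype V] in
private theorem Mk_gp_nonneg {F : ℕ → ℝ} (hF : Adm F) (D : Finset V) : 0 ≤ Mk_gp F D := by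
  unfold Mk_gp
  split_ifs with h
  · exact zero_le_one
  · exact le_trans zero_le_one (hF.one _ (Nat.one_le_iff_ne_zero.2 h))

private noncomputable def Mk_ph (F : ℕ → ℝ) (v : V) (σ : Eg G c → Fin 2) : ℝ :=
  Mk_gp F (cl (se G c) (te G c) (op σ) v) ^ (1 / ((cl (se G c) (te G c) (op σ) v).card : ℝ))

private theorem Mk_Phi {F : ℕ → ℝ} (hF : Adm F) (σ : Eg G c → Fin 2) :
    Phi (se G c) (te G c) F (op σ) = ∏ v, Mk_ph G c F v σ := by
  unfold Mk_ph
  rw [← prod_vert (Mk_gp F) (Mk_gp_nonneg hF) (op σ)]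
  unfold Phi
  refine prod_congr rfl fun D hD => ?_
  obtain ⟨a, ha⟩ := mem_Cls.1 hD
  have h1 := cl_card_pos (s := se G c) (t := te G c) (op σ) a
  rw [ha] at h1
  unfold Mk_gp
  rw [if_neg (by omega)]

private theorem Mk_ph_loc {F : ℕ → ℝ} (L : ℕ) (hL : ∀ n, L < n → F n = 1) (v : V)
    (σ τ : Eg G c → Fin 2) (h : ∀ e ∈ BB G c L v, σ e = τ e) : Mk_ph G c F v σ = Mk_ph G c F v τ := by
  have h1 := loc G c L v (op σ) (op τ) (fun e he => by rw [mem_op, mem_op, h e he])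
  unfold Mk_ph
  rcases h1 with h1 | ⟨h1, h2⟩
  · rw [h1]
  · unfold Mk_gp
    rw [if_neg (by omega), if_neg (by omega), hL _ h1, hL _ h2, Real.one_rpow, Real.one_rpow]

private noncomputable def Mk_A (ε h : ℝ) (i : Eg G c) (σ : Eg G c → Fin 2) : ℝ :=
  (if σ i = 1 then ε else 1) * Real.exp (h * ((σ i : ℕ) : ℝ))

private theorem Mk_prodA (ε h : ℝ) (σ : Eg G c → Fin 2) :
    ε ^ (op σ).card * Real.exp (h * XX σ) = ∏ i, Mk_A G c ε h i σ := by
  unfold Mk_A
  rw [prod_mul_distrib, ← Real.exp_sum, ← mul_sum, ← prod_filter, prod_const]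
  rfl

/-- PROOF.  (1) `Hs` part: let `N = NB L C`, `P = NB L Q \ N`, `X' = NB L X \ N`.  `P` and `X'` are disjoint (`bb_sep`).
`muh (ww ..) h σ = (∏ i, (ε e^h)^(σ i)) * (∏ v, φ v σ) / Z` with `φ v σ = F |cl v| ^ (1 / |cl v|)` (`prod_vert`, `xx_op`), which
depends only on `σ` on `BB L v` (`loc`, and `F n = 1` for `n > L`).  Take for `g` the factors with `i ∈ P` or `v ∈ Q`, for `f`
the others (and `1 / Z`): `g` depends only on `P ∪ N`; `f` does not depend on `P` (`v ∉ Q`, `e ∈ BB L v`, `e ∈ NB L Q` imply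
`e ∈ N`, `bb_sep`).  `TPB.Hs_markov` for `X', P, N`.
(2) `Psi` part, termwise: `1 [D meets X ∪ C] + 1 [D meets Q ∪ C] ≤ 1 [D meets X ∪ Q ∪ C] + 1 [D meets C]` for every
component `D`: otherwise `D` meets `X` and `Q` but not `C`; then `D ∩ Q` is closed under the open edges (`con_closed`: a
neighbour of `w ∈ Q` in `D` is in `Q ∪ C`), so `D ⊆ Q`, but `X ∩ Q = ∅`. -/
theorem HH_markov {F : ℕ → ℝ} (hF : Adm F) (ε : ℝ) (hε : 0 < ε) (h : ℝ) (η : ℕ → ℝ)
    (hη : ∀ n, 0 ≤ η n) (L : ℕ) (hL : ∀ n, L < n → F n = 1) (X Q C : Finset V)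
    (hXQ : Disjoint X Q) (hQC : Disjoint Q C)
    (hQ : ∀ w ∈ Q, ∀ w', G.Adj w w' → w' ∈ Q ∪ C) :
    HH G c η L (muh (ww (se G c) (te G c) F ε) h) (X ∪ C) +
        HH G c η L (muh (ww (se G c) (te G c) F ε) h) (Q ∪ C) ≤
      HH G c η L (muh (ww (se G c) (te G c) F ε) h) (X ∪ Q ∪ C) +
        HH G c η L (muh (ww (se G c) (te G c) F ε) h) C := by
  set μ := muh (ww (se G c) (te G c) F ε) h with hμd
  have hμ : PW μ := muh_pw _ (ww_pos hF ε hε) h ⟨fun _ => 0⟩
  have hpsi := Mk_psi G c η hη μ hμ X Q C hXQ hQ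
  set N := NB G c L C with hN
  set P := NB G c L Q \ N with hP
  set X' := NB G c L X \ N with hX'
  have sepQ : ∀ v, v ∉ Q → ∀ e ∈ BB G c L v, e ∉ P := by
    intro v hv e he heP
    rw [hP, mem_sdiff] at heP
    obtain ⟨q, hq, heq⟩ := mem_biUnion.1 heP.1
    exact heP.2 (bb_sep G c Q C hQ L q v hq hv e heq he)
  have hd1 : Disjoint X' P := by
    rw [Finset.disjoint_left]
    intro e he heP
    rw [hX', mem_sdiff] at he
    obtain ⟨x, hx, hex⟩ := mem_biUnion.1 he.1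
    exact sepQ x (Finset.disjoint_left.1 hXQ hx) e hex heP
  have hd2 : Disjoint P N := disjoint_sdiff_self_left
  have e1 : NB G c L (X ∪ C) = X' ∪ N := by
    rw [Mk_nb_union, hX', sdiff_union_self_eq_union]
  have e2 : NB G c L (Q ∪ C) = P ∪ N := by
    rw [Mk_nb_union, hP, sdiff_union_self_eq_union]
  have e3 : NB G c L (X ∪ Q ∪ C) = X' ∪ P ∪ N := by
    rw [Mk_nb_union, Mk_nb_union, hX', hP]
    ext e
    simp only [mem_union, mem_sdiff]
    tauto
  have hhs : Hs μ (X' ∪ N) + Hs μ (P ∪ N) = Hs μ (X' ∪ P ∪ N) + Hs μ N := by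
    refine Hs_markov hμ X' P N hd1 hd2
      (fun σ => (∏ i ∈ Pᶜ, Mk_A G c ε h i σ) * (∏ v ∈ Qᶜ, Mk_ph G c F v σ) /
        Zh (ww (se G c) (te G c) F ε) h)
      (fun σ => (∏ i ∈ P, Mk_A G c ε h i σ) * ∏ v ∈ Q, Mk_ph G c F v σ) ?_ ?_ ?_
    · intro σ
      have k1 : ww (se G c) (te G c) F ε σ * Real.exp (h * XX σ) =
          (∏ i, Mk_A G c ε h i σ) * ∏ v, Mk_ph G c F v σ := by
        rw [← Mk_prodA, ← Mk_Phi G c hF]
        unfold ww
        ring
      show ww (se G c) (te G c) F ε σ * Real.exp (h * XX σ) / Zh (ww (se G c) (te G c) F ε) h = _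
      rw [k1, ← prod_mul_prod_compl P, ← prod_mul_prod_compl Q]
      ring
    · intro σ τ hστ
      have k1 : ∏ i ∈ Pᶜ, Mk_A G c ε h i σ = ∏ i ∈ Pᶜ, Mk_A G c ε h i τ := by
        refine prod_congr rfl fun i hi => ?_
        unfold Mk_A
        rw [hστ i (mem_compl.1 hi)]
      have k2 : ∏ v ∈ Qᶜ, Mk_ph G c F v σ = ∏ v ∈ Qᶜ, Mk_ph G c F v τ := by
        refine prod_congr rfl fun v hv => ?_
        exact Mk_ph_loc G c L hL v σ τ (fun e he => hστ e (sepQ v (mem_compl.1 hv) e he))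
      simp only [k1, k2]
    · intro σ τ hστ
      have k1 : ∏ i ∈ P, Mk_A G c ε h i σ = ∏ i ∈ P, Mk_A G c ε h i τ := by
        refine prod_congr rfl fun i hi => ?_
        unfold Mk_A
        rw [hστ i (mem_union_left _ hi)]
      have k2 : ∏ v ∈ Q, Mk_ph G c F v σ = ∏ v ∈ Q, Mk_ph G c F v τ := by
        refine prod_congr rfl fun v hv => ?_
        refine Mk_ph_loc G c L hL v σ τ (fun e he => hστ e ?_)
        by_cases heN : e ∈ N
        · exact mem_union_right _ heN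
        · refine mem_union_left _ ?_
          rw [hP, mem_sdiff]
          exact ⟨mem_biUnion.2 ⟨v, hv, he⟩, heN⟩
      simp only [k1, k2]
  unfold HH
  rw [e1, e2, e3]
  linarith

end PF
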