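import Pool.Agent.W_5dd92e_pf.BallA
import Pool.Agent.W_5dd92e_pf.Mu

/-! # The extended entropy is submodular -/

set_option autoImplicit false

open Finset TPB
open scoped Classical

namespace PF

variable {V : Type*} [Fintype V] (G : SimpleGraph V) (c : V → Bool)

private lemma PsiA_mem {ι W : Type*} [Fintype ι] [Fintype W] (s t : ι → W) (S : Finset ι) (a : W) :
    a ∈ cl s t S a := by
  unfold cl
  rw [mem_filter]
  exact ⟨mem_univ _, Relation.EqvGen.refl a⟩

theorem HH_empty (η : ℕ → ℝ) (L : ℕ) (μ : (Eg G c → Fin 2) → ℝ) (hμ : PW μ) :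
    HH G c η L μ ∅ = 0 := by
  have h1 : NB G c L ∅ = ∅ := by
    unfold NB
    exact Finset.biUnion_empty
  have h2 : Psi (se G c) (te G c) η μ ∅ = 0 := by
    unfold Psi Ex
    refine Finset.sum_eq_zero fun σ _ => ?_
    have h3 : (Cls (se G c) (te G c) (op σ)).filter
        (fun C => (C ∩ (∅ : Finset V)).Nonempty) = ∅ := by
      apply Finset.filter_eq_empty_iff.2
      intro C _
      rw [Finset.inter_empty]
      exact Finset.not_nonempty_empty
    beta_reduce
    rw [h3, Finset.sum_empty, mul_zero]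
  unfold HH
  rw [h1, h2, Hs_empty hμ, add_zero]

/-- PROOF. `Hs_submod` for `NB A`, `NB B`: `NB (A ∪ B) = NB A ∪ NB B`, `NB (A ∩ B) ⊆ NB A ∩ NB B` (`hs_mono`); for `Psi`:
`1 [C meets A ∪ B] + 1 [C meets A ∩ B] ≤ 1 [C meets A] + 1 [C meets B]`, `η ≥ 0`. -/
theorem HH_submod (η : ℕ → ℝ) (hη : ∀ n, 0 ≤ η n) (L : ℕ) (μ : (Eg G c → Fin 2) → ℝ)
    (hμ : PW μ) (A B : Finset V) :
    HH G c η L μ (A ∪ B) + HH G c η L μ (A ∩ B) ≤ HH G c η L μ A + HH G c η L μ B := by
  have h1 : NB G c L (A ∪ B) = NB G c L A ∪ NB G c L B := by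
    unfold NB
    ext e
    simp only [mem_biUnion, mem_union]
    constructor
    · rintro ⟨v, hv | hv, he⟩
      · exact Or.inl ⟨v, hv, he⟩
      · exact Or.inr ⟨v, hv, he⟩
    · rintro (⟨v, hv, he⟩ | ⟨v, hv, he⟩)
      · exact ⟨v, Or.inl hv, he⟩
      · exact ⟨v, Or.inr hv, he⟩
  have h2 : NB G c L (A ∩ B) ⊆ NB G c L A ∩ NB G c L B := by
    unfold NB
    intro e he
    rw [mem_biUnion] at he
    obtain ⟨v, hv, hve⟩ := he
    rw [mem_inter] at hv
    rw [mem_inter, mem_biUnion, mem_biUnion]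
    exact ⟨⟨v, hv.1, hve⟩, ⟨v, hv.2, hve⟩⟩
  have h3 := Hs_submod hμ (NB G c L A) (NB G c L B)
  have h4 := hs_mono hμ h2
  have h5 : Psi (se G c) (te G c) η μ (A ∪ B) + Psi (se G c) (te G c) η μ (A ∩ B) ≤
      Psi (se G c) (te G c) η μ A + Psi (se G c) (te G c) η μ B := by
    unfold Psi Ex
    rw [← Finset.sum_add_distrib, ← Finset.sum_add_distrib]
    refine Finset.sum_le_sum fun σ _ => ?_
    rw [← mul_add, ← mul_add]
    refine mul_le_mul_of_nonneg_left ?_ (hμ.pos σ).le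
    beta_reduce
    rw [Finset.sum_filter, Finset.sum_filter, Finset.sum_filter, Finset.sum_filter,
      ← Finset.sum_add_distrib, ← Finset.sum_add_distrib]
    refine Finset.sum_le_sum fun C _ => ?_
    have h6 := hη C.card
    have hI : (C ∩ (A ∩ B)).Nonempty → (C ∩ A).Nonempty ∧ (C ∩ B).Nonempty := by
      rintro ⟨x, hx⟩
      simp only [mem_inter] at hx
      exact ⟨⟨x, mem_inter.2 ⟨hx.1, hx.2.1⟩⟩, ⟨x, mem_inter.2 ⟨hx.1, hx.2.2⟩⟩⟩
    have hU : (C ∩ (A ∪ B)).Nonempty → (C ∩ A).Nonempty ∨ (C ∩ B).Nonempty := by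
      rintro ⟨x, hx⟩
      simp only [mem_inter, mem_union] at hx
      rcases hx with ⟨h7, h8 | h8⟩
      · exact Or.inl ⟨x, mem_inter.2 ⟨h7, h8⟩⟩
      · exact Or.inr ⟨x, mem_inter.2 ⟨h7, h8⟩⟩
    by_cases a : (C ∩ A).Nonempty <;> by_cases b : (C ∩ B).Nonempty <;>
      by_cases i : (C ∩ (A ∩ B)).Nonempty <;> by_cases u : (C ∩ (A ∪ B)).Nonempty <;>
      simp only [a, b, i, u, if_true, if_false] <;> first
        | linarith
        | exact absurd (hI i).1 a
        | exact absurd (hI i).2 b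
        | (rcases hU u with h | h
           · exact absurd h a
           · exact absurd h b)
  unfold HH
  rw [h1]
  linarith

theorem HH_univ (η : ℕ → ℝ) (L : ℕ) (hL : 1 ≤ L) (μ : (Eg G c → Fin 2) → ℝ) :
    HH G c η L μ univ = Hs μ univ +
      Ex μ (fun σ => ∑ C ∈ Cls (se G c) (te G c) (op σ), η C.card) := by
  unfold HH
  rw [nb_univ G c L hL]
  congr 1
  unfold Psi Ex
  refine Finset.sum_congr rfl fun σ _ => ?_
  have h3 : (Cls (se G c) (te G c) (op σ)).filter (fun C => (C ∩ (univ : Finset V)).Nonempty) =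
      Cls (se G c) (te G c) (op σ) := by
    apply Finset.filter_true_of_mem
    intro C hC
    unfold Cls at hC
    rw [mem_image] at hC
    obtain ⟨a, -, rfl⟩ := hC
    rw [Finset.inter_univ]
    exact ⟨a, PsiA_mem _ _ _ a⟩
  beta_reduce
  rw [h3]

end PF
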