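import Pool.Agent.W_5dd92e_pf.EntF
import Pool.Agent.W_5dd92e_pf.EntG
import Pool.Agent.W_5dd92e_pf.BallB
import Pool.Agent.W_5dd92e_pf.Pk
import Pool.Agent.W_5dd92e_pf.PsiA

/-! # The extended entropy of one vertex and of one edge -/

set_option autoImplicit false

open Finset TPB
open scoped Classical

namespace PF

variable {V : Type*} [Fintype V] {q : ℕ}

private theorem PairE_cls_one {ι W : Type*} [Fintype ι] [Fintype W] (s t : ι → W) (S : Finset ι)
    (a : W) : (Cls s t S).filter (fun C => (C ∩ {a}).Nonempty) = {cl s t S a} := by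
  ext C
  rw [mem_filter, mem_singleton]
  constructor
  · rintro ⟨h1, x, hx⟩
    rw [mem_inter, mem_singleton] at hx
    obtain ⟨b, rfl⟩ := mem_Cls.1 h1
    rw [hx.2, mem_cl] at hx
    exact cl_eq hx.1
  · rintro rfl
    exact ⟨cl_mem_Cls S a, a, mem_inter.2 ⟨mem_cl.2 (con_refl S a), mem_singleton_self a⟩⟩

private theorem PairE_cls_two {ι W : Type*} [Fintype ι] [Fintype W] (s t : ι → W) (S : Finset ι)
    (a b : W) : (Cls s t S).filter (fun C => (C ∩ {a, b}).Nonempty) =
      {cl s t S a, cl s t S b} := by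
  ext C
  rw [mem_filter, mem_insert, mem_singleton]
  constructor
  · rintro ⟨h1, x, hx⟩
    rw [mem_inter, mem_insert, mem_singleton] at hx
    obtain ⟨d, rfl⟩ := mem_Cls.1 h1
    rcases hx with ⟨h2, h3 | h3⟩
    · rw [h3, mem_cl] at h2
      exact Or.inl (cl_eq h2)
    · rw [h3, mem_cl] at h2
      exact Or.inr (cl_eq h2)
  · rintro (rfl | rfl)
    · exact ⟨cl_mem_Cls S a, a, mem_inter.2 ⟨mem_cl.2 (con_refl S a), mem_insert_self a _⟩⟩
    · exact ⟨cl_mem_Cls S b, b, mem_inter.2 ⟨mem_cl.2 (con_refl S b),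
        mem_insert_of_mem (mem_singleton_self b)⟩⟩

private theorem PairE_psi_two {ι W : Type*} [Fintype ι] [Fintype W] (s t : ι → W) (S : Finset ι)
    (a b : W) (η : ℕ → ℝ) : ∑ C ∈ (Cls s t S).filter (fun C => (C ∩ {a, b}).Nonempty), η C.card =
      if Con s t S a b then η (cl s t S a).card
      else η (cl s t S a).card + η (cl s t S b).card := by
  rw [PairE_cls_two]
  split_ifs with h
  · rw [cl_eq h, pair_eq_singleton, sum_singleton]
  · have hne : cl s t S a ≠ cl s t S b := by
      intro h1
      have h2 := mem_cl.2 (con_refl (s := s) (t := t) S b)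
      rw [← h1, mem_cl] at h2
      exact h h2
    rw [sum_pair hne]

/-- the law of the colour of the component depends only on the ball -/
private theorem PairE_pk (G : SimpleGraph V) (c : V → Bool) {a b : Fin q → ℝ} {o : Fin q}
    (κ : ℝ) (L : ℕ) (hL : ∀ n, L < n → FF a b κ n = 1) (v : V) (σ τ : Eg G c → Fin 2)
    (h : ∀ e ∈ BB G c L v, σ e = τ e) :
    pk a b o κ (cl (se G c) (te G c) (op σ) v).card =
      pk a b o κ (cl (se G c) (te G c) (op τ) v).card := by
  have h1 : ∀ e ∈ BB G c L v, e ∈ op σ ↔ e ∈ op τ := by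
    intro e he
    unfold op
    rw [mem_filter, mem_filter, h e he]
  rcases loc G c L v (op σ) (op τ) h1 with h2 | ⟨h2, h3⟩
  · rw [h2]
  · funext k
    rw [pk_one κ _ (hL _ h2), pk_one κ _ (hL _ h3)]

/-- PROOF. `ent_kernel` with `f = res (BB L v)`, `κ σ k = pk |cl (op σ) v| k`: it depends only on `res (BB L v) σ` (`loc`,
`pk_one`); `ent_res`; `NB L {v} = BB L v`; the only component that meets `{v}` is `cl (op σ) v`. -/
theorem HH_one (G : SimpleGraph V) (c : V → Bool) {a b : Fin q → ℝ} {o : Fin q} (h : Dm a b o)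
    (κ : ℝ) (L : ℕ) (hL : ∀ n, L < n → FF a b κ n = 1) (μ : (Eg G c → Fin 2) → ℝ) (hμ : PW μ)
    (v : V) :
    HH G c (hh a b o κ) L μ {v} =
      VD (se G c) (te G c) (pk a b o κ) μ (BB G c L v) v := by
  have hk := ent_kernel μ (fun σ => (hμ.pos σ).le)
      (fun σ => pk a b o κ (cl (se G c) (te G c) (op σ) v).card)
      (fun σ y => pk_nn h κ _ y) (fun σ => pk_sum h κ _) (res (BB G c L v))
      (fun σ τ hst => PairE_pk G c κ L hL v σ τ ((res_eq_iff _ _ _).1 hst))
  rw [VD]
  have h1 : Ent (Pv1 (se G c) (te G c) (pk a b o κ) μ v)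
      (fun ω => (res (BB G c L v) ω.1, ω.2)) =
      Ent μ (res (BB G c L v)) + ∑ σ, μ σ *
        (-∑ y, pk a b o κ (cl (se G c) (te G c) (op σ) v).card y *
          Real.log (pk a b o κ (cl (se G c) (te G c) (op σ) v).card y)) := hk
  have e1 : NB G c L {v} = BB G c L v := by
    unfold NB
    rw [singleton_biUnion]
  have e2 : Psi (se G c) (te G c) (hh a b o κ) μ {v} = ∑ σ, μ σ *
        (-∑ y, pk a b o κ (cl (se G c) (te G c) (op σ) v).card y *
          Real.log (pk a b o κ (cl (se G c) (te G c) (op σ) v).card y)) := by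
    unfold Psi Ex
    refine sum_congr rfl fun σ _ => ?_
    beta_reduce
    rw [PairE_cls_one, sum_singleton]
    rfl
  rw [h1, ent_res, HH, e1, e2]

/-- PROOF. `ent_kernel` with `f = res (DD L e)`, `κ σ (k, l)` as in `Pe2`; `NB L {s e, t e} = DD L e` (`mem_bb_one`).
The entropy of `κ σ` is `hh |cl (s e)|` if `e` is open and `hh |cl (s e)| + hh |cl (t e)|` if not; the sum over the
components that meet `{s e, t e}` is the same: if `e` is not open but `s e`, `t e` are connected then the component has more
than `L` vertices by `Gir`, and `hh = 0` (`hh_zero`). -/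
theorem HH_two (G : SimpleGraph V) (c : V → Bool) (hp : Prp G c) {a b : Fin q → ℝ} {o : Fin q}
    (h : Dm a b o) (κ : ℝ) (L : ℕ) (hL1 : 1 ≤ L) (hL : ∀ n, L < n → FF a b κ n = 1)
    (hG : Gir (se G c) (te G c) L) (μ : (Eg G c → Fin 2) → ℝ) (hμ : PW μ) (e : Eg G c) :
    HH G c (hh a b o κ) L μ {se G c e, te G c e} =
      EE (se G c) (te G c) (pk a b o κ) μ (DD G c L e) e := by
  have _ := hp
  set κ' : (Eg G c → Fin 2) → Fin q × Fin q → ℝ := fun σ y =>
    if e ∈ op σ then
      (if y.1 = y.2 then pk a b o κ (cl (se G c) (te G c) (op σ) (se G c e)).card y.1 else 0)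
    else pk a b o κ (cl (se G c) (te G c) (op σ) (se G c e)).card y.1 *
      pk a b o κ (cl (se G c) (te G c) (op σ) (te G c e)).card y.2 with hκ'
  rw [EE]
  have h1 : Ent (Pe2 (se G c) (te G c) (pk a b o κ) μ e)
      (fun ω => (res (DD G c L e) ω.1, ω.2.1, ω.2.2)) =
      Ent μ (res (DD G c L e)) + ∑ σ, μ σ * (-∑ y, κ' σ y * Real.log (κ' σ y)) := by
    have hk := ent_kernel μ (fun σ => (hμ.pos σ).le) κ' ?_ ?_ (res (DD G c L e)) ?_
    · exact hk
    · intro σ y
      simp only [hκ']
      split_ifs
      · exact pk_nn h κ _ _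
      · exact le_rfl
      · exact mul_nonneg (pk_nn h κ _ _) (pk_nn h κ _ _)
    · intro σ
      simp only [hκ']
      rw [Fintype.sum_prod_type]
      split_ifs with h2
      · simp only [sum_ite_eq, mem_univ, if_true]
        exact pk_sum h κ _
      · simp only [← mul_sum, pk_sum h κ, mul_one]
    · intro σ τ hst
      have h2 := (res_eq_iff _ _ _).1 hst
      have h3 : ∀ i ∈ BB G c L (se G c e), σ i = τ i := fun i hi =>
        h2 i (mem_insert_of_mem (mem_union_left _ hi))
      have h4 : ∀ i ∈ BB G c L (te G c e), σ i = τ i := fun i hi =>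
        h2 i (mem_insert_of_mem (mem_union_right _ hi))
      have h5 : e ∈ op σ ↔ e ∈ op τ := by
        unfold op
        rw [mem_filter, mem_filter, h2 e (mem_insert_self _ _)]
      funext y
      simp only [hκ']
      rw [PairE_pk G c κ L hL _ σ τ h3, PairE_pk G c κ L hL _ σ τ h4]
      by_cases h6 : e ∈ op σ
      · rw [if_pos h6, if_pos (h5.1 h6)]
      · rw [if_neg h6, if_neg (fun h7 => h6 (h5.2 h7))]
  have e1 : NB G c L {se G c e, te G c e} = DD G c L e := by
    obtain ⟨r, rfl⟩ : ∃ r, L = r + 1 := ⟨L - 1, by omega⟩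
    unfold NB DD
    rw [biUnion_insert, singleton_biUnion, insert_eq_of_mem
      (mem_union_left _ (mem_bb_one G c e r).1)]
  have e2 : Psi (se G c) (te G c) (hh a b o κ) μ {se G c e, te G c e} =
      ∑ σ, μ σ * (-∑ y, κ' σ y * Real.log (κ' σ y)) := by
    unfold Psi Ex
    refine sum_congr rfl fun σ _ => ?_
    beta_reduce
    rw [PairE_psi_two]
    refine congrArg (μ σ * ·) ?_
    have hA := pk_nn h κ (cl (se G c) (te G c) (op σ) (se G c e)).card
    have hB := pk_nn h κ (cl (se G c) (te G c) (op σ) (te G c e)).card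
    have hA1 := pk_sum h κ (cl (se G c) (te G c) (op σ) (se G c e)).card
    have hB1 := pk_sum h κ (cl (se G c) (te G c) (op σ) (te G c e)).card
    by_cases h2 : e ∈ op σ
    · rw [if_pos (con_edge h2)]
      simp only [hκ', if_pos h2]
      unfold hh
      congr 1
      rw [Fintype.sum_prod_type]
      refine sum_congr rfl fun k _ => ?_
      rw [sum_eq_single k]
      · rw [if_pos rfl]
      · intro l _ hl
        rw [if_neg (Ne.symm hl), zero_mul]
      · intro hk
        exact absurd (mem_univ _) hk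
    · have h3 : -∑ y, κ' σ y * Real.log (κ' σ y) =
          hh a b o κ (cl (se G c) (te G c) (op σ) (se G c e)).card +
            hh a b o κ (cl (se G c) (te G c) (op σ) (te G c e)).card := by
        simp only [hκ', if_neg h2]
        set A := pk a b o κ (cl (se G c) (te G c) (op σ) (se G c e)).card with hAdef
        set B := pk a b o κ (cl (se G c) (te G c) (op σ) (te G c e)).card with hBdef
        have h4 : ∀ k l, A k * B l * Real.log (A k * B l) =
            A k * Real.log (A k) * B l + A k * (B l * Real.log (B l)) := by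
          intro k l
          rcases (hA k).eq_or_lt with h5 | h5
          · rw [← h5]
            ring
          rcases (hB l).eq_or_lt with h6 | h6
          · rw [← h6]
            ring
          rw [Real.log_mul h5.ne' h6.ne']
          ring
        rw [Fintype.sum_prod_type]
        simp only [h4]
        simp only [sum_add_distrib, ← mul_sum, ← sum_mul]
        rw [hB1, hA1, mul_one, one_mul]
        unfold hh
        rw [← hAdef, ← hBdef]
        ring
      rw [h3]
      split_ifs with h4
      · have h5 := hG (op σ) e h2 h4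
        have h6 := hh_zero (a := a) (b := b) (o := o) κ _ (hL _ h5)
        rw [← cl_eq h4, h6, add_zero]
      · rfl
  rw [h1, ent_res, HH, e1, e2]

end PF
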