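import Pool.Agent.W_5dd92e_pf.CluA

/-! # Relabelling the sheets -/

set_option autoImplicit false

open Finset TPB
open scoped Classical

namespace PF

variable {E V : Type*} [Fintype E] [Fintype V]

omit [Fintype V] in
private theorem Rel_to (s t : E → V) {k : ℕ} (π : E → Equiv.Perm (Fin k))
    (ψ : V → Equiv.Perm (Fin k)) (T : Finset (E × Fin k))
    (hψ : ∀ p ∈ T, ∀ j, ψ (t p.1) (π p.1 j) = ψ (s p.1) j) {x y : V × Fin k}
    (h : Con (sc s k) (tc t k π) T x y) :
    ψ x.1 x.2 = ψ y.1 y.2 ∧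
      Con s t (univ.filter (fun e => (e, (ψ (s e)).symm (ψ x.1 x.2)) ∈ T)) x.1 y.1 := by
  induction h with
  | rel x y hxy =>
    obtain ⟨p, hp, h1, h2⟩ := hxy
    subst h1 h2
    have h3 : ψ (s p.1) p.2 = ψ (t p.1) (π p.1 p.2) := (hψ p hp p.2).symm
    refine ⟨h3, ?_⟩
    refine con_edge (s := s) (t := t) (i := p.1) ?_
    rw [Finset.mem_filter]
    refine ⟨Finset.mem_univ _, ?_⟩
    have h4 : (ψ (s p.1)).symm (ψ (sc s k p).1 (sc s k p).2) = p.2 := Equiv.symm_apply_apply _ _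
    rw [h4]
    exact hp
  | refl x => exact ⟨rfl, con_refl _ _⟩
  | symm x y _ ih =>
    refine ⟨ih.1.symm, ?_⟩
    rw [← ih.1]
    exact con_symm ih.2
  | trans x y z _ _ ih1 ih2 =>
    refine ⟨ih1.1.trans ih2.1, con_trans ih1.2 ?_⟩
    rw [ih1.1]
    exact ih2.2

omit [Fintype V] in
private theorem Rel_from (s t : E → V) {k : ℕ} (π : E → Equiv.Perm (Fin k))
    (ψ : V → Equiv.Perm (Fin k)) (T : Finset (E × Fin k))
    (hψ : ∀ p ∈ T, ∀ j, ψ (t p.1) (π p.1 j) = ψ (s p.1) j) (j : Fin k) {a b : V}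
    (h : Con s t (univ.filter (fun e => (e, (ψ (s e)).symm j) ∈ T)) a b) :
    Con (sc s k) (tc t k π) T (a, (ψ a).symm j) (b, (ψ b).symm j) := by
  induction h with
  | rel a b hab =>
    obtain ⟨e, he, h1, h2⟩ := hab
    subst h1 h2
    rw [Finset.mem_filter] at he
    have h3 := con_edge (s := sc s k) (t := tc t k π) he.2
    have h4 : (ψ (t e)).symm j = π e ((ψ (s e)).symm j) := by
      rw [Equiv.symm_apply_eq, hψ _ he.2, Equiv.apply_symm_apply]
    rw [h4]
    exact h3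
  | refl a => exact con_refl _ _
  | symm a b _ ih => exact con_symm ih
  | trans a b c _ _ ih1 ih2 => exact con_trans ih1 ih2

private theorem Rel_cl (s t : E → V) {k : ℕ} (π : E → Equiv.Perm (Fin k))
    (ψ : V → Equiv.Perm (Fin k)) (T : Finset (E × Fin k))
    (hψ : ∀ p ∈ T, ∀ j, ψ (t p.1) (π p.1 j) = ψ (s p.1) j) (j : Fin k) (a : V) :
    (cl s t (univ.filter (fun e => (e, (ψ (s e)).symm j) ∈ T)) a).image
      (fun v => (v, (ψ v).symm j)) = cl (sc s k) (tc t k π) T (a, (ψ a).symm j) := by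
  ext ⟨b, i⟩
  rw [Finset.mem_image, mem_cl]
  constructor
  · rintro ⟨v, hv, hvb⟩
    rw [← hvb]
    exact Rel_from s t π ψ T hψ j (mem_cl.1 hv)
  · intro h
    obtain ⟨h1, h2⟩ := Rel_to s t π ψ T hψ h
    simp only [Equiv.apply_symm_apply] at h1 h2
    refine ⟨b, mem_cl.2 h2, ?_⟩
    rw [h1, Equiv.symm_apply_apply]

/-- PROOF. The bijection `(v, i) ↦ (v, ψ v i)` of the vertices of the cover maps the edge `(e, i)` of `T` to the edge
`(e, ψ (s e) i)` of the trivial cover, and the components of the trivial cover are the sets `C × {j}`, `C` a component of the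
`j`-th row.  (Show `Con (sc s k) (tc t k π) T (a, i) (b, i') ↔ ψ a i = ψ b i' ∧ Con s t (R (ψ a i)) a b`, then a bijection
between `Cls` of the cover and `Σ j, Cls s t (R j)`.) -/
theorem relabel (s t : E → V) {k : ℕ} (π : E → Equiv.Perm (Fin k)) (ψ : V → Equiv.Perm (Fin k))
    (F : ℕ → ℝ) (T : Finset (E × Fin k))
    (hψ : ∀ p ∈ T, ∀ j, ψ (t p.1) (π p.1 j) = ψ (s p.1) j) :
    Phi (sc s k) (tc t k π) F T =
      ∏ j : Fin k, Phi s t F (univ.filter (fun e => (e, (ψ (s e)).symm j) ∈ T)) := by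
  unfold Phi
  rw [Finset.prod_sigma']
  symm
  refine Finset.prod_bij (fun x _ => x.2.image (fun v => (v, (ψ v).symm x.1))) ?_ ?_ ?_ ?_
  · rintro ⟨j, C⟩ hx
    rw [Finset.mem_sigma] at hx
    obtain ⟨a, ha⟩ := mem_Cls.1 hx.2
    dsimp only at ha ⊢
    rw [← ha, Rel_cl s t π ψ T hψ]
    exact cl_mem_Cls _ _
  · rintro ⟨j, C⟩ hx ⟨j', C'⟩ hx' heq
    rw [Finset.mem_sigma] at hx
    obtain ⟨a, ha⟩ := mem_Cls.1 hx.2
    dsimp only at ha heq
    have haC : a ∈ C := by
      rw [← ha]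
      exact self_mem_cl _ _
    have h1 : (a, (ψ a).symm j) ∈ C'.image (fun v => (v, (ψ v).symm j')) := by
      rw [← heq]
      exact Finset.mem_image.2 ⟨a, haC, rfl⟩
    obtain ⟨v, _, hv⟩ := Finset.mem_image.1 h1
    have h2 := congrArg Prod.fst hv
    have h3 := congrArg Prod.snd hv
    dsimp only at h2 h3
    subst h2
    have hj : j' = j := (ψ v).symm.injective h3
    subst hj
    have hinj : Function.Injective (fun v : V => (v, (ψ v).symm j')) := by
      intro u w huw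
      exact congrArg Prod.fst huw
    rw [Finset.image_injective hinj heq]
  · intro D hD
    obtain ⟨⟨a, i⟩, ha⟩ := mem_Cls.1 hD
    refine ⟨⟨ψ a i, cl s t (univ.filter (fun e => (e, (ψ (s e)).symm (ψ a i)) ∈ T)) a⟩, ?_, ?_⟩
    · rw [Finset.mem_sigma]
      exact ⟨Finset.mem_univ _, cl_mem_Cls _ _⟩
    · dsimp only
      rw [Rel_cl s t π ψ T hψ, Equiv.symm_apply_apply]
      exact ha
  · rintro ⟨j, C⟩ _
    dsimp only
    rw [Finset.card_image_of_injective]
    intro u w huw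
    exact congrArg Prod.fst huw

end PF
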