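import Pool.Agent.W_5dd92e_pf.Defs

/-! # Sorting a product of values of a log-supermodular function -/

set_option autoImplicit false

open Finset TPB
open scoped Classical

namespace PF

/-- Inserting one set into the decreasing chain of the level sets of `c`. -/
private theorem Sort_ins {E : Type*} [Fintype E] (Φ : Finset E → ℝ) (h0 : ∀ S, 0 < Φ S)
    (hΦ : LSF Φ) (S : Finset E) (c : E → ℕ) (m : ℕ) :
    Φ S * ∏ i ∈ range m, Φ (univ.filter (fun e => i < c e)) ≤
      (∏ i ∈ range m, Φ (univ.filter (fun e => i < c e + if e ∈ S then 1 else 0))) *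
        Φ (S.filter (fun e => m ≤ c e)) := by
  induction m with
  | zero => simp
  | succ m ih =>
    rw [prod_range_succ, prod_range_succ]
    have h1 : S.filter (fun e => m ≤ c e) ∩ univ.filter (fun e => m < c e) =
        S.filter (fun e => m + 1 ≤ c e) := by
      ext e
      simp only [mem_inter, mem_filter, mem_univ, true_and]
      constructor
      · rintro ⟨⟨a, b⟩, d⟩
        exact ⟨a, d⟩
      · rintro ⟨a, b⟩
        exact ⟨⟨a, by omega⟩, by omega⟩
    have h2 : S.filter (fun e => m ≤ c e) ∪ univ.filter (fun e => m < c e) =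
        univ.filter (fun e => m < c e + if e ∈ S then 1 else 0) := by
      ext e
      simp only [mem_union, mem_filter, mem_univ, true_and]
      by_cases he : e ∈ S
      · simp only [he, true_and, if_true]
        omega
      · simp only [he, false_and, false_or, if_false, add_zero]
    have h3 := hΦ (S.filter (fun e => m ≤ c e)) (univ.filter (fun e => m < c e))
    rw [h1, h2] at h3
    have hp : 0 < ∏ i ∈ range m, Φ (univ.filter (fun e => i < c e + if e ∈ S then 1 else 0)) :=
      prod_pos fun i _ => h0 _
    calc Φ S * ((∏ i ∈ range m, Φ (univ.filter (fun e => i < c e))) *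
          Φ (univ.filter (fun e => m < c e)))
        = (Φ S * ∏ i ∈ range m, Φ (univ.filter (fun e => i < c e))) *
          Φ (univ.filter (fun e => m < c e)) := by ring
      _ ≤ ((∏ i ∈ range m, Φ (univ.filter (fun e => i < c e + if e ∈ S then 1 else 0))) *
          Φ (S.filter (fun e => m ≤ c e))) * Φ (univ.filter (fun e => m < c e)) :=
          mul_le_mul_of_nonneg_right ih (h0 _).le
      _ = (∏ i ∈ range m, Φ (univ.filter (fun e => i < c e + if e ∈ S then 1 else 0))) *
          (Φ (S.filter (fun e => m ≤ c e)) * Φ (univ.filter (fun e => m < c e))) := by ring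
      _ ≤ (∏ i ∈ range m, Φ (univ.filter (fun e => i < c e + if e ∈ S then 1 else 0))) *
          (Φ (S.filter (fun e => m + 1 ≤ c e)) *
            Φ (univ.filter (fun e => m < c e + if e ∈ S then 1 else 0))) :=
          mul_le_mul_of_nonneg_left h3 hp.le
      _ = _ := by ring

/-- PROOF. Insertion sort, induction on `k` (split off the last set).  For a decreasing chain `U 0 ⊇ U 1 ⊇ .. ⊇ U (k - 1)` and
a set `R`: `Φ R * ∏ Φ (U i) ≤ Φ (R ∪ U 0) * ∏_{1 ≤ i < k} Φ ((R ∩ U (i - 1)) ∪ U i) * Φ (R ∩ U (k - 1))`, by the steps
`Φ (R ∩ U (i - 1)) * Φ (U i) ≤ Φ ((R ∩ U (i - 1)) ∪ U i) * Φ (R ∩ U i)` (`LSF`; `U i ⊆ U (i - 1)`).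
If `U i` is the set of the elements covered more than `i` times by `R 0, .., R (k - 1)`, then `R ∪ U 0`,
`(R ∩ U (i - 1)) ∪ U i`, `R ∩ U (k - 1)` are the level sets of the family with `R` added. -/
theorem sort_prod {E : Type*} [Fintype E] (Φ : Finset E → ℝ) (h0 : ∀ S, 0 < Φ S) (hΦ : LSF Φ)
    (k : ℕ) (R : Fin k → Finset E) :
    ∏ j, Φ (R j) ≤
      ∏ i : Fin k, Φ (univ.filter (fun e => (i : ℕ) < (univ.filter (fun j => e ∈ R j)).card)) := by
  induction k with
  | zero => simp
  | succ k ih =>
    have hc : ∀ e, (univ.filter (fun j => e ∈ R j)).card =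
        (univ.filter (fun j : Fin k => e ∈ R j.castSucc)).card +
          if e ∈ R (Fin.last k) then 1 else 0 := by
      intro e
      rw [card_filter, card_filter, Fin.sum_univ_castSucc]
    set c : E → ℕ := fun e => (univ.filter (fun j : Fin k => e ∈ R j.castSucc)).card with hcdef
    have hck : ∀ e, c e ≤ k := by
      intro e
      have := card_le_univ (univ.filter (fun j : Fin k => e ∈ R j.castSucc))
      simpa using this
    have ih1 := ih (fun j => R j.castSucc)
    have h1 := Sort_ins Φ h0 hΦ (R (Fin.last k)) c k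
    rw [Fin.prod_univ_castSucc, Fin.prod_univ_castSucc]
    have e1 : ∏ i : Fin k, Φ (univ.filter (fun e => (i : ℕ) < c e)) =
        ∏ i ∈ range k, Φ (univ.filter (fun e => i < c e)) :=
      Fin.prod_univ_eq_prod_range (fun i => Φ (univ.filter (fun e => i < c e))) k
    have e2 : ∏ i : Fin k, Φ (univ.filter (fun e => ((i.castSucc : Fin (k + 1)) : ℕ) <
          (univ.filter (fun j => e ∈ R j)).card)) =
        ∏ i ∈ range k, Φ (univ.filter (fun e => i < c e + if e ∈ R (Fin.last k) then 1 else 0)) := by
      rw [← Fin.prod_univ_eq_prod_range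
        (fun i => Φ (univ.filter (fun e => i < c e + if e ∈ R (Fin.last k) then 1 else 0))) k]
      refine prod_congr rfl fun i _ => ?_
      congr 1
      ext e
      simp only [mem_filter, mem_univ, true_and, Fin.val_castSucc, hc e, hcdef]
    have e3 : univ.filter (fun e => ((Fin.last k : Fin (k + 1)) : ℕ) <
          (univ.filter (fun j => e ∈ R j)).card) =
        (R (Fin.last k)).filter (fun e => k ≤ c e) := by
      ext e
      simp only [mem_filter, mem_univ, true_and, Fin.val_last, hc e]
      have h2 := hck e
      by_cases he : e ∈ R (Fin.last k)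
      · simp only [he, if_true, true_and, hcdef] at h2 ⊢
        omega
      · simp only [he, if_false, false_and, iff_false, add_zero]
        simp only [hcdef] at h2
        omega
    rw [e2, e3]
    refine le_trans ?_ h1
    rw [mul_comm]
    refine mul_le_mul_of_nonneg_left ?_ (h0 _).le
    rw [← e1]
    exact ih1

end PF
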