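import Pool.Agent.W_5dd92e_pf.Trv
import Pool.Agent.W_5dd92e_pf.Rel
import Pool.Agent.W_5dd92e_pf.Sort
import Pool.Agent.W_5dd92e_pf.Rat

/-! # The inequality (*) for covers -/

set_option autoImplicit false

open Finset TPB
open scoped Classical

namespace PF

variable {E V : Type*} [Fintype E] [Fintype V]

/-- the size of the fibre of `e` -/
noncomputable def mfib {k : ℕ} (T : Finset (E × Fin k)) (e : E) : ℕ :=
  (univ.filter (fun j : Fin k => (e, j) ∈ T)).card

/-- `T` without the fibre of `e` -/
noncomputable def delf {k : ℕ} (T : Finset (E × Fin k)) (e : E) : Finset (E × Fin k) :=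
  T.filter (fun p => p.1 ≠ e)

lemma mfib_delf_self {k : ℕ} (T : Finset (E × Fin k)) (e : E) : mfib (delf T e) e = 0 := by
  unfold mfib delf
  rw [Finset.card_eq_zero, Finset.filter_eq_empty_iff]
  intro j _ h
  exact (Finset.mem_filter.1 h).2 rfl

lemma mfib_delf_ne {k : ℕ} (T : Finset (E × Fin k)) {e e' : E} (h : e' ≠ e) :
    mfib (delf T e) e' = mfib T e' := by
  unfold mfib delf
  congr 1
  ext j
  simp [h]

lemma mem_lev_iff {k : ℕ} (T : Finset (E × Fin k)) (i : ℕ) (e : E) :
    e ∈ lev T i ↔ i < mfib T e := by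
  simp [lev, mfib]

lemma lev_delf {k : ℕ} (T : Finset (E × Fin k)) (e : E) (i : ℕ) :
    lev (delf T e) i = (lev T i).erase e := by
  ext e'
  rw [Finset.mem_erase, mem_lev_iff, mem_lev_iff]
  by_cases h : e' = e
  · subst h
    rw [mfib_delf_self]; simp
  · rw [mfib_delf_ne T h]; simp [h]

lemma mfib_le {k : ℕ} (T : Finset (E × Fin k)) (e : E) : mfib T e ≤ k := by
  unfold mfib
  refine (Finset.card_le_univ _).trans ?_
  simp

/-- PROOF. Strong induction on the number of `e` with a nonempty fibre.  Let `m e = |{j : (e, j) ∈ T}|`,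
`S = {e : 0 < m e}`.
Case 1: some `e ∈ S` has its ends connected in `S.filter (e' ≠ e ∧ m e ≤ m e')`.  Let `T'` be `T` without the fibre of `e`.
Then `Phi T ≤ Phi T'` (`phi_anti`), and `Phi (lev T i) = Phi (lev T' i)`: `lev T' i = (lev T i).erase e`; for `i < m e` the
ends of `e` are connected in `(lev T i).erase e` (`con_mono`), so `phi_erase`; for `i ≥ m e`: `e ∉ lev T i`.
Case 2: otherwise `triv` gives `ψ`, `relabel` gives `Phi T = ∏ j, Phi (R j)`, and `sort_prod` gives the claim, because
`|{j : e ∈ R j}| = m e`. -/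
theorem star (s t : E → V) {k : ℕ} (π : E → Equiv.Perm (Fin k)) {F : ℕ → ℝ} (hF : Adm F)
    (T : Finset (E × Fin k)) :
    Phi (sc s k) (tc t k π) F T ≤ ∏ i : Fin k, Phi s t F (lev T i) := by
  induction hn : (univ.filter (fun e => 0 < mfib T e)).card using Nat.strong_induction_on
    generalizing T with
  | _ n ih =>
    subst hn
    by_cases hc : ∃ e ∈ univ.filter (fun e => 0 < mfib T e),
        Con s t ((univ.filter (fun e => 0 < mfib T e)).filter
          (fun e' => e' ≠ e ∧ mfib T e ≤ mfib T e')) (s e) (t e)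
    · obtain ⟨e, heS, hcon⟩ := hc
      have he : 0 < mfib T e := (Finset.mem_filter.1 heS).2
      have hS : univ.filter (fun e' => 0 < mfib (delf T e) e') =
          (univ.filter (fun e' => 0 < mfib T e')).erase e := by
        ext e'
        rw [Finset.mem_erase, Finset.mem_filter, Finset.mem_filter]
        by_cases h : e' = e
        · subst h
          rw [mfib_delf_self]; simp
        · rw [mfib_delf_ne T h]; simp [h]
      have hlt : (univ.filter (fun e' => 0 < mfib (delf T e) e')).card <
          (univ.filter (fun e' => 0 < mfib T e')).card := by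
        rw [hS]; exact Finset.card_erase_lt_of_mem heS
      have h1 := ih _ hlt (delf T e) rfl
      have h2 : Phi (sc s k) (tc t k π) F T ≤ Phi (sc s k) (tc t k π) F (delf T e) :=
        phi_anti hF (Finset.filter_subset _ _)
      refine (h2.trans h1).trans (le_of_eq (Finset.prod_congr rfl fun i _ => ?_))
      rw [lev_delf]
      by_cases hi : (i : ℕ) < mfib T e
      · refine (phi_erase hF (lev T i) e (con_mono ?_ hcon)).symm
        intro e' he'
        obtain ⟨_, h3, h4⟩ := Finset.mem_filter.1 he'
        rw [Finset.mem_erase, mem_lev_iff]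
        exact ⟨h3, lt_of_lt_of_le hi h4⟩
      · rw [Finset.erase_eq_of_notMem]
        rw [mem_lev_iff]; exact hi
    · push Not at hc
      obtain ⟨ψ, hψ⟩ := triv s t π (mfib T) (univ.filter (fun e => 0 < mfib T e)) hc
      have hψ' : ∀ p ∈ T, ∀ j, ψ (t p.1) (π p.1 j) = ψ (s p.1) j := by
        intro p hp j
        refine hψ p.1 ?_ j
        rw [Finset.mem_filter]
        refine ⟨Finset.mem_univ _, ?_⟩
        unfold mfib
        exact Finset.card_pos.2 ⟨p.2, Finset.mem_filter.2 ⟨Finset.mem_univ _, hp⟩⟩
      rw [relabel s t π ψ F T hψ']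
      refine (sort_prod (Phi s t F) (phi_pos hF) (phi_lsf hF) k
        (fun j => univ.filter (fun e => (e, (ψ (s e)).symm j) ∈ T))).trans
        (le_of_eq (Finset.prod_congr rfl fun i _ => ?_))
      congr 1
      ext e
      rw [mem_lev_iff, Finset.mem_filter]
      have hcard : (univ.filter (fun j : Fin k =>
          e ∈ univ.filter (fun e => (e, (ψ (s e)).symm j) ∈ T))).card = mfib T e := by
        unfold mfib
        refine Finset.card_bij (fun j _ => (ψ (s e)).symm j) ?_ ?_ ?_
        · intro j hj
          have := (Finset.mem_filter.1 hj).2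
          exact Finset.mem_filter.2 ⟨Finset.mem_univ _, (Finset.mem_filter.1 this).2⟩
        · intro a _ b _ hab
          exact (ψ (s e)).symm.injective hab
        · intro j hj
          refine ⟨ψ (s e) j, ?_, by simp⟩
          refine Finset.mem_filter.2 ⟨Finset.mem_univ _, Finset.mem_filter.2
            ⟨Finset.mem_univ _, ?_⟩⟩
          simpa using (Finset.mem_filter.1 hj).2
      rw [hcard]
      simp

/-- PROOF. `∑ e, m e` counted in two ways: `m e = |{i < k : i < m e}|` as `m e ≤ k`. -/
theorem sum_lev {k : ℕ} (T : Finset (E × Fin k)) : ∑ i : Fin k, (lev T i).card = T.card := by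
  have h1 : ∀ i : Fin k, (lev T i).card = ∑ e : E, if (i : ℕ) < mfib T e then 1 else 0 := by
    intro i
    rw [← Finset.card_filter]
    rfl
  have h2 : T.card = ∑ e : E, mfib T e := by
    have h3 : T = univ.filter (fun p => p ∈ T) := by ext p; simp
    conv_lhs => rw [h3, Finset.card_filter, Fintype.sum_prod_type]
    refine Finset.sum_congr rfl fun e _ => ?_
    unfold mfib
    rw [Finset.card_filter]
  rw [Finset.sum_congr rfl fun i _ => h1 i, Finset.sum_comm, h2]
  refine Finset.sum_congr rfl fun e _ => ?_
  rw [← Finset.card_filter]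
  have h4 := mfib_le T e
  have h5 : (univ.filter (fun i : Fin k => (i : ℕ) < mfib T e)).card =
      (Finset.range (mfib T e)).card := by
    refine Finset.card_bij (fun i _ => (i : ℕ)) ?_ ?_ ?_
    · intro i hi
      exact Finset.mem_range.2 (Finset.mem_filter.1 hi).2
    · intro a _ b _ hab
      exact Fin.ext hab
    · intro j hj
      have hj' := Finset.mem_range.1 hj
      exact ⟨⟨j, lt_of_lt_of_le hj' h4⟩, Finset.mem_filter.2 ⟨Finset.mem_univ _, hj'⟩, rfl⟩
  rw [h5, Finset.card_range]

end PF
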