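import Pool.Agent.W_5dd92e_pf.CluA

/-! # Covers of forests are trivial -/

set_option autoImplicit false

open Finset TPB
open scoped Classical

namespace PF

variable {E V : Type*} [Fintype E] [Fintype V]

/-- PROOF. Induction on `S.card`.  Take `e ∈ S` with `m e` minimal (`Finset.exists_min_image`); then
`S.filter (e' ≠ e ∧ m e ≤ m e') = S.erase e`, so the ends of `e` are not connected in `S.erase e`.  The hypothesis holds for
`S.erase e` (`con_mono`); take its `ψ`, and replace `ψ v` by `g * ψ v` for `v` in the component (in `S.erase e`) of `t e`,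
where `g = ψ (s e) * (π e)⁻¹ * (ψ (t e))⁻¹`. -/
theorem triv (s t : E → V) {k : ℕ} (π : E → Equiv.Perm (Fin k)) (m : E → ℕ) (S : Finset E)
    (h : ∀ e ∈ S, ¬ Con s t (S.filter (fun e' => e' ≠ e ∧ m e ≤ m e')) (s e) (t e)) :
    ∃ ψ : V → Equiv.Perm (Fin k), ∀ e ∈ S, ∀ j, ψ (t e) (π e j) = ψ (s e) j := by
  have key : ∀ (n : ℕ) (S : Finset E), S.card = n →
      (∀ e ∈ S, ¬ Con s t (S.filter (fun e' => e' ≠ e ∧ m e ≤ m e')) (s e) (t e)) →
      ∃ ψ : V → Equiv.Perm (Fin k), ∀ e ∈ S, ∀ j, ψ (t e) (π e j) = ψ (s e) j := by
    intro n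
    induction n with
    | zero =>
      intro S hS _
      refine ⟨fun _ => 1, ?_⟩
      intro e he
      rw [Finset.card_eq_zero] at hS
      rw [hS] at he
      simp at he
    | succ n ih =>
      intro S hS h
      have hne : S.Nonempty := by
        rw [← Finset.card_pos]; omega
      obtain ⟨e, heS, hmin⟩ := Finset.exists_min_image S m hne
      have hfil : S.filter (fun e' => e' ≠ e ∧ m e ≤ m e') = S.erase e := by
        ext e'
        simp only [Finset.mem_filter, Finset.mem_erase]
        constructor
        · rintro ⟨h1, h2, _⟩; exact ⟨h2, h1⟩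
        · rintro ⟨h1, h2⟩; exact ⟨h2, h1, hmin e' h2⟩
      have hnc : ¬ Con s t (S.erase e) (s e) (t e) := by
        have := h e heS
        rwa [hfil] at this
      obtain ⟨ψ, hψ⟩ := ih (S.erase e) (by rw [Finset.card_erase_of_mem heS, hS]; rfl) (by
        intro e' he' hc
        have he'S : e' ∈ S := Finset.mem_of_mem_erase he'
        refine h e' he'S (con_mono ?_ hc)
        intro i hi
        rw [Finset.mem_filter] at hi ⊢
        exact ⟨Finset.mem_of_mem_erase hi.1, hi.2⟩)
      set g : Equiv.Perm (Fin k) := ψ (s e) * (π e)⁻¹ * (ψ (t e))⁻¹ with hg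
      refine ⟨fun v => if Con s t (S.erase e) (t e) v then g * ψ v else ψ v, ?_⟩
      intro e' he' j
      by_cases hee : e' = e
      · subst hee
        have h1 : Con s t (S.erase e') (t e') (t e') := Relation.EqvGen.refl _
        have h2 : ¬ Con s t (S.erase e') (t e') (s e') := fun hc => hnc (Relation.EqvGen.symm _ _ hc)
        simp only [h1, h2, if_true, if_false]
        rw [hg]
        simp [Equiv.Perm.mul_apply]
      · have he'E : e' ∈ S.erase e := Finset.mem_erase.mpr ⟨hee, he'⟩
        have hstep : Con s t (S.erase e) (s e') (t e') :=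
          Relation.EqvGen.rel _ _ ⟨e', he'E, rfl, rfl⟩
        have hold := hψ e' he'E j
        by_cases hc : Con s t (S.erase e) (t e) (t e')
        · have hc' : Con s t (S.erase e) (t e) (s e') :=
            Relation.EqvGen.trans _ _ _ hc (Relation.EqvGen.symm _ _ hstep)
          simp only [hc, hc', if_true]
          change g (ψ (t e') (π e' j)) = g (ψ (s e') j)
          rw [hold]
        · have hc' : ¬ Con s t (S.erase e) (t e) (s e') := fun hx =>
            hc (Relation.EqvGen.trans _ _ _ hx hstep)
          simp only [hc, hc', if_false]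
          exact hold
  exact key S.card S rfl h

end PF
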