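import Pool.Agent.W_5dd92e_pf.Defs

/-! # Types of colourings of the sheets -/

set_option autoImplicit false

open Finset TPB
open scoped Classical

namespace PF

variable {q k : ℕ}

/-- the type of `x`: how often every colour occurs -/
noncomputable def ty (x : Fin k → Fin q) : Fin q → Fin (k + 1) :=
  fun l => ⟨(univ.filter (fun i => x i = l)).card,
    Nat.lt_succ_of_le ((card_filter_le _ _).trans (by rw [card_univ, Fintype.card_fin]))⟩

/-- the colourings of type `τ` -/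
noncomputable def tyc (τ : Fin q → Fin (k + 1)) : Finset (Fin k → Fin q) :=
  univ.filter (fun x => ty x = τ)

/-- the sum over the permutations of the sheets -/
noncomputable def psum (B : Fin q → Fin q → ℝ) (x y : Fin k → Fin q) : ℝ :=
  ∑ ρ : Equiv.Perm (Fin k), ∏ i, B (x i) (y (ρ i))

/-- two colourings of the same type differ by a permutation of the sheets -/
theorem ty_perm (x x' : Fin k → Fin q) (h : ty x = ty x') :
    ∃ ρ : Equiv.Perm (Fin k), ∀ i, x' i = x (ρ i) := by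
  have hc : ∀ l, Fintype.card {i // x' i = l} = Fintype.card {i // x i = l} := by
    intro l
    have h1 := congrArg Fin.val (congrFun h l)
    simp only [ty] at h1
    rw [Fintype.card_subtype, Fintype.card_subtype, h1]
  let e : ∀ l, {i // x' i = l} ≃ {i // x i = l} := fun l => Fintype.equivOfCardEq (hc l)
  let ρ : Equiv.Perm (Fin k) :=
    ((Equiv.sigmaFiberEquiv x').symm.trans (Equiv.sigmaCongrRight e)).trans
      (Equiv.sigmaFiberEquiv x)
  refine ⟨ρ, fun i => ?_⟩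
  have h2 : ρ i = ((e (x' i)) ⟨i, rfl⟩ : {j // x j = x' i}).1 := rfl
  rw [h2]
  exact ((e (x' i)) ⟨i, rfl⟩).2.symm

private theorem typA_comp (y : Fin k → Fin q) (ρ : Equiv.Perm (Fin k)) :
    ty (fun i => y (ρ i)) = ty y := by
  funext l
  apply Fin.ext
  simp only [ty]
  refine Finset.card_bij (fun i _ => ρ i) ?_ ?_ ?_
  · intro i hi
    simpa using hi
  · intro i _ j _ hij
    exact ρ.injective hij
  · intro j hj
    refine ⟨ρ.symm j, ?_, by simp⟩
    simpa using hj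

theorem psum_ty (B : Fin q → Fin q → ℝ) (x x' y y' : Fin k → Fin q) (hx : ty x = ty x')
    (hy : ty y = ty y') : psum B x y = psum B x' y' := by
  obtain ⟨σ, hσ⟩ := ty_perm x x' hx
  obtain ⟨τ, hτ⟩ := ty_perm y y' hy
  unfold psum
  symm
  rw [← Equiv.sum_comp ((Equiv.mulLeft τ).trans (Equiv.mulRight σ⁻¹))
    (fun ρ : Equiv.Perm (Fin k) => ∏ i, B (x i) (y (ρ i)))]
  refine Finset.sum_congr rfl (fun ρ _ => ?_)
  rw [← Equiv.prod_comp σ (fun i => B (x i)
    (y (((Equiv.mulLeft τ).trans (Equiv.mulRight σ⁻¹)) ρ i)))]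
  refine Finset.prod_congr rfl (fun i _ => ?_)
  rw [hσ, hτ]
  simp [Equiv.Perm.mul_apply]

/-- PROOF. `∑_y ∏ B (x i) (y i) = ∑_y ∏ B (x i) (y (ρ i))` for every `ρ` (the set `tyc τ'` is invariant under permutations of
the sheets); average over `ρ`; every `psum B x' y'` with these types equals `psum B x y`. -/
theorem sum_ty (B : Fin q → Fin q → ℝ) (x y : Fin k → Fin q) :
    (k.factorial : ℝ) * ∑ x' ∈ tyc (ty x), ∑ y' ∈ tyc (ty y), ∏ i, B (x' i) (y' i) =
      ((tyc (ty x)).card : ℝ) * ((tyc (ty y)).card : ℝ) * psum B x y := by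
  have h1 : ∀ ρ : Equiv.Perm (Fin k), ∀ x' : Fin k → Fin q,
      ∑ y' ∈ tyc (ty y), ∏ i, B (x' i) (y' i) =
        ∑ y' ∈ tyc (ty y), ∏ i, B (x' i) (y' (ρ i)) := by
    intro ρ x'
    refine Finset.sum_bij' (fun y' _ => fun i => y' (ρ.symm i)) (fun y' _ => fun i => y' (ρ i))
      ?_ ?_ ?_ ?_ ?_
    · intro y' hy'
      simp only [tyc, mem_filter, mem_univ, true_and] at hy' ⊢
      rw [typA_comp y' ρ.symm, hy']
    · intro y' hy'
      simp only [tyc, mem_filter, mem_univ, true_and] at hy' ⊢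
      rw [typA_comp y' ρ, hy']
    · intro y' _
      funext i
      simp
    · intro y' _
      funext i
      simp
    · intro y' _
      simp
  have h2 : (k.factorial : ℝ) * ∑ x' ∈ tyc (ty x), ∑ y' ∈ tyc (ty y), ∏ i, B (x' i) (y' i) =
      ∑ ρ : Equiv.Perm (Fin k), ∑ x' ∈ tyc (ty x), ∑ y' ∈ tyc (ty y),
        ∏ i, B (x' i) (y' (ρ i)) := by
    have h3 : ∀ ρ : Equiv.Perm (Fin k), ∑ x' ∈ tyc (ty x), ∑ y' ∈ tyc (ty y),
        ∏ i, B (x' i) (y' (ρ i)) =
        ∑ x' ∈ tyc (ty x), ∑ y' ∈ tyc (ty y), ∏ i, B (x' i) (y' i) := fun ρ =>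
      Finset.sum_congr rfl (fun x' _ => (h1 ρ x').symm)
    rw [Finset.sum_congr rfl (fun ρ _ => h3 ρ), Finset.sum_const, card_univ,
      Fintype.card_perm, Fintype.card_fin, nsmul_eq_mul]
  rw [h2, Finset.sum_comm]
  have h4 : ∀ x' ∈ tyc (ty x), ∑ ρ : Equiv.Perm (Fin k), ∑ y' ∈ tyc (ty y),
      ∏ i, B (x' i) (y' (ρ i)) = ((tyc (ty y)).card : ℝ) * psum B x y := by
    intro x' hx'
    rw [Finset.sum_comm]
    have h5 : ∀ y' ∈ tyc (ty y), ∑ ρ : Equiv.Perm (Fin k), ∏ i, B (x' i) (y' (ρ i)) =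
        psum B x y := by
      intro y' hy'
      simp only [tyc, mem_filter, mem_univ, true_and] at hx' hy'
      exact psum_ty B x' x y' y hx' hy'
    rw [Finset.sum_congr rfl h5, Finset.sum_const, nsmul_eq_mul]
  rw [Finset.sum_congr rfl h4, Finset.sum_const, nsmul_eq_mul]
  ring

private theorem typA_prod (p : Fin q → ℝ) (x x' : Fin k → Fin q) (h : x' ∈ tyc (ty x)) :
    ∏ i, p (x' i) = ∏ i, p (x i) := by
  simp only [tyc, mem_filter, mem_univ, true_and] at h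
  obtain ⟨ρ, hρ⟩ := ty_perm x x' h.symm
  rw [← Equiv.prod_comp ρ (fun i => p (x i))]
  exact Finset.prod_congr rfl (fun i _ => by rw [hρ])

/-- PROOF. `∏ i, p (x i)` depends only on the type of `x`, and the sum over all `x` is `1`. -/
theorem card_ty_mul (p : Fin q → ℝ) (hp : Pv p) (x : Fin k → Fin q) :
    ((tyc (ty x)).card : ℝ) * ∏ i, p (x i) ≤ 1 := by
  have h1 : ((tyc (ty x)).card : ℝ) * ∏ i, p (x i) = ∑ x' ∈ tyc (ty x), ∏ i, p (x' i) := by
    rw [Finset.sum_congr rfl (fun x' hx' => typA_prod p x x' hx'), Finset.sum_const,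
      nsmul_eq_mul]
  have h2 : ∑ x' : Fin k → Fin q, ∏ i, p (x' i) = 1 := by
    have h3 := Fintype.sum_pow p k
    rw [hp.2, one_pow] at h3
    exact h3.symm
  rw [h1, ← h2]
  exact Finset.sum_le_sum_of_subset_of_nonneg (subset_univ _)
    (fun x' _ _ => Finset.prod_nonneg (fun i _ => hp.1 _))

private theorem typA_share (d : ℕ) (hd : 1 ≤ d) (B : Fin q → Fin q → ℝ)
    (hB : ∀ i j, 0 ≤ B i j) (p p' : Fin q → ℝ) (hp : Pv p) (hp' : Pv p')
    (x y : Fin k → Fin q) :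
    ∑ x' ∈ tyc (ty x), ∑ y' ∈ tyc (ty y),
      ∏ i, (B (x' i) (y' i) * (p (x' i) * p' (y' i)) ^ (((d : ℝ) - 1) / d)) ≤
      ((tyc (ty x)).card : ℝ) ^ (1 / (d : ℝ)) * ((tyc (ty y)).card : ℝ) ^ (1 / (d : ℝ)) *
        (psum B x y / k.factorial) := by
  have hd0 : (0 : ℝ) < d := by exact_mod_cast (by omega : 0 < d)
  have hd1 : (1 : ℝ) ≤ d := by exact_mod_cast hd
  set θ : ℝ := ((d : ℝ) - 1) / d with hθ
  have hθ0 : 0 ≤ θ := div_nonneg (by linarith) hd0.le
  have hsum : 1 / (d : ℝ) + θ = 1 := by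
    rw [hθ]
    field_simp
    ring
  have hpsum : 0 ≤ psum B x y :=
    Finset.sum_nonneg (fun ρ _ => Finset.prod_nonneg (fun i _ => hB _ _))
  have hP : 0 ≤ ∏ i, p (x i) := Finset.prod_nonneg (fun i _ => hp.1 _)
  have hP' : 0 ≤ ∏ i, p' (y i) := Finset.prod_nonneg (fun i _ => hp'.1 _)
  have h1 : ∑ x' ∈ tyc (ty x), ∑ y' ∈ tyc (ty y),
      ∏ i, (B (x' i) (y' i) * (p (x' i) * p' (y' i)) ^ θ) =
      ((∏ i, p (x i)) ^ θ * (∏ i, p' (y i)) ^ θ) *
        ∑ x' ∈ tyc (ty x), ∑ y' ∈ tyc (ty y), ∏ i, B (x' i) (y' i) := by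
    rw [Finset.mul_sum]
    refine Finset.sum_congr rfl (fun x' hx' => ?_)
    rw [Finset.mul_sum]
    refine Finset.sum_congr rfl (fun y' hy' => ?_)
    rw [Finset.prod_mul_distrib, Real.finset_prod_rpow _ _
      (fun i _ => mul_nonneg (hp.1 _) (hp'.1 _)), Finset.prod_mul_distrib,
      typA_prod p x x' hx', typA_prod p' y y' hy', Real.mul_rpow hP hP']
    ring
  have hk : (0 : ℝ) < k.factorial := by exact_mod_cast Nat.factorial_pos k
  have h2 : ∑ x' ∈ tyc (ty x), ∑ y' ∈ tyc (ty y), ∏ i, B (x' i) (y' i) =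
      ((tyc (ty x)).card : ℝ) * ((tyc (ty y)).card : ℝ) * (psum B x y / k.factorial) := by
    have h3 := sum_ty B x y
    field_simp
    linarith
  rw [h1, h2]
  have key : ∀ (z : Fin k → Fin q) (P : ℝ), 0 ≤ P → ((tyc (ty z)).card : ℝ) * P ≤ 1 →
      ((tyc (ty z)).card : ℝ) * P ^ θ ≤ ((tyc (ty z)).card : ℝ) ^ (1 / (d : ℝ)) := by
    intro z P hP0 hle
    have hpos : (0 : ℝ) < ((tyc (ty z)).card : ℝ) := by
      have : z ∈ tyc (ty z) := by simp [tyc]
      exact_mod_cast Finset.card_pos.2 ⟨z, this⟩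
    have e1 : ((tyc (ty z)).card : ℝ) * P ^ θ =
        ((tyc (ty z)).card : ℝ) ^ (1 / (d : ℝ)) * (((tyc (ty z)).card : ℝ) * P) ^ θ := by
      rw [Real.mul_rpow hpos.le hP0, ← mul_assoc, ← Real.rpow_add hpos, hsum, Real.rpow_one]
    rw [e1]
    have e2 : (((tyc (ty z)).card : ℝ) * P) ^ θ ≤ 1 :=
      Real.rpow_le_one (mul_nonneg hpos.le hP0) hle hθ0
    have e3 : (0 : ℝ) ≤ ((tyc (ty z)).card : ℝ) ^ (1 / (d : ℝ)) :=
      Real.rpow_nonneg hpos.le _
    nlinarith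
  have k1 := key x _ hP (card_ty_mul p hp x)
  have k2 := key y _ hP' (card_ty_mul p' hp' y)
  have n1 : 0 ≤ ((tyc (ty y)).card : ℝ) * (∏ i, p' (y i)) ^ θ :=
    mul_nonneg (Nat.cast_nonneg _) (Real.rpow_nonneg hP' _)
  have n2 : 0 ≤ ((tyc (ty x)).card : ℝ) ^ (1 / (d : ℝ)) :=
    Real.rpow_nonneg (Nat.cast_nonneg _) _
  have h4 := mul_le_mul k1 k2 n1 n2
  have h5 : 0 ≤ psum B x y / k.factorial := div_nonneg hpsum hk.le
  have h6 := mul_le_mul_of_nonneg_right h4 h5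
  calc (∏ i, p (x i)) ^ θ * (∏ i, p' (y i)) ^ θ *
        (((tyc (ty x)).card : ℝ) * ((tyc (ty y)).card : ℝ) * (psum B x y / k.factorial))
      = ((tyc (ty x)).card : ℝ) * (∏ i, p (x i)) ^ θ *
        (((tyc (ty y)).card : ℝ) * (∏ i, p' (y i)) ^ θ) * (psum B x y / k.factorial) := by ring
    _ ≤ _ := h6

/-- PROOF. `(form)^k = ∑_{x, y} ∏ B (x i) (y i) (p (x i) p' (y i))^θ`, `θ = (d-1)/d` (`Finset.sum_pow` / `Finset.prod_univ_sum`);
split into the at most `(k + 1)^(2 q)` pairs of types; one pair has at least the average; by `sum_ty` its share is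
`|τ| |τ'| psum / k! * (∏ p (x i))^θ (∏ p' (y i))^θ`, and `|τ| (∏ p (x i))^θ ≤ |τ|^(1/d)` by `card_ty_mul`. -/
theorem ty_main (d : ℕ) (hd : 1 ≤ d) (B : Fin q → Fin q → ℝ) (hB : ∀ i j, 0 ≤ B i j)
    (p p' : Fin q → ℝ) (hp : Pv p) (hp' : Pv p') (hq : 0 < q) :
    ∃ x y : Fin k → Fin q, form d B p p' ^ k ≤ ((k : ℝ) + 1) ^ (2 * q) *
      (((tyc (ty x)).card : ℝ) ^ (1 / (d : ℝ)) * ((tyc (ty y)).card : ℝ) ^ (1 / (d : ℝ)) *
        (psum B x y / k.factorial)) := by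
  have : Nonempty (Fin q) := ⟨⟨0, hq⟩⟩
  set G : (Fin k → Fin q) × (Fin k → Fin q) → ℝ := fun z =>
    ((tyc (ty z.1)).card : ℝ) ^ (1 / (d : ℝ)) * ((tyc (ty z.2)).card : ℝ) ^ (1 / (d : ℝ)) *
        (psum B z.1 z.2 / k.factorial) with hG
  obtain ⟨z, -, hz⟩ := Finset.exists_max_image (univ : Finset ((Fin k → Fin q) × (Fin k → Fin q)))
    G ⟨Classical.arbitrary _, mem_univ _⟩
  refine ⟨z.1, z.2, ?_⟩
  have hGnn : ∀ w, 0 ≤ G w := by
    intro w
    rw [hG]
    refine mul_nonneg (mul_nonneg (Real.rpow_nonneg (Nat.cast_nonneg _) _)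
      (Real.rpow_nonneg (Nat.cast_nonneg _) _)) (div_nonneg ?_ (Nat.cast_nonneg _))
    exact Finset.sum_nonneg (fun ρ _ => Finset.prod_nonneg (fun i _ => hB _ _))
  set f : (Fin k → Fin q) → (Fin k → Fin q) → ℝ := fun x y =>
    ∏ i, (B (x i) (y i) * (p (x i) * p' (y i)) ^ (((d : ℝ) - 1) / d)) with hf
  have h1 : form d B p p' ^ k = ∑ x, ∑ y, f x y := by
    have e1 : form d B p p' = ∑ a : Fin q × Fin q,
        B a.1 a.2 * (p a.1 * p' a.2) ^ (((d : ℝ) - 1) / d) := by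
      unfold form
      rw [Fintype.sum_prod_type]
    rw [e1, Fintype.sum_pow]
    rw [← Fintype.sum_prod_type' f]
    refine Fintype.sum_equiv (Equiv.arrowProdEquivProdArrow (Fin k) (fun _ => Fin q)
      (fun _ => Fin q)) _ _ (fun a => ?_)
    rfl
  have h2 : ∑ x, ∑ y, f x y = ∑ τ : Fin q → Fin (k + 1), ∑ τ' : Fin q → Fin (k + 1),
      ∑ x ∈ tyc τ, ∑ y ∈ tyc τ', f x y := by
    have e1 : ∀ g : (Fin k → Fin q) → ℝ, ∑ x, g x =
        ∑ τ : Fin q → Fin (k + 1), ∑ x ∈ tyc τ, g x := by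
      intro g
      rw [← Finset.sum_fiberwise_of_maps_to (s := (univ : Finset (Fin k → Fin q)))
        (t := (univ : Finset (Fin q → Fin (k + 1)))) (g := ty) (fun x _ => mem_univ _) g]
      rfl
    rw [e1]
    refine Finset.sum_congr rfl (fun τ _ => ?_)
    symm
    rw [Finset.sum_comm]
    refine Finset.sum_congr rfl (fun x _ => ?_)
    exact (e1 (fun y => f x y)).symm
  have h3 : ∀ τ τ' : Fin q → Fin (k + 1), ∑ x ∈ tyc τ, ∑ y ∈ tyc τ', f x y ≤ G z := by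
    intro τ τ'
    by_cases hτ : (tyc (k := k) τ).Nonempty
    · by_cases hτ' : (tyc (k := k) τ').Nonempty
      · obtain ⟨x, hx⟩ := hτ
        obtain ⟨y, hy⟩ := hτ'
        simp only [tyc, mem_filter, mem_univ, true_and] at hx hy
        rw [← hx, ← hy]
        exact (typA_share d hd B hB p p' hp hp' x y).trans (hz (x, y) (mem_univ _))
      · rw [Finset.not_nonempty_iff_eq_empty] at hτ'
        rw [hτ']
        simpa using hGnn z
    · rw [Finset.not_nonempty_iff_eq_empty] at hτ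
      rw [hτ]
      simpa using hGnn z
  rw [h1, h2]
  calc ∑ τ : Fin q → Fin (k + 1), ∑ τ' : Fin q → Fin (k + 1),
      ∑ x ∈ tyc τ, ∑ y ∈ tyc τ', f x y
      ≤ ∑ _τ : Fin q → Fin (k + 1), ∑ _τ' : Fin q → Fin (k + 1), G z :=
        Finset.sum_le_sum (fun τ _ => Finset.sum_le_sum (fun τ' _ => h3 τ τ'))
    _ = ((k : ℝ) + 1) ^ (2 * q) * G z := by
        rw [Finset.sum_const, Finset.sum_const, card_univ, Fintype.card_fun, Fintype.card_fin,
          Fintype.card_fin, nsmul_eq_mul, nsmul_eq_mul, two_mul, pow_add]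
        push_cast
        ring

end PF
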