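import Pool.Agent.W_5dd92e_pf.TypA
import Pool.Agent.W_5dd92e_pf.Egs

/-! # The average over the covers -/

set_option autoImplicit false

open Finset TPB
open scoped Classical

namespace PF

variable {V : Type*} [Fintype V] {q : ℕ}

private theorem TypB_psum_nonneg (B : Fin q → Fin q → ℝ) (hB : ∀ i j, 0 ≤ B i j) {k : ℕ}
    (x y : Fin k → Fin q) : 0 ≤ psum B x y :=
  Finset.sum_nonneg (fun _ _ => Finset.prod_nonneg (fun _ _ => hB _ _))

private theorem TypB_sum (G : SimpleGraph V) (c : V → Bool) (B : Fin q → Fin q → ℝ) (k : ℕ) :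
    ∑ π : Eg G c → Equiv.Perm (Fin k), Zcov G c k π B =
      ∑ s : V → Fin k → Fin q, ∏ e : Eg G c, psum B (s (se G c e)) (s (te G c e)) := by
  unfold Zcov
  rw [Finset.sum_comm]
  rw [← (Equiv.curry V (Fin k) (Fin q)).symm.sum_comp]
  refine Finset.sum_congr rfl (fun s _ => ?_)
  unfold psum
  rw [Finset.prod_univ_sum, Fintype.piFinset_univ]
  refine Finset.sum_congr rfl (fun π _ => ?_)
  rw [Fintype.prod_prod_type]
  rfl

private theorem TypB_card (G : SimpleGraph V) (c : V → Bool) (hc : Prp G c) (d : ℕ) (hd : 1 ≤ d)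
    (hr : Rgl G d) (k : ℕ) (x y : Fin k → Fin q) :
    (((tyc (ty x)).card : ℝ) ^ (1 / (d : ℝ)) * ((tyc (ty y)).card : ℝ) ^ (1 / (d : ℝ))) ^
        (ed G c).card =
      ∏ v : V, ((tyc (ty (if c v = true then x else y))).card : ℝ) := by
  have hd0 : (d : ℝ) ≠ 0 := by
    have : 0 < d := hd
    positivity
  have h := prod_deg2 (G := G) (c := c) hc d hr
    (fun v => ((tyc (ty (if c v = true then x else y))).card : ℝ) ^ (1 / (d : ℝ)))
  have h1 : ∀ v : V, (((tyc (ty (if c v = true then x else y))).card : ℝ) ^ (1 / (d : ℝ))) ^ d =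
      ((tyc (ty (if c v = true then x else y))).card : ℝ) := by
    intro v
    rw [← Real.rpow_natCast, ← Real.rpow_mul (Nat.cast_nonneg _), one_div, inv_mul_cancel₀ hd0,
      Real.rpow_one]
  rw [Finset.prod_congr rfl (fun v _ => h1 v)] at h
  rw [← h]
  have h2 : ∀ e : Eg G c,
      (((tyc (ty (if c (se G c e) = true then x else y))).card : ℝ) ^ (1 / (d : ℝ)) *
        ((tyc (ty (if c (te G c e) = true then x else y))).card : ℝ) ^ (1 / (d : ℝ))) =
      ((tyc (ty x)).card : ℝ) ^ (1 / (d : ℝ)) * ((tyc (ty y)).card : ℝ) ^ (1 / (d : ℝ)) := by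
    intro e
    have hs : c (se G c e) = true := eg_col e
    have ht : ¬ c (te G c e) = true := by
      intro h3
      exact hc _ _ (eg_adj e) (hs.trans h3.symm)
    rw [if_pos hs, if_neg ht]
  rw [Finset.prod_congr rfl (fun e _ => h2 e), Finset.prod_const, Finset.card_univ, card_eg]

/-- PROOF. `∑_π Zcov π = ∑_σ ∏_e (∑_ρ ∏_i B (σ (s e, i)) (σ (t e, ρ i))) = ∑_σ ∏_e psum B (σ (s e, ·)) (σ (t e, ·))`
(`Finset.prod_univ_sum`); keep the `σ` with `σ (v, ·)` of type `ty x` for all rows `v` (`c v = true`) and of type `ty y` for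
all columns: there are `|τ|^(#rows) |τ'|^(#columns)` of them, each term is `psum B x y ^ |E|` (`psum_ty`).  Every row has
`d` edges, so `|E| = d #rows = d #columns` and `|τ|^(#rows) = (|τ|^(1/d))^|E|`.  Some `π` has at least the average; there are
`(k!)^|E|` of them. -/
theorem cov_avg (G : SimpleGraph V) (c : V → Bool) (hc : Prp G c) (d : ℕ) (hd : 1 ≤ d)
    (hr : Rgl G d) (B : Fin q → Fin q → ℝ) (hB : ∀ i j, 0 ≤ B i j) (k : ℕ)
    (x y : Fin k → Fin q) : ∃ π : Eg G c → Equiv.Perm (Fin k),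
      (((tyc (ty x)).card : ℝ) ^ (1 / (d : ℝ)) * ((tyc (ty y)).card : ℝ) ^ (1 / (d : ℝ)) *
        (psum B x y / k.factorial)) ^ (ed G c).card ≤ Zcov G c k π B := by
  have hk : (0 : ℝ) < (k.factorial : ℝ) ^ (ed G c).card := by
    have := Nat.factorial_pos k
    positivity
  have hcard : Fintype.card (Eg G c → Equiv.Perm (Fin k)) = k.factorial ^ (ed G c).card := by
    rw [Fintype.card_fun, Fintype.card_perm, Fintype.card_fin, card_eg]
  -- the lower bound of the sum
  have hlow : (∏ v : V, ((tyc (ty (if c v = true then x else y))).card : ℝ)) *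
      psum B x y ^ (ed G c).card ≤ ∑ π : Eg G c → Equiv.Perm (Fin k), Zcov G c k π B := by
    rw [TypB_sum]
    have hsub : ∑ s ∈ Fintype.piFinset (fun v : V => tyc (ty (if c v = true then x else y))),
        ∏ e : Eg G c, psum B (s (se G c e)) (s (te G c e)) ≤
        ∑ s : V → Fin k → Fin q, ∏ e : Eg G c, psum B (s (se G c e)) (s (te G c e)) := by
      refine Finset.sum_le_sum_of_subset_of_nonneg (Finset.subset_univ _) (fun s _ _ => ?_)
      exact Finset.prod_nonneg (fun _ _ => TypB_psum_nonneg B hB _ _)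
    refine le_trans (le_of_eq ?_) hsub
    have hterm : ∀ s ∈ Fintype.piFinset (fun v : V => tyc (ty (if c v = true then x else y))),
        ∏ e : Eg G c, psum B (s (se G c e)) (s (te G c e)) = psum B x y ^ (ed G c).card := by
      intro s hs
      rw [Fintype.mem_piFinset] at hs
      have h2 : ∀ e : Eg G c, psum B (s (se G c e)) (s (te G c e)) = psum B x y := by
        intro e
        have hse : c (se G c e) = true := eg_col e
        have hte : ¬ c (te G c e) = true := by
          intro h3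
          exact hc _ _ (eg_adj e) (hse.trans h3.symm)
        have h4 := hs (se G c e)
        have h5 := hs (te G c e)
        rw [if_pos hse] at h4
        rw [if_neg hte] at h5
        unfold tyc at h4 h5
        rw [Finset.mem_filter] at h4 h5
        exact psum_ty B _ _ _ _ h4.2 h5.2
      rw [Finset.prod_congr rfl (fun e _ => h2 e), Finset.prod_const, Finset.card_univ, card_eg]
    rw [Finset.sum_congr rfl hterm, Finset.sum_const, Fintype.card_piFinset, nsmul_eq_mul,
      Nat.cast_prod]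
  rw [← TypB_card G c hc d hd hr k x y] at hlow
  have hne : (univ : Finset (Eg G c → Equiv.Perm (Fin k))).Nonempty := Finset.univ_nonempty
  obtain ⟨π, -, hπ⟩ := Finset.exists_le_of_sum_le hne
    (f := fun _ => (((tyc (ty x)).card : ℝ) ^ (1 / (d : ℝ)) *
      ((tyc (ty y)).card : ℝ) ^ (1 / (d : ℝ)) * (psum B x y / k.factorial)) ^ (ed G c).card)
    (g := fun π => Zcov G c k π B) (by
      rw [Finset.sum_const, Finset.card_univ, hcard, nsmul_eq_mul, Nat.cast_pow]
      refine le_trans (le_of_eq ?_) hlow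
      rw [mul_pow _ (psum B x y / (k.factorial : ℝ)), div_pow]
      field_simp)
  exact ⟨π, hπ⟩

/-- PROOF. `ty_main`, `cov_avg`. -/
theorem typ_bound (G : SimpleGraph V) (c : V → Bool) (hc : Prp G c) (d : ℕ) (hd : 1 ≤ d)
    (hr : Rgl G d) (hq : 0 < q) (B : Fin q → Fin q → ℝ) (hB : ∀ i j, 0 ≤ B i j)
    (p p' : Fin q → ℝ) (hp : Pv p) (hp' : Pv p') (k : ℕ) : ∃ π : Eg G c → Equiv.Perm (Fin k),
      (form d B p p' ^ (ed G c).card) ^ k ≤
        (((k : ℝ) + 1) ^ (2 * q)) ^ (ed G c).card * Zcov G c k π B := by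
  obtain ⟨x, y, hxy⟩ := ty_main (k := k) d hd B hB p p' hp hp' hq
  obtain ⟨π, hπ⟩ := cov_avg G c hc d hd hr B hB k x y
  refine ⟨π, ?_⟩
  have hform : 0 ≤ form d B p p' := by
    unfold form
    refine Finset.sum_nonneg (fun i _ => Finset.sum_nonneg (fun j _ => ?_))
    exact mul_nonneg (hB i j) (Real.rpow_nonneg (mul_nonneg (hp.1 i) (hp'.1 j)) _)
  calc (form d B p p' ^ (ed G c).card) ^ k = (form d B p p' ^ k) ^ (ed G c).card := by
        rw [← pow_mul, ← pow_mul, mul_comm]
    _ ≤ (((k : ℝ) + 1) ^ (2 * q) *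
      (((tyc (ty x)).card : ℝ) ^ (1 / (d : ℝ)) * ((tyc (ty y)).card : ℝ) ^ (1 / (d : ℝ)) *
        (psum B x y / k.factorial))) ^ (ed G c).card :=
        pow_le_pow_left₀ (pow_nonneg hform k) hxy _
    _ = (((k : ℝ) + 1) ^ (2 * q)) ^ (ed G c).card *
      (((tyc (ty x)).card : ℝ) ^ (1 / (d : ℝ)) * ((tyc (ty y)).card : ℝ) ^ (1 / (d : ℝ)) *
        (psum B x y / k.factorial)) ^ (ed G c).card := mul_pow _ _ _
    _ ≤ _ := mul_le_mul_of_nonneg_left hπ (by positivity)

end PF
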