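import Pool.Agent.W_5dd92e_pf.EntU
import Pool.Agent.W_5dd92e_pf.PairE
import Pool.Agent.W_5dd92e_pf.ChnB
import Pool.Agent.W_5dd92e_pf.Ener
import Pool.Agent.W_5dd92e_pf.EdgeI
import Pool.Agent.W_5dd92e_pf.ExpB
import Pool.Agent.W_5dd92e_pf.ExpA
import Pool.Agent.W_5dd92e_pf.PigS
import Pool.Agent.W_5dd92e_pf.GirG

/-! # The upper bound -/

set_option autoImplicit false

open Finset TPB
open scoped Classical

namespace PF

universe u

private theorem upp_ex_mono {ι : Type*} [Fintype ι] {μ : (ι → Fin 2) → ℝ} (hμ : PW μ)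
    {f g : (ι → Fin 2) → ℝ} (h : ∀ σ, f σ ≤ g σ) : Ex μ f ≤ Ex μ g :=
  Finset.sum_le_sum fun σ _ => mul_le_mul_of_nonneg_left (h σ) (hμ.pos σ).le

private theorem upp_ex_add {ι : Type*} [Fintype ι] (μ : (ι → Fin 2) → ℝ)
    (f g : (ι → Fin 2) → ℝ) : Ex μ (fun σ => f σ + g σ) = Ex μ f + Ex μ g := by
  unfold Ex
  rw [← Finset.sum_add_distrib]
  exact Finset.sum_congr rfl fun σ _ => by ring

private theorem upp_ex_sum {ι α : Type*} [Fintype ι] (μ : (ι → Fin 2) → ℝ) (S : Finset α)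
    (f : α → (ι → Fin 2) → ℝ) : Ex μ (fun σ => ∑ i ∈ S, f i σ) = ∑ i ∈ S, Ex μ (f i) := by
  unfold Ex
  rw [Finset.sum_comm]
  exact Finset.sum_congr rfl fun σ _ => by rw [Finset.mul_sum]

/-- For one graph and one scale.  PROOF. `μ = muh (ww ..) h`.  `TPB.log_Zh`, `log (ww σ) = |op σ| log ε + log Phi`,
`log_phi`, `HH_univ`, `xx_op`:
`log Zh ≤ HH univ + Ex [|op σ| (log ε + h)] + Ex [∑_v ..] + Ex [∑_{i ∈ op σ} ..]`; `ent_graph2`, `HH_one`, `HH_two`, `chn`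
(with `K = pk`), `TPB.sum_deg` for the terms `∑_v`; then `edge_ineq2` for every edge. -/
theorem upper_one (d : ℕ) (hd : 1 ≤ d) {q : ℕ} {a b : Fin q → ℝ} {o : Fin q} (hm : Dm a b o)
    (ε : ℝ) (hε : 0 < ε) (κ : ℝ) (hκ : 0 < κ) (L : ℕ) (hL1 : 1 ≤ L)
    (hL : ∀ n, L < n → FF a b κ n = 1) {W : Type u} [Fintype W] (G : SimpleGraph W)
    (c : W → Bool) (hc : Prp G c) (hr : Rgl G d) (h : ℝ) (hh0 : 0 ≤ h) (c0 : ℝ) (hc0 : 0 < c0)
    (hs : SSB (muh (ww (se G c) (te G c) (FF a b κ) ε) h) c0) (r : ℕ) (hr2 : 2 * L ≤ r + 1)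
    (hg : ((4 * (r + 1) + 1 : ℕ) : ℕ∞) ≤ G.egirth) :
    Real.log (Zh (ww (se G c) (te G c) (FF a b κ) ε) h) ≤
      (ed G c).card * (h + Real.log (NN d (Mn d a b ε))) +
      2 * ∑ p ∈ Pr G (r + 1), 4 / c0 ^ 2 * ∑ e ∈ BB G c L p.1, ∑ e' ∈ BB G c L p.2,
        Cv (muh (ww (se G c) (te G c) (FF a b κ) ε) h) e e' := by
  have hF : Adm (FF a b κ) := ff_adm hm κ hκ.le
  have hwp := fun σ => ww_pos (s := se G c) (t := te G c) hF ε hε σ
  have hne : Nonempty (Eg G c → Fin 2) := ⟨fun _ => 0⟩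
  obtain ⟨μ, hμ⟩ : ∃ μ, μ = muh (ww (se G c) (te G c) (FF a b κ) ε) h := ⟨_, rfl⟩
  have hpw : PW μ := by rw [hμ]; exact muh_pw _ hwp h hne
  have hG : Gir (se G c) (te G c) L := by
    refine gir_of G c hc L (le_trans ?_ hg)
    exact_mod_cast (by omega : L + 1 ≤ 4 * (r + 1) + 1)
  have hZ := log_Zh (ww (se G c) (te G c) (FF a b κ) ε) hwp h hne
  rw [← hμ] at hZ ⊢
  -- the three kinds of terms
  set A : W → ℝ := fun v => Ex μ (fun σ => ∑ k, pk a b o κ (cl (se G c) (te G c) (op σ) v).card k *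
    Real.log (a k)) with hA
  set B : Eg G c → ℝ := fun e => Ex μ (fun σ => if e ∈ op σ then
    ∑ k, pk a b o κ (cl (se G c) (te G c) (op σ) (se G c e)).card k * Real.log (b k) else 0)
    with hB
  set C : Eg G c → ℝ := fun e => Ex μ (fun σ => if e ∈ op σ then Real.log ε + h else 0) with hC
  have hphi : ∀ S : Finset (Eg G c), 0 < Phi (se G c) (te G c) (FF a b κ) S := by
    intro S
    unfold Phi
    refine Finset.prod_pos fun X hX => ?_
    obtain ⟨v, rfl⟩ := mem_Cls.1 hX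
    exact adm_pos hF _ (cl_card_pos _ _)
  have hlog : ∀ σ : Eg G c → Fin 2, Real.log (ww (se G c) (te G c) (FF a b κ) ε σ) + h * XX σ ≤
      (∑ X ∈ Cls (se G c) (te G c) (op σ), hh a b o κ X.card) +
      ((∑ v, ∑ k, pk a b o κ (cl (se G c) (te G c) (op σ) v).card k * Real.log (a k)) +
      ((∑ e, if e ∈ op σ then
        ∑ k, pk a b o κ (cl (se G c) (te G c) (op σ) (se G c e)).card k * Real.log (b k) else 0) +
      ∑ e, if e ∈ op σ then Real.log ε + h else 0)) := by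
    intro σ
    have h1 : Real.log (ww (se G c) (te G c) (FF a b κ) ε σ) =
        (op σ).card * Real.log ε + Real.log (Phi (se G c) (te G c) (FF a b κ) (op σ)) := by
      unfold ww
      rw [Real.log_mul (by positivity) (hphi _).ne', Real.log_pow]
    have h2 := log_phi (se G c) (te G c) hm κ hκ.le L hL hG (op σ)
    have h3 : (∑ e, if e ∈ op σ then Real.log ε + h else 0) =
        (op σ).card * (Real.log ε + h) := by
      rw [← Finset.sum_filter, Finset.sum_const, nsmul_eq_mul]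
      congr 3
      ext e
      simp
    have h4 : (∑ e, if e ∈ op σ then
        ∑ k, pk a b o κ (cl (se G c) (te G c) (op σ) (se G c e)).card k * Real.log (b k) else 0) =
        ∑ e ∈ op σ, ∑ k, pk a b o κ (cl (se G c) (te G c) (op σ) (se G c e)).card k *
          Real.log (b k) := by
      rw [← Finset.sum_filter]
      refine Finset.sum_congr ?_ fun _ _ => rfl
      ext e
      simp
    rw [h1, h3, h4, xx_op]
    nlinarith [h2]
  have hlogZ : Real.log (Zh (ww (se G c) (te G c) (FF a b κ) ε) h) ≤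
      HH G c (hh a b o κ) L μ univ + (∑ v, A v + (∑ e, B e + ∑ e, C e)) := by
    rw [hZ, HH_univ G c (hh a b o κ) L hL1 μ, add_assoc, add_assoc]
    refine add_le_add_right ?_ _
    have e1 : h * Ex μ XX = Ex μ (fun σ => h * XX σ) := by
      unfold Ex
      rw [Finset.mul_sum]
      exact Finset.sum_congr rfl fun σ _ => by ring
    rw [e1, ← upp_ex_add]
    refine (upp_ex_mono hpw hlog).trans (le_of_eq ?_)
    rw [upp_ex_add, upp_ex_add, upp_ex_add, upp_ex_sum, upp_ex_sum, upp_ex_sum]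
  have hent := ent_graph2 G c hc hF ε hε h c0 hc0 hs (hh a b o κ) (fun n => hh_nn hm κ n) L hL
    (fun n hn => hh_zero κ n (hL n hn)) r hr2 hg μ hμ
  have hchn := chn G c hc d hd hr (pk a b o κ) (fun n k => pk_nn hm κ n k)
    (fun n => pk_sum hm κ n) μ hpw L
  have hd' : (0 : ℝ) < d := by exact_mod_cast hd
  have hone : ∀ v, HH G c (hh a b o κ) L μ {v} =
      VD (se G c) (te G c) (pk a b o κ) μ (BB G c L v) v := fun v =>
    HH_one G c hm κ L hL μ hpw v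
  have htwo : ∀ e, HH G c (hh a b o κ) L μ {se G c e, te G c e} =
      EE (se G c) (te G c) (pk a b o κ) μ (DD G c L e) e := fun e =>
    HH_two G c hc hm κ L hL1 hL hG μ hpw e
  rw [Finset.sum_sub_distrib, sum_deg2 hc d hr (fun v => HH G c (hh a b o κ) L μ {v})] at hent
  simp only [hone, htwo] at hent
  have hedge := Finset.sum_le_sum fun (e : Eg G c) (_ : e ∈ univ) =>
    edge_ineq2 G c hc d hd hm κ ε hε h hh0 μ hpw e
  rw [Finset.sum_const, Finset.card_univ, card_eg, nsmul_eq_mul] at hedge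
  simp only [Finset.sum_add_distrib, Finset.sum_sub_distrib, ← Finset.mul_sum] at hedge
  have hv := sum_deg2 hc d hr (fun v => VD (se G c) (te G c) (pk a b o κ) μ ∅ v)
  have ha := sum_deg2 hc d hr A
  simp only [Finset.sum_add_distrib] at hv ha
  change _ + ∑ e, C e + 1 / (d : ℝ) * (∑ e, A (se G c e) + ∑ e, A (te G c e)) + ∑ e, B e ≤ _
    at hedge
  rw [hv, ha] at hedge
  have e5 : (1 - 1 / (d : ℝ)) * (d * ∑ v, VD (se G c) (te G c) (pk a b o κ) μ ∅ v) =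
      ((d : ℝ) - 1) * ∑ v, VD (se G c) (te G c) (pk a b o κ) μ ∅ v := by
    field_simp
  have e6 : 1 / (d : ℝ) * (d * ∑ v, A v) = ∑ v, A v := by field_simp
  rw [e5, e6] at hedge
  have e7 : ((ed G c).card : ℝ) * (h + Real.log (NN d (Mn d a b ε))) =
      (ed G c).card * h + (ed G c).card * Real.log (NN d (Mn d a b ε)) := by ring
  linarith

/-- UPPER BOUND for normalised Potts targets (without the exponential factor).  PROOF. as `TPB.upper`
(`W_5dd92e_h55/MainU.lean`): `κ = η / 4`, `δ` with `δ |E| = η n / 4`, `L` (`ff_L`), `c0` (`ssb_w`), `M` (`bb_count`), `j0` with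
`2 L ≤ 2 ^ j0`, `J` large; `g = 4 * 2 ^ (j0 + J) + 1`; `TPB.exists_field`, `pig2`, `cov_total`, `upper_one`. -/
theorem upper (d : ℕ) (hd : 1 ≤ d) {q : ℕ} {a b : Fin q → ℝ} {o : Fin q} (hm : Dm a b o)
    (ε : ℝ) (hε : 0 < ε) (η : ℝ) (hη : 0 < η) :
    ∃ g : ℕ, ∀ (W : Type u) [Fintype W] (G : SimpleGraph W) (c : W → Bool), Prp G c →
      Rgl G d → (g : ℕ∞) ≤ G.egirth →
      ZB G c (Mn d a b ε) ≤ NN d (Mn d a b ε) ^ (ed G c).card *
        Real.exp (η * Fintype.card W) := by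
  have hd' : (0 : ℝ) < d := by exact_mod_cast hd
  have hq : 0 < q := lt_of_le_of_lt (Nat.zero_le _) o.isLt
  obtain ⟨κ, hκd⟩ : ∃ κ : ℝ, κ = η / 4 := ⟨_, rfl⟩
  have hκ : 0 < κ := by rw [hκd]; positivity
  obtain ⟨δ, hδ⟩ : ∃ δ : ℝ, δ = η / (2 * d) := ⟨_, rfl⟩
  have hδ0 : 0 < δ := by rw [hδ]; positivity
  obtain ⟨L, hL1, hL⟩ := ff_L hm κ hκ
  have hF : Adm (FF a b κ) := ff_adm hm κ hκ.le
  obtain ⟨c0, hc0, hssb⟩ := ssb_w.{u, u} hF ε hε δ hδ0.le
  obtain ⟨M, hM⟩ := bb_count.{u} d L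
  obtain ⟨K, hK⟩ : ∃ K : ℝ, K = 4 / c0 ^ 2 := ⟨_, rfl⟩
  have hK0 : 0 < K := by rw [hK]; positivity
  have hj0 : 2 * L ≤ 2 ^ (2 * L) := (Nat.lt_two_pow_self (n := 2 * L)).le
  obtain ⟨J, hJ⟩ := exists_nat_gt (2 * K * (M : ℝ) ^ 2 * d / δ / (η / 4))
  have hJ0 : (0 : ℝ) < J := lt_of_le_of_lt (by positivity) hJ
  have hJ1 : 0 < J := by exact_mod_cast hJ0
  have hJ2 : 2 * K * (M : ℝ) ^ 2 * d / δ / J ≤ η / 4 := by
    rw [div_lt_iff₀ (by positivity)] at hJ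
    rw [div_le_iff₀ hJ0]
    linarith
  refine ⟨4 * 2 ^ (2 * L + J) + 1, fun W _ G c hp hr hg => ?_⟩
  have hne : Nonempty (Eg G c → Fin 2) := ⟨fun _ => 0⟩
  have hwp := fun σ => ww_pos (s := se G c) (t := te G c) hF ε hε σ
  have hwl := ww_lsm (s := se G c) (t := te G c) hF ε hε
  obtain ⟨h, hh0, hhδ, hcov⟩ := exists_field (ww (se G c) (te G c) (FF a b κ) ε) hwp hne δ hδ0
  have hs := hssb (Eg G c) W (se G c) (te G c) h hh0 hhδ
  have hpw := muh_pw _ hwp h hne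
  have hl := muh_lsm _ hwp hwl h
  have hcvn : ∀ e e', 0 ≤ Cv (muh (ww (se G c) (te G c) (FF a b κ) ε) h) e e' := fun e e' =>
    cv_nonneg hpw hl e e'
  obtain ⟨j, hj0j, hjJ, hpig⟩ := pig2 G (fun u v => ∑ e ∈ BB G c L u, ∑ e' ∈ BB G c L v,
    Cv (muh (ww (se G c) (te G c) (FF a b κ) ε) h) e e')
    (fun u v => Finset.sum_nonneg fun e _ => Finset.sum_nonneg fun e' _ => hcvn e e') (2 * L) J hJ1
  have h2j : 0 < 2 ^ j := by positivity
  obtain ⟨r, hr1⟩ : ∃ r, 2 ^ j = r + 1 := ⟨2 ^ j - 1, by omega⟩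
  have hgr : ((4 * (r + 1) + 1 : ℕ) : ℕ∞) ≤ G.egirth := by
    refine le_trans ?_ hg
    rw [← hr1]
    have : 2 ^ j ≤ 2 ^ (2 * L + J) := Nat.pow_le_pow_right (by norm_num) hjJ.le
    exact_mod_cast (by omega : 4 * 2 ^ j + 1 ≤ 4 * 2 ^ (2 * L + J) + 1)
  have hr2 : 2 * L ≤ r + 1 := by
    rw [← hr1]
    exact hj0.trans (Nat.pow_le_pow_right (by norm_num) hj0j)
  have hone := upper_one d hd hm ε hε κ hκ L hL1 hL G c hp hr h hh0 c0 hc0 hs r hr2 hgr
  rw [← hr1, ← hK, ← Finset.mul_sum] at hone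
  have htot := cov_total G c L M (fun e => hM W G c hr e)
    (fun e e' => Cv (muh (ww (se G c) (te G c) (FF a b κ) ε) h) e e') hcvn
  obtain ⟨P, hP⟩ : ∃ P, P = ∑ p ∈ Pr G (2 ^ j), ∑ e ∈ BB G c L p.1, ∑ e' ∈ BB G c L p.2,
    Cv (muh (ww (se G c) (te G c) (FF a b κ) ε) h) e e' := ⟨_, rfl⟩
  obtain ⟨T, hT⟩ : ∃ T, T = ∑ u, ∑ v, ∑ e ∈ BB G c L u, ∑ e' ∈ BB G c L v,
    Cv (muh (ww (se G c) (te G c) (FF a b κ) ε) h) e e' := ⟨_, rfl⟩
  obtain ⟨U, hU⟩ : ∃ U, U = ∑ e, ∑ e',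
    Cv (muh (ww (se G c) (te G c) (FF a b κ) ε) h) e e' := ⟨_, rfl⟩
  change ∑ p ∈ Pr G (2 ^ j), ∑ e ∈ BB G c L p.1, ∑ e' ∈ BB G c L p.2,
    Cv (muh (ww (se G c) (te G c) (FF a b κ) ε) h) e e' ≤
    (∑ u, ∑ v, ∑ e ∈ BB G c L u, ∑ e' ∈ BB G c L v,
    Cv (muh (ww (se G c) (te G c) (FF a b κ) ε) h) e e') / J at hpig
  rw [← hP] at hone hpig
  rw [← hT] at htot hpig
  rw [← hU] at htot hcov
  rw [card_eg] at hcov
  -- number of vertices
  obtain ⟨n, hn⟩ : ∃ n : ℝ, n = (Fintype.card W : ℝ) := ⟨_, rfl⟩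
  obtain ⟨m, hmm⟩ : ∃ m : ℝ, m = ((ed G c).card : ℝ) := ⟨_, rfl⟩
  have hn0 : 0 ≤ n := by rw [hn]; exact Nat.cast_nonneg _
  have hm0 : 0 ≤ m := by rw [hmm]; exact Nat.cast_nonneg _
  have h2 := two_card_ed G c hp d hr
  rw [← hn, ← hmm] at h2
  rw [← hmm] at hone hcov
  have hUn : U ≤ d * n / δ := by
    rw [h2]
    exact_mod_cast hcov
  have hTn : T ≤ (M : ℝ) ^ 2 * (d * n / δ) :=
    htot.trans (mul_le_mul_of_nonneg_left hUn (by positivity))
  have hPn : P ≤ (M : ℝ) ^ 2 * (d * n / δ) / J := hpig.trans (by gcongr)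
  have herr : 2 * (K * P) ≤ η / 4 * n := by
    have h1 : K * P ≤ K * ((M : ℝ) ^ 2 * (d * n / δ) / J) :=
      mul_le_mul_of_nonneg_left hPn hK0.le
    have h3 : 2 * (K * ((M : ℝ) ^ 2 * (d * n / δ) / J)) =
        2 * K * (M : ℝ) ^ 2 * d / δ / J * n := by
      field_simp
    have h4 := mul_le_mul_of_nonneg_right hJ2 hn0
    linarith
  have hX : m * h ≤ η / 4 * n := by
    calc m * h ≤ m * δ := mul_le_mul_of_nonneg_left hhδ hm0
      _ = (2 * m) * (δ / 2) := by ring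
      _ = η / 4 * n := by
        rw [← h2, hδ]
        field_simp
        norm_num
  obtain ⟨N, hN⟩ : ∃ N : ℝ, N = NN d (Mn d a b ε) := ⟨_, rfl⟩
  have hNp : 0 < N := by
    rw [hN]
    exact NN_pos d hd hq _ (fun k l => mn_pos d hm ε hε k l)
  rw [← hN] at hone
  have hlog : Real.log (Zh (ww (se G c) (te G c) (FF a b κ) ε) h) ≤
      m * Real.log N + η / 2 * n := by
    nlinarith [hone, herr, hX]
  have hZ0 : 0 < Zh (ww (se G c) (te G c) (FF a b κ) ε) h :=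
    Finset.sum_pos (fun σ _ => mul_pos (hwp σ) (Real.exp_pos _)) (Finset.univ_nonempty)
  have hle : Zt (se G c) (te G c) (FF a b κ) ε ≤
      Zh (ww (se G c) (te G c) (FF a b κ) ε) h := by
    rw [← sum_ww]
    unfold Zh
    refine Finset.sum_le_sum fun σ _ => ?_
    have : 1 ≤ Real.exp (h * XX σ) := Real.one_le_exp (mul_nonneg hh0 (XX_nonneg σ))
    nlinarith [hwp σ]
  rw [zb_eq G c hp d hd hr a b hm.apos ε, ← hN, ← hn]
  have hup := exp_up hm κ ε hε (se G c) (te G c)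
  rw [← hn] at hup
  have h5 : Zh (ww (se G c) (te G c) (FF a b κ) ε) h =
      Real.exp (Real.log (Zh (ww (se G c) (te G c) (FF a b κ) ε) h)) := (Real.exp_log hZ0).symm
  have h6 : N ^ (ed G c).card = Real.exp (m * Real.log N) := by
    rw [hmm, Real.exp_nat_mul, Real.exp_log hNp]
  calc Zx (se G c) (te G c) a b ε
      ≤ Real.exp (κ * n) * Zt (se G c) (te G c) (FF a b κ) ε := hup
    _ ≤ Real.exp (κ * n) * Zh (ww (se G c) (te G c) (FF a b κ) ε) h :=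
        mul_le_mul_of_nonneg_left hle (Real.exp_pos _).le
    _ = Real.exp (κ * n + Real.log (Zh (ww (se G c) (te G c) (FF a b κ) ε) h)) := by
        rw [Real.exp_add, Real.exp_log hZ0]
    _ ≤ Real.exp (m * Real.log N + η * n) := by
        refine Real.exp_le_exp.mpr ?_
        have h7 : κ * n = η / 4 * n := by rw [hκd]
        have h8 : 0 ≤ η * n := mul_nonneg hη.le hn0
        linarith
    _ = N ^ (ed G c).card * Real.exp (η * n) := by
        rw [h6, Real.exp_add]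

end PF
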